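import Pool.Agent.Lib.MP_f6c41f_nt.Defs

/-!
# MP_f6c41f_nt, module A1

Only arithmetic. Write `u = θ a`. Powers of two: if `2^j u ≤ 1/2` then `θ (2^j a) = 2^j u`
(induction with `dbl`; `2^(j-1) u ≤ 1/4` makes the minimum the first term). If `k u ≤ 1/4`, `k ≥ 1`,
choose `j` with `k ≤ 2^j < 2k` (`Nat.clog 2 k`): `2^j u < 1/2`, and
`2^j u = θ (2^j a) ≤ θ (k a) + θ ((2^j - k) a) ≤ k u + (2^j - k) u` (subadditivity), so both are
equalities. If `k` is even and `k u ≤ 1/2`: `dbl` at `(k/2) a`. If `k` is odd: `k + 1` is even and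
`(k + 1) u ≤ 1/2`, so `(k+1) u = θ ((k+1) a) ≤ θ (k a) + u`, and `θ (k a) ≤ k u`.
-/

set_option autoImplicit false

namespace Pool.Agent.Lib.MP_f6c41f_nt

open Finset Filter Topology

theorem sub_nat {θ : ℤ → ℝ} (h : Met θ) (a : ℤ) (k : ℕ) : θ (k * a) ≤ k * θ a := by
  induction k with
  | zero => simp [h.zero]
  | succ k ih =>
    have h1 := h.add (k * a) a
    have e : ((k + 1 : ℕ) : ℤ) * a = k * a + a := by push_cast; ring
    rw [e]
    push_cast
    linarith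

private theorem A1_pow {θ : ℤ → ℝ} (h : Met θ) (a : ℤ) (j : ℕ) (hj : (2 : ℝ) ^ j * θ a ≤ 1 / 2) :
    θ ((2 : ℤ) ^ j * a) = (2 : ℝ) ^ j * θ a := by
  induction j with
  | zero => simp
  | succ j ih =>
    have h0 := h.nonneg a
    have hp : (0 : ℝ) ≤ (2 : ℝ) ^ j * θ a := mul_nonneg (by positivity) h0
    have h1 : (2 : ℝ) ^ j * θ a ≤ 1 / 2 := by
      rw [pow_succ] at hj
      nlinarith
    have h2 := ih h1
    have e : (2 : ℤ) ^ (j + 1) * a = 2 * (2 ^ j * a) := by ring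
    rw [e, h.dbl, h2]
    rw [min_eq_left]
    · ring
    · have : (2 : ℝ) ^ (j + 1) * θ a = 2 * (2 ^ j * θ a) := by ring
      rw [this] at hj
      linarith

private theorem A1_quarter {θ : ℤ → ℝ} (h : Met θ) (a : ℤ) (k : ℕ)
    (hk : (k : ℝ) * θ a ≤ 1 / 4) : θ (k * a) = k * θ a := by
  rcases Nat.eq_zero_or_pos k with h0 | h0
  · subst h0; simp [h.zero]
  · -- a power of two between k and 2 k
    obtain ⟨j, hj1, hj2⟩ : ∃ j : ℕ, k ≤ 2 ^ j ∧ 2 ^ j ≤ 2 * k := by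
      refine ⟨Nat.clog 2 k, Nat.le_pow_clog (by norm_num) k, ?_⟩
      rcases Nat.lt_or_ge 1 k with h1 | h1
      · have h2 := Nat.pow_pred_clog_lt_self (b := 2) (by norm_num) h1
        have h3 : 0 < Nat.clog 2 k := Nat.clog_pos (by norm_num) h1
        obtain ⟨m, hm⟩ : ∃ m, Nat.clog 2 k = m + 1 := ⟨Nat.clog 2 k - 1, by omega⟩
        rw [hm] at h2 ⊢
        simp only [Nat.pred_succ] at h2
        rw [pow_succ]
        omega
      · have : k = 1 := by omega
        subst this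
        simp
    have hu := h.nonneg a
    have hj2' : (2 : ℝ) ^ j ≤ 2 * k := by exact_mod_cast hj2
    have h2 : (2 : ℝ) ^ j * θ a ≤ 1 / 2 := by
      calc (2 : ℝ) ^ j * θ a ≤ (2 * k) * θ a := mul_le_mul_of_nonneg_right hj2' hu
        _ ≤ 1 / 2 := by linarith
    have h3 := A1_pow h a j h2
    have h4 := sub_nat h a (2 ^ j - k)
    have h5 := h.add (k * a) (((2 ^ j - k : ℕ) : ℤ) * a)
    have e : (k : ℤ) * a + ((2 ^ j - k : ℕ) : ℤ) * a = (2 : ℤ) ^ j * a := by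
      rw [Nat.cast_sub hj1]
      push_cast
      ring
    rw [e, h3] at h5
    have e2 : ((2 ^ j - k : ℕ) : ℝ) = (2 : ℝ) ^ j - k := by
      rw [Nat.cast_sub hj1]
      push_cast
      ring
    rw [e2] at h4
    have h6 := sub_nat h a k
    nlinarith

private theorem A1_even {θ : ℤ → ℝ} (h : Met θ) (a : ℤ) (m : ℕ)
    (hk : ((2 * m : ℕ) : ℝ) * θ a ≤ 1 / 2) : θ (((2 * m : ℕ) : ℤ) * a) = ((2 * m : ℕ) : ℝ) * θ a := by
  push_cast at hk ⊢
  have h1 := A1_quarter h a m (by linarith)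
  have e : 2 * (m : ℤ) * a = 2 * (m * a) := by ring
  rw [e, h.dbl, h1, min_eq_left]
  · ring
  · linarith

theorem chain {θ : ℤ → ℝ} (h : Met θ) (a : ℤ) (k : ℕ) (hk : (k + 1) * θ a ≤ 1 / 2) :
    θ (k * a) = k * θ a := by
  have hu := h.nonneg a
  rcases Nat.even_or_odd' k with ⟨m, hm | hm⟩
  · subst hm
    exact A1_even h a m (by linarith)
  · have h1 : θ (((2 * (m + 1) : ℕ) : ℤ) * a) = ((2 * (m + 1) : ℕ) : ℝ) * θ a := by
      refine A1_even h a (m + 1) ?_
      subst hm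
      push_cast at hk ⊢
      have : 2 * ((m : ℝ) + 1) * θ a = (2 * m + 1 + 1) * θ a := by ring
      rw [this]
      exact hk
    have h2 := h.add (k * a) a
    have e : (k : ℤ) * a + a = ((2 * (m + 1) : ℕ) : ℤ) * a := by
      subst hm; push_cast; ring
    rw [e, h1] at h2
    have h3 := sub_nat h a k
    have e2 : ((2 * (m + 1) : ℕ) : ℝ) = k + 1 := by
      subst hm; push_cast; ring
    rw [e2] at h2
    linarith

end Pool.Agent.Lib.MP_f6c41f_nt
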