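import Pool.Agent.Lib.MP_f6c41f_nt.A1

/-!
# MP_f6c41f_nt, module A2

Let `u = θ a`, `K = 2 m`, `η b = min over k < K of θ (b + k a)` (`Finset.exists_min_image` or
`inf'`). By `chain`, `θ (m a) = m u`, and `1/2 - 2u < m u ≤ 1/2`.
For `k < K` let `k' = k + m` if `k < m`, else `k - m` (again `< K`). Then by `add`, `per`, `neg`:
`m u ≤ θ (b + k a) + θ (b + k' a) ≤ 1 - m u`. So `η ≤ θ (b + k a) ≤ 1/2 + 2u - η` for all `k < K`,
and `dbl` gives `θ (2b + 2k a) ≥ 2 η - 4u`, hence `θ (2b + (2k+1) a) ≥ 2 η - 5u`. Every `j < 2K` is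
`2k` or `2k+1` with `k < K`, in particular every `j < K`: `η (2b) ≥ 2 η b - 5u`. By induction
`η (2^i b) - 5u ≥ 2^i (η b - 5u)` and `η ≤ 1/2` (from `per` with `b = -a`), so `η b ≤ 5u`.
-/

set_option autoImplicit false

namespace Pool.Agent.Lib.MP_f6c41f_nt

open Finset Filter Topology

private theorem A2_half {θ : ℤ → ℝ} (h : Met θ) (x : ℤ) : θ x ≤ 1 / 2 := by
  have h1 := h.per x (-x)
  rw [h.neg, add_neg_cancel, h.zero] at h1
  linarith

private theorem A2_up {θ : ℤ → ℝ} (h : Met θ) (a : ℤ) (m : ℕ)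
    (hm : (m + 1) * θ a ≤ 1 / 2) (hm' : 1 / 2 < (m + 2) * θ a) (b : ℤ) (e : ℝ)
    (he : ∀ k : ℕ, k < 2 * m → e ≤ θ (b + k * a)) (k : ℕ) (hk : k < 2 * m) :
    θ (b + k * a) ≤ 1 / 2 + 2 * θ a - e := by
  have hma : θ (m * a) = m * θ a := chain h a m hm
  obtain ⟨k', hk', hd⟩ : ∃ k' : ℕ, k' < 2 * m ∧
      ((k' : ℤ) - k = m ∨ (k' : ℤ) - k = -(m : ℤ)) := by
    rcases Nat.lt_or_ge k m with h1 | h1
    · exact ⟨k + m, by omega, Or.inl (by push_cast; ring)⟩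
    · refine ⟨k - m, by omega, Or.inr ?_⟩
      rw [Nat.cast_sub h1]
      ring
  have h1 := h.per (-(b + k * a)) (b + k' * a)
  have h2 : -(b + k * a) + (b + k' * a) = ((k' : ℤ) - k) * a := by ring
  have h3 : θ (-(b + k * a) + (b + k' * a)) = m * θ a := by
    rw [h2]
    rcases hd with hd | hd
    · rw [hd, hma]
    · rw [hd, neg_mul, h.neg, hma]
  rw [h3, h.neg] at h1
  have h4 := he k' hk'
  linarith

private theorem A2_step {θ : ℤ → ℝ} (h : Met θ) (a : ℤ) (m : ℕ)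
    (hm : (m + 1) * θ a ≤ 1 / 2) (hm' : 1 / 2 < (m + 2) * θ a) (b : ℤ) (e : ℝ)
    (he : ∀ k : ℕ, k < 2 * m → e ≤ θ (b + k * a)) (j : ℕ) (hj : j < 2 * m) :
    2 * e - 5 * θ a ≤ θ (2 * b + j * a) := by
  have hu := h.nonneg a
  obtain ⟨k, hk | hk⟩ := Nat.even_or_odd' j
  all_goals
    have hkm : k < 2 * m := by omega
    have h1 := A2_up h a m hm hm' b e he k hkm
    have h2 := he k hkm
    have h3 := h.dbl (b + k * a)
    have h4 : 2 * e - 4 * θ a ≤ θ (2 * (b + k * a)) := by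
      rw [h3]
      exact le_min (by linarith) (by linarith)
  · have e1 : 2 * b + (j : ℤ) * a = 2 * (b + k * a) := by
      rw [hk]; push_cast; ring
    rw [e1]
    linarith
  · have e1 : 2 * (b + k * a) = (2 * b + (j : ℤ) * a) + (-a) := by
      rw [hk]; push_cast; ring
    have h5 := h.add (2 * b + (j : ℤ) * a) (-a)
    rw [← e1, h.neg] at h5
    linarith

private theorem A2_iter {θ : ℤ → ℝ} (h : Met θ) (a : ℤ) (m : ℕ)
    (hm : (m + 1) * θ a ≤ 1 / 2) (hm' : 1 / 2 < (m + 2) * θ a) (b : ℤ) (e : ℝ)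
    (he : ∀ k : ℕ, k < 2 * m → e ≤ θ (b + k * a)) (i : ℕ) :
    ∀ k : ℕ, k < 2 * m → 2 ^ i * (e - 5 * θ a) + 5 * θ a ≤ θ (2 ^ i * b + k * a) := by
  induction i with
  | zero =>
    intro k hk
    have := he k hk
    simp only [pow_zero, one_mul]
    linarith
  | succ i ih =>
    intro k hk
    have h1 := A2_step h a m hm hm' (2 ^ i * b) _ ih k hk
    have e1 : (2 : ℤ) ^ (i + 1) * b + k * a = 2 * (2 ^ i * b) + k * a := by ring
    rw [e1]
    have e2 : (2 : ℝ) ^ (i + 1) * (e - 5 * θ a) + 5 * θ a =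
        2 * (2 ^ i * (e - 5 * θ a) + 5 * θ a) - 5 * θ a := by ring
    rw [e2]
    exact h1

theorem window {θ : ℤ → ℝ} (h : Met θ) (a : ℤ) (ha : 0 < θ a) (ha8 : θ a ≤ 1 / 8) (m : ℕ)
    (hm : (m + 1) * θ a ≤ 1 / 2) (hm' : 1 / 2 < (m + 2) * θ a) (b : ℤ) :
    ∃ k : ℕ, k < 2 * m ∧ θ (b + k * a) ≤ 5 * θ a := by
  by_contra hcon
  push Not at hcon
  have hm0 : 0 < m := by
    rcases Nat.eq_zero_or_pos m with h0 | h0
    · subst h0
      push_cast at hm'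
      exfalso
      linarith
    · exact h0
  obtain ⟨k0, hk0, hmin⟩ := Finset.exists_min_image (range (2 * m)) (fun k : ℕ => θ (b + k * a))
    ⟨0, by simp; omega⟩
  have hk0' : k0 < 2 * m := by simpa using hk0
  have hgt := hcon k0 hk0'
  set e := θ (b + k0 * a) with hedef
  have he : ∀ k : ℕ, k < 2 * m → e ≤ θ (b + k * a) := fun k hk => hmin k (by simpa using hk)
  have hd : 0 < e - 5 * θ a := by linarith
  obtain ⟨i, hi⟩ := pow_unbounded_of_one_lt (1 / (e - 5 * θ a)) (by norm_num : (1 : ℝ) < 2)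
  have h1 := A2_iter h a m hm hm' b e he i 0 (by omega)
  have h2 := A2_half h (2 ^ i * b + ((0 : ℕ) : ℤ) * a)
  have h3 : 1 < 2 ^ i * (e - 5 * θ a) := by
    rwa [div_lt_iff₀ hd] at hi
  have h4 := h1.trans h2
  generalize (2 : ℝ) ^ i * (e - 5 * θ a) = z at h3 h4
  linarith

end Pool.Agent.Lib.MP_f6c41f_nt
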