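import Pool.Agent.Lib.MP_f6c41f_nt.A2

/-!
# MP_f6c41f_nt, module A3

Let `u = θ a`, `m = ⌊1/(2u)⌋ - 1` (so `(m+1) u ≤ 1/2 < (m+2) u`), `K = 2m`. Write `‖x‖ = nrm x`
(norm of `UnitAddCircle`, `UnitAddCircle.norm_eq : ‖x‖ = |x - round x|`; `‖x‖ = x` on `[0,1/2]`,
`= 1 - x` on `[1/2,1]`; triangle inequality; `‖-x‖ = ‖x‖`).
(i) `0 ≤ k ≤ K` natural: `|θ (k a) - ‖k u‖| ≤ 2u` (`k ≤ m`: `chain`; `k = 2k'`, `k' ≤ m`: `dbl` at
`k' a`, `θ = min (2k'u) (1 - 2k'u) = ‖2k'u‖`, exact; odd `k`: neighbour).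
(ii) `θ (K a) ≤ 4u` and `‖K u‖ ≤ 4u` (`K u = 2 m u ≥ 1 - 4u`).
(iii) hence for integers `|k| ≤ 3K`: `|θ (k a) - ‖k u‖| ≤ 26u` (subtract or add `K a` at most twice
after reducing to `|k| ≤ K`, each step costs `8u`, and use `neg`).
By `window` choose for each `b : ℕ` a `k_b < K` with `θ (b + k_b a) ≤ 5u` (take `k_0 = 0`). Then
`θ ((k_{b+1} - k_b - k_1) a) ≤ 15u`, `|k_{b+1} - k_b - k_1| ≤ 2K`, so
`‖(k_{b+1} - k_b - k_1) u‖ ≤ 41u`. By induction `‖k_b u - b k_1 u‖ ≤ 41 b u`; and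
`|θ b - θ (k_b a)| ≤ 5u`. Take `s` = fractional part of `-k_1 u` (sign is irrelevant for the norm).
-/

set_option autoImplicit false

namespace Pool.Agent.Lib.MP_f6c41f_nt

open Finset Filter Topology

private theorem A3_neg (x : ℝ) : nrm (-x) = nrm x := by
  unfold nrm
  rw [AddCircle.coe_neg, norm_neg]

private theorem A3_add (x y : ℝ) : nrm (x + y) ≤ nrm x + nrm y := by
  unfold nrm
  rw [AddCircle.coe_add]
  exact norm_add_le _ _

private theorem A3_sub (x y : ℝ) : |nrm x - nrm y| ≤ nrm (x - y) := by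
  unfold nrm
  rw [AddCircle.coe_sub]
  exact abs_norm_sub_norm_le _ _

private theorem A3_int (x : ℝ) (n : ℤ) : nrm (x + n) = nrm x := by
  unfold nrm
  rw [UnitAddCircle.norm_eq, UnitAddCircle.norm_eq, round_add_intCast]
  congr 1
  push_cast
  ring

private theorem A3_low (x : ℝ) (h0 : 0 ≤ x) (h1 : x ≤ 1 / 2) : nrm x = x := by
  unfold nrm
  have h2 : ‖(x : UnitAddCircle)‖ = |x| := by
    rw [AddCircle.norm_coe_eq_abs_iff (p := (1 : ℝ)) one_ne_zero]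
    rw [abs_of_nonneg h0, abs_one]
    exact h1
  rw [h2, abs_of_nonneg h0]

private theorem A3_high (x : ℝ) (h0 : 1 / 2 ≤ x) (h1 : x ≤ 1) : nrm x = 1 - x := by
  have h := A3_low (1 - x) (by linarith) (by linarith)
  have h2 := A3_int (-x) 1
  have h3 : -x + ((1 : ℤ) : ℝ) = 1 - x := by push_cast; ring
  rw [h3, A3_neg] at h2
  rw [← h2, h]


/-- even multiples, exact -/
private theorem A3_even {θ : ℤ → ℝ} (h : Met θ) (a : ℤ) (m : ℕ)
    (hm : (m + 1) * θ a ≤ 1 / 2) (k : ℕ) (hk : k ≤ m) :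
    θ (((2 * k : ℕ) : ℤ) * a) = nrm (((2 * k : ℕ) : ℝ) * θ a) := by
  have hu := h.nonneg a
  have hkm : (k : ℝ) ≤ m := by exact_mod_cast hk
  have h1 : ((k : ℝ) + 1) * θ a ≤ 1 / 2 :=
    le_trans (mul_le_mul_of_nonneg_right (by linarith) hu) hm
  have h2 := chain h a k h1
  have h3 : ((2 * k : ℕ) : ℤ) * a = 2 * (k * a) := by push_cast; ring
  have h4 : ((2 * k : ℕ) : ℝ) * θ a = 2 * (k * θ a) := by push_cast; ring
  have hku : (0 : ℝ) ≤ k * θ a := mul_nonneg (Nat.cast_nonneg k) hu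
  rw [h3, h4, h.dbl, h2]
  have hle : (k : ℝ) * θ a ≤ 1 / 2 := by linarith
  generalize (k : ℝ) * θ a = z at hku hle ⊢
  rcases le_total (2 * z) (1 / 2) with h5 | h5
  · rw [A3_low (2 * z) (by linarith) h5, min_eq_left (by linarith)]
  · rw [A3_high (2 * z) h5 (by linarith), min_eq_right (by linarith)]

private theorem A3_nat {θ : ℤ → ℝ} (h : Met θ) (a : ℤ) (m : ℕ)
    (hm : (m + 1) * θ a ≤ 1 / 2) (k : ℕ) (hk : k ≤ 2 * m) :
    |θ ((k : ℤ) * a) - nrm ((k : ℝ) * θ a)| ≤ 2 * θ a := by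
  have hu := h.nonneg a
  obtain ⟨j, hj | hj⟩ := Nat.even_or_odd' k
  · have h1 := A3_even h a m hm j (by omega)
    rw [hj, h1, sub_self, abs_zero]
    linarith
  · have h1 := A3_even h a m hm j (by omega)
    have e1 : (k : ℤ) * a = ((2 * j : ℕ) : ℤ) * a + a := by rw [hj]; push_cast; ring
    have e2 : (k : ℝ) * θ a = ((2 * j : ℕ) : ℝ) * θ a + θ a := by rw [hj]; push_cast; ring
    have e3 : ((2 * j : ℕ) : ℤ) * a = (k : ℤ) * a + -a := by rw [hj]; push_cast; ring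
    have h2 := h.add (((2 * j : ℕ) : ℤ) * a) a
    have h3 := h.add ((k : ℤ) * a) (-a)
    rw [← e3, h.neg] at h3
    rw [← e1] at h2
    have h4 := A3_sub ((k : ℝ) * θ a) (((2 * j : ℕ) : ℝ) * θ a)
    have e4 : (k : ℝ) * θ a - ((2 * j : ℕ) : ℝ) * θ a = θ a := by rw [e2]; ring
    have hk1 : θ a ≤ 1 / 2 := by
      have : (0 : ℝ) ≤ m * θ a := mul_nonneg (Nat.cast_nonneg m) hu
      linarith
    rw [e4, A3_low (θ a) hu hk1] at h4
    rw [h1] at h2 h3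
    rw [abs_le] at h4 ⊢
    constructor <;> linarith [h4.1, h4.2]

/-- the values at `K = 2 m` -/
private theorem A3_K {θ : ℤ → ℝ} (h : Met θ) (a : ℤ) (m : ℕ)
    (hm : (m + 1) * θ a ≤ 1 / 2) (hm' : 1 / 2 < (m + 2) * θ a) :
    θ (((2 * m : ℕ) : ℤ) * a) ≤ 4 * θ a ∧ nrm (((2 * m : ℕ) : ℝ) * θ a) ≤ 4 * θ a := by
  have hu := h.nonneg a
  have h1 := A3_even h a m hm m le_rfl
  rw [h1, and_self]
  have h4 : ((2 * m : ℕ) : ℝ) * θ a = 2 * (m * θ a) := by push_cast; ring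
  rw [h4]
  have h5 : (m : ℝ) * θ a ≤ 1 / 2 := by linarith
  have h6 : 1 / 2 < m * θ a + 2 * θ a := by linarith
  have h0 : (0 : ℝ) ≤ m * θ a := mul_nonneg (Nat.cast_nonneg m) hu
  generalize (m : ℝ) * θ a = z at h5 h6 h0 ⊢
  rcases le_total (2 * z) (1 / 2) with h7 | h7
  · rw [A3_low (2 * z) (by linarith) h7]
    linarith
  · rw [A3_high (2 * z) h7 (by linarith)]
    linarith

/-- moving by `K` -/
private theorem A3_shift {θ : ℤ → ℝ} (h : Met θ) (a : ℤ) (m : ℕ)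
    (hm : (m + 1) * θ a ≤ 1 / 2) (hm' : 1 / 2 < (m + 2) * θ a) (k : ℕ) (e : ℝ)
    (hk : |θ ((k : ℤ) * a) - nrm ((k : ℝ) * θ a)| ≤ e) :
    |θ (((k + 2 * m : ℕ) : ℤ) * a) - nrm (((k + 2 * m : ℕ) : ℝ) * θ a)| ≤ e + 8 * θ a := by
  obtain ⟨h1, h2⟩ := A3_K h a m hm hm'
  have e1 : ((k + 2 * m : ℕ) : ℤ) * a = (k : ℤ) * a + ((2 * m : ℕ) : ℤ) * a := by
    push_cast; ring
  have e2 : (k : ℤ) * a = ((k + 2 * m : ℕ) : ℤ) * a + -(((2 * m : ℕ) : ℤ) * a) := by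
    push_cast; ring
  have h3 := h.add ((k : ℤ) * a) (((2 * m : ℕ) : ℤ) * a)
  have h4 := h.add (((k + 2 * m : ℕ) : ℤ) * a) (-(((2 * m : ℕ) : ℤ) * a))
  rw [← e1] at h3
  rw [← e2, h.neg] at h4
  have h5 := A3_sub (((k + 2 * m : ℕ) : ℝ) * θ a) ((k : ℝ) * θ a)
  have e3 : ((k + 2 * m : ℕ) : ℝ) * θ a - (k : ℝ) * θ a = ((2 * m : ℕ) : ℝ) * θ a := by
    push_cast; ring
  rw [e3] at h5
  rw [abs_le] at hk h5 ⊢
  constructor <;> linarith [hk.1, hk.2, h5.1, h5.2]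

private theorem A3_nat3 {θ : ℤ → ℝ} (h : Met θ) (a : ℤ) (m : ℕ)
    (hm : (m + 1) * θ a ≤ 1 / 2) (hm' : 1 / 2 < (m + 2) * θ a) (k : ℕ) (hk : k ≤ 6 * m) :
    |θ ((k : ℤ) * a) - nrm ((k : ℝ) * θ a)| ≤ 18 * θ a := by
  have hu := h.nonneg a
  rcases Nat.lt_or_ge k (2 * m + 1) with h1 | h1
  · exact le_trans (A3_nat h a m hm k (by omega)) (by linarith)
  · obtain ⟨k1, rfl⟩ : ∃ k1, k = k1 + 2 * m := ⟨k - 2 * m, by omega⟩
    rcases Nat.lt_or_ge k1 (2 * m + 1) with h2 | h2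
    · exact le_trans (A3_shift h a m hm hm' k1 _ (A3_nat h a m hm k1 (by omega))) (by linarith)
    · obtain ⟨k2, rfl⟩ : ∃ k2, k1 = k2 + 2 * m := ⟨k1 - 2 * m, by omega⟩
      exact le_trans (A3_shift h a m hm hm' _ _
        (A3_shift h a m hm hm' k2 _ (A3_nat h a m hm k2 (by omega)))) (by linarith)

private theorem A3_int3 {θ : ℤ → ℝ} (h : Met θ) (a : ℤ) (m : ℕ)
    (hm : (m + 1) * θ a ≤ 1 / 2) (hm' : 1 / 2 < (m + 2) * θ a) (k : ℤ) (hk : |k| ≤ 6 * m) :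
    |θ (k * a) - nrm ((k : ℝ) * θ a)| ≤ 18 * θ a := by
  have h1 := A3_nat3 h a m hm hm' k.natAbs (by
    have : ((k.natAbs : ℕ) : ℤ) ≤ 6 * m := by rw [Int.natCast_natAbs]; exact hk
    exact_mod_cast this)
  rcases le_total 0 k with h0 | h0
  · have e1 : ((k.natAbs : ℕ) : ℤ) = k := by rw [Int.natCast_natAbs, abs_of_nonneg h0]
    have e2 : ((k.natAbs : ℕ) : ℝ) = (k : ℝ) := by
      have := congrArg (fun z : ℤ => (z : ℝ)) e1
      simpa only [Int.cast_natCast] using this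
    rw [e1, e2] at h1
    exact h1
  · have e1 : ((k.natAbs : ℕ) : ℤ) = -k := by rw [Int.natCast_natAbs, abs_of_nonpos h0]
    have e2 : ((k.natAbs : ℕ) : ℝ) = -(k : ℝ) := by
      have := congrArg (fun z : ℤ => (z : ℝ)) e1
      simpa only [Int.cast_natCast, Int.cast_neg] using this
    rw [e1, e2, neg_mul, neg_mul, h.neg, A3_neg] at h1
    exact h1

theorem approx {θ : ℤ → ℝ} (h : Met θ) (a : ℤ) (ha : 0 < θ a) (ha8 : θ a ≤ 1 / 8) :
    ∃ s ∈ Set.Icc (0:ℝ) 1, ∀ b : ℕ, |θ b - nrm (b * s)| ≤ (50 * b + 50) * θ a := by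
  have hu := h.nonneg a
  -- the length of the chain
  obtain ⟨m, hm, hm', hmpos⟩ : ∃ m : ℕ, ((m : ℝ) + 1) * θ a ≤ 1 / 2 ∧
      1 / 2 < ((m : ℝ) + 2) * θ a ∧ 0 < m := by
    have h4 : (4 : ℝ) ≤ 1 / (2 * θ a) := by
      rw [le_div_iff₀ (by linarith)]
      linarith
    have h5 : 4 ≤ ⌊1 / (2 * θ a)⌋₊ := Nat.le_floor (by exact_mod_cast h4)
    obtain ⟨m, hm⟩ : ∃ m, ⌊1 / (2 * θ a)⌋₊ = m + 1 := ⟨⌊1 / (2 * θ a)⌋₊ - 1, by omega⟩
    refine ⟨m, ?_, ?_, by omega⟩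
    · have h6 := Nat.floor_le (show (0 : ℝ) ≤ 1 / (2 * θ a) by linarith)
      rw [hm, le_div_iff₀ (by linarith)] at h6
      push_cast at h6
      linarith
    · have h6 := Nat.lt_floor_add_one (1 / (2 * θ a))
      rw [hm, div_lt_iff₀ (by linarith)] at h6
      push_cast at h6
      linarith
  -- the choice of the multiples
  have hch : ∀ b : ℕ, ∃ k : ℕ, k < 2 * m ∧ θ ((b : ℤ) + k * a) ≤ 5 * θ a ∧ (b = 0 → k = 0) := by
    intro b
    rcases Nat.eq_zero_or_pos b with h0 | h0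
    · subst h0
      refine ⟨0, by omega, ?_, fun _ => rfl⟩
      simp only [Nat.cast_zero, zero_mul, add_zero, h.zero]
      linarith
    · obtain ⟨k, hk, hk'⟩ := window h a ha ha8 m hm hm' b
      exact ⟨k, hk, hk', fun h1 => by omega⟩
  choose κ hκ hκθ hκ0 using hch
  have hstep : ∀ b : ℕ, nrm (((κ (b + 1) : ℝ) - κ b - κ 1) * θ a) ≤ 41 * θ a := by
    intro b
    have h1 := A3_int3 h a m hm hm' ((κ (b + 1) : ℤ) - κ b - κ 1) (by
      have h2 := hκ (b + 1)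
      have h3 := hκ b
      have h4 := hκ 1
      rw [abs_le]
      constructor <;> omega)
    have e1 : ((κ (b + 1) : ℤ) - κ b - κ 1) * a =
        ((((b + 1 : ℕ) : ℤ) + κ (b + 1) * a) + -(((b : ℕ) : ℤ) + κ b * a)) +
          -(((1 : ℕ) : ℤ) + κ 1 * a) := by
      push_cast; ring
    have h5 := h.add ((((b + 1 : ℕ) : ℤ) + κ (b + 1) * a) + -(((b : ℕ) : ℤ) + κ b * a))
      (-(((1 : ℕ) : ℤ) + κ 1 * a))
    have h6 := h.add (((b + 1 : ℕ) : ℤ) + κ (b + 1) * a) (-(((b : ℕ) : ℤ) + κ b * a))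
    rw [← e1, h.neg] at h5
    rw [h.neg] at h6
    have h7 := hκθ (b + 1)
    have h8 := hκθ b
    have h9 := hκθ 1
    push_cast at h1 h5 h6 h7 h8 h9
    rw [abs_le] at h1
    linarith [h1.1]
  have hind : ∀ b : ℕ, nrm ((κ b : ℝ) * θ a - b * (κ 1 * θ a)) ≤ 41 * b * θ a := by
    intro b
    induction b with
    | zero =>
      rw [hκ0 0 rfl]
      have : ((0 : ℕ) : ℝ) * θ a - ((0 : ℕ) : ℝ) * (κ 1 * θ a) = 0 := by push_cast; ring
      rw [this, A3_low 0 le_rfl (by norm_num)]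
      simp
    | succ b ih =>
      have e1 : (κ (b + 1) : ℝ) * θ a - ((b + 1 : ℕ) : ℝ) * (κ 1 * θ a) =
          ((κ b : ℝ) * θ a - b * (κ 1 * θ a)) + ((κ (b + 1) : ℝ) - κ b - κ 1) * θ a := by
        push_cast; ring
      rw [e1]
      have h1 := A3_add ((κ b : ℝ) * θ a - b * (κ 1 * θ a))
        (((κ (b + 1) : ℝ) - κ b - κ 1) * θ a)
      have h2 := hstep b
      push_cast
      linarith
  refine ⟨Int.fract (-(κ 1 * θ a)), ⟨Int.fract_nonneg _, (Int.fract_lt_one _).le⟩, fun b => ?_⟩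
  -- the norm of `b s`
  have hs : nrm (b * Int.fract (-(κ 1 * θ a))) = nrm (b * (κ 1 * θ a)) := by
    have e1 : (b : ℝ) * Int.fract (-(κ 1 * θ a)) =
        -(b * (κ 1 * θ a)) + ((-(b * ⌊-(κ 1 * θ a)⌋) : ℤ) : ℝ) := by
      unfold Int.fract
      push_cast
      ring
    rw [e1, A3_int, A3_neg]
  rw [hs]
  have h1 := A3_nat h a m hm (κ b) (hκ b).le
  have h2 := hind b
  have h3 := A3_sub ((κ b : ℝ) * θ a) (b * (κ 1 * θ a))
  have h4 := hκθ b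
  have h5 := h.add ((b : ℤ) + κ b * a) (-((κ b : ℤ) * a))
  have h6 := h.add ((b : ℤ) + κ b * a) (-(b : ℤ))
  have e5 : (b : ℤ) + κ b * a + -((κ b : ℤ) * a) = b := by ring
  have e6 : (b : ℤ) + κ b * a + -(b : ℤ) = κ b * a := by ring
  rw [e5, h.neg] at h5
  rw [e6, h.neg] at h6
  have h7 := h3.trans h2
  have hb : (0 : ℝ) ≤ b * θ a := mul_nonneg (Nat.cast_nonneg b) hu
  rw [abs_le] at h1 h7 ⊢
  constructor <;> linarith [h1.1, h1.2, h7.1, h7.2]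

end Pool.Agent.Lib.MP_f6c41f_nt
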