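import Pool.Agent.Lib.MP_f6c41f_nt.A3

/-!
# MP_f6c41f_nt, module A4

Choose `a_i` with `0 < θ a_i < 1/(8(i+1))`, `s_i` from `approx`; `Set.Icc 0 1` is compact, take a
convergent subsequence `s_i → s`; for each `b : ℕ` the map `x ↦ nrm (b * x)` is continuous, so
`θ b = nrm (b * s)`. Negative `a` by `neg`.
-/

set_option autoImplicit false

namespace Pool.Agent.Lib.MP_f6c41f_nt

open Finset Filter Topology

theorem circle {θ : ℤ → ℝ} (h : Met θ) (hrec : ∀ ε > 0, ∃ a : ℤ, 0 < θ a ∧ θ a < ε) :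
    ∃ s : ℝ, ∀ a : ℤ, θ a = nrm (a * s) := by
  have h1 : ∀ i : ℕ, ∃ a : ℤ, 0 < θ a ∧ θ a < 1 / (8 * ((i : ℝ) + 1)) := fun i =>
    hrec _ (by positivity)
  choose a ha0 ha1 using h1
  have hle : ∀ i : ℕ, (1 : ℝ) / (8 * ((i : ℝ) + 1)) ≤ 1 / 8 := by
    intro i
    refine one_div_le_one_div_of_le (by norm_num) ?_
    have : (0 : ℝ) ≤ i := Nat.cast_nonneg i
    linarith
  have h2 : ∀ i : ℕ, ∃ s ∈ Set.Icc (0:ℝ) 1, ∀ b : ℕ,
      |θ b - nrm (b * s)| ≤ (50 * b + 50) * θ (a i) := fun i =>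
    approx h (a i) (ha0 i) ((ha1 i).le.trans (hle i))
  choose s hs hsb using h2
  obtain ⟨t, _, φ, hφ, hlim⟩ := isCompact_Icc.tendsto_subseq hs
  have key : ∀ b : ℕ, θ b = nrm (b * t) := by
    intro b
    have hc : Continuous (fun x : ℝ => nrm (b * x)) := by
      unfold nrm
      exact continuous_norm.comp ((AddCircle.continuous_mk' (1:ℝ)).comp
        (continuous_const.mul continuous_id))
    have l1 : Tendsto (fun i => nrm (b * s (φ i))) atTop (𝓝 (nrm (b * t))) :=
      (hc.tendsto t).comp hlim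
    have l2 : Tendsto (fun i => nrm (b * s (φ i))) atTop (𝓝 (θ b)) := by
      rw [tendsto_iff_norm_sub_tendsto_zero]
      have l3 : Tendsto (fun i : ℕ => (50 * (b : ℝ) + 50) * (1 / (8 * ((i : ℝ) + 1)))) atTop
          (𝓝 ((50 * (b : ℝ) + 50) * 0)) := by
        refine Tendsto.const_mul _ ?_
        have l4 : Tendsto (fun i : ℕ => (1 / 8 : ℝ) * (1 / ((i : ℝ) + 1))) atTop
            (𝓝 ((1 / 8 : ℝ) * 0)) := (tendsto_one_div_add_atTop_nhds_zero_nat).const_mul _
        rw [mul_zero] at l4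
        refine l4.congr fun i => ?_
        have : (i : ℝ) + 1 ≠ 0 := by positivity
        field_simp
      rw [mul_zero] at l3
      have l5 := l3.comp hφ.tendsto_atTop
      refine squeeze_zero (fun i => norm_nonneg _) (fun i => ?_) l5
      rw [Real.norm_eq_abs, abs_sub_comm]
      refine (hsb (φ i) b).trans ?_
      exact mul_le_mul_of_nonneg_left (ha1 (φ i)).le (by positivity)
    exact tendsto_nhds_unique l2 l1
  refine ⟨t, fun c => ?_⟩
  obtain ⟨n, rfl | rfl⟩ := c.eq_nat_or_neg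
  · have := key n
    simpa using this
  · rw [h.neg]
    have := key n
    rw [this]
    unfold nrm
    push_cast
    rw [neg_mul, AddCircle.coe_neg, norm_neg]

end Pool.Agent.Lib.MP_f6c41f_nt
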