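import Pool.Agent.Lib.MP_f6c41f_nt.Defs

/-!
# MP_f6c41f_nt, module B4

(helper28's proof.) `|r a| ≤ 1` by `hpsd` on two points.  `U` a nonprincipal ultrafilter on `ℕ`
(`Filter.hyperfilter ℕ`), `ℓ k i = lim_{j → U} r (2^k (i - j))`, `κ k = lim_{i → U} ℓ k i`.
`κ k ≥ 0`: for every `n` there is a finset `S` of `n` naturals with
`r (2^k (i - j)) ≤ κ k + ε` for `i ≠ j` in `S` (induction, keep `ℓ k i < κ k + ε` for `i ∈ S`), so
`0 ≤ n + n (n - 1) (κ k + ε)` by `hpsd`.  By `hd` along `U`: `1 + κ (k+1) = 2 |κ k| = 2 κ k`, so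
`κ k - 1 = 2^k (κ 0 - 1)` for all `k`, and `κ k ≥ 0` gives `κ 0 = 1`: pick `i`, then `j > i`.
-/

set_option autoImplicit false

namespace Pool.Agent.Lib.MP_f6c41f_nt

open Finset Filter Topology

theorem B4_abs_le (r : ℤ → ℝ) (h0 : r 0 = 1) (hs : ∀ a, r (-a) = r a)
    (hpsd : ∀ (S : Finset ℤ) (w : ℤ → ℝ), 0 ≤ ∑ i ∈ S, ∑ j ∈ S, w i * w j * r (i - j)) (a : ℤ) :
    r a ∈ Set.Icc (-1 : ℝ) 1 := by
  rcases eq_or_ne a 0 with rfl | ha
  · rw [h0]; constructor <;> norm_num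
  · have h1 := hpsd {0, a} (fun _ => 1)
    have h2 := hpsd {0, a} (fun i => if i = 0 then 1 else -1)
    rw [Finset.sum_pair (Ne.symm ha), Finset.sum_pair (Ne.symm ha), Finset.sum_pair (Ne.symm ha)]
      at h1 h2
    simp [ha, h0, hs] at h1 h2
    constructor <;> linarith

theorem B4_lim (f : ℕ → ℝ) (hf : ∀ n, f n ∈ Set.Icc (-1 : ℝ) 1) :
    ∃ x ∈ Set.Icc (-1 : ℝ) 1, Tendsto f (hyperfilter ℕ : Filter ℕ) (𝓝 x) := by
  obtain ⟨x, hx, hx'⟩ := isCompact_Icc.ultrafilter_le_nhds (Ultrafilter.map f (hyperfilter ℕ))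
    (s := Set.Icc (-1 : ℝ) 1) (by
      rw [Filter.le_principal_iff]
      exact Filter.mem_map.2 (Filter.univ_mem' hf))
  exact ⟨x, hx, hx'⟩

theorem B4_ev_ne (i : ℕ) : ∀ᶠ j in (hyperfilter ℕ : Filter ℕ), j ≠ i := by
  have : ({i} : Set ℕ)ᶜ ∈ hyperfilter ℕ := compl_mem_hyperfilter_of_finite (Set.finite_singleton i)
  exact this

theorem B4_ev_gt (i : ℕ) : ∀ᶠ j in (hyperfilter ℕ : Filter ℕ), i < j := by
  have h : (Set.Iic i : Set ℕ)ᶜ ∈ hyperfilter ℕ :=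
    compl_mem_hyperfilter_of_finite (Set.finite_Iic i)
  filter_upwards [h] with j hj
  simpa using hj

/-- large sets with all correlations below `c` -/
theorem B4_set (R : ℕ → ℕ → ℝ) (hR : ∀ i j, R i j = R j i) (ℓ : ℕ → ℝ) (κ c : ℝ)
    (hl : ∀ i, Tendsto (fun j => R i j) (hyperfilter ℕ : Filter ℕ) (𝓝 (ℓ i)))
    (hk : Tendsto ℓ (hyperfilter ℕ : Filter ℕ) (𝓝 κ)) (hc : κ < c) (n : ℕ) :
    ∃ S : Finset ℕ, S.card = n ∧ (∀ i ∈ S, ℓ i < c) ∧ ∀ i ∈ S, ∀ j ∈ S, i ≠ j → R i j < c := by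
  induction n with
  | zero => exact ⟨∅, rfl, by simp, by simp⟩
  | succ n ih =>
    obtain ⟨S, hS, h1, h2⟩ := ih
    have e1 : ∀ᶠ m in (hyperfilter ℕ : Filter ℕ), ℓ m < c := hk.eventually_lt_const hc
    have e2 : ∀ᶠ m in (hyperfilter ℕ : Filter ℕ), ∀ i ∈ S, R i m < c :=
      (eventually_all_finset S).2 fun i hi => (hl i).eventually_lt_const (h1 i hi)
    have e3 : ∀ᶠ m in (hyperfilter ℕ : Filter ℕ), ∀ i ∈ S, m ≠ i :=
      (eventually_all_finset S).2 fun i _ => B4_ev_ne i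
    obtain ⟨m, hm1, hm2, hm3⟩ := (e1.and (e2.and e3)).exists
    have hmS : m ∉ S := fun h => hm3 m h rfl
    refine ⟨insert m S, by rw [card_insert_of_notMem hmS, hS], ?_, ?_⟩
    · intro i hi
      rcases mem_insert.1 hi with rfl | hi
      · exact hm1
      · exact h1 i hi
    · intro i hi j hj hij
      rcases mem_insert.1 hi with hi' | hi'
      · rcases mem_insert.1 hj with hj' | hj'
        · exact absurd (hi'.trans hj'.symm) hij
        · rw [hR, hi']; exact hm2 j hj'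
      · rcases mem_insert.1 hj with hj' | hj'
        · rw [hj']; exact hm2 i hi'
        · exact h2 i hi' j hj' hij

theorem B4_nonneg (r : ℤ → ℝ) (h0 : r 0 = 1) (hs : ∀ a, r (-a) = r a)
    (hpsd : ∀ (S : Finset ℤ) (w : ℤ → ℝ), 0 ≤ ∑ i ∈ S, ∑ j ∈ S, w i * w j * r (i - j))
    (k : ℕ) (ℓ : ℕ → ℝ) (κ : ℝ)
    (hl : ∀ i : ℕ, Tendsto (fun j : ℕ => r (2 ^ k * ((i : ℤ) - j))) (hyperfilter ℕ : Filter ℕ)
      (𝓝 (ℓ i)))
    (hk : Tendsto ℓ (hyperfilter ℕ : Filter ℕ) (𝓝 κ)) : 0 ≤ κ := by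
  by_contra hneg
  push Not at hneg
  set δ : ℝ := -κ / 2 with hδ
  have hδ0 : 0 < δ := by rw [hδ]; linarith
  obtain ⟨n, hn⟩ := exists_nat_gt (1 / δ + 1)
  have hn1 : 1 / δ < (n : ℝ) - 1 := by linarith
  have hn2 : 1 < ((n : ℝ) - 1) * δ := by
    rw [div_lt_iff₀ hδ0] at hn1; exact hn1
  have hn0 : (0 : ℝ) < n := by
    have : 0 < 1 / δ := by positivity
    linarith
  obtain ⟨S, hS, -, h2⟩ := B4_set (fun i j : ℕ => r (2 ^ k * ((i : ℤ) - j)))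
    (fun i j => by
      have := hs (2 ^ k * ((i : ℤ) - j))
      rw [← this]; congr 1; ring) ℓ κ (-δ) hl hk (by rw [hδ]; linarith) n
  have hinj : Function.Injective (fun i : ℕ => (2 ^ k * (i : ℤ) : ℤ)) := by
    intro i j hij
    have : (2 ^ k : ℤ) ≠ 0 := by positivity
    exact_mod_cast mul_left_cancel₀ this hij
  have h := hpsd (S.map ⟨fun i : ℕ => (2 ^ k * (i : ℤ) : ℤ), hinj⟩) (fun _ => 1)
  simp only [sum_map, Function.Embedding.coeFn_mk, one_mul] at h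
  have hle : ∑ i ∈ S, ∑ j ∈ S, r (2 ^ k * (i : ℤ) - 2 ^ k * j) ≤
      ∑ i ∈ S, (1 - ((n : ℝ) - 1) * δ) := by
    apply sum_le_sum
    intro i hi
    rw [← add_sum_erase S _ hi, sub_self, h0]
    have : ∑ j ∈ S.erase i, r (2 ^ k * (i : ℤ) - 2 ^ k * j) ≤ ∑ j ∈ S.erase i, (-δ) := by
      apply sum_le_sum
      intro j hj
      have := h2 i hi j (mem_of_mem_erase hj) (Ne.symm (ne_of_mem_erase hj))
      rw [mul_sub] at this
      exact this.le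
    rw [sum_const, card_erase_of_mem hi, hS, nsmul_eq_mul, Nat.cast_sub (by
      have := card_pos.2 ⟨i, hi⟩; omega), Nat.cast_one] at this
    linarith
  rw [sum_const, hS, nsmul_eq_mul] at hle
  have : (n : ℝ) * (1 - ((n : ℝ) - 1) * δ) < 0 := by nlinarith
  linarith

theorem recurrence (r : ℤ → ℝ) (h0 : r 0 = 1) (hs : ∀ a, r (-a) = r a)
    (hpsd : ∀ (S : Finset ℤ) (w : ℤ → ℝ), 0 ≤ ∑ i ∈ S, ∑ j ∈ S, w i * w j * r (i - j))
    (hd : ∀ a : ℕ, 0 < a → 1 + r (2 * a) = 2 * |r a|) :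
    ∀ ε > 0, ∃ a : ℕ, 0 < a ∧ 1 - ε < r a := by
  have hb := B4_abs_le r h0 hs hpsd
  have H1 : ∀ (k i : ℕ), ∃ x ∈ Set.Icc (-1 : ℝ) 1,
      Tendsto (fun j : ℕ => r (2 ^ k * ((i : ℤ) - j))) (hyperfilter ℕ : Filter ℕ) (𝓝 x) :=
    fun k i => B4_lim _ fun j => hb _
  choose ℓ hℓ hℓt using H1
  have H2 : ∀ k : ℕ, ∃ x ∈ Set.Icc (-1 : ℝ) 1,
      Tendsto (ℓ k) (hyperfilter ℕ : Filter ℕ) (𝓝 x) := fun k => B4_lim _ fun i => hℓ k i
  choose κ hκ hκt using H2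
  have hκ0 : ∀ k, 0 ≤ κ k := fun k => B4_nonneg r h0 hs hpsd k (ℓ k) (κ k) (hℓt k) (hκt k)
  -- doubling for all nonzero integers
  have hd' : ∀ a : ℤ, a ≠ 0 → 1 + r (2 * a) = 2 * |r a| := by
    intro a ha
    have h := hd a.natAbs (Int.natAbs_pos.2 ha)
    rcases Int.natAbs_eq a with h1 | h1
    · rw [← h1] at h; exact h
    · have h2 : (a.natAbs : ℤ) = -a := by omega
      rw [h2, hs, mul_neg, hs] at h
      exact h
  have hℓd : ∀ k i, 1 + ℓ (k + 1) i = 2 * |ℓ k i| := by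
    intro k i
    have t1 : Tendsto (fun j : ℕ => 1 + r (2 ^ (k + 1) * ((i : ℤ) - j)))
        (hyperfilter ℕ : Filter ℕ) (𝓝 (1 + ℓ (k + 1) i)) := tendsto_const_nhds.add (hℓt (k + 1) i)
    have t2 : Tendsto (fun j : ℕ => 2 * |r (2 ^ k * ((i : ℤ) - j))|)
        (hyperfilter ℕ : Filter ℕ) (𝓝 (2 * |ℓ k i|)) := (hℓt k i).abs.const_mul 2
    refine tendsto_nhds_unique (t1.congr' ?_) t2
    filter_upwards [B4_ev_ne i] with j hj
    have hne : (2 ^ k * ((i : ℤ) - j) : ℤ) ≠ 0 := by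
      apply mul_ne_zero (by positivity)
      have : (i : ℤ) ≠ j := by exact_mod_cast (Ne.symm hj)
      exact sub_ne_zero.2 this
    have := hd' _ hne
    rw [← this, pow_succ]
    congr 2; ring
  have hκd : ∀ k, 1 + κ (k + 1) = 2 * κ k := by
    intro k
    have t1 : Tendsto (fun i : ℕ => 1 + ℓ (k + 1) i)
        (hyperfilter ℕ : Filter ℕ) (𝓝 (1 + κ (k + 1))) := tendsto_const_nhds.add (hκt (k + 1))
    have t2 : Tendsto (fun i : ℕ => 2 * |ℓ k i|)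
        (hyperfilter ℕ : Filter ℕ) (𝓝 (2 * |κ k|)) := (hκt k).abs.const_mul 2
    rw [abs_of_nonneg (hκ0 k)] at t2
    exact tendsto_nhds_unique (t1.congr fun i => hℓd k i) t2
  have hpow : ∀ k, κ k - 1 = 2 ^ k * (κ 0 - 1) := by
    intro k
    induction k with
    | zero => simp
    | succ k ih =>
      rw [pow_succ]
      have := hκd k
      linarith
  have hκ1 : κ 0 = 1 := by
    by_contra hne
    have hlt : κ 0 < 1 := lt_of_le_of_ne (hκ 0).2 hne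
    obtain ⟨k, hk⟩ := pow_unbounded_of_one_lt (1 / (1 - κ 0)) (by norm_num : (1 : ℝ) < 2)
    rw [div_lt_iff₀ (by linarith)] at hk
    have := hpow k
    have := hκ0 k
    nlinarith
  intro ε hε
  have e1 : ∀ᶠ i in (hyperfilter ℕ : Filter ℕ), 1 - ε < ℓ 0 i :=
    (hκt 0).eventually_const_lt (by rw [hκ1]; linarith)
  obtain ⟨i, hi⟩ := e1.exists
  have e2 : ∀ᶠ j : ℕ in (hyperfilter ℕ : Filter ℕ), 1 - ε < r (2 ^ 0 * ((i : ℤ) - j)) :=
    (hℓt 0 i).eventually_const_lt hi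
  obtain ⟨j, hj1, hj2⟩ := (e2.and (B4_ev_gt i)).exists
  refine ⟨j - i, by omega, ?_⟩
  rw [pow_zero, one_mul, ← hs] at hj1
  have : (((j - i : ℕ) : ℕ) : ℤ) = -((i : ℤ) - j) := by
    rw [Nat.cast_sub hj2.le]; ring
  rw [this]; exact hj1

end Pool.Agent.Lib.MP_f6c41f_nt
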