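import Pool.Agent.Lib.MP_f6c41f_nt.Defs

/-!
# MP_f6c41f_nt, module C1

Fourier inversion on the cube: `P S = 2^{-|W|} ∑ F ∈ W.powerset, (-1)^|F ∩ S| c F` for `S ⊆ W`
(`0` otherwise), and `∑ S ∈ W.powerset, (-1)^(|F ∩ S| + |G ∩ S|) = 2^|W|` if `F = G`, `0` otherwise
(`Finset.sum_powerset` by induction on `W`, or `Finset.prod_add`/`prod_one_add`).
-/

set_option autoImplicit false

namespace Pool.Agent.Lib.MP_f6c41f_nt

open Finset Filter Topology

private theorem C1_neg_pow (F S : Finset ℕ) :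
    (-1 : ℝ) ^ (F ∩ S).card = ∏ i ∈ S, (if i ∈ F then (-1 : ℝ) else 1) := by
  rw [Finset.prod_ite_mem, Finset.prod_const, Finset.inter_comm]

private theorem C1_orth {W F G : Finset ℕ} (hF : F ⊆ W) (hG : G ⊆ W) :
    ∑ S ∈ W.powerset, (-1 : ℝ) ^ (F ∩ S).card * (-1 : ℝ) ^ (G ∩ S).card =
      if F = G then (2 : ℝ) ^ W.card else 0 := by
  have h1 : ∀ S ∈ W.powerset, (-1 : ℝ) ^ (F ∩ S).card * (-1 : ℝ) ^ (G ∩ S).card =
      ∏ i ∈ S, ((if i ∈ F then (-1 : ℝ) else 1) * (if i ∈ G then (-1 : ℝ) else 1)) := by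
    intro S _
    rw [C1_neg_pow, C1_neg_pow, Finset.prod_mul_distrib]
  rw [Finset.sum_congr rfl h1, ← Finset.prod_one_add]
  by_cases h : F = G
  · subst h
    rw [if_pos rfl]
    have h2 : ∀ i ∈ W, 1 + ((if i ∈ F then (-1 : ℝ) else 1) * (if i ∈ F then (-1 : ℝ) else 1)) =
        2 := by
      intro i _
      by_cases hi : i ∈ F <;> simp [hi] <;> norm_num
    rw [Finset.prod_congr rfl h2, Finset.prod_const]
  · rw [if_neg h]
    have h3 : ∃ i ∈ W, ((i ∈ F ∧ i ∉ G) ∨ (i ∉ F ∧ i ∈ G)) := by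
      by_contra hcon
      push Not at hcon
      apply h
      ext i
      constructor
      · intro hi
        exact (hcon i (hF hi)).1 hi
      · intro hi
        by_contra hn
        exact (hcon i (hG hi)).2 hn hi
    obtain ⟨i, hi, hcase⟩ := h3
    refine Finset.prod_eq_zero hi ?_
    rcases hcase with ⟨h4, h5⟩ | ⟨h4, h5⟩ <;> simp [h4, h5]

theorem exists_prob {c : Finset ℕ → ℝ} (hc : Stat c) (W : Finset ℕ) :
    ∃ P : Finset ℕ → ℝ, (∀ S, 0 ≤ P S) ∧
      ∀ G ⊆ W, ∑ S ∈ W.powerset, P S * (-1 : ℝ) ^ (G ∩ S).card = c G := by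
  refine ⟨fun S => (∑ F ∈ W.powerset, (-1 : ℝ) ^ (F ∩ S).card * c F) / 2 ^ W.card, ?_, ?_⟩
  · intro S
    exact div_nonneg (hc.pos W S) (by positivity)
  · intro G hG
    have h1 : ∀ S ∈ W.powerset,
        (∑ F ∈ W.powerset, (-1 : ℝ) ^ (F ∩ S).card * c F) / 2 ^ W.card *
          (-1 : ℝ) ^ (G ∩ S).card =
        ∑ F ∈ W.powerset, (c F / 2 ^ W.card) *
          ((-1 : ℝ) ^ (F ∩ S).card * (-1 : ℝ) ^ (G ∩ S).card) := by
      intro S _
      rw [Finset.sum_div, Finset.sum_mul]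
      refine Finset.sum_congr rfl fun F _ => ?_
      ring
    rw [Finset.sum_congr rfl h1, Finset.sum_comm]
    have h2 : ∀ F ∈ W.powerset, ∑ S ∈ W.powerset, (c F / 2 ^ W.card) *
        ((-1 : ℝ) ^ (F ∩ S).card * (-1 : ℝ) ^ (G ∩ S).card) = if F = G then c G else 0 := by
      intro F hF
      rw [← Finset.mul_sum, C1_orth (Finset.mem_powerset.1 hF) hG]
      by_cases h : F = G
      · subst h
        rw [if_pos rfl, if_pos rfl]
        have : (2 : ℝ) ^ W.card ≠ 0 := by positivity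
        field_simp
      · rw [if_neg h, if_neg h, mul_zero]
    rw [Finset.sum_congr rfl h2, Finset.sum_ite_eq' W.powerset G, if_pos (Finset.mem_powerset.2 hG)]

end Pool.Agent.Lib.MP_f6c41f_nt
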