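import Pool.Agent.Lib.MP_f6c41f_nt.C1

/-!
# MP_f6c41f_nt, module C2

From `exists_prob` (expectation of `±1` variables `x i = (-1)^[i ∈ S]`): `|c F| ≤ 1`; shift by `k`;
`c {i, j} = cor c (i - j)`; the three triangle inequalities for three variables
(`1 + xy + yz + zx ≥ 0` and its sign changes); positive semidefinite (`E (∑ w i x i)² ≥ 0`; translate
the indices to naturals first); `met_of_dbl`: `dbl` from `hd` (`2 - 4θ(2a) = 2|1 - 4θ a|`, i.e.
`θ(2a) = min (2θ) (1 - 2θ)`), for negative `a` by symmetry.
-/

set_option autoImplicit false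

namespace Pool.Agent.Lib.MP_f6c41f_nt

open Finset Filter Topology

theorem shift_n {c : Finset ℕ → ℝ} (hc : Stat c) (k : ℕ) (F : Finset ℕ) :
    c (F.map (addRightEmbedding k)) = c F := by
  induction k with
  | zero =>
    congr 1
    ext x
    simp [addRightEmbedding]
  | succ k ih =>
    have h : F.map (addRightEmbedding (k + 1)) =
        (F.map (addRightEmbedding k)).map (addRightEmbedding 1) := by
      ext x
      simp only [Finset.mem_map, addRightEmbedding_apply]
      constructor
      · rintro ⟨a, ha, rfl⟩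
        exact ⟨a + k, ⟨a, ha, rfl⟩, by ring⟩
      · rintro ⟨b, ⟨a, ha, rfl⟩, rfl⟩
        exact ⟨a, ha, by ring⟩
    rw [h, hc.shift, ih]

theorem abs_le_one {c : Finset ℕ → ℝ} (hc : Stat c) (F : Finset ℕ) : |c F| ≤ 1 := by
  obtain ⟨P, hP, h⟩ := exists_prob hc F
  have h0 := h ∅ (Finset.empty_subset _)
  rw [hc.empty] at h0
  rw [← h F (Finset.Subset.refl _)]
  refine (Finset.abs_sum_le_sum_abs _ _).trans (le_trans (Finset.sum_le_sum fun S _ => ?_)
    h0.le)
  rw [abs_mul, abs_of_nonneg (hP S), abs_pow, abs_neg, abs_one, one_pow]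
  simp

theorem pair_eq {c : Finset ℕ → ℝ} (hc : Stat c) (i j : ℕ) (hij : i ≠ j) :
    c {i, j} = cor c ((i : ℤ) - j) := by
  have key : ∀ a b : ℕ, a < b → c {a, b} = cor c ((a : ℤ) - b) := by
    intro a b hab
    have hne : (a : ℤ) - b ≠ 0 := by omega
    have hn : ((a : ℤ) - b).natAbs = b - a := by omega
    unfold cor
    rw [if_neg hne, hn, ← shift_n hc a {0, b - a}]
    congr 1
    ext x
    simp only [Finset.mem_map, addRightEmbedding_apply, Finset.mem_insert, Finset.mem_singleton]
    constructor
    · rintro (rfl | rfl)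
      · exact ⟨0, Or.inl rfl, by omega⟩
      · exact ⟨x - a, Or.inr rfl, by omega⟩
    · rintro ⟨y, rfl | rfl, rfl⟩
      · left; omega
      · right; omega
  rcases lt_or_gt_of_ne hij with h | h
  · exact key i j h
  · have h1 := key j i h
    have h2 : cor c ((j : ℤ) - i) = cor c ((i : ℤ) - j) := by
      unfold cor
      have e1 : ((j : ℤ) - i).natAbs = ((i : ℤ) - j).natAbs := by omega
      have e2 : ((j : ℤ) - i = 0) ↔ ((i : ℤ) - j = 0) := by omega
      simp only [e1, e2]
    rw [Finset.pair_comm, h1, h2]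

theorem cor_neg {c : Finset ℕ → ℝ} (a : ℤ) : cor c (-a) = cor c a := by
  unfold cor
  simp only [Int.natAbs_neg, neg_eq_zero]

/-- The sign variable. -/
noncomputable def C2_x (i : ℕ) (S : Finset ℕ) : ℝ := if i ∈ S then -1 else 1

theorem C2_xsq (i : ℕ) (S : Finset ℕ) : C2_x i S * C2_x i S = 1 := by
  unfold C2_x
  split_ifs <;> norm_num

theorem C2_pm (i : ℕ) (S : Finset ℕ) : C2_x i S = 1 ∨ C2_x i S = -1 := by
  unfold C2_x
  split_ifs
  · exact Or.inr rfl
  · exact Or.inl rfl

theorem C2_rep {c : Finset ℕ → ℝ} (hc : Stat c) (W : Finset ℕ) :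
    ∃ P : Finset ℕ → ℝ, (∀ S, 0 ≤ P S) ∧ ∑ S ∈ W.powerset, P S = 1 ∧
      ∀ i ∈ W, ∀ j ∈ W, ∑ S ∈ W.powerset, P S * (C2_x i S * C2_x j S) =
        cor c ((i : ℤ) - j) := by
  obtain ⟨P, hP, h⟩ := exists_prob hc W
  refine ⟨P, hP, ?_, ?_⟩
  · have h0 := h ∅ (Finset.empty_subset _)
    rw [hc.empty] at h0
    simpa using h0
  · intro i hi j hj
    rcases eq_or_ne i j with rfl | hij
    · have h0 := h ∅ (Finset.empty_subset _)
      rw [hc.empty] at h0
      have : cor c ((i : ℤ) - i) = 1 := by
        unfold cor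
        simp
      rw [this]
      simpa [C2_xsq] using h0
    · rw [← pair_eq hc i j hij, ← h {i, j} (by
        intro x hx
        simp only [Finset.mem_insert, Finset.mem_singleton] at hx
        rcases hx with rfl | rfl
        · exact hi
        · exact hj)]
      refine Finset.sum_congr rfl fun S _ => ?_
      congr 1
      unfold C2_x
      by_cases h1 : i ∈ S <;> by_cases h2 : j ∈ S
      · have : ({i, j} : Finset ℕ) ∩ S = {i, j} := by
          ext x
          simp only [Finset.mem_inter, Finset.mem_insert, Finset.mem_singleton]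
          constructor
          · exact fun h => h.1
          · rintro (rfl | rfl)
            · exact ⟨Or.inl rfl, h1⟩
            · exact ⟨Or.inr rfl, h2⟩
        rw [this, Finset.card_pair hij]
        simp [h1, h2]
      · have : ({i, j} : Finset ℕ) ∩ S = {i} := by
          ext x
          simp only [Finset.mem_inter, Finset.mem_insert, Finset.mem_singleton]
          constructor
          · rintro ⟨rfl | rfl, h⟩
            · rfl
            · exact absurd h h2
          · rintro rfl
            exact ⟨Or.inl rfl, h1⟩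
        rw [this, Finset.card_singleton]
        simp [h1, h2]
      · have : ({i, j} : Finset ℕ) ∩ S = {j} := by
          ext x
          simp only [Finset.mem_inter, Finset.mem_insert, Finset.mem_singleton]
          constructor
          · rintro ⟨rfl | rfl, h⟩
            · exact absurd h h1
            · rfl
          · rintro rfl
            exact ⟨Or.inr rfl, h2⟩
        rw [this, Finset.card_singleton]
        simp [h1, h2]
      · have : ({i, j} : Finset ℕ) ∩ S = ∅ := by
          ext x
          simp only [Finset.mem_inter, Finset.mem_insert, Finset.mem_singleton,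
            Finset.notMem_empty, iff_false, not_and]
          rintro (rfl | rfl)
          · exact h1
          · exact h2
        rw [this, Finset.card_empty]
        simp [h1, h2]

/-- Three points: every pointwise inequality in the products passes to the correlations. -/
theorem C2_three {c : Finset ℕ → ℝ} (hc : Stat c) (a b : ℤ) (p q r : ℝ)
    (hpt : ∀ x y z : ℝ, (x = 1 ∨ x = -1) → (y = 1 ∨ y = -1) → (z = 1 ∨ z = -1) →
      0 ≤ 1 + p * (x * y) + q * (y * z) + r * (x * z)) :
    0 ≤ 1 + p * cor c a + q * cor c b + r * cor c (a + b) := by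
  -- points `i = j + a`, `j`, `k = j - b`
  set M : ℕ := a.natAbs + b.natAbs with hM
  set i : ℕ := ((M : ℤ) + a).toNat with hi
  set k : ℕ := ((M : ℤ) - b).toNat with hk
  have hi' : (i : ℤ) = M + a := by omega
  have hk' : (k : ℤ) = M - b := by omega
  obtain ⟨P, hP, h1, h⟩ := C2_rep hc {i, M, k}
  have e1 := h i (by simp) M (by simp)
  have e2 := h M (by simp) k (by simp)
  have e3 := h i (by simp) k (by simp)
  have f1 : (i : ℤ) - M = a := by omega
  have f2 : (M : ℤ) - k = b := by omega
  have f3 : (i : ℤ) - k = a + b := by omega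
  rw [f1] at e1
  rw [f2] at e2
  rw [f3] at e3
  have hs : 1 + p * cor c a + q * cor c b + r * cor c (a + b) =
      ∑ S ∈ ({i, M, k} : Finset ℕ).powerset, P S * (1 + p * (C2_x i S * C2_x M S) +
        q * (C2_x M S * C2_x k S) + r * (C2_x i S * C2_x k S)) := by
    rw [← e1, ← e2, ← e3]
    conv_lhs => rw [← h1]
    rw [Finset.mul_sum, Finset.mul_sum, Finset.mul_sum, ← Finset.sum_add_distrib,
      ← Finset.sum_add_distrib, ← Finset.sum_add_distrib]
    refine Finset.sum_congr rfl fun S _ => ?_
    ring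
  rw [hs]
  exact Finset.sum_nonneg fun S _ => mul_nonneg (hP S)
    (hpt _ _ _ (C2_pm _ _) (C2_pm _ _) (C2_pm _ _))

theorem ang_nonneg {c : Finset ℕ → ℝ} (hc : Stat c) (a : ℤ) : 0 ≤ ang c a := by
  have h : cor c a ≤ 1 := by
    unfold cor
    split_ifs
    · exact le_refl 1
    · exact (abs_le.mp (abs_le_one hc _)).2
  unfold ang
  linarith

theorem ang_add {c : Finset ℕ → ℝ} (hc : Stat c) (a b : ℤ) :
    ang c (a + b) ≤ ang c a + ang c b := by
  have h := C2_three hc a b (-1) (-1) 1 (by
    rintro x y z (rfl | rfl) (rfl | rfl) (rfl | rfl) <;> norm_num)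
  unfold ang
  linarith

theorem ang_per {c : Finset ℕ → ℝ} (hc : Stat c) (a b : ℤ) :
    ang c a + ang c b + ang c (a + b) ≤ 1 := by
  have h := C2_three hc a b 1 1 1 (by
    rintro x y z (rfl | rfl) (rfl | rfl) (rfl | rfl) <;> norm_num)
  unfold ang
  linarith

theorem dbl_le {c : Finset ℕ → ℝ} (hc : Stat c) (a : ℤ) : 2 * |cor c a| ≤ 1 + cor c (2 * a) := by
  have h := C2_three hc a a (-1) (-1) 1 (by
    rintro x y z (rfl | rfl) (rfl | rfl) (rfl | rfl) <;> norm_num)
  have h' := C2_three hc a a 1 1 1 (by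
    rintro x y z (rfl | rfl) (rfl | rfl) (rfl | rfl) <;> norm_num)
  have e : a + a = 2 * a := by ring
  rw [e] at h h'
  rcases abs_cases (cor c a) with ⟨h1, _⟩ | ⟨h1, _⟩ <;> rw [h1] <;> linarith

theorem psd {c : Finset ℕ → ℝ} (hc : Stat c) (S : Finset ℤ) (w : ℤ → ℝ) :
    0 ≤ ∑ i ∈ S, ∑ j ∈ S, w i * w j * cor c (i - j) := by
  set M : ℕ := ∑ i ∈ S, i.natAbs with hM
  have hle : ∀ i ∈ S, i.natAbs ≤ M := fun i hi =>
    Finset.single_le_sum (f := fun i : ℤ => i.natAbs) (fun _ _ => Nat.zero_le _) hi
  set ν : ℤ → ℕ := fun i => (i + M).toNat with hν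
  have hνi : ∀ i ∈ S, (ν i : ℤ) = i + M := by
    intro i hi
    have := hle i hi
    simp only [hν]
    omega
  obtain ⟨P, hP, h1, h⟩ := C2_rep hc (S.image ν)
  have hs : ∑ i ∈ S, ∑ j ∈ S, w i * w j * cor c (i - j) =
      ∑ T ∈ (S.image ν).powerset, P T * (∑ i ∈ S, w i * C2_x (ν i) T) ^ 2 := by
    have e1 : ∀ i ∈ S, ∀ j ∈ S, w i * w j * cor c (i - j) =
        ∑ T ∈ (S.image ν).powerset, P T * ((w i * C2_x (ν i) T) * (w j * C2_x (ν j) T)) := by
      intro i hi j hj
      have e := h (ν i) (Finset.mem_image_of_mem _ hi) (ν j) (Finset.mem_image_of_mem _ hj)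
      have f : (ν i : ℤ) - ν j = i - j := by
        rw [hνi i hi, hνi j hj]
        ring
      rw [f] at e
      rw [← e, Finset.mul_sum]
      refine Finset.sum_congr rfl fun T _ => ?_
      ring
    rw [Finset.sum_congr rfl fun i hi => Finset.sum_congr rfl fun j hj => e1 i hi j hj]
    rw [Finset.sum_congr rfl fun i _ => Finset.sum_comm, Finset.sum_comm]
    refine Finset.sum_congr rfl fun T _ => ?_
    rw [sq, Finset.sum_mul_sum, Finset.mul_sum]
    refine Finset.sum_congr rfl fun i _ => ?_
    rw [Finset.mul_sum]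
  rw [hs]
  exact Finset.sum_nonneg fun T _ => mul_nonneg (hP T) (sq_nonneg _)

theorem met_of_dbl {c : Finset ℕ → ℝ} (hc : Stat c)
    (hd : ∀ a : ℕ, 0 < a → 1 + cor c (2 * a) = 2 * |cor c a|) : Met (ang c) := by
  have h0 : cor c 0 = 1 := by
    unfold cor
    simp
  refine ⟨?_, ?_, ang_nonneg hc, ang_add hc, ang_per hc, ?_⟩
  · unfold ang
    rw [h0]
    norm_num
  · intro a
    unfold ang
    rw [cor_neg]
  · have key : ∀ a : ℕ, ang c (2 * (a : ℤ)) = min (2 * ang c a) (1 - 2 * ang c a) := by
      intro a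
      rcases Nat.eq_zero_or_pos a with rfl | ha
      · simp only [Nat.cast_zero, mul_zero]
        unfold ang
        rw [h0]
        norm_num
      · have h := hd a ha
        unfold ang
        rcases abs_cases (cor c (a : ℤ)) with ⟨h1, h2⟩ | ⟨h1, h2⟩
        · rw [h1] at h
          rw [min_eq_left (by linarith)]
          linarith
        · rw [h1] at h
          rw [min_eq_right (by linarith)]
          linarith
    intro a
    rcases le_or_gt 0 a with h | h
    · obtain ⟨n, rfl⟩ := Int.eq_ofNat_of_zero_le h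
      exact key n
    · have hn : ang c (-(2 * a)) = ang c (2 * a) := by
        unfold ang
        rw [cor_neg]
      have hn' : ang c (-a) = ang c a := by
        unfold ang
        rw [cor_neg]
      have hp : 0 ≤ -a := by omega
      obtain ⟨n, hn2⟩ := Int.eq_ofNat_of_zero_le hp
      have := key n
      have e : (n : ℤ) = -a := hn2.symm
      rw [e] at this
      rw [show 2 * -a = -(2 * a) by ring, hn, hn'] at this
      exact this

end Pool.Agent.Lib.MP_f6c41f_nt
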