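import Pool.Agent.Lib.MP_f6c41f_nt.C2

/-!
# MP_f6c41f_nt, module C3

Let `y i = fract (2 i s) / 2 ∈ [0,1/2)` and `η i = 1` if `fract (i s) < 1/2`, else `-1`; so
`fract (i s) = y i` or `y i + 1/2`, and `nrm ((i - j) s) = |y i - y j|` if `η i = η j`, else
`1/2 - |y i - y j|`.  For a `Stat c` with the pair formula put
`z i = η i x i` under the probability of `exists_prob F`: `E z_i z_j = 1 - 4|y i - y j|`, i.e.
`P(z_i ≠ z_j) = 2|y i - y j|`, which is additive along the line, so for `y i < y j < y k` the event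
`z_i = z_k ≠ z_j` has probability `0` (`P(z_i = z_k ≠ z_j) = (P(i≠j) + P(j≠k) - P(i≠k))/2`).
Let `i, j` be the two elements of `F` with smallest `y`.  Then almost surely
`∏_F z = z_i z_j + ∏_{F \ {i,j}} z - 1` (if `z_i ≠ z_j` all others equal `z_j` and their number is
even).  Hence `c F = (∏_rest η) c {i,j} + η_i η_j c rest - ∏_F η`.
-/

set_option autoImplicit false

namespace Pool.Agent.Lib.MP_f6c41f_nt

open Finset Filter Topology

namespace C3

theorem nrm_eq (x : ℝ) : nrm x = min (Int.fract x) (1 - Int.fract x) := by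
  unfold nrm
  rw [UnitAddCircle.norm_eq, abs_sub_round_eq_min]

theorem fract_two (u : ℝ) : Int.fract (2 * u) =
    if Int.fract u < 1 / 2 then 2 * Int.fract u else 2 * Int.fract u - 1 := by
  have h0 := Int.fract_nonneg u
  have h1 := Int.fract_lt_one u
  have hu : (2 * u : ℝ) = 2 * Int.fract u + ((2 * ⌊u⌋ : ℤ) : ℝ) := by
    have := Int.floor_add_fract u
    push_cast
    linarith
  rw [hu, Int.fract_add_intCast]
  split_ifs with h
  · rw [Int.fract_eq_self.2 ⟨by linarith, by linarith⟩]
  · have h3 : (2 * Int.fract u : ℝ) = (2 * Int.fract u - 1) + ((1 : ℤ) : ℝ) := by push_cast; ring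
    rw [h3, Int.fract_add_intCast, Int.fract_eq_self.2 ⟨by linarith, by linarith⟩]
    push_cast
    ring

theorem fract_sub' (u v : ℝ) : Int.fract (u - v) =
    if Int.fract v ≤ Int.fract u then Int.fract u - Int.fract v
    else Int.fract u - Int.fract v + 1 := by
  have h0 := Int.fract_nonneg u
  have h1 := Int.fract_lt_one u
  have h2 := Int.fract_nonneg v
  have h3 := Int.fract_lt_one v
  have hu : (u - v : ℝ) = (Int.fract u - Int.fract v) + ((⌊u⌋ - ⌊v⌋ : ℤ) : ℝ) := by
    have := Int.floor_add_fract u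
    have := Int.floor_add_fract v
    push_cast
    linarith
  rw [hu, Int.fract_add_intCast]
  split_ifs with h
  · rw [Int.fract_eq_self.2 ⟨by linarith, by linarith⟩]
  · push Not at h
    have h4 : (Int.fract u - Int.fract v : ℝ) =
      (Int.fract u - Int.fract v + 1) + ((-1 : ℤ) : ℝ) := by push_cast; ring
    rw [h4, Int.fract_add_intCast, Int.fract_eq_self.2 ⟨by linarith, by linarith⟩]
    push_cast
    ring

theorem key (u v : ℝ) : phi u * phi v * (1 - 4 * nrm (u - v)) =
    1 - 4 * |Int.fract (2 * u) / 2 - Int.fract (2 * v) / 2| := by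
  have h0 := Int.fract_nonneg u
  have h1 := Int.fract_lt_one u
  have h2 := Int.fract_nonneg v
  have h3 := Int.fract_lt_one v
  rw [nrm_eq, fract_two, fract_two, fract_sub']
  unfold phi
  simp only [min_def, abs_eq_max_neg, max_def]
  split_ifs <;> linarith

theorem phi_cases (x : ℝ) : phi x = 1 ∨ phi x = -1 := by
  unfold phi; split_ifs <;> simp

/-- the spin at `k` in state `S`. -/
noncomputable def sp (S : Finset ℕ) (k : ℕ) : ℝ := if k ∈ S then -1 else 1

theorem sp_cases (S : Finset ℕ) (k : ℕ) : sp S k = 1 ∨ sp S k = -1 := by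
  unfold sp; split_ifs <;> simp

theorem chi_eq (G S : Finset ℕ) : (-1 : ℝ) ^ (G ∩ S).card = ∏ k ∈ G, sp S k := by
  unfold sp
  rw [Finset.prod_ite, Finset.prod_const, Finset.prod_const_one, mul_one,
    Finset.filter_mem_eq_inter]

theorem pair_nrm {s : ℝ} {c : Finset ℕ → ℝ} (hc : Stat c)
    (hp : ∀ a : ℕ, 0 < a → c {0, a} = 1 - 4 * nrm (a * s)) (i j : ℕ) (hij : i ≠ j) :
    c {i, j} = 1 - 4 * nrm ((i : ℝ) * s - (j : ℝ) * s) := by
  have hsym : ∀ x : ℝ, nrm (-x) = nrm x := by
    intro x
    unfold nrm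
    rw [AddCircle.coe_neg, norm_neg]
  rcases lt_or_gt_of_ne hij with h | h
  · have h1 := pair_eq hc i j hij
    rw [h1]
    unfold cor
    have h2 : ((i : ℤ) - j) ≠ 0 := by omega
    rw [if_neg h2]
    have h3 : ((i : ℤ) - j).natAbs = j - i := by omega
    rw [h3, hp (j - i) (by omega), Nat.cast_sub h.le, ← hsym]
    congr 3
    ring
  · have h1 := pair_eq hc i j hij
    rw [h1]
    unfold cor
    have h2 : ((i : ℤ) - j) ≠ 0 := by omega
    rw [if_neg h2]
    have h3 : ((i : ℤ) - j).natAbs = i - j := by omega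
    rw [h3, hp (i - j) (by omega), Nat.cast_sub h.le]
    congr 3
    ring

end C3

open C3 in
theorem even_step {s : ℝ} (hs : ∀ a : ℕ, 0 < a → nrm (a * s) ≠ 0) (F : Finset ℕ)
    (hF : Even F.card) (hF0 : F.Nonempty) :
    ∃ i ∈ F, ∃ j ∈ F, i ≠ j ∧ ∃ A B C : ℝ, ∀ c : Finset ℕ → ℝ, Stat c →
      (∀ a : ℕ, 0 < a → c {0, a} = 1 - 4 * nrm (a * s)) →
      c F = A * c {i, j} + B * c ((F.erase i).erase j) + C := by
  classical
  set y : ℕ → ℝ := fun k => Int.fract (2 * ((k : ℝ) * s)) / 2 with hy
  set η : ℕ → ℝ := fun k => phi ((k : ℝ) * s) with hη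
  obtain ⟨i, hi, himin⟩ := Finset.exists_min_image F y hF0
  have hcard2 : 2 ≤ F.card := by
    have := hF0.card_pos
    obtain ⟨t, ht⟩ := hF
    omega
  have hE : (F.erase i).Nonempty := by
    rw [← Finset.card_pos, Finset.card_erase_of_mem hi]; omega
  obtain ⟨j, hj, hjmin⟩ := Finset.exists_min_image (F.erase i) y hE
  have hjF : j ∈ F := Finset.mem_of_mem_erase hj
  have hji : j ≠ i := Finset.ne_of_mem_erase hj
  set R := (F.erase i).erase j with hR
  have hRF : R ⊆ F := (Finset.erase_subset _ _).trans (Finset.erase_subset _ _)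
  have hRcard : Even R.card := by
    rw [hR, Finset.card_erase_of_mem hj, Finset.card_erase_of_mem hi]
    obtain ⟨t, ht⟩ := hF
    exact ⟨t - 1, by omega⟩
  refine ⟨i, hi, j, hjF, hji.symm, (∏ k ∈ R, η k), η i * η j, - ∏ k ∈ F, η k, ?_⟩
  intro c hc hp
  have hηc : ∀ k, η k = 1 ∨ η k = -1 := fun k => phi_cases _
  have hη2 : ∀ k, η k * η k = 1 := by
    intro k; rcases hηc k with h | h <;> rw [h] <;> norm_num
  obtain ⟨P, hP0, hP⟩ := exists_prob hc F
  set z : Finset ℕ → ℕ → ℝ := fun S k => η k * sp S k with hz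
  have hzc : ∀ S k, z S k = 1 ∨ z S k = -1 := by
    intro S k
    simp only [hz]
    rcases hηc k with h | h <;> rcases sp_cases S k with h' | h' <;> rw [h, h'] <;> norm_num
  have hEG : ∀ G ⊆ F, ∑ S ∈ F.powerset, P S * ∏ k ∈ G, z S k = (∏ k ∈ G, η k) * c G := by
    intro G hG
    rw [← hP G hG, Finset.mul_sum]
    refine Finset.sum_congr rfl fun S _ => ?_
    rw [chi_eq]
    simp only [hz]
    rw [Finset.prod_mul_distrib]
    ring
  have hpairE : ∀ a ∈ F, ∀ b ∈ F, a ≠ b →
      ∑ S ∈ F.powerset, P S * (z S a * z S b) = 1 - 4 * |y a - y b| := by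
    intro a ha b hb hab
    have h1 := hEG {a, b} (by
      intro x hx
      rw [Finset.mem_insert, Finset.mem_singleton] at hx
      rcases hx with rfl | rfl <;> assumption)
    rw [Finset.prod_pair hab] at h1
    have h2 : ∑ S ∈ F.powerset, P S * (z S a * z S b) =
        ∑ S ∈ F.powerset, P S * ∏ k ∈ ({a, b} : Finset ℕ), z S k := by
      refine Finset.sum_congr rfl fun S _ => ?_
      rw [Finset.prod_pair hab]
    rw [h2, h1, pair_nrm hc hp a b hab]
    exact key _ _
  have hone : ∑ S ∈ F.powerset, P S = 1 := by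
    have := hEG ∅ (Finset.empty_subset _)
    simp only [Finset.prod_empty, mul_one, one_mul] at this
    rw [this, hc.empty]
  have hbad : ∀ k ∈ R, ∀ S ∈ F.powerset, P S * ((1 - z S i * z S j) * (1 - z S j * z S k)) = 0 := by
    intro k hk
    have hkj : k ≠ j := Finset.ne_of_mem_erase hk
    have hk' : k ∈ F.erase i := Finset.mem_of_mem_erase hk
    have hki : k ≠ i := Finset.ne_of_mem_erase hk'
    have hkF : k ∈ F := Finset.mem_of_mem_erase hk'
    have hnn : ∀ S ∈ F.powerset, 0 ≤ P S * ((1 - z S i * z S j) * (1 - z S j * z S k)) := by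
      intro S _
      refine mul_nonneg (hP0 S) ?_
      rcases hzc S i with h | h <;> rcases hzc S j with h' | h' <;> rcases hzc S k with h'' | h'' <;>
        rw [h, h', h''] <;> norm_num
    refine (Finset.sum_eq_zero_iff_of_nonneg hnn).1 ?_
    have hexp : ∀ S ∈ F.powerset, P S * ((1 - z S i * z S j) * (1 - z S j * z S k)) =
        P S - P S * (z S i * z S j) - P S * (z S j * z S k) + P S * (z S i * z S k) := by
      intro S _
      have : z S j * z S j = 1 := by rcases hzc S j with h | h <;> rw [h] <;> norm_num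
      linear_combination (P S * z S i * z S k) * this
    rw [Finset.sum_congr rfl hexp, Finset.sum_add_distrib, Finset.sum_sub_distrib,
      Finset.sum_sub_distrib, hone, hpairE i hi j hjF hji.symm, hpairE j hjF k hkF hkj.symm,
      hpairE i hi k hkF hki.symm]
    have e1 : y i ≤ y j := himin j hjF
    have e2 : y j ≤ y k := hjmin k hk'
    rw [abs_of_nonpos (by linarith), abs_of_nonpos (by linarith), abs_of_nonpos (by linarith)]
    ring
  have hprodF : ∀ f : ℕ → ℝ, ∏ k ∈ F, f k = f i * (f j * ∏ k ∈ R, f k) := by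
    intro f
    rw [← Finset.mul_prod_erase F f hi, ← Finset.mul_prod_erase (F.erase i) f hj]
  have hpt : ∀ S ∈ F.powerset, P S * ∏ k ∈ F, z S k =
      P S * (z S i * z S j) + P S * (∏ k ∈ R, z S k) - P S := by
    intro S hS
    by_cases hPS : P S = 0
    · rw [hPS]; ring
    have hzero : ∀ k ∈ R, (1 - z S i * z S j) * (1 - z S j * z S k) = 0 := by
      intro k hk
      have := hbad k hk S hS
      exact (mul_eq_zero.1 this).resolve_left hPS
    rw [hprodF]
    have hcases : z S i * z S j = 1 ∨ z S i * z S j = -1 := by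
      rcases hzc S i with h | h <;> rcases hzc S j with h' | h' <;> rw [h, h'] <;> norm_num
    rcases hcases with h | h
    · linear_combination (P S * ∏ k ∈ R, z S k - P S) * h
    · have hall : ∀ k ∈ R, z S k = z S j := by
        intro k hk
        have h1 := hzero k hk
        rw [h] at h1
        have h2 : z S j * z S k = 1 := by linarith
        rcases hzc S j with h' | h' <;> rw [h'] at h2 ⊢ <;> linarith
      have hprod : ∏ k ∈ R, z S k = 1 := by
        rw [Finset.prod_congr rfl hall, Finset.prod_const]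
        rcases hzc S j with h' | h' <;> rw [h']
        · simp
        · exact hRcard.neg_one_pow
      rw [hprod]
      linear_combination (0 : ℝ) * h
  have hmain : (∏ k ∈ F, η k) * c F = η i * η j * c {i, j} + (∏ k ∈ R, η k) * c R - 1 := by
    rw [← hEG F (Finset.Subset.refl _), Finset.sum_congr rfl hpt, Finset.sum_sub_distrib,
      Finset.sum_add_distrib, hone, hEG R hRF]
    have h1 := hEG {i, j} (by
      intro x hx
      rw [Finset.mem_insert, Finset.mem_singleton] at hx
      rcases hx with rfl | rfl <;> assumption)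
    have h2 : ∑ S ∈ F.powerset, P S * (z S i * z S j) =
        ∑ S ∈ F.powerset, P S * ∏ k ∈ ({i, j} : Finset ℕ), z S k := by
      refine Finset.sum_congr rfl fun S _ => ?_
      rw [Finset.prod_pair hji.symm]
    rw [h2, h1, Finset.prod_pair hji.symm]
  have hηR : (∏ k ∈ R, η k) * (∏ k ∈ R, η k) = 1 := by
    rw [← Finset.prod_mul_distrib]
    exact Finset.prod_eq_one fun k _ => hη2 k
  rw [hprodF η] at hmain ⊢
  have hi2 := hη2 i
  have hj2 := hη2 j
  linear_combination (η i * (η j * ∏ k ∈ R, η k)) * hmain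
    + (-(η j * η j * (∏ k ∈ R, η k) * (∏ k ∈ R, η k)) * c F + (η j * η j * (∏ k ∈ R, η k)) * c {i, j}) * hi2
    + (-((∏ k ∈ R, η k) * (∏ k ∈ R, η k)) * c F + (∏ k ∈ R, η k) * c {i, j}) * hj2
    + (-c F + η i * η j * c R) * hηR

end Pool.Agent.Lib.MP_f6c41f_nt
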