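import Pool.Agent.Lib.MP_f6c41f_nt.C2

/-!
# MP_f6c41f_nt, module C4

For `k ≥ 1`, with the probability of `exists_prob` on `F ∪ (F + k)`:
`|∏_F x_{i+k} - ∏_F (-x_i)| ≤ ∑_F |x_{i+k} + x_i| = ∑_F (1 + x_i x_{i+k})`, so
`|c (F + k) + c F| ≤ |F| (1 + c {0,k})` for `|F|` odd, i.e. `2 |c F| ≤ |F| (2 - 4 nrm (k s))`.
`s` is irrational (`hs`), so `k s` comes arbitrarily close to `1/2` mod `1` with `k ≥ 1` (density of
multiples: e.g. `dense_addSubgroupClosure_pair_iff`, `AddCircle.dense_zmultiples...`, symmetric in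
`k`), `nrm (k s) → 1/2`, hence `c F = 0`.
-/

set_option autoImplicit false

namespace Pool.Agent.Lib.MP_f6c41f_nt

open Finset Filter Topology

theorem C4_prod (G S : Finset ℕ) : (-1 : ℝ) ^ (G ∩ S).card = ∏ i ∈ G, C2_x i S := by
  unfold C2_x
  rw [Finset.prod_ite]
  simp only [Finset.prod_const, one_pow, mul_one]
  congr 2

theorem C4_tel {ι : Type*} [DecidableEq ι] (F : Finset ι) (a b : ι → ℝ)
    (ha : ∀ i, |a i| ≤ 1) (hb : ∀ i, |b i| ≤ 1) :
    |∏ i ∈ F, a i - ∏ i ∈ F, b i| ≤ ∑ i ∈ F, |a i - b i| := by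
  induction F using Finset.induction_on with
  | empty => simp
  | insert x F hx ih =>
    rw [Finset.prod_insert hx, Finset.prod_insert hx, Finset.sum_insert hx]
    have e : a x * ∏ i ∈ F, a i - b x * ∏ i ∈ F, b i =
        (a x - b x) * ∏ i ∈ F, a i + b x * (∏ i ∈ F, a i - ∏ i ∈ F, b i) := by ring
    rw [e]
    refine (abs_add_le _ _).trans ?_
    rw [abs_mul, abs_mul]
    have h1 : |∏ i ∈ F, a i| ≤ 1 := by
      rw [Finset.abs_prod]
      exact Finset.prod_le_one (fun _ _ => abs_nonneg _) fun i _ => ha i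
    have h2 : |a x - b x| * |∏ i ∈ F, a i| ≤ |a x - b x| :=
      mul_le_of_le_one_right (abs_nonneg _) h1
    have h3 : |b x| * |∏ i ∈ F, a i - ∏ i ∈ F, b i| ≤ |∏ i ∈ F, a i - ∏ i ∈ F, b i| :=
      mul_le_of_le_one_left (abs_nonneg _) (hb x)
    linarith

theorem C4_ineq {c : Finset ℕ → ℝ} (hc : Stat c) (F : Finset ℕ) (hF : Odd F.card) (k : ℕ) :
    2 * |c F| ≤ F.card * (1 + cor c k) := by
  set W := F ∪ F.map (addRightEmbedding k) with hW
  obtain ⟨P, hP, h⟩ := exists_prob hc W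
  have hF1 := h F Finset.subset_union_left
  have hF2 := h (F.map (addRightEmbedding k)) Finset.subset_union_right
  rw [shift_n hc] at hF2
  have h0 := h ∅ (Finset.empty_subset _)
  rw [hc.empty] at h0
  have hone : ∑ S ∈ W.powerset, P S = 1 := by simpa using h0
  have hpair : ∀ i ∈ F, ∑ S ∈ W.powerset, P S * (C2_x (i + k) S * C2_x i S) = cor c k := by
    intro i hi
    rcases Nat.eq_zero_or_pos k with hk | hk
    · subst hk
      simp only [add_zero, C2_xsq, mul_one, hone]
      unfold cor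
      simp
    · have hne : i + k ≠ i := by omega
      have e := h {i + k, i} (by
        intro x hx
        simp only [Finset.mem_insert, Finset.mem_singleton] at hx
        rcases hx with rfl | rfl
        · exact Finset.mem_union_right _ (Finset.mem_map.mpr ⟨i, hi, rfl⟩)
        · exact Finset.mem_union_left _ hi)
      rw [pair_eq hc _ _ hne] at e
      have e2 : (((i + k : ℕ) : ℤ) - (i : ℤ)) = (k : ℤ) := by
        push_cast
        ring
      rw [e2] at e
      rw [← e]
      refine Finset.sum_congr rfl fun S _ => ?_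
      rw [C4_prod, Finset.prod_pair hne]
  have hsum : 2 * c F = ∑ S ∈ W.powerset, P S *
      (∏ i ∈ F, C2_x (i + k) S - ∏ i ∈ F, (-C2_x i S)) := by
    have e1 : ∀ S, ∏ i ∈ F, (-C2_x i S) = -∏ i ∈ F, C2_x i S := by
      intro S
      rw [Finset.prod_neg, hF.neg_one_pow]
      ring
    have e2 : ∀ S, ∏ i ∈ F, C2_x (i + k) S =
        ∏ i ∈ F.map (addRightEmbedding k), C2_x i S := by
      intro S
      rw [Finset.prod_map]
      rfl
    have e3 : ∀ S ∈ W.powerset, P S * (∏ i ∈ F, C2_x (i + k) S - ∏ i ∈ F, (-C2_x i S)) =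
        P S * (-1 : ℝ) ^ (F.map (addRightEmbedding k) ∩ S).card +
          P S * (-1 : ℝ) ^ (F ∩ S).card := by
      intro S _
      rw [e1, e2, C4_prod, C4_prod]
      ring
    rw [Finset.sum_congr rfl e3, Finset.sum_add_distrib, hF1, hF2]
    ring
  have hpt : ∀ S, |∏ i ∈ F, C2_x (i + k) S - ∏ i ∈ F, (-C2_x i S)| ≤
      ∑ i ∈ F, (1 + C2_x (i + k) S * C2_x i S) := by
    intro S
    have habs : ∀ i, |C2_x i S| ≤ 1 := by
      intro i
      rcases C2_pm i S with h | h <;> rw [h] <;> norm_num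
    refine (C4_tel F _ _ (fun i => habs _) (fun i => by
      rw [abs_neg]
      exact habs i)).trans (Finset.sum_le_sum fun i _ => ?_)
    rcases C2_pm (i + k) S with h1 | h1 <;> rcases C2_pm i S with h2 | h2 <;> rw [h1, h2] <;>
      norm_num
  have hab : |2 * c F| ≤ F.card * (1 + cor c k) := by
    rw [hsum]
    refine (Finset.abs_sum_le_sum_abs _ _).trans ?_
    have e : (F.card : ℝ) * (1 + cor c k) = ∑ S ∈ W.powerset, P S *
        ∑ i ∈ F, (1 + C2_x (i + k) S * C2_x i S) := by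
      have e1 : ∀ S ∈ W.powerset, P S * ∑ i ∈ F, (1 + C2_x (i + k) S * C2_x i S) =
          ∑ i ∈ F, (P S + P S * (C2_x (i + k) S * C2_x i S)) := by
        intro S _
        rw [Finset.mul_sum]
        refine Finset.sum_congr rfl fun i _ => ?_
        ring
      rw [Finset.sum_congr rfl e1, Finset.sum_comm]
      have e2 : ∀ i ∈ F, ∑ S ∈ W.powerset, (P S + P S * (C2_x (i + k) S * C2_x i S)) =
          1 + cor c k := by
        intro i hi
        rw [Finset.sum_add_distrib, hone, hpair i hi]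
      rw [Finset.sum_congr rfl e2, Finset.sum_const, nsmul_eq_mul]
    rw [e]
    refine Finset.sum_le_sum fun S _ => ?_
    rw [abs_mul, abs_of_nonneg (hP S)]
    exact mul_le_mul_of_nonneg_left (hpt S) (hP S)
  rwa [abs_mul, abs_of_pos (by norm_num : (0 : ℝ) < 2)] at hab

theorem C4_dense {s : ℝ} (hs : ∀ a : ℕ, 0 < a → nrm (a * s) ≠ 0) {ε : ℝ} (hε : 0 < ε) :
    ∃ k : ℕ, 0 < k ∧ 1 / 2 - ε < nrm (k * s) := by
  have hord : addOrderOf (s : UnitAddCircle) = 0 := by
    rw [addOrderOf_eq_zero_iff']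
    intro n hn h0
    apply hs n hn
    unfold nrm
    rw [norm_eq_zero]
    have : ((n * s : ℝ) : UnitAddCircle) = n • (s : UnitAddCircle) := by
      rw [← AddCircle.coe_nsmul, nsmul_eq_mul]
    rw [this]
    exact h0
  have hd : DenseRange (fun n : ℤ => n • (s : UnitAddCircle)) := AddCircle.denseRange_zsmul_iff.mpr hord
  have hmin : 0 < min ε (1 / 2) := lt_min hε (by norm_num)
  obtain ⟨n, hn⟩ := hd.exists_dist_lt (((1 / 2 : ℝ)) : UnitAddCircle) hmin
  have hhalf : ‖((1 / 2 : ℝ) : UnitAddCircle)‖ = 1 / 2 := by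
    have := AddCircle.norm_half_period_eq (p := (1 : ℝ))
    rw [this]
    norm_num
  have h1 : 1 / 2 - min ε (1 / 2) < ‖n • (s : UnitAddCircle)‖ := by
    rw [dist_eq_norm] at hn
    have h2 := norm_sub_norm_le ((1 / 2 : ℝ) : UnitAddCircle) (n • (s : UnitAddCircle))
    rw [hhalf] at h2
    linarith
  refine ⟨n.natAbs, ?_, ?_⟩
  · rw [Int.natAbs_pos]
    rintro rfl
    rw [zero_smul, norm_zero] at h1
    have := min_le_right ε (1 / 2)
    linarith
  · have h3 : nrm ((n.natAbs : ℝ) * s) = ‖n • (s : UnitAddCircle)‖ := by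
      unfold nrm
      have e : ((((n.natAbs : ℕ) : ℝ) * s : ℝ) : UnitAddCircle) =
          (n.natAbs) • (s : UnitAddCircle) := by
        rw [← AddCircle.coe_nsmul, nsmul_eq_mul]
      rw [e]
      rcases Int.natAbs_eq n with h | h
      · conv_rhs => rw [h]
        rw [natCast_zsmul]
      · conv_rhs => rw [h]
        rw [neg_smul, norm_neg, natCast_zsmul]
    rw [h3]
    have := min_le_left ε (1 / 2)
    linarith

theorem odd_zero {c : Finset ℕ → ℝ} (hc : Stat c) {s : ℝ}
    (hs : ∀ a : ℕ, 0 < a → nrm (a * s) ≠ 0)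
    (hp : ∀ a : ℕ, 0 < a → c {0, a} = 1 - 4 * nrm (a * s)) (F : Finset ℕ) (hF : Odd F.card) :
    c F = 0 := by
  by_contra hne
  have hpos : 0 < |c F| := abs_pos.mpr hne
  have hcard : (0 : ℝ) < F.card := by
    have := hF.pos
    exact_mod_cast this
  obtain ⟨k, hk, hk2⟩ := C4_dense hs (ε := |c F| / (4 * F.card)) (by positivity)
  have h1 := C4_ineq hc F hF k
  have h2 : cor c k = 1 - 4 * nrm (k * s) := by
    rw [← hp k hk]
    unfold cor
    rw [if_neg (by omega)]
    simp
  rw [h2] at h1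
  have h3 : (F.card : ℝ) * (1 + (1 - 4 * nrm (k * s))) <
      F.card * (4 * (|c F| / (4 * F.card))) := by
    apply mul_lt_mul_of_pos_left _ hcard
    linarith
  have h4 : (F.card : ℝ) * (4 * (|c F| / (4 * F.card))) = |c F| := by
    field_simp
  rw [h4] at h3
  linarith

end Pool.Agent.Lib.MP_f6c41f_nt
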