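import Pool.Agent.Lib.MP_f6c41f_nt.C3
import Pool.Agent.Lib.MP_f6c41f_nt.C4

/-!
# MP_f6c41f_nt, module C5

Strong induction on `F.card`: odd by `odd_zero`, empty by `Stat.empty`, pairs by `pair_eq` and the
pair formula, even `≥ 4` by `even_step` (the constants `A B C` are the same for `c` and `c'`).
-/

set_option autoImplicit false

namespace Pool.Agent.Lib.MP_f6c41f_nt

open Finset Filter Topology

theorem C5_pair {c c' : Finset ℕ → ℝ} (hc : Stat c) (hc' : Stat c') {s : ℝ}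
    (hp : ∀ a : ℕ, 0 < a → c {0, a} = 1 - 4 * nrm (a * s))
    (hp' : ∀ a : ℕ, 0 < a → c' {0, a} = 1 - 4 * nrm (a * s)) (i j : ℕ) (hij : i ≠ j) :
    c {i, j} = c' {i, j} := by
  rw [pair_eq hc i j hij, pair_eq hc' i j hij]
  unfold cor
  have hne : ((i : ℤ) - j) ≠ 0 := by
    have : (i : ℤ) ≠ j := by exact_mod_cast hij
    exact sub_ne_zero.2 this
  rw [if_neg hne, if_neg hne, hp _ (Int.natAbs_pos.2 hne), hp' _ (Int.natAbs_pos.2 hne)]

theorem C5_aux {c c' : Finset ℕ → ℝ} (hc : Stat c) (hc' : Stat c') {s : ℝ}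
    (hs : ∀ a : ℕ, 0 < a → nrm (a * s) ≠ 0)
    (hp : ∀ a : ℕ, 0 < a → c {0, a} = 1 - 4 * nrm (a * s))
    (hp' : ∀ a : ℕ, 0 < a → c' {0, a} = 1 - 4 * nrm (a * s)) (n : ℕ) :
    ∀ F : Finset ℕ, F.card = n → c F = c' F := by
  induction n using Nat.strong_induction_on with
  | _ n ih =>
    intro F hF
    rcases F.eq_empty_or_nonempty with rfl | hne
    · rw [hc.empty, hc'.empty]
    rcases Nat.even_or_odd F.card with he | ho
    · obtain ⟨i, hi, j, hj, hij, A, B, C, h⟩ := even_step hs F he hne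
      rw [h c hc hp, h c' hc' hp', C5_pair hc hc' hp hp' i j hij]
      have hlt : ((F.erase i).erase j).card < n := by
        rw [← hF]
        exact lt_of_le_of_lt (card_le_card (erase_subset _ _)) (card_lt_card (erase_ssubset hi))
      rw [ih _ hlt _ rfl]
    · rw [odd_zero hc hs hp F ho, odd_zero hc' hs hp' F ho]

theorem stat_unique {c c' : Finset ℕ → ℝ} (hc : Stat c) (hc' : Stat c') {s : ℝ}
    (hs : ∀ a : ℕ, 0 < a → nrm (a * s) ≠ 0)
    (hp : ∀ a : ℕ, 0 < a → c {0, a} = 1 - 4 * nrm (a * s))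
    (hp' : ∀ a : ℕ, 0 < a → c' {0, a} = 1 - 4 * nrm (a * s)) : c = c' :=
  funext fun F => C5_aux hc hc' hs hp hp' F.card F rfl

end Pool.Agent.Lib.MP_f6c41f_nt
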