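import Pool.Agent.Lib.MP_f6c41f_nt.Defs

/-!
# MP_f6c41f_nt, module C6

`rot s` is a `Stat`: empty product; shift: `∏ phi (t + (i+1) s)` is the function `t ↦ G (t + s)`,
`G` of period one (`Function.Periodic.intervalIntegral_add_eq`); pos:
`∑ F ∈ W.powerset, (-1)^|F ∩ S| ∏_F phi = ∏_W (1 ± phi) ≥ 0` (`Finset.prod_one_add` type identity),
integrate (all functions are bounded and piecewise constant: `phi` is measurable, `|phi| = 1`).
Pair: `∫ phi t phi (t + x) dt = 1 - 4 nrm x` (reduce to `x ∈ [0,1]` by periodicity, compute on the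
intervals cut by `1/2`, `1 - x`, ...).
-/

set_option autoImplicit false

namespace Pool.Agent.Lib.MP_f6c41f_nt

open Finset Filter Topology

theorem phi_abs (x : ℝ) : |phi x| = 1 := by
  unfold phi; split_ifs <;> simp

theorem phi_sq (x : ℝ) : phi x * phi x = 1 := by
  unfold phi; split_ifs <;> simp

theorem phi_periodic (x : ℝ) : phi (x + 1) = phi x := by
  unfold phi; rw [Int.fract_add_one]

theorem measurable_phi : Measurable phi := by
  unfold phi
  exact Measurable.ite (measurableSet_lt measurable_fract measurable_const)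
    measurable_const measurable_const

theorem C6_prod_abs (F : Finset ℕ) (s t : ℝ) : |∏ i ∈ F, phi (t + (i : ℝ) * s)| = 1 := by
  rw [Finset.abs_prod]
  exact Finset.prod_eq_one fun _ _ => phi_abs _

theorem C6_meas (F : Finset ℕ) (s : ℝ) : Measurable fun t => ∏ i ∈ F, phi (t + (i : ℝ) * s) :=
  Finset.measurable_prod _ fun _ _ => measurable_phi.comp (measurable_id.add_const _)

theorem C6_int_of_bdd (f : ℝ → ℝ) (hf : Measurable f) (C : ℝ) (hC : ∀ t, |f t| ≤ C) (a b : ℝ) :
    IntervalIntegrable f MeasureTheory.volume a b := by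
  refine (intervalIntegrable_const (c := C)).mono_fun' hf.aestronglyMeasurable ?_
  exact Filter.Eventually.of_forall fun t => by simpa using hC t

theorem C6_int (F : Finset ℕ) (s a b : ℝ) :
    IntervalIntegrable (fun t => ∏ i ∈ F, phi (t + (i : ℝ) * s)) MeasureTheory.volume a b :=
  C6_int_of_bdd _ (C6_meas F s) 1 (fun t => (C6_prod_abs F s t).le) a b

theorem rot_stat (s : ℝ) : Stat (rot s) := by
  refine ⟨?_, ?_, ?_⟩
  · simp [rot]
  · intro F
    unfold rot
    have h1 : ∀ t : ℝ, ∏ i ∈ F.map (addRightEmbedding 1), phi (t + (i : ℝ) * s) =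
        (fun u => ∏ i ∈ F, phi (u + (i : ℝ) * s)) (t + s) := by
      intro t
      simp only [prod_map, addRightEmbedding_apply]
      apply prod_congr rfl
      intro i _
      congr 1
      push_cast; ring
    simp_rw [h1]
    rw [intervalIntegral.integral_comp_add_right (fun u => ∏ i ∈ F, phi (u + (i : ℝ) * s))]
    have hper : Function.Periodic (fun u => ∏ i ∈ F, phi (u + (i : ℝ) * s)) 1 := by
      intro u
      apply prod_congr rfl
      intro i _
      rw [show u + 1 + (i : ℝ) * s = u + (i : ℝ) * s + 1 by ring, phi_periodic]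
    have := hper.intervalIntegral_add_eq (0 + s) 0
    rw [zero_add] at this ⊢
    rw [add_comm 1 s, this, zero_add]
  · intro W S
    unfold rot
    have h1 : ∀ F ∈ W.powerset, (-1 : ℝ) ^ (F ∩ S).card * ∫ t in (0:ℝ)..1, ∏ i ∈ F, phi (t + (i : ℝ) * s)
        = ∫ t in (0:ℝ)..1, ∏ i ∈ F, ((if i ∈ S then (-1 : ℝ) else 1) * phi (t + (i : ℝ) * s)) := by
      intro F _
      rw [← intervalIntegral.integral_const_mul]
      apply intervalIntegral.integral_congr
      intro t _
      simp only
      rw [prod_mul_distrib, prod_ite_mem, prod_const]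
    rw [sum_congr rfl h1, ← intervalIntegral.integral_finsetSum]
    · apply intervalIntegral.integral_nonneg (by norm_num)
      intro t _
      rw [← prod_one_add]
      apply prod_nonneg
      intro i _
      have h := phi_abs (t + (i : ℝ) * s)
      have h2 := abs_le.1 h.le
      split_ifs <;> linarith [h2.1, h2.2]
    · intro F _
      apply C6_int_of_bdd _ _ 1
      · intro t
        rw [Finset.abs_prod]
        apply le_of_eq
        apply Finset.prod_eq_one
        intro i _
        rw [abs_mul, phi_abs]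
        split_ifs <;> simp
      · exact Finset.measurable_prod _ fun i _ =>
          (measurable_phi.comp (measurable_id.add_const _)).const_mul _

theorem C6_phi_int (x : ℝ) (n : ℤ) : phi (x + n) = phi x := by
  unfold phi; rw [Int.fract_add_intCast]

theorem C6_phi_one (x : ℝ) (h0 : 0 ≤ x) (h1 : x < 1 / 2) : phi x = 1 := by
  unfold phi
  rw [Int.fract_eq_self.2 ⟨h0, by linarith⟩, if_pos h1]

theorem C6_phi_neg (x : ℝ) (h0 : 1 / 2 ≤ x) (h1 : x < 1) : phi x = -1 := by
  unfold phi
  rw [Int.fract_eq_self.2 ⟨by linarith, h1⟩, if_neg (by linarith)]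

theorem C6_phi_one' (x : ℝ) (h0 : 1 ≤ x) (h1 : x < 3 / 2) : phi x = 1 := by
  have := phi_periodic (x - 1)
  rw [sub_add_cancel] at this
  rw [this]
  exact C6_phi_one _ (by linarith) (by linarith)

theorem C6_seg (f : ℝ → ℝ) (a b c : ℝ) (hab : a ≤ b) (h : ∀ t, a < t → t < b → f t = c) :
    ∫ t in a..b, f t = c * (b - a) := by
  rw [intervalIntegral.integral_congr_ae (g := fun _ => c)]
  · rw [intervalIntegral.integral_const, smul_eq_mul, mul_comm]
  · rw [Set.uIoc_of_le hab]
    have hb : ∀ᵐ t : ℝ, t ≠ b := by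
      simp [MeasureTheory.ae_iff]
    filter_upwards [hb] with t ht hmem
    exact h t hmem.1 (lt_of_le_of_ne hmem.2 ht)

theorem C6_small (y : ℝ) (h0 : 0 ≤ y) (h1 : y ≤ 1 / 2) :
    ∫ t in (0:ℝ)..1, phi t * phi (t + y) = 1 - 4 * y := by
  have hi : ∀ a b : ℝ, IntervalIntegrable (fun t => phi t * phi (t + y)) MeasureTheory.volume a b := by
    intro a b
    have hm : Measurable (fun t => phi t * phi (t + y)) :=
      measurable_phi.mul (measurable_phi.comp (measurable_id.add_const _))
    apply C6_int_of_bdd _ hm 1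
    intro t
    rw [abs_mul, phi_abs, phi_abs, one_mul]
  rw [← intervalIntegral.integral_add_adjacent_intervals (hi 0 (1/2)) (hi (1/2) 1),
    ← intervalIntegral.integral_add_adjacent_intervals (hi 0 (1/2 - y)) (hi (1/2 - y) (1/2)),
    ← intervalIntegral.integral_add_adjacent_intervals (hi (1/2) (1 - y)) (hi (1 - y) 1),
    C6_seg _ 0 (1/2 - y) 1 (by linarith), C6_seg _ (1/2 - y) (1/2) (-1) (by linarith),
    C6_seg _ (1/2) (1 - y) 1 (by linarith), C6_seg _ (1 - y) 1 (-1) (by linarith)]
  · ring
  · intro t ht1 ht2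
    rw [C6_phi_neg t (by linarith) (by linarith), C6_phi_one' _ (by linarith) (by linarith)]
    ring
  · intro t ht1 ht2
    rw [C6_phi_neg t (by linarith) (by linarith), C6_phi_neg _ (by linarith) (by linarith)]
    ring
  · intro t ht1 ht2
    rw [C6_phi_one t (by linarith) (by linarith), C6_phi_neg _ (by linarith) (by linarith)]
    ring
  · intro t ht1 ht2
    rw [C6_phi_one t (by linarith) (by linarith), C6_phi_one _ (by linarith) (by linarith)]
    ring

theorem C6_nrm_small (y : ℝ) (h0 : 0 ≤ y) (h1 : y ≤ 1 / 2) : nrm y = y := by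
  unfold nrm
  have h := (AddCircle.norm_coe_eq_abs_iff (p := (1 : ℝ)) (x := y) one_ne_zero).2 (by
    rw [abs_of_nonneg h0, abs_one]; exact h1)
  rw [abs_of_nonneg h0] at h
  exact h

theorem C6_nrm_neg (y : ℝ) : nrm (-y) = nrm y := by
  unfold nrm
  rw [AddCircle.coe_neg, norm_neg]

theorem C6_nrm_int (y : ℝ) (n : ℤ) : nrm (y + n) = nrm y := by
  unfold nrm
  have : ((n : ℝ) : UnitAddCircle) = 0 := by
    have := AddCircle.coe_zsmul (p := (1 : ℝ)) (n := n) (x := (1 : ℝ))
    rw [AddCircle.coe_period, smul_zero] at this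
    rw [← this]; simp
  rw [AddCircle.coe_add, this, add_zero]

theorem int_phi_phi (x : ℝ) : ∫ t in (0:ℝ)..1, phi t * phi (t + x) = 1 - 4 * nrm x := by
  have hx : x = Int.fract x + (⌊x⌋ : ℤ) := (Int.fract_add_floor x).symm
  set y := Int.fract x with hy
  have hy0 : 0 ≤ y := Int.fract_nonneg x
  have hy1 : y < 1 := Int.fract_lt_one x
  have e1 : ∀ t, phi (t + x) = phi (t + y) := by
    intro t
    have h := C6_phi_int (t + y) ⌊x⌋
    rw [← h]; congr 1; linarith
  have e2 : nrm x = nrm y := by
    have h := C6_nrm_int y ⌊x⌋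
    rw [← h]; congr 1
  rw [e2]
  simp_rw [e1]
  rcases le_total y (1 / 2) with h | h
  · rw [C6_small y hy0 h, C6_nrm_small y hy0 h]
  · have hz0 : 0 ≤ 1 - y := by linarith
    have hz1 : 1 - y ≤ 1 / 2 := by linarith
    have e3 : nrm y = 1 - y := by
      have h1 := C6_nrm_small (1 - y) hz0 hz1
      have h2 := C6_nrm_int (-y) 1
      have h3 := C6_nrm_neg y
      rw [← h3, ← h2]
      rw [← h1]
      congr 1
      push_cast; ring
    rw [e3, ← C6_small (1 - y) hz0 hz1]
    set H : ℝ → ℝ := fun t => phi t * phi (t + (1 - y)) with hH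
    have hper : Function.Periodic H 1 := by
      intro t
      simp only [hH]
      rw [phi_periodic, show t + 1 + (1 - y) = t + (1 - y) + 1 by ring, phi_periodic]
    have h4 := hper.intervalIntegral_add_eq (0 + (y - 1)) 0
    have h5 := intervalIntegral.integral_comp_add_right (a := 0) (b := 1) H (y - 1)
    have h6 : ∀ t, phi t * phi (t + y) = H (t + (y - 1)) := by
      intro t
      simp only [hH]
      have h7 := phi_periodic (t + (y - 1))
      rw [show t + (y - 1) + 1 = t + y by ring] at h7
      rw [show t + (y - 1) + (1 - y) = t by ring, ← h7, mul_comm]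
    simp_rw [h6]
    rw [h5, show (1 : ℝ) + (y - 1) = 0 + (y - 1) + 1 by ring, h4, zero_add]

theorem rot_pair (s : ℝ) (a : ℕ) (ha : 0 < a) : rot s {0, a} = 1 - 4 * nrm (a * s) := by
  unfold rot
  rw [← int_phi_phi]
  apply intervalIntegral.integral_congr
  intro t _
  simp only
  rw [prod_pair (by omega)]
  simp

end Pool.Agent.Lib.MP_f6c41f_nt
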