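import Pool.Agent.Lib.MP_f6c41f_nt.C6

/-!
# MP_f6c41f_nt, module C7

Continuity: `|rot s F - rot s' F| ≤ ∑_F ∫ |phi (t + i s) - phi (t + i s')| dt ≤ ∑_F 8 i |s - s'|`
(`∫ |phi (t + x) - phi t| dt = 1 - ∫ phi phi(.+x)` up to the factor, by `int_phi_phi` and
translation: `|phi u - phi v| = 1 - phi u phi v`, so the integral is `4 nrm (i (s - s')) `).
Even: `phi (-x) = - phi x` except when `2x` is an integer (null set of `t`), change `t → -t`,
periodicity; `|F|` even kills the sign.  Last: swap the integrals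
(`intervalIntegral_integral_swap` / `MeasureTheory.integral_integral_swap`), bounded measurable.
-/

set_option autoImplicit false

namespace Pool.Agent.Lib.MP_f6c41f_nt

open Finset Filter Topology

theorem C7_phi_cases (x : ℝ) : phi x = 1 ∨ phi x = -1 := by
  unfold phi
  split_ifs
  · left; rfl
  · right; rfl

theorem C7_phi_nat (x : ℝ) (n : ℕ) : phi (x + n) = phi x := by
  induction n with
  | zero => simp
  | succ n ih =>
    push_cast
    rw [← add_assoc, phi_periodic, ih]

theorem C7_phi_half (x : ℝ) : phi (x + 1 / 2) = - phi x := by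
  unfold phi
  have h0 := Int.fract_nonneg x
  have h1 := Int.fract_lt_one x
  by_cases h : Int.fract x < 1 / 2
  · have h2 : Int.fract (x + 1 / 2) = Int.fract x + 1 / 2 := by
      rw [Int.fract_eq_iff]
      refine ⟨by linarith, by linarith, ⌊x⌋, ?_⟩
      rw [Int.fract]; ring
    rw [h2, if_pos h, if_neg (by linarith)]
  · have h2 : Int.fract (x + 1 / 2) = Int.fract x - 1 / 2 := by
      rw [Int.fract_eq_iff]
      refine ⟨by linarith, by linarith, ⌊x⌋ + 1, ?_⟩
      push_cast
      rw [Int.fract]; ring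
    rw [h2, if_neg h, if_pos (by linarith)]
    norm_num

theorem C7_phi_neg (x : ℝ) (hx : ∀ m : ℤ, 2 * x ≠ m) : phi (-x) = - phi x := by
  unfold phi
  have h0 := Int.fract_nonneg x
  have h1 := Int.fract_lt_one x
  have hne0 : Int.fract x ≠ 0 := by
    intro h
    apply hx (2 * ⌊x⌋)
    push_cast
    rw [Int.fract] at h
    linarith
  have hne1 : Int.fract x ≠ 1 / 2 := by
    intro h
    apply hx (2 * ⌊x⌋ + 1)
    push_cast
    rw [Int.fract] at h
    linarith
  rw [Int.fract_neg hne0]
  by_cases h : Int.fract x < 1 / 2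
  · rw [if_pos h, if_neg (by linarith)]
  · have : 1 / 2 < Int.fract x := lt_of_le_of_ne (not_lt.1 h) (Ne.symm hne1)
    rw [if_neg h, if_pos (by linarith)]
    norm_num

theorem C7_abs_sub (x y : ℝ) : |phi x - phi y| = 1 - phi x * phi y := by
  rcases C7_phi_cases x with h | h <;> rcases C7_phi_cases y with h' | h' <;> rw [h, h'] <;>
    norm_num

theorem C7_meas_prod (F : Finset ℕ) (s : ℝ) :
    Measurable fun t : ℝ => ∏ i ∈ F, phi (t + (i : ℝ) * s) := by
  apply Finset.measurable_prod
  intro i _
  exact measurable_phi.comp (measurable_id.add_const _)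

theorem C7_abs_prod (F : Finset ℕ) (f : ℕ → ℝ) : |∏ i ∈ F, phi (f i)| = 1 := by
  rw [Finset.abs_prod]
  exact Finset.prod_eq_one fun i _ => phi_abs _

open MeasureTheory in
theorem C7_int (f : ℝ → ℝ) (hf : Measurable f) (C : ℝ) (hC : ∀ t, |f t| ≤ C) (a b : ℝ) :
    IntervalIntegrable f volume a b := by
  rw [intervalIntegrable_iff]
  have : IsFiniteMeasure (volume.restrict (Set.uIoc a b)) := by
    constructor
    rw [Measure.restrict_apply_univ]
    exact measure_Ioc_lt_top
  exact Integrable.of_bound hf.aestronglyMeasurable C (Filter.Eventually.of_forall fun t => hC t)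

theorem C7_prod_sub (F : Finset ℕ) (a b : ℕ → ℝ) (ha : ∀ i, |a i| ≤ 1) (hb : ∀ i, |b i| ≤ 1) :
    |∏ i ∈ F, a i - ∏ i ∈ F, b i| ≤ ∑ i ∈ F, |a i - b i| := by
  classical
  induction F using Finset.induction_on with
  | empty => simp
  | insert j F hj ih =>
    rw [Finset.prod_insert hj, Finset.prod_insert hj, Finset.sum_insert hj]
    have h1 : a j * ∏ i ∈ F, a i - b j * ∏ i ∈ F, b i =
        (a j - b j) * ∏ i ∈ F, a i + b j * (∏ i ∈ F, a i - ∏ i ∈ F, b i) := by ring
    rw [h1]
    refine (abs_add_le _ _).trans ?_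
    rw [abs_mul, abs_mul]
    have h2 : |∏ i ∈ F, a i| ≤ 1 := by
      rw [Finset.abs_prod]
      exact Finset.prod_le_one (fun i _ => abs_nonneg _) fun i _ => ha i
    have h3 := abs_nonneg (a j - b j)
    have h4 := hb j
    have h5 := abs_nonneg (∏ i ∈ F, a i - ∏ i ∈ F, b i)
    have h6 := abs_nonneg (b j)
    nlinarith

theorem C7_nrm_le (x : ℝ) : nrm x ≤ |x| := by
  unfold nrm
  rw [UnitAddCircle.norm_eq]
  simpa using round_le x 0

theorem C7_per_shift (G : ℝ → ℝ) (hG : ∀ t, G (t + 1) = G t) (x : ℝ) :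
    ∫ t in (0:ℝ)..1, G (t + x) = ∫ t in (0:ℝ)..1, G t := by
  have hp : Function.Periodic G 1 := hG
  rw [intervalIntegral.integral_comp_add_right]
  have := hp.intervalIntegral_add_eq (0 + x) 0
  rw [zero_add, zero_add] at this
  rw [zero_add, add_comm (1 : ℝ) x, this]

theorem C7_pair (x y : ℝ) : ∫ t in (0:ℝ)..1, |phi (t + x) - phi (t + y)| ≤ 4 * |x - y| := by
  have h1 : ∀ t, |phi (t + x) - phi (t + y)| =
      1 - (fun u => phi u * phi (u + (x - y))) (t + y) := by
    intro t
    rw [C7_abs_sub]
    simp only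
    rw [mul_comm]
    congr 2
    congr 1
    ring
  have h2 : ∫ t in (0:ℝ)..1, |phi (t + x) - phi (t + y)| =
      1 - ∫ t in (0:ℝ)..1, (fun u => phi u * phi (u + (x - y))) (t + y) := by
    rw [intervalIntegral.integral_congr (fun t _ => h1 t), intervalIntegral.integral_sub]
    · simp
    · exact intervalIntegrable_const
    · apply C7_int _ _ 1
      · intro t
        simp only [abs_mul, phi_abs]
        norm_num
      · exact (measurable_phi.comp (measurable_id.add_const _)).mul
          (measurable_phi.comp ((measurable_id.add_const _).add_const _))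
  rw [h2, C7_per_shift (fun u => phi u * phi (u + (x - y))), int_phi_phi]
  · have := C7_nrm_le (x - y)
    linarith
  · intro t
    have e : t + 1 + (x - y) = t + (x - y) + 1 := by ring
    change phi (t + 1) * phi (t + 1 + (x - y)) = phi t * phi (t + (x - y))
    rw [e, phi_periodic, phi_periodic]

theorem rot_continuous (F : Finset ℕ) : Continuous fun s => rot s F := by
  have key : ∀ s s', |rot s F - rot s' F| ≤ (∑ i ∈ F, 4 * (i : ℝ)) * |s - s'| := by
    intro s s'
    unfold rot
    rw [← intervalIntegral.integral_sub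
      (C7_int _ (C7_meas_prod F s) 1 (fun t => (C7_abs_prod F _).le) 0 1)
      (C7_int _ (C7_meas_prod F s') 1 (fun t => (C7_abs_prod F _).le) 0 1)]
    have hint : ∀ i ∈ F, IntervalIntegrable (fun t => |phi (t + (i : ℝ) * s) - phi (t + (i : ℝ) * s')|)
        MeasureTheory.volume 0 1 := by
      intro i _
      apply C7_int _ _ 2
      · intro t
        rw [abs_abs]
        refine (abs_sub _ _).trans ?_
        rw [phi_abs, phi_abs]; norm_num
      · exact ((measurable_phi.comp (measurable_id.add_const _)).sub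
          (measurable_phi.comp (measurable_id.add_const _))).abs
    calc |∫ t in (0:ℝ)..1, (∏ i ∈ F, phi (t + (i : ℝ) * s) - ∏ i ∈ F, phi (t + (i : ℝ) * s'))|
        ≤ ∫ t in (0:ℝ)..1, |∏ i ∈ F, phi (t + (i : ℝ) * s) - ∏ i ∈ F, phi (t + (i : ℝ) * s')| :=
          intervalIntegral.abs_integral_le_integral_abs zero_le_one
      _ ≤ ∫ t in (0:ℝ)..1, ∑ i ∈ F, |phi (t + (i : ℝ) * s) - phi (t + (i : ℝ) * s')| := by
          apply intervalIntegral.integral_mono_on zero_le_one
          · apply C7_int _ _ 2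
            · intro t
              rw [abs_abs]
              refine (abs_sub _ _).trans ?_
              rw [C7_abs_prod, C7_abs_prod]; norm_num
            · exact ((C7_meas_prod F s).sub (C7_meas_prod F s')).abs
          · have h := IntervalIntegrable.sum F hint
            have e : (∑ i ∈ F, fun t => |phi (t + (i : ℝ) * s) - phi (t + (i : ℝ) * s')|) =
                fun t => ∑ i ∈ F, |phi (t + (i : ℝ) * s) - phi (t + (i : ℝ) * s')| := by
              funext u
              rw [Finset.sum_apply]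
            rwa [e] at h
          · intro t _
            exact C7_prod_sub F _ _ (fun i => (phi_abs _).le) (fun i => (phi_abs _).le)
      _ = ∑ i ∈ F, ∫ t in (0:ℝ)..1, |phi (t + (i : ℝ) * s) - phi (t + (i : ℝ) * s')| :=
          intervalIntegral.integral_finsetSum hint
      _ ≤ ∑ i ∈ F, 4 * (i : ℝ) * |s - s'| := by
          apply Finset.sum_le_sum
          intro i _
          refine (C7_pair _ _).trans ?_
          rw [← mul_sub, abs_mul, Nat.abs_cast, mul_assoc]
      _ = (∑ i ∈ F, 4 * (i : ℝ)) * |s - s'| := by rw [Finset.sum_mul]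
  have hK : 0 ≤ ∑ i ∈ F, 4 * (i : ℝ) := Finset.sum_nonneg fun i _ => by positivity
  have : LipschitzWith ⟨∑ i ∈ F, 4 * (i : ℝ), hK⟩ fun s => rot s F :=
    LipschitzWith.of_dist_le_mul fun s s' => by
      rw [Real.dist_eq, Real.dist_eq]; exact key s s'
  exact this.continuous

theorem rot_periodic (F : Finset ℕ) (s : ℝ) : rot (s + 1) F = rot s F := by
  unfold rot
  apply intervalIntegral.integral_congr
  intro t _
  apply Finset.prod_congr rfl
  intro i _
  have : t + (i : ℝ) * (s + 1) = t + (i : ℝ) * s + i := by ring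
  rw [this, C7_phi_nat]

theorem C7_prod_per (F : Finset ℕ) (s t : ℝ) :
    ∏ i ∈ F, phi (t + 1 + (i : ℝ) * s) = ∏ i ∈ F, phi (t + (i : ℝ) * s) := by
  apply Finset.prod_congr rfl
  intro i _
  have : t + 1 + (i : ℝ) * s = t + (i : ℝ) * s + 1 := by ring
  rw [this, phi_periodic]

open MeasureTheory in
theorem rot_even (F : Finset ℕ) (hF : Even F.card) (s : ℝ) : rot (-s) F = rot s F := by
  have h1 : rot (-s) F = ∫ t in (0:ℝ)..1, ∏ i ∈ F, phi (-t + (i : ℝ) * (-s)) := by
    have h2 : ∫ t in (0:ℝ)..1, (fun u => ∏ i ∈ F, phi (u + (i : ℝ) * (-s))) (-t) =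
        ∫ t in (-1:ℝ)..(-0), (fun u => ∏ i ∈ F, phi (u + (i : ℝ) * (-s))) t :=
      intervalIntegral.integral_comp_neg (a := 0) (b := 1)
        (fun u : ℝ => ∏ i ∈ F, phi (u + (i : ℝ) * (-s)))
    have hp : Function.Periodic (fun u : ℝ => ∏ i ∈ F, phi (u + (i : ℝ) * (-s))) 1 :=
      fun t => C7_prod_per F (-s) t
    have h3 := hp.intervalIntegral_add_eq (-1) 0
    have e1 : (-1 : ℝ) + 1 = -0 := by norm_num
    have e2 : (0 : ℝ) + 1 = 1 := by norm_num
    rw [e1, e2] at h3
    exact (h2.trans h3).symm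
  rw [h1]
  unfold rot
  apply intervalIntegral.integral_congr_ae
  have hcount : (⋃ i ∈ F, ⋃ m : ℤ, {t : ℝ | 2 * (t + (i : ℝ) * s) = m}).Countable := by
    apply Set.Countable.biUnion F.countable_toSet
    intro i _
    apply Set.countable_iUnion
    intro m
    apply Set.Subsingleton.countable
    intro x hx y hy
    change 2 * (x + (i : ℝ) * s) = m at hx
    change 2 * (y + (i : ℝ) * s) = m at hy
    linarith
  have hnull := hcount.measure_zero volume
  rw [measure_eq_zero_iff_ae_notMem] at hnull
  filter_upwards [hnull] with t ht _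
  have h4 : ∏ i ∈ F, phi (-t + (i : ℝ) * (-s)) = ∏ i ∈ F, (-1) * phi (t + (i : ℝ) * s) := by
    apply Finset.prod_congr rfl
    intro i hi
    have e : -t + (i : ℝ) * (-s) = -(t + (i : ℝ) * s) := by ring
    rw [e, C7_phi_neg, neg_one_mul]
    intro m hm
    apply ht
    exact Set.mem_biUnion hi (Set.mem_iUnion.2 ⟨m, hm⟩)
  rw [h4, Finset.prod_mul_distrib, Finset.prod_const, hF.neg_one_pow, one_mul]

open MeasureTheory in
theorem rot_int (F : Finset ℕ) : ∫ s in (0:ℝ)..1, rot s F = torus F := by
  unfold rot torus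
  apply MeasureTheory.intervalIntegral_intervalIntegral_swap
  have hfin : IsFiniteMeasure ((volume.restrict (Set.uIoc (0:ℝ) 1)).prod
      (volume.restrict (Set.uIoc (0:ℝ) 1))) := by
    have : IsFiniteMeasure (volume.restrict (Set.uIoc (0:ℝ) 1)) := by
      constructor
      rw [Measure.restrict_apply_univ]
      exact measure_Ioc_lt_top
    infer_instance
  rw [IntegrableOn, Measure.volume_eq_prod, ← Measure.prod_restrict]
  refine Integrable.of_bound (C := 1) ?_ ?_
  · apply Measurable.aestronglyMeasurable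
    apply Finset.measurable_prod
    intro i _
    exact measurable_phi.comp (measurable_snd.add (measurable_fst.const_mul _))
  · exact Filter.Eventually.of_forall fun p => (C7_abs_prod F _).le

theorem rot_odd (F : Finset ℕ) (hF : Odd F.card) (s : ℝ) : rot s F = 0 := by
  have h1 := C7_per_shift (fun t => ∏ i ∈ F, phi (t + (i : ℝ) * s)) (fun t => C7_prod_per F s t)
    (1 / 2)
  have h2 : ∀ t : ℝ, (fun t => ∏ i ∈ F, phi (t + (i : ℝ) * s)) (t + 1 / 2) =
      -∏ i ∈ F, phi (t + (i : ℝ) * s) := by
    intro t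
    simp only
    have : ∀ i ∈ F, phi (t + 1 / 2 + (i : ℝ) * s) = (-1) * phi (t + (i : ℝ) * s) := by
      intro i _
      have e : t + 1 / 2 + (i : ℝ) * s = t + (i : ℝ) * s + 1 / 2 := by ring
      rw [e, C7_phi_half, neg_one_mul]
    rw [Finset.prod_congr rfl this, Finset.prod_mul_distrib, Finset.prod_const, hF.neg_one_pow,
      neg_one_mul]
  rw [intervalIntegral.integral_congr (fun t _ => h2 t), intervalIntegral.integral_neg] at h1
  unfold rot
  linarith

theorem torus_odd (F : Finset ℕ) (hF : Odd F.card) : torus F = 0 := by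
  rw [← rot_int]
  simp only [rot_odd F hF]
  simp

end Pool.Agent.Lib.MP_f6c41f_nt
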