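import Mathlib

/-!
# MP_f6c41f_nt: definitions for the four-point rigidity theorem

`phi` is the step function of the problem, `torus F` the integral `B(h)` for the finite set of
shifts `F`, `rot s F` the inner integral (rotation by `s`).  A function `c` on finite sets of
naturals is a `Stat` if it is the family of correlations `E[∏ i ∈ F, x i]` of a stationary
`±1`-valued process.
-/

set_option autoImplicit false

namespace Pool.Agent.Lib.MP_f6c41f_nt

open Finset

/-- `φ = 1` on `[0,1/2)` and `-1` on `[1/2,1)`, with period `1`. -/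
noncomputable def phi (x : ℝ) : ℝ := if Int.fract x < 1 / 2 then 1 else -1

/-- The correlations of `φ` along the rotation by `s`. -/
noncomputable def rot (s : ℝ) (F : Finset ℕ) : ℝ :=
  ∫ t in (0:ℝ)..1, ∏ i ∈ F, phi (t + (i : ℝ) * s)

/-- The correlations of the torus model. -/
noncomputable def torus (F : Finset ℕ) : ℝ :=
  ∫ t in (0:ℝ)..1, ∫ s in (0:ℝ)..1, ∏ i ∈ F, phi (t + (i : ℝ) * s)

/-- The mean of the first `N` terms of a sequence. -/
noncomputable def mean (g : ℕ → ℝ) (N : ℕ) : ℝ := (∑ n ∈ range N, g n) / N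

/-- The family `c F = E[∏ i ∈ F, x i]` of a stationary `±1`-valued process `(x i)`. -/
structure Stat (c : Finset ℕ → ℝ) : Prop where
  empty : c ∅ = 1
  shift : ∀ F : Finset ℕ, c (F.map (addRightEmbedding 1)) = c F
  pos : ∀ W S : Finset ℕ, 0 ≤ ∑ F ∈ W.powerset, (-1 : ℝ) ^ (F ∩ S).card * c F

/-- The autocorrelation of `c` at lag `a`. -/
noncomputable def cor (c : Finset ℕ → ℝ) (a : ℤ) : ℝ := if a = 0 then 1 else c {0, a.natAbs}

/-- `θ = (1 - r) / 4`. -/
noncomputable def ang (c : Finset ℕ → ℝ) (a : ℤ) : ℝ := (1 - cor c a) / 4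

/-- The distance of `x` to the nearest integer, as a norm on the circle. -/
noncomputable def nrm (x : ℝ) : ℝ := ‖(x : UnitAddCircle)‖

/-- An invariant metric `θ (i - j)` on the integers that satisfies the triangle inequalities of
four points on a circle of length one, with the doubling relation. -/
structure Met (θ : ℤ → ℝ) : Prop where
  zero : θ 0 = 0
  neg : ∀ a, θ (-a) = θ a
  nonneg : ∀ a, 0 ≤ θ a
  add : ∀ a b, θ (a + b) ≤ θ a + θ b
  per : ∀ a b, θ a + θ b + θ (a + b) ≤ 1
  dbl : ∀ a, θ (2 * a) = min (2 * θ a) (1 - 2 * θ a)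

/-- The Liouville function on the integers, `(-1)^Ω(|n|)`. -/
noncomputable def lam (n : ℤ) : ℝ := (-1 : ℝ) ^ (ArithmeticFunction.cardFactors n.natAbs)

/-- The identity `I(h)` of the problem: the averages of `∏ λ(n + h j)` tend to `B(h)`. -/
def Identity {l : ℕ} (h : Fin l → ℤ) : Prop :=
  Filter.Tendsto (fun N : ℕ => (1 / (N : ℝ)) * ∑ n ∈ Icc 1 N, ∏ j : Fin l, lam ((n : ℤ) + h j))
    Filter.atTop
    (nhds (∫ t in (0:ℝ)..1, ∫ s in (0:ℝ)..1, ∏ j : Fin l, phi (t + (h j : ℝ) * s)))

/-- The finite set of shifts that occur an odd number of times among the `h j - m`. -/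
noncomputable def red {l : ℕ} (h : Fin l → ℤ) (m : ℤ) : Finset ℕ :=
  (univ.image fun j => (h j - m).toNat).filter fun i =>
    Odd (univ.filter fun j => (h j - m).toNat = i).card

/-- The local statistics of `f` in the window `[n, n + B)`. -/
noncomputable def loc (f : ℕ → ℝ) (B n : ℕ) (F : Finset ℕ) : ℝ :=
  (∑ b ∈ range B, ∏ i ∈ F, f (n + b + i)) / B

end Pool.Agent.Lib.MP_f6c41f_nt
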