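import Pool.Agent.Lib.MP_f6c41f_nt.Defs

/-!
# MP_f6c41f_nt, module E1

Fourier series of the triangle wave from Mathlib `hasSum_one_div_nat_pow_mul_cos` (Bernoulli
polynomial `B_2`, `x ∈ [0,1]`): with `S x = ∑_{n ≥ 1} cos (2πnx)/n² = π² (x² - x + 1/6)`, the odd part
is `S x - S (2x)/4 = (π²/8)(1 - 4x)` for `x ∈ [0,1/2]`; both sides are even with period one.
-/

set_option autoImplicit false

namespace Pool.Agent.Lib.MP_f6c41f_nt

open Finset Filter Topology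

theorem E1_sum {x : ℝ} (hx : x ∈ Set.Icc (0 : ℝ) 1) :
    HasSum (fun n : ℕ => 1 / (n : ℝ) ^ 2 * Real.cos (2 * Real.pi * n * x))
      (Real.pi ^ 2 * (x ^ 2 - x + 1 / 6)) := by
  have h := hasSum_one_div_nat_pow_mul_cos (k := 1) one_ne_zero hx
  have hb : (Polynomial.map (algebraMap ℚ ℝ) (Polynomial.bernoulli (2 * 1))).eval x =
      x ^ 2 - x + 6⁻¹ := bernoulliFun_two x
  rw [hb] at h
  have e : Real.pi ^ 2 * (x ^ 2 - x + 1 / 6) =
      (-1 : ℝ) ^ (1 + 1) * (2 * Real.pi) ^ (2 * 1) / 2 / (2 * 1).factorial *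
        (x ^ 2 - x + 6⁻¹) := by
    have hf : (((2 * 1).factorial : ℕ) : ℝ) = 2 := by norm_num [Nat.factorial]
    rw [hf]
    ring
  rw [e]
  exact h

theorem E1_odd {x y : ℝ} (hx : x ∈ Set.Icc (0 : ℝ) 1) (hy : y ∈ Set.Icc (0 : ℝ) 1)
    (k : ℤ) (hxy : y = 2 * x - k) :
    HasSum (fun n : ℕ => 1 / ((2 * n + 1 : ℕ) : ℝ) ^ 2 *
      Real.cos (2 * Real.pi * ((2 * n + 1 : ℕ) : ℝ) * x))
      (Real.pi ^ 2 * (x ^ 2 - x + 1 / 6) - Real.pi ^ 2 * (y ^ 2 - y + 1 / 6) / 4) := by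
  have h1 := E1_sum hx
  have h2 := (E1_sum hy).div_const 4
  have h3 : HasSum (fun n : ℕ => 1 / ((2 * n : ℕ) : ℝ) ^ 2 *
      Real.cos (2 * Real.pi * ((2 * n : ℕ) : ℝ) * x))
      (Real.pi ^ 2 * (y ^ 2 - y + 1 / 6) / 4) := by
    have e : (fun n : ℕ => 1 / ((2 * n : ℕ) : ℝ) ^ 2 *
      Real.cos (2 * Real.pi * ((2 * n : ℕ) : ℝ) * x)) =
      fun n : ℕ => 1 / (n : ℝ) ^ 2 * Real.cos (2 * Real.pi * n * y) / 4 := by
     funext n
     have hc : Real.cos (2 * Real.pi * ((2 * n : ℕ) : ℝ) * x) =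
        Real.cos (2 * Real.pi * (n : ℝ) * y) := by
      rw [hxy]
      have : 2 * Real.pi * ((2 * n : ℕ) : ℝ) * x =
          2 * Real.pi * (n : ℝ) * (2 * x - k) + ((n * k : ℤ) : ℝ) * (2 * Real.pi) := by
        push_cast
        ring
      rw [this, Real.cos_add_int_mul_two_pi]
     rw [hc]
     push_cast
     ring
    rw [e]
    exact h2
  have h4 : Summable (fun n : ℕ => 1 / ((2 * n + 1 : ℕ) : ℝ) ^ 2 *
      Real.cos (2 * Real.pi * ((2 * n + 1 : ℕ) : ℝ) * x)) :=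
    h1.summable.comp_injective (i := fun n : ℕ => 2 * n + 1) (fun a b h => by
      simp only at h
      omega)
  have h5 := HasSum.even_add_odd (f := fun n : ℕ => 1 / (n : ℝ) ^ 2 *
    Real.cos (2 * Real.pi * n * x)) h3 h4.hasSum
  have h6 := h5.unique h1
  have h7 : (∑' n : ℕ, 1 / ((2 * n + 1 : ℕ) : ℝ) ^ 2 *
      Real.cos (2 * Real.pi * ((2 * n + 1 : ℕ) : ℝ) * x)) =
      Real.pi ^ 2 * (x ^ 2 - x + 1 / 6) - Real.pi ^ 2 * (y ^ 2 - y + 1 / 6) / 4 := by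
    linarith
  rw [← h7]
  exact h4.hasSum

theorem E1_nrm_fract (x : ℝ) : nrm x = nrm (Int.fract x) := by
  unfold nrm
  congr 1
  have : x = Int.fract x + ((⌊x⌋ : ℤ) : ℝ) * 1 := by
    rw [mul_one]
    exact (Int.fract_add_floor x).symm
  conv_lhs => rw [this]
  rw [AddCircle.coe_add]
  have h0 : ((((⌊x⌋ : ℤ) : ℝ) * 1 : ℝ) : UnitAddCircle) = 0 := by
    rw [AddCircle.coe_eq_zero_iff]
    exact ⟨⌊x⌋, by simp⟩
  rw [h0, add_zero]

theorem hasSum_tri (x : ℝ) :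
    HasSum (fun k : ℕ => 8 / Real.pi ^ 2 * (Real.cos (2 * Real.pi * ((2 * k + 1 : ℕ) * x)) /
      (2 * k + 1 : ℕ) ^ 2)) (1 - 4 * nrm x) := by
  have hpi : Real.pi ≠ 0 := Real.pi_ne_zero
  set z := Int.fract x with hz
  have hz0 : 0 ≤ z := Int.fract_nonneg x
  have hz1 : z < 1 := Int.fract_lt_one x
  have hcos : ∀ n : ℕ, Real.cos (2 * Real.pi * ((2 * n + 1 : ℕ) * x)) =
      Real.cos (2 * Real.pi * ((2 * n + 1 : ℕ) : ℝ) * z) := by
    intro n
    have : 2 * Real.pi * ((2 * n + 1 : ℕ) * x) = 2 * Real.pi * ((2 * n + 1 : ℕ) : ℝ) * z +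
        (((2 * n + 1 : ℕ) * ⌊x⌋ : ℤ) : ℝ) * (2 * Real.pi) := by
      have hx : x = z + ⌊x⌋ := (Int.fract_add_floor x).symm
      conv_lhs => rw [hx]
      push_cast
      ring
    rw [this, Real.cos_add_int_mul_two_pi]
  rw [E1_nrm_fract, ← hz]
  rcases le_or_gt z (1 / 2) with h | h
  · have hn : nrm z = z := by
      unfold nrm
      rw [UnitAddCircle.norm_eq]
      rcases eq_or_lt_of_le h with h' | h'
      · rw [h']
        have : round (1 / 2 : ℝ) = 1 := by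
          rw [round_eq]
          norm_num
        rw [this]
        norm_num [abs_of_nonpos]
      · have : round z = 0 := by
          rw [round_eq_zero_iff]
          constructor <;> simp <;> linarith
        rw [this]
        simp [abs_of_nonneg hz0]
    have := (E1_odd (x := z) (y := 2 * z) ⟨hz0, hz1.le⟩ ⟨by linarith, by linarith⟩ 0
      (by simp)).mul_left (8 / Real.pi ^ 2)
    rw [hn]
    have e : (fun k : ℕ => 8 / Real.pi ^ 2 * (Real.cos (2 * Real.pi * ((2 * k + 1 : ℕ) * x)) /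
        (2 * k + 1 : ℕ) ^ 2)) = fun n : ℕ => 8 / Real.pi ^ 2 * (1 / ((2 * n + 1 : ℕ) : ℝ) ^ 2 *
        Real.cos (2 * Real.pi * ((2 * n + 1 : ℕ) : ℝ) * z)) := by
      funext n
      rw [hcos]
      ring
    have v : 1 - 4 * z = 8 / Real.pi ^ 2 * (Real.pi ^ 2 * (z ^ 2 - z + 1 / 6) -
        Real.pi ^ 2 * ((2 * z) ^ 2 - 2 * z + 1 / 6) / 4) := by
      field_simp
      ring
    rw [e, v]
    exact this
  · have hn : nrm z = 1 - z := by
      unfold nrm
      rw [UnitAddCircle.norm_eq]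
      have : round z = 1 := by
        rw [round_eq, Int.floor_eq_iff]
        constructor <;> push_cast <;> linarith
      rw [this, abs_sub_comm]
      rw [abs_of_nonneg (by push_cast; linarith)]
      push_cast
      ring
    have := (E1_odd (x := z) (y := 2 * z - 1) ⟨hz0, hz1.le⟩ ⟨by linarith, by linarith⟩ 1
      (by simp)).mul_left (8 / Real.pi ^ 2)
    rw [hn]
    have e : (fun k : ℕ => 8 / Real.pi ^ 2 * (Real.cos (2 * Real.pi * ((2 * k + 1 : ℕ) * x)) /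
        (2 * k + 1 : ℕ) ^ 2)) = fun n : ℕ => 8 / Real.pi ^ 2 * (1 / ((2 * n + 1 : ℕ) : ℝ) ^ 2 *
        Real.cos (2 * Real.pi * ((2 * n + 1 : ℕ) : ℝ) * z)) := by
      funext n
      rw [hcos]
      ring
    have v : 1 - 4 * (1 - z) = 8 / Real.pi ^ 2 * (Real.pi ^ 2 * (z ^ 2 - z + 1 / 6) -
        Real.pi ^ 2 * ((2 * z - 1) ^ 2 - (2 * z - 1) + 1 / 6) / 4) := by
      field_simp
      ring
    rw [e, v]
    exact this

end Pool.Agent.Lib.MP_f6c41f_nt
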