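import Pool.Agent.Lib.MP_f6c41f_nt.E1

/-!
# MP_f6c41f_nt, module E2

Let `D` be the supremum over `a ≥ 1` of the sup-norm distance of `cos (2π a ·)` to the span of the
functions `x ↦ 1 - 4 nrm (k x)`, `k ≥ 1`; `D ≤ 1`.  From `hasSum_tri` at `a x`:
`cos (2πax) = (π²/8)(1 - 4 nrm (a x)) - ∑_{k ≥ 1} cos (2π a(2k+1) x)/(2k+1)²`, so
`dist ≤ D ∑_{k ≥ 1} 1/(2k+1)² = D (π²/8 - 1) ≤ D/4` (uniform tail), `D ≤ D/4`, `D = 0`.
Convenient form: prove by induction on `n` that for every `a` there is a finite combination with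
error `≤ (1/3)^n` (use `∑_{k ≥ 1} (2k+1)^{-2} < 1/4`, cut the series, spare `1/12`).
-/

set_option autoImplicit false

namespace Pool.Agent.Lib.MP_f6c41f_nt

open Finset Filter Topology

/-- The triangle wave of frequency `k + 1`. -/
private noncomputable def tri (k : ℕ) : ℝ → ℝ := fun x => 1 - 4 * nrm (((k + 1 : ℕ) : ℝ) * x)

/-- The weight `1/(2k+1)²`. -/
private noncomputable def wt (k : ℕ) : ℝ := 1 / ((2 * k + 1 : ℕ) : ℝ) ^ 2

private lemma hasSum_wt_cos (y : ℝ) :
    HasSum (fun k : ℕ => wt k * Real.cos (2 * Real.pi * ((2 * k + 1 : ℕ) * y)))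
      (Real.pi ^ 2 / 8 * (1 - 4 * nrm y)) := by
  have h := (hasSum_tri y).mul_left (Real.pi ^ 2 / 8)
  refine h.congr_fun fun k => ?_
  have hpi : Real.pi ≠ 0 := Real.pi_ne_zero
  unfold wt
  field_simp

private lemma nrm_zero : nrm 0 = 0 := by simp [nrm]

private lemma hasSum_wt : HasSum wt (Real.pi ^ 2 / 8) := by
  have h := hasSum_wt_cos 0
  simp only [mul_zero, Real.cos_zero, mul_one, nrm_zero, sub_zero] at h
  exact h

private lemma wt_nonneg (k : ℕ) : 0 ≤ wt k := by unfold wt; positivity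

private lemma wt_zero : wt 0 = 1 := by simp [wt]

private lemma step (n : ℕ) (a : ℕ) (ha : 0 < a) :
    ∃ f ∈ Submodule.span ℝ (Set.range tri), ∀ x : ℝ,
      |Real.cos (2 * Real.pi * (a * x)) - f x| ≤ (1 / 3 : ℝ) ^ n := by
  induction n generalizing a with
  | zero =>
    refine ⟨0, Submodule.zero_mem _, fun x => ?_⟩
    simp only [Pi.zero_apply, sub_zero, pow_zero]
    exact Real.abs_cos_le_one _
  | succ n ih =>
    classical
    have hpos : (0 : ℝ) < (1 / 3 : ℝ) ^ n / 12 := by positivity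
    -- the truncation point
    have hlim : Tendsto (fun N => Real.pi ^ 2 / 8 - ∑ i ∈ range N, wt i) atTop (𝓝 0) := by
      have h1 := (tendsto_const_nhds (x := Real.pi ^ 2 / 8)).sub hasSum_wt.tendsto_sum_nat
      rwa [sub_self] at h1
    obtain ⟨K, hK1, hK2⟩ := ((hlim.eventually (gt_mem_nhds hpos)).and
      (eventually_ge_atTop 1)).exists
    have hih : ∀ k : ℕ, ∃ f ∈ Submodule.span ℝ (Set.range tri), ∀ x : ℝ,
        |Real.cos (2 * Real.pi * (((2 * k + 1) * a : ℕ) * x)) - f x| ≤ (1 / 3 : ℝ) ^ n :=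
      fun k => ih ((2 * k + 1) * a) (by positivity)
    choose F hF1 hF2 using hih
    refine ⟨(Real.pi ^ 2 / 8) • tri (a - 1) - ∑ k ∈ Ico 1 K, wt k • F k, ?_, fun x => ?_⟩
    · refine Submodule.sub_mem _ (Submodule.smul_mem _ _ (Submodule.subset_span ⟨_, rfl⟩)) ?_
      exact Submodule.sum_mem _ fun k _ => Submodule.smul_mem _ _ (hF1 k)
    · -- pointwise estimate
      have htri : tri (a - 1) x = 1 - 4 * nrm (a * x) := by
        unfold tri
        rw [Nat.sub_add_cancel ha]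
      have hs := (hasSum_nat_add_iff' K).mpr (hasSum_wt_cos (a * x))
      have hw := (hasSum_nat_add_iff' K).mpr hasSum_wt
      have htail : ‖Real.pi ^ 2 / 8 * (1 - 4 * nrm (a * x)) -
          ∑ i ∈ range K, wt i * Real.cos (2 * Real.pi * ((2 * i + 1 : ℕ) * (a * x)))‖ ≤
          Real.pi ^ 2 / 8 - ∑ i ∈ range K, wt i := by
        refine hs.norm_le_of_bounded hw fun k => ?_
        rw [Real.norm_eq_abs, abs_mul, abs_of_nonneg (wt_nonneg _)]
        calc wt (k + K) * |Real.cos (2 * Real.pi * ((2 * (k + K) + 1 : ℕ) * (a * x)))|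
            ≤ wt (k + K) * 1 :=
              mul_le_mul_of_nonneg_left (Real.abs_cos_le_one _) (wt_nonneg _)
          _ = wt (k + K) := mul_one _
      have hsplit : ∀ g : ℕ → ℝ, ∑ i ∈ range K, g i = g 0 + ∑ i ∈ Ico 1 K, g i := by
        intro g
        rw [Finset.range_eq_Ico, Finset.sum_eq_sum_Ico_succ_bot (by omega)]
      rw [hsplit] at htail
      have hfirst : wt 0 * Real.cos (2 * Real.pi * ((2 * 0 + 1 : ℕ) * (a * x))) =
          Real.cos (2 * Real.pi * (a * x)) := by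
        rw [wt_zero]; norm_num
      rw [hfirst] at htail
      have hmid : |∑ i ∈ Ico 1 K, wt i * Real.cos (2 * Real.pi * ((2 * i + 1 : ℕ) * (a * x))) -
          ∑ i ∈ Ico 1 K, wt i * F i x| ≤ (1 / 3 : ℝ) ^ n / 4 := by
        rw [← Finset.sum_sub_distrib]
        refine (Finset.abs_sum_le_sum_abs _ _).trans ?_
        have hb : ∀ i ∈ Ico 1 K, |wt i * Real.cos (2 * Real.pi * ((2 * i + 1 : ℕ) * (a * x))) -
            wt i * F i x| ≤ wt i * (1 / 3 : ℝ) ^ n := by
          intro i _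
          rw [← mul_sub, abs_mul, abs_of_nonneg (wt_nonneg _)]
          refine mul_le_mul_of_nonneg_left ?_ (wt_nonneg _)
          have h2 := hF2 i x
          have h3 : (((2 * i + 1) * a : ℕ) : ℝ) * x = ((2 * i + 1 : ℕ) : ℝ) * (a * x) := by
            push_cast; ring
          rw [h3] at h2
          exact h2
        refine (Finset.sum_le_sum hb).trans ?_
        rw [← Finset.sum_mul]
        have hle : ∑ i ∈ range K, wt i ≤ Real.pi ^ 2 / 8 :=
          sum_le_hasSum _ (fun i _ => wt_nonneg i) hasSum_wt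
        rw [hsplit wt, wt_zero] at hle
        have hpi2 : Real.pi ^ 2 ≤ 10 := by
          have h4 := Real.pi_lt_d2
          have h5 := Real.pi_pos
          nlinarith
        have h6 : ∑ i ∈ Ico 1 K, wt i ≤ 1 / 4 := by linarith
        have h7 : (0:ℝ) ≤ (1 / 3 : ℝ) ^ n := by positivity
        calc (∑ i ∈ Ico 1 K, wt i) * (1 / 3 : ℝ) ^ n ≤ 1 / 4 * (1 / 3 : ℝ) ^ n :=
              mul_le_mul_of_nonneg_right h6 h7
          _ = (1 / 3 : ℝ) ^ n / 4 := by ring
      have hval : ((Real.pi ^ 2 / 8) • tri (a - 1) - ∑ k ∈ Ico 1 K, wt k • F k) x =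
          Real.pi ^ 2 / 8 * (1 - 4 * nrm (a * x)) - ∑ i ∈ Ico 1 K, wt i * F i x := by
        rw [Pi.sub_apply, Pi.smul_apply, Finset.sum_apply, htri, smul_eq_mul]
        rfl
      have hpw : (1 / 3 : ℝ) ^ (n + 1) = (1 / 3 : ℝ) ^ n / 3 := by ring
      rw [hval, hpw]
      rw [Real.norm_eq_abs] at htail
      rw [abs_le] at htail hmid ⊢
      constructor <;> linarith [htail.1, htail.2, hmid.1, hmid.2]

theorem cos_approx (a : ℕ) (ha : 0 < a) (ε : ℝ) (hε : 0 < ε) :
    ∃ (A : ℕ) (γ : ℕ → ℝ), ∀ x : ℝ,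
      |Real.cos (2 * Real.pi * (a * x)) - ∑ k ∈ Icc 1 A, γ k * (1 - 4 * nrm (k * x))| ≤ ε := by
  classical
  obtain ⟨n, hn⟩ := exists_pow_lt_of_lt_one hε (by norm_num : (1 / 3 : ℝ) < 1)
  obtain ⟨f, hf, hfx⟩ := step n a ha
  rw [Finsupp.mem_span_range_iff_exists_finsupp] at hf
  obtain ⟨c, rfl⟩ := hf
  refine ⟨c.support.sup id + 1, fun j => c (j - 1), fun x => ?_⟩
  have hsum : ∑ k ∈ Icc 1 (c.support.sup id + 1), c (k - 1) * (1 - 4 * nrm (k * x)) =
      (c.sum fun i a => a • tri i) x := by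
    rw [Finsupp.sum, Finset.sum_apply]
    have h0 : Icc 1 (c.support.sup id + 1) = Ico (0 + 1) (c.support.sup id + 1 + 1) := by
      ext k
      simp only [Finset.mem_Icc, Finset.mem_Ico]
      omega
    have h1 : ∑ k ∈ Icc 1 (c.support.sup id + 1), c (k - 1) * (1 - 4 * nrm (k * x)) =
        ∑ i ∈ range (c.support.sup id + 1), c i * tri i x := by
      rw [h0, ← Finset.sum_Ico_add' (fun k : ℕ => c (k - 1) * (1 - 4 * nrm (k * x))) 0
        (c.support.sup id + 1) 1, ← Finset.range_eq_Ico]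
      refine Finset.sum_congr rfl fun i _ => ?_
      simp only [Nat.add_sub_cancel, tri]
    rw [h1]
    symm
    refine Finset.sum_subset ?_ ?_
    · intro i hi
      rw [Finset.mem_range]
      exact Nat.lt_succ_of_le (Finset.le_sup (f := id) hi)
    · intro i _ hi
      rw [Finsupp.notMem_support_iff] at hi
      simp [hi]
  rw [hsum]
  exact (hfx x).trans hn.le

end Pool.Agent.Lib.MP_f6c41f_nt
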