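import Pool.Agent.Lib.MP_f6c41f_nt.Defs

/-!
# MP_f6c41f_nt, module E3

`G` continuous of period one, even: lift to `C(UnitAddCircle, ℂ)`, `span_fourier_closure_eq_top`
gives a trigonometric polynomial with error `ε`; average over `x → -x`, take real parts: a cosine
polynomial.  (Only Mathlib.)
-/

set_option autoImplicit false

namespace Pool.Agent.Lib.MP_f6c41f_nt

open Finset Filter Topology

theorem even_trig (G : ℝ → ℝ) (hG : Continuous G) (hp : ∀ x, G (x + 1) = G x)
    (he : ∀ x, G (-x) = G x) (ε : ℝ) (hε : 0 < ε) :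
    ∃ (A : ℕ) (γ : ℕ → ℝ), ∀ x : ℝ,
      |G x - ∑ k ∈ range (A + 1), γ k * Real.cos (2 * Real.pi * (k * x))| ≤ ε := by
  classical
  have hper : Function.Periodic (fun x => ((G x : ℝ) : ℂ)) (1 : ℝ) := fun x => by
    simp only [hp]
  let g : C(UnitAddCircle, ℂ) :=
    ⟨hper.lift, continuous_coinduced_dom.mpr (Complex.continuous_ofReal.comp hG)⟩
  have hgx : ∀ x : ℝ, g (x : UnitAddCircle) = ((G x : ℝ) : ℂ) := fun x =>
    hper.lift_coe x
  have hmem : g ∈ (Submodule.span ℂ (Set.range (fourier (T := (1:ℝ))))).topologicalClosure := by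
    rw [span_fourier_closure_eq_top]; trivial
  obtain ⟨p, hp1, hp2⟩ := Metric.mem_closure_iff.mp hmem ε hε
  have hp1' : p ∈ Submodule.span ℂ (Set.range (fourier (T := (1:ℝ)))) := hp1
  rw [Finsupp.mem_span_range_iff_exists_finsupp] at hp1'
  obtain ⟨c, rfl⟩ := hp1'
  have hval : ∀ x : ℝ, (c.sum fun i a => a • (fourier (T := (1:ℝ))) i) (x : UnitAddCircle) =
      ∑ n ∈ c.support, c n * Complex.exp (2 * Real.pi * Complex.I * n * x) := by
    intro x
    rw [Finsupp.sum, ContinuousMap.sum_apply]
    refine Finset.sum_congr rfl fun n _ => ?_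
    rw [ContinuousMap.smul_apply, smul_eq_mul, fourier_coe_apply]
    simp
  have hclose : ∀ x : ℝ,
      ‖((G x : ℝ) : ℂ) - ∑ n ∈ c.support, c n * Complex.exp (2 * Real.pi * Complex.I * n * x)‖
        ≤ ε := by
    intro x
    have h1 := ContinuousMap.dist_apply_le_dist (f := g)
      (g := c.sum fun i a => a • (fourier (T := (1:ℝ))) i) (x : UnitAddCircle)
    rw [hval x, hgx x, Complex.dist_eq] at h1
    exact h1.trans hp2.le
  have hre : ∀ x : ℝ, (∑ n ∈ c.support, c n * Complex.exp (2 * Real.pi * Complex.I * n * x)).re =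
      ∑ n ∈ c.support, ((c n).re * Real.cos (2 * Real.pi * (n * x)) -
        (c n).im * Real.sin (2 * Real.pi * (n * x))) := by
    intro x
    rw [Complex.re_sum]
    refine Finset.sum_congr rfl fun n _ => ?_
    have h2 : (2 * Real.pi * Complex.I * n * x : ℂ) =
        ((2 * Real.pi * (n * x) : ℝ) : ℂ) * Complex.I := by
      push_cast; ring
    rw [h2, Complex.mul_re, Complex.exp_ofReal_mul_I_re, Complex.exp_ofReal_mul_I_im]
  have hre2 : ∀ x : ℝ, |G x - ∑ n ∈ c.support, ((c n).re * Real.cos (2 * Real.pi * (n * x)) -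
        (c n).im * Real.sin (2 * Real.pi * (n * x)))| ≤ ε := by
    intro x
    have h3 := (Complex.abs_re_le_norm _).trans (hclose x)
    rw [Complex.sub_re, Complex.ofReal_re, hre x] at h3
    exact h3
  have hev : ∀ x : ℝ, |G x - ∑ n ∈ c.support, (c n).re * Real.cos (2 * Real.pi * (n * x))| ≤ ε := by
    intro x
    have h4 := hre2 x
    have h5 := hre2 (-x)
    rw [he x] at h5
    have h6 : ∑ n ∈ c.support, ((c n).re * Real.cos (2 * Real.pi * (n * -x)) -
        (c n).im * Real.sin (2 * Real.pi * (n * -x))) =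
        ∑ n ∈ c.support, ((c n).re * Real.cos (2 * Real.pi * (n * x)) +
        (c n).im * Real.sin (2 * Real.pi * (n * x))) := by
      refine Finset.sum_congr rfl fun n _ => ?_
      have h7 : 2 * Real.pi * ((n : ℝ) * -x) = -(2 * Real.pi * (n * x)) := by ring
      rw [h7, Real.cos_neg, Real.sin_neg]; ring
    rw [h6] at h5
    rw [Finset.sum_sub_distrib] at h4
    rw [Finset.sum_add_distrib] at h5
    rw [abs_le] at h4 h5 ⊢
    constructor <;> linarith [h4.1, h4.2, h5.1, h5.2]
  refine ⟨c.support.sup Int.natAbs, fun k => ∑ n ∈ c.support with n.natAbs = k, (c n).re,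
    fun x => ?_⟩
  have hsum : ∑ k ∈ range (c.support.sup Int.natAbs + 1),
      (∑ n ∈ c.support with n.natAbs = k, (c n).re) * Real.cos (2 * Real.pi * (k * x)) =
      ∑ n ∈ c.support, (c n).re * Real.cos (2 * Real.pi * (n * x)) := by
    rw [← Finset.sum_fiberwise_of_maps_to (s := c.support)
      (t := range (c.support.sup Int.natAbs + 1)) (g := Int.natAbs)]
    · refine Finset.sum_congr rfl fun k _ => ?_
      rw [Finset.sum_mul]
      refine Finset.sum_congr rfl fun n hn => ?_
      have hk : n.natAbs = k := (Finset.mem_filter.mp hn).2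
      have h8 : Real.cos (2 * Real.pi * ((k : ℝ) * x)) = Real.cos (2 * Real.pi * ((n : ℝ) * x)) := by
        rcases Int.natAbs_eq n with h9 | h9
        · rw [hk] at h9
          have : (n : ℝ) = (k : ℝ) := by rw [h9]; simp
          rw [this]
        · rw [hk] at h9
          have : (n : ℝ) = -(k : ℝ) := by rw [h9]; simp
          rw [this, ← Real.cos_neg]
          congr 1; ring
      rw [h8]
    · intro n hn
      rw [Finset.mem_range]
      exact Nat.lt_succ_of_le (Finset.le_sup (f := Int.natAbs) hn)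
  rw [hsum]
  exact hev x

end Pool.Agent.Lib.MP_f6c41f_nt
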