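import Pool.Agent.Lib.MP_f6c41f_nt.E2
import Pool.Agent.Lib.MP_f6c41f_nt.E3

/-!
# MP_f6c41f_nt, module E4

`even_trig` with `ε/4`; the constant term differs from `∫ G` by at most `ε/4` (integrate, cosines
have mean zero); replace each cosine `k ≥ 1` by `cos_approx` with small error (distribute
`ε/2` over `∑ |γ k|`).
-/

set_option autoImplicit false

namespace Pool.Agent.Lib.MP_f6c41f_nt

open Finset Filter Topology

theorem E4_int_cos (k : ℕ) (hk : 0 < k) :
    ∫ s in (0:ℝ)..1, Real.cos (2 * Real.pi * (k * s)) = 0 := by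
  have hc : (2 * Real.pi * (k : ℝ)) ≠ 0 := by
    have : (0 : ℝ) < k := by exact_mod_cast hk
    have := Real.pi_pos
    positivity
  have h1 : ∀ s : ℝ, Real.cos (2 * Real.pi * (k * s)) = Real.cos ((2 * Real.pi * k) * s) := by
    intro s; congr 1; ring
  simp_rw [h1]
  rw [intervalIntegral.integral_comp_mul_left (fun x => Real.cos x) hc, integral_cos]
  have h2 : Real.sin (2 * Real.pi * (k : ℝ) * 1) = 0 := by
    rw [show 2 * Real.pi * (k : ℝ) * 1 = ((2 * k : ℕ) : ℝ) * Real.pi by push_cast; ring]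
    exact Real.sin_nat_mul_pi _
  rw [h2]; simp

theorem E4_combine (A : ℕ) (γ : ℕ → ℝ) (B : ℕ → ℕ) (β : ℕ → ℕ → ℝ) (δ : ℝ)
    (hβ : ∀ k ∈ Icc 1 A, ∀ x : ℝ,
      |Real.cos (2 * Real.pi * (k * x)) - ∑ m ∈ Icc 1 (B k), β k m * (1 - 4 * nrm (m * x))| ≤ δ) :
    ∃ (N : ℕ) (η : ℕ → ℝ), ∀ x : ℝ,
      |∑ k ∈ Icc 1 A, γ k * Real.cos (2 * Real.pi * (k * x)) -
        ∑ m ∈ Icc 1 N, η m * (1 - 4 * nrm (m * x))| ≤ (∑ k ∈ Icc 1 A, |γ k|) * δ := by
  set N := (Icc 1 A).sup B with hN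
  refine ⟨N, fun m => ∑ k ∈ Icc 1 A, γ k * (if m ≤ B k then β k m else 0), fun x => ?_⟩
  have h1 : ∑ m ∈ Icc 1 N, (∑ k ∈ Icc 1 A, γ k * (if m ≤ B k then β k m else 0)) *
      (1 - 4 * nrm (m * x)) =
      ∑ k ∈ Icc 1 A, γ k * ∑ m ∈ Icc 1 (B k), β k m * (1 - 4 * nrm (m * x)) := by
    simp_rw [sum_mul]
    rw [sum_comm]
    apply sum_congr rfl
    intro k hk
    rw [mul_sum]
    have hsub : Icc 1 (B k) ⊆ Icc 1 N := Icc_subset_Icc_right (le_sup (f := B) hk)
    rw [← sum_subset hsub]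
    · apply sum_congr rfl
      intro m hm
      rw [if_pos (mem_Icc.1 hm).2]; ring
    · intro m hm hm'
      have : ¬ m ≤ B k := fun h => hm' (mem_Icc.2 ⟨(mem_Icc.1 hm).1, h⟩)
      rw [if_neg this]; ring
  rw [h1, ← sum_sub_distrib, sum_mul]
  refine (abs_sum_le_sum_abs _ _).trans (sum_le_sum fun k hk => ?_)
  rw [← mul_sub, abs_mul]
  exact mul_le_mul_of_nonneg_left (hβ k hk x) (abs_nonneg _)

theorem approx_even (G : ℝ → ℝ) (hG : Continuous G) (hp : ∀ x, G (x + 1) = G x)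
    (he : ∀ x, G (-x) = G x) (ε : ℝ) (hε : 0 < ε) :
    ∃ (A : ℕ) (γ : ℕ → ℝ), ∀ x : ℝ,
      |G x - (∫ s in (0:ℝ)..1, G s) - ∑ k ∈ Icc 1 A, γ k * (1 - 4 * nrm (k * x))| ≤ ε := by
  obtain ⟨A, γ, h⟩ := even_trig G hG hp he (ε / 4) (by linarith)
  -- split off the constant term
  have hsplit : ∀ x : ℝ, ∑ k ∈ range (A + 1), γ k * Real.cos (2 * Real.pi * (k * x)) =
      γ 0 + ∑ k ∈ Icc 1 A, γ k * Real.cos (2 * Real.pi * (k * x)) := by
    intro x
    rw [range_eq_Ico, sum_eq_sum_Ico_succ_bot (by omega)]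
    have : Ico (0 + 1) (A + 1) = Icc 1 A := by ext i; simp only [mem_Ico, mem_Icc]; omega
    rw [this]; simp
  simp_rw [hsplit] at h
  have hci : ∀ k : ℕ, Continuous fun x : ℝ => γ k * Real.cos (2 * Real.pi * (k * x)) := by
    intro k; fun_prop
  -- the integral
  have hint : |(∫ s in (0:ℝ)..1, G s) - γ 0| ≤ ε / 4 := by
    have e1 : (∫ s in (0:ℝ)..1, (γ 0 + ∑ k ∈ Icc 1 A, γ k * Real.cos (2 * Real.pi * (k * s)))) =
        γ 0 := by
      rw [intervalIntegral.integral_add (continuous_const.intervalIntegrable _ _)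
        ((continuous_finsetSum _ fun k _ => hci k).intervalIntegrable _ _),
        intervalIntegral.integral_finsetSum fun k _ => (hci k).intervalIntegrable _ _]
      have e2 : ∑ k ∈ Icc 1 A, ∫ s in (0:ℝ)..1, γ k * Real.cos (2 * Real.pi * (k * s)) = 0 := by
        apply sum_eq_zero
        intro k hk
        rw [intervalIntegral.integral_const_mul, E4_int_cos k (by have := mem_Icc.1 hk; omega),
          mul_zero]
      rw [e2]; simp
    have hc2 : Continuous fun s : ℝ =>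
        γ 0 + ∑ k ∈ Icc 1 A, γ k * Real.cos (2 * Real.pi * (k * s)) :=
      continuous_const.add (continuous_finsetSum _ fun k _ => hci k)
    rw [← e1, ← intervalIntegral.integral_sub (hG.intervalIntegrable _ _)
      (hc2.intervalIntegrable _ _)]
    have := intervalIntegral.norm_integral_le_of_norm_le_const (a := (0:ℝ)) (b := 1) (C := ε / 4)
      (f := fun s => G s - (γ 0 + ∑ k ∈ Icc 1 A, γ k * Real.cos (2 * Real.pi * (k * s))))
      (fun x _ => by rw [Real.norm_eq_abs]; exact h x)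
    rw [Real.norm_eq_abs] at this
    simpa using this
  -- approximate the cosines
  set M := ∑ k ∈ Icc 1 A, |γ k| with hM
  have hM0 : 0 ≤ M := sum_nonneg fun _ _ => abs_nonneg _
  have hδ : 0 < ε / 2 / (M + 1) := by positivity
  have hex : ∀ k : ℕ, ∃ (B : ℕ) (β : ℕ → ℝ), 0 < k → ∀ x : ℝ,
      |Real.cos (2 * Real.pi * (k * x)) - ∑ m ∈ Icc 1 B, β m * (1 - 4 * nrm (m * x))| ≤
        ε / 2 / (M + 1) := by
    intro k
    rcases Nat.eq_zero_or_pos k with rfl | hk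
    · exact ⟨0, fun _ => 0, fun h => absurd h (lt_irrefl _)⟩
    · obtain ⟨B, β, hB⟩ := cos_approx k hk _ hδ
      exact ⟨B, β, fun _ => hB⟩
  choose B β hB using hex
  obtain ⟨N, η, hN⟩ := E4_combine A γ B β _ fun k hk => hB k (by have := mem_Icc.1 hk; omega)
  refine ⟨N, η, fun x => ?_⟩
  have h1 := h x
  have h2 := hN x
  have h3 : M * (ε / 2 / (M + 1)) ≤ ε / 2 := by
    rw [mul_div_assoc', div_le_iff₀ (by linarith)]
    nlinarith
  rw [abs_le] at *
  constructor <;> linarith [h1.1, h1.2, h2.1, h2.2, hint.1, hint.2]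

end Pool.Agent.Lib.MP_f6c41f_nt
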