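import Pool.Agent.Lib.MP_f6c41f_nt.Defs

/-!
# MP_f6c41f_nt, module M1

Riesz-Markov-Kakutani (`RealRMK.rieszMeasure`, `RealRMK.integral_rieszMeasure`, for positive linear
functionals on `C_c(K, ℝ)`, `K` compact) applied to `Λ g = lim_V lim_U mean (fun n => g (Φ B n))`
(limits along ultrafilters of bounded functions exist; linear, positive, `Λ 1 = 1` because `U ≤ atTop`
so `N ≥ 1` eventually).
-/

set_option autoImplicit false

namespace Pool.Agent.Lib.MP_f6c41f_nt

open Finset Filter Topology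

/-- Bounded real functions have limits along ultrafilters. -/
theorem M1_lim {ι : Type} (U : Ultrafilter ι) (u : ι → ℝ) (C : ℝ) (h : ∀ i, |u i| ≤ C) :
    ∃ l : ℝ, Tendsto u U (𝓝 l) ∧ |l| ≤ C := by
  have hc : IsCompact (Set.Icc (-C) C) := isCompact_Icc
  obtain ⟨l, hl, hle⟩ := hc.ultrafilter_le_nhds (U.map u) (by
    rw [Ultrafilter.coe_map, le_principal_iff, Filter.mem_map]
    exact univ_mem' fun i => abs_le.1 (h i))
  exact ⟨l, hle, abs_le.2 hl⟩

theorem M1_mean_abs (g : ℕ → ℝ) (C : ℝ) (hC : 0 ≤ C) (h : ∀ n, |g n| ≤ C) (N : ℕ) :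
    |mean g N| ≤ C := by
  unfold mean
  rcases Nat.eq_zero_or_pos N with rfl | hN
  · simpa using hC
  have hN' : (0 : ℝ) < N := by exact_mod_cast hN
  rw [abs_div, Nat.abs_cast, div_le_iff₀ hN']
  refine (Finset.abs_sum_le_sum_abs _ _).trans ?_
  calc ∑ n ∈ range N, |g n| ≤ ∑ n ∈ range N, C := Finset.sum_le_sum fun n _ => h n
    _ = C * N := by rw [Finset.sum_const, Finset.card_range, nsmul_eq_mul]; ring

open MeasureTheory in
theorem riesz_mean {K : Type} [TopologicalSpace K] [CompactSpace K] [T2Space K]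
    [MeasurableSpace K] [BorelSpace K] (U V : Ultrafilter ℕ) (hU : (U : Filter ℕ) ≤ atTop)
    (Φ : ℕ → ℕ → K) :
    ∃ μ : Measure K, IsProbabilityMeasure μ ∧ ∀ g : C(K, ℝ), ∃ L : ℕ → ℝ,
      (∀ B, Tendsto (fun N => mean (fun n => g (Φ B n)) N) U (𝓝 (L B))) ∧
      Tendsto L V (𝓝 (∫ x, g x ∂μ)) := by
  classical
  have hb : ∀ (g : C(K, ℝ)) (B N : ℕ), |mean (fun n => g (Φ B n)) N| ≤ ‖g‖ := by
    intro g B N
    exact M1_mean_abs _ _ (norm_nonneg g) (fun n => g.norm_coe_le_norm _) N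
  have hex1 : ∀ (g : C(K, ℝ)) (B : ℕ), ∃ l : ℝ,
      Tendsto (fun N => mean (fun n => g (Φ B n)) N) U (𝓝 l) ∧ |l| ≤ ‖g‖ :=
    fun g B => M1_lim U _ _ (hb g B)
  choose L hL hLb using hex1
  have hex2 : ∀ g : C(K, ℝ), ∃ l : ℝ, Tendsto (L g) V (𝓝 l) ∧ |l| ≤ ‖g‖ :=
    fun g => M1_lim V _ _ (hLb g)
  choose Λ hΛ hΛb using hex2
  have hLadd : ∀ f g B, L (f + g) B = L f B + L g B := by
    intro f g B
    apply tendsto_nhds_unique (hL (f + g) B)
    have := (hL f B).add (hL g B)
    refine this.congr fun N => ?_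
    unfold mean
    rw [← add_div, ← Finset.sum_add_distrib]
    rfl
  have hLsmul : ∀ (c : ℝ) g B, L (c • g) B = c * L g B := by
    intro c g B
    apply tendsto_nhds_unique (hL (c • g) B)
    have := (hL g B).const_mul c
    refine this.congr fun N => ?_
    unfold mean
    rw [← mul_div_assoc, Finset.mul_sum]
    rfl
  let lin : C(K, ℝ) →ₗ[ℝ] ℝ :=
    { toFun := Λ
      map_add' := by
        intro f g
        apply tendsto_nhds_unique (hΛ (f + g))
        have := (hΛ f).add (hΛ g)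
        exact this.congr fun B => (hLadd f g B).symm
      map_smul' := by
        intro c g
        apply tendsto_nhds_unique (hΛ (c • g))
        have := (hΛ g).const_mul c
        exact this.congr fun B => (hLsmul c g B).symm }
  have hpos : ∀ g : C(K, ℝ), 0 ≤ g → 0 ≤ lin g := by
    intro g hg
    apply ge_of_tendsto' (hΛ g)
    intro B
    apply ge_of_tendsto' (hL g B)
    intro N
    exact div_nonneg (Finset.sum_nonneg fun n _ => hg _) (Nat.cast_nonneg N)
  have hone : lin 1 = 1 := by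
    have h1 : ∀ B, L 1 B = 1 := by
      intro B
      apply tendsto_nhds_unique (hL 1 B)
      apply tendsto_const_nhds.congr'
      have : ∀ᶠ N in (U : Filter ℕ), 1 ≤ N := hU (eventually_ge_atTop 1)
      filter_upwards [this] with N hN
      have hN' : (N : ℝ) ≠ 0 := by positivity
      unfold mean
      simp [hN']
    apply tendsto_nhds_unique (hΛ 1)
    exact tendsto_const_nhds.congr fun B => (h1 B).symm
  let r : CompactlySupportedContinuousMap K ℝ →ₗ[ℝ] C(K, ℝ) :=
    { toFun := fun f => f.toContinuousMap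
      map_add' := fun _ _ => rfl
      map_smul' := fun _ _ => rfl }
  let Λ' : CompactlySupportedContinuousMap K ℝ →ₚ[ℝ] ℝ :=
    PositiveLinearMap.mk₀ (lin ∘ₗ r) (fun f hf => hpos _ fun x => hf x)
  have hΛ' : ∀ f : C(K, ℝ), lin f = ∫ x, f x ∂(RealRMK.rieszMeasure Λ') := by
    intro f
    have h := RealRMK.integral_rieszMeasure Λ'
      (CompactlySupportedContinuousMap.continuousMapEquiv f)
    exact h.symm
  have hfin : IsFiniteMeasure (RealRMK.rieszMeasure Λ') := inferInstance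
  refine ⟨RealRMK.rieszMeasure Λ', ⟨?_⟩, ?_⟩
  · have h1 := hΛ' 1
    rw [hone] at h1
    have h2 : (∫ x, (1 : C(K, ℝ)) x ∂(RealRMK.rieszMeasure Λ')) =
        (RealRMK.rieszMeasure Λ').real Set.univ := by
      change ∫ _x, (1 : ℝ) ∂(RealRMK.rieszMeasure Λ') = _
      simp
    rw [h2, measureReal_def] at h1
    exact (ENNReal.toReal_eq_one_iff _).1 h1.symm
  · intro g
    refine ⟨L g, hL g, ?_⟩
    rw [← hΛ' g]
    exact hΛ g

end Pool.Agent.Lib.MP_f6c41f_nt
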