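import Pool.Agent.Lib.MP_f6c41f_nt.Defs

/-!
# MP_f6c41f_nt, module M2

Properties of the local statistics `loc f B n` (`B ≥ 1`, `f = ±1`): values in `[-1,1]`; empty;
almost shift invariant; positive; the means of `n ↦ loc f B n F` and of `n ↦ ∏ f (n + i)` have the
same limits (they differ by at most `2 B / N`).
-/

set_option autoImplicit false

namespace Pool.Agent.Lib.MP_f6c41f_nt

open Finset Filter Topology

theorem M2_abs_prod (f : ℕ → ℝ) (hf : ∀ n, f n = 1 ∨ f n = -1) (m : ℕ) (F : Finset ℕ) :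
    |∏ i ∈ F, f (m + i)| = 1 := by
  rw [Finset.abs_prod]
  apply Finset.prod_eq_one
  intro i _
  rcases hf (m + i) with h | h <;> rw [h] <;> simp

theorem loc_abs (f : ℕ → ℝ) (hf : ∀ n, f n = 1 ∨ f n = -1) (B n : ℕ) (F : Finset ℕ) :
    |loc f B n F| ≤ 1 := by
  unfold loc
  rw [abs_div, Nat.abs_cast]
  rcases Nat.eq_zero_or_pos B with rfl | hB
  · simp
  have hB' : (0 : ℝ) < B := by exact_mod_cast hB
  rw [div_le_one hB']
  refine (Finset.abs_sum_le_sum_abs _ _).trans ?_
  simp only [M2_abs_prod f hf]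
  simp

theorem loc_empty (f : ℕ → ℝ) (B n : ℕ) (hB : 0 < B) : loc f B n ∅ = 1 := by
  have hB' : (B : ℝ) ≠ 0 := by positivity
  unfold loc
  simp [hB']

theorem loc_shift (f : ℕ → ℝ) (hf : ∀ n, f n = 1 ∨ f n = -1) (B n : ℕ) (F : Finset ℕ) :
    |loc f B n (F.map (addRightEmbedding 1)) - loc f B n F| ≤ 2 / B := by
  unfold loc
  have h1 : ∀ b, ∏ i ∈ F.map (addRightEmbedding 1), f (n + b + i) =
      ∏ i ∈ F, f (n + (b + 1) + i) := by
    intro b
    rw [Finset.prod_map]
    apply Finset.prod_congr rfl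
    intro i _
    congr 1
    simp only [addRightEmbedding_apply]
    ring
  simp only [h1]
  rw [← sub_div, ← Finset.sum_sub_distrib,
    Finset.sum_range_sub (fun b => ∏ i ∈ F, f (n + b + i)) B, abs_div, Nat.abs_cast]
  apply div_le_div_of_nonneg_right _ (Nat.cast_nonneg B)
  refine (abs_sub _ _).trans ?_
  rw [M2_abs_prod f hf, M2_abs_prod f hf]
  norm_num

theorem loc_pos (f : ℕ → ℝ) (hf : ∀ n, f n = 1 ∨ f n = -1) (B n : ℕ) (W S : Finset ℕ) :
    0 ≤ ∑ F ∈ W.powerset, (-1 : ℝ) ^ (F ∩ S).card * loc f B n F := by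
  unfold loc
  have h1 : ∑ F ∈ W.powerset, (-1 : ℝ) ^ (F ∩ S).card * ((∑ b ∈ range B, ∏ i ∈ F, f (n + b + i)) / B)
      = (∑ b ∈ range B, ∏ i ∈ W, (1 + (if i ∈ S then -1 else 1) * f (n + b + i))) / B := by
    simp only [← mul_div_assoc]
    rw [← Finset.sum_div]
    congr 1
    simp only [Finset.mul_sum]
    rw [Finset.sum_comm]
    apply Finset.sum_congr rfl
    intro b _
    rw [Finset.prod_one_add]
    apply Finset.sum_congr rfl
    intro F _
    rw [Finset.prod_mul_distrib]
    congr 1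
    rw [Finset.prod_ite, Finset.prod_const, Finset.prod_const_one, mul_one,
      Finset.filter_mem_eq_inter]
  rw [h1]
  apply div_nonneg _ (Nat.cast_nonneg B)
  apply Finset.sum_nonneg
  intro b _
  apply Finset.prod_nonneg
  intro i _
  rcases hf (n + b + i) with h | h <;> rw [h] <;> split_ifs <;> norm_num

theorem loc_mean (f : ℕ → ℝ) (hf : ∀ n, f n = 1 ∨ f n = -1) (B : ℕ) (hB : 0 < B) (F : Finset ℕ)
    (N : ℕ) (hN : 0 < N) :
    |mean (fun n => loc f B n F) N - mean (fun n => ∏ i ∈ F, f (n + i)) N| ≤ 2 * B / N := by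
  have hB' : (0 : ℝ) < B := by exact_mod_cast hB
  have hN' : (0 : ℝ) < N := by exact_mod_cast hN
  set g : ℕ → ℝ := fun m => ∏ i ∈ F, f (m + i) with hg
  have hgabs : ∀ m, |g m| = 1 := fun m => M2_abs_prod f hf m F
  -- shifted sums
  have hshift : ∀ b, |∑ n ∈ range N, g (n + b) - ∑ n ∈ range N, g n| ≤ 2 * b := by
    intro b
    induction b with
    | zero => simp
    | succ b ih =>
      have h1 : ∑ n ∈ range N, g (n + (b + 1)) - ∑ n ∈ range N, g (n + b) =
          g (N + b) - g (0 + b) := by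
        rw [← Finset.sum_sub_distrib, ← Finset.sum_range_sub (fun n => g (n + b)) N]
        apply Finset.sum_congr rfl
        intro n _
        congr 2
        ring
      have h2 : |g (N + b) - g (0 + b)| ≤ 2 := by
        refine (abs_sub _ _).trans ?_
        rw [hgabs, hgabs]; norm_num
      have h3 : ∑ n ∈ range N, g (n + (b + 1)) - ∑ n ∈ range N, g n =
          (∑ n ∈ range N, g (n + (b + 1)) - ∑ n ∈ range N, g (n + b)) +
          (∑ n ∈ range N, g (n + b) - ∑ n ∈ range N, g n) := by ring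
      rw [h3, h1]
      refine (abs_add_le _ _).trans ?_
      push_cast
      linarith
  have h1 : mean (fun n => loc f B n F) N - mean g N =
      (∑ b ∈ range B, (∑ n ∈ range N, g (n + b) - ∑ n ∈ range N, g n)) / (B * N) := by
    unfold mean loc
    rw [← Finset.sum_div, Finset.sum_comm, Finset.sum_sub_distrib, Finset.sum_const,
      Finset.card_range, nsmul_eq_mul]
    change (∑ b ∈ range B, ∑ n ∈ range N, g (n + b)) / (B : ℝ) / N - (∑ n ∈ range N, g n) / N = _
    field_simp
  have hfun : (fun n => ∏ i ∈ F, f (n + i)) = g := rfl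
  rw [h1, abs_div, abs_of_pos (show (0 : ℝ) < B * N by positivity),
    div_le_div_iff₀ (by positivity) hN']
  have h2 : |∑ b ∈ range B, (∑ n ∈ range N, g (n + b) - ∑ n ∈ range N, g n)| ≤ 2 * B * B := by
    refine (Finset.abs_sum_le_sum_abs _ _).trans ?_
    calc ∑ b ∈ range B, |∑ n ∈ range N, g (n + b) - ∑ n ∈ range N, g n|
        ≤ ∑ b ∈ range B, 2 * (B : ℝ) := by
          apply Finset.sum_le_sum
          intro b hb
          refine (hshift b).trans ?_
          have : (b : ℝ) ≤ B := by exact_mod_cast (Finset.mem_range.1 hb).le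
          linarith
      _ = 2 * B * B := by
          rw [Finset.sum_const, Finset.card_range, nsmul_eq_mul]; ring
  calc |∑ b ∈ range B, (∑ n ∈ range N, g (n + b) - ∑ n ∈ range N, g n)| * N
      ≤ 2 * B * B * N := mul_le_mul_of_nonneg_right h2 hN'.le
    _ = 2 * B * (B * N) := by ring

theorem loc_pair (f : ℕ → ℝ) (B n a : ℕ) (ha : 0 < a) :
    loc f B n {0, a} = (∑ b ∈ range B, f (n + b) * f (n + b + a)) / B := by
  unfold loc
  congr 1
  apply Finset.sum_congr rfl
  intro b _
  rw [Finset.prod_pair ha.ne, add_zero]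

end Pool.Agent.Lib.MP_f6c41f_nt
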