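import Pool.Agent.Lib.MP_f6c41f_nt.M1
import Pool.Agent.Lib.MP_f6c41f_nt.M2

/-!
# MP_f6c41f_nt, module M3

`K = Finset ℕ → Set.Icc (-1:ℝ) 1` (compact, metrizable, Borel = product σ-algebra), `Φ B n F =
loc f (B+1) n F` (or use `B ≥ 1` eventually along a nonprincipal `V`), `μ` = image of the Riesz measure
under the coordinate inclusion into `Finset ℕ → ℝ`.  Each closed condition of `Stat` has a continuous
defect `≥ 0` with `Λ = 0` (`loc_empty`, `loc_shift` with `2/B → 0`, `loc_pos` with
`max 0 (-(...)) = 0`), so it holds almost everywhere; countably many conditions.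
Third item: `loc_mean`.  Fourth: the integral of `(c {0,a})²` is the `V`-limit of the `U`-limits of the
means of `(loc f B n {0,a})²`, each at least `δ` (`loc_pair`; the case `a = 0` is trivial or excluded).
-/

set_option autoImplicit false

namespace Pool.Agent.Lib.MP_f6c41f_nt

open Finset Filter Topology

/-- the compact space of families with values in `[-1,1]` -/
abbrev M3K : Type := Finset ℕ → Set.Icc (-1 : ℝ) 1

/-- the local statistics as points of `M3K` -/
noncomputable def M3Phi (f : ℕ → ℝ) (hf : ∀ n, f n = 1 ∨ f n = -1) (B n : ℕ) : M3K :=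
  fun F => ⟨loc f (B + 1) n F, abs_le.1 (loc_abs f hf (B + 1) n F)⟩

/-- the inclusion -/
noncomputable def M3inc (x : M3K) : Finset ℕ → ℝ := fun F => (x F : ℝ)

theorem M3inc_cont : Continuous M3inc :=
  continuous_pi fun F => continuous_subtype_val.comp (continuous_apply F)

theorem M3inc_meas : Measurable M3inc :=
  measurable_pi_lambda _ fun F => measurable_subtype_coe.comp (measurable_pi_apply F)

open MeasureTheory in
theorem M3_zero {K : Type} [TopologicalSpace K] [CompactSpace K] [T2Space K]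
    [MeasurableSpace K] [BorelSpace K] (U V : Ultrafilter ℕ) (hV : (V : Filter ℕ) ≤ atTop)
    (Φ : ℕ → ℕ → K) (μ : Measure K) [IsProbabilityMeasure μ]
    (hμ : ∀ g : C(K, ℝ), ∃ L : ℕ → ℝ,
      (∀ B, Tendsto (fun N => mean (fun n => g (Φ B n)) N) U (𝓝 (L B))) ∧
      Tendsto L V (𝓝 (∫ x, g x ∂μ))) (g : C(K, ℝ)) (hg : ∀ x, 0 ≤ g x) (ε : ℕ → ℝ)
    (hε : Tendsto ε atTop (𝓝 0)) (h : ∀ B n, g (Φ B n) ≤ ε B) : ∀ᵐ x ∂μ, g x = 0 := by
  obtain ⟨L, h1, h2⟩ := hμ g
  have hL : ∀ B, L B ≤ ε B := by
    intro B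
    refine le_of_tendsto' (h1 B) (fun N => ?_)
    unfold mean
    rcases Nat.eq_zero_or_pos N with rfl | hN
    · simp only [Finset.range_zero, Finset.sum_empty, zero_div]
      exact (hg _).trans (h B 0)
    · rw [div_le_iff₀ (by exact_mod_cast hN)]
      calc ∑ n ∈ range N, g (Φ B n) ≤ ∑ n ∈ range N, ε B :=
            Finset.sum_le_sum (fun n _ => h B n)
        _ = ε B * N := by rw [Finset.sum_const, Finset.card_range, nsmul_eq_mul, mul_comm]
  have h3 : ∫ x, g x ∂μ ≤ 0 := le_of_tendsto_of_tendsto' h2 (hε.mono_left hV) hL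
  have hint : Integrable (fun x => g x) μ :=
    g.continuous.integrable_of_hasCompactSupport (HasCompactSupport.of_compactSpace _)
  have h4 : ∫ x, g x ∂μ = 0 := le_antisymm h3 (integral_nonneg hg)
  exact (integral_eq_zero_iff_of_nonneg hg hint).1 h4

open MeasureTheory in
theorem exists_measure (f : ℕ → ℝ) (hf : ∀ n, f n = 1 ∨ f n = -1) (U : Ultrafilter ℕ)
    (hU : (U : Filter ℕ) ≤ atTop) :
    ∃ μ : Measure (Finset ℕ → ℝ), IsProbabilityMeasure μ ∧ (∀ᵐ c ∂μ, Stat c) ∧
      (∀ (F : Finset ℕ) (L : ℝ), Tendsto (mean fun n => ∏ i ∈ F, f (n + i)) U (𝓝 L) →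
        ∫ c, c F ∂μ = L) ∧
      ∀ (a : ℕ) (δ : ℝ), 0 < a → (∃ B₀ : ℕ, ∀ B ≥ B₀, ∀ᶠ N in (U : Filter ℕ),
        δ ≤ mean (fun n => ((∑ b ∈ range B, f (n + b) * f (n + b + a)) / B) ^ 2) N) →
        δ ≤ ∫ c, (c {0, a}) ^ 2 ∂μ := by
  set V : Ultrafilter ℕ := Filter.hyperfilter ℕ with hVdef
  have hV : (V : Filter ℕ) ≤ atTop := by
    rw [← Nat.cofinite_eq_atTop]
    exact Filter.hyperfilter_le_cofinite
  obtain ⟨μ, hμ1, hμ⟩ := riesz_mean U V hU (M3Phi f hf)
  have hε : Tendsto (fun B : ℕ => 2 / (((B + 1 : ℕ) : ℝ))) atTop (𝓝 0) := by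
    have h := (tendsto_const_div_atTop_nhds_zero_nat (2 : ℝ))
    exact h.comp (tendsto_add_atTop_nat 1)
  have hinc : ∀ B n, M3inc (M3Phi f hf B n) = fun F => loc f (B + 1) n F := fun B n => rfl
  refine ⟨μ.map M3inc, Measure.isProbabilityMeasure_map M3inc_meas.aemeasurable, ?_, ?_, ?_⟩
  · -- the closed conditions
    have c1 : ∀ᵐ c ∂(μ.map M3inc), c ∅ = 1 := by
      rw [ae_map_iff M3inc_meas.aemeasurable
        (measurableSet_eq_fun (measurable_pi_apply _) measurable_const)]
      have h := M3_zero U V hV (M3Phi f hf) μ hμ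
        ⟨fun x => 1 - M3inc x ∅, continuous_const.sub ((continuous_apply ∅).comp M3inc_cont)⟩
        (fun x => by
          have h1 : (x ∅ : ℝ) ≤ 1 := (x ∅).2.2
          change 0 ≤ 1 - (x ∅ : ℝ)
          linarith) (fun _ => 0) tendsto_const_nhds (fun B n => by
          change 1 - M3inc (M3Phi f hf B n) ∅ ≤ 0
          rw [hinc]
          simp only
          rw [loc_empty f (B + 1) n (by omega)]
          norm_num)
      filter_upwards [h] with x hx
      have hx' : 1 - M3inc x ∅ = 0 := hx
      linarith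
    have c2 : ∀ᵐ c ∂(μ.map M3inc), ∀ F : Finset ℕ, c (F.map (addRightEmbedding 1)) = c F := by
      rw [ae_all_iff]
      intro F
      rw [ae_map_iff M3inc_meas.aemeasurable
        (measurableSet_eq_fun (measurable_pi_apply _) (measurable_pi_apply _))]
      have h := M3_zero U V hV (M3Phi f hf) μ hμ
        ⟨fun x => |M3inc x (F.map (addRightEmbedding 1)) - M3inc x F|,
          (((continuous_apply _).comp M3inc_cont).sub
            ((continuous_apply _).comp M3inc_cont)).abs⟩
        (fun x => abs_nonneg _) _ hε (fun B n => by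
          change |M3inc (M3Phi f hf B n) (F.map (addRightEmbedding 1)) -
            M3inc (M3Phi f hf B n) F| ≤ _
          rw [hinc]
          exact loc_shift f hf (B + 1) n F)
      filter_upwards [h] with x hx
      have hx' : |M3inc x (F.map (addRightEmbedding 1)) - M3inc x F| = 0 := hx
      exact sub_eq_zero.1 (abs_eq_zero.1 hx')
    have c3 : ∀ᵐ c ∂(μ.map M3inc), ∀ W S : Finset ℕ,
        0 ≤ ∑ F ∈ W.powerset, (-1 : ℝ) ^ (F ∩ S).card * c F := by
      rw [ae_all_iff]
      intro W
      rw [ae_all_iff]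
      intro S
      have hm : Measurable fun c : Finset ℕ → ℝ =>
          ∑ F ∈ W.powerset, (-1 : ℝ) ^ (F ∩ S).card * c F :=
        Finset.measurable_sum _ fun F _ => (measurable_pi_apply F).const_mul _
      have hc : Continuous fun c : Finset ℕ → ℝ =>
          ∑ F ∈ W.powerset, (-1 : ℝ) ^ (F ∩ S).card * c F :=
        continuous_finsetSum _ fun F _ => continuous_const.mul (continuous_apply F)
      rw [ae_map_iff M3inc_meas.aemeasurable (measurableSet_le measurable_const hm)]
      have h := M3_zero U V hV (M3Phi f hf) μ hμ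
        ⟨fun x => max 0 (-∑ F ∈ W.powerset, (-1 : ℝ) ^ (F ∩ S).card * M3inc x F),
          continuous_const.max (hc.comp M3inc_cont).neg⟩
        (fun x => le_max_left _ _) (fun _ => 0) tendsto_const_nhds (fun B n => by
          change max 0 (-∑ F ∈ W.powerset, (-1 : ℝ) ^ (F ∩ S).card *
            M3inc (M3Phi f hf B n) F) ≤ 0
          rw [hinc]
          have := loc_pos f hf (B + 1) n W S
          exact max_le le_rfl (by linarith))
      filter_upwards [h] with x hx
      have hx' : max 0 (-∑ F ∈ W.powerset, (-1 : ℝ) ^ (F ∩ S).card * M3inc x F) = 0 := hx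
      have := le_max_right 0 (-∑ F ∈ W.powerset, (-1 : ℝ) ^ (F ∩ S).card * M3inc x F)
      rw [hx'] at this
      linarith
    filter_upwards [c1, c2, c3] with c h1 h2 h3
    exact ⟨h1, h2, h3⟩
  · intro F L hL
    rw [integral_map M3inc_meas.aemeasurable (measurable_pi_apply F).aestronglyMeasurable]
    obtain ⟨L', h1, h2⟩ := hμ ⟨fun x => M3inc x F, (continuous_apply F).comp M3inc_cont⟩
    have hLB : ∀ B, L' B = L := by
      intro B
      have hd : Tendsto (fun N : ℕ => mean (fun n => loc f (B + 1) n F) N -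
          mean (fun n => ∏ i ∈ F, f (n + i)) N) U (𝓝 0) := by
        have hb : Tendsto (fun N : ℕ => (2 * ((B + 1 : ℕ) : ℝ)) / (N : ℝ)) U (𝓝 0) :=
          (tendsto_const_div_atTop_nhds_zero_nat _).mono_left hU
        have hN : ∀ᶠ N : ℕ in (U : Filter ℕ), 0 < N := hU (eventually_gt_atTop 0)
        refine squeeze_zero_norm' ?_ hb
        filter_upwards [hN] with N hN
        rw [Real.norm_eq_abs]
        exact loc_mean f hf (B + 1) (by omega) F N hN
      have h3 := hd.add hL
      rw [zero_add] at h3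
      have h4 : Tendsto (fun N : ℕ => mean (fun n => loc f (B + 1) n F) N) U (𝓝 L) := by
        refine h3.congr (fun N => ?_)
        ring
      exact tendsto_nhds_unique (h1 B) h4
    have h5 : Tendsto L' V (𝓝 L) := by
      have : L' = fun _ => L := funext hLB
      rw [this]
      exact tendsto_const_nhds
    exact tendsto_nhds_unique h2 h5
  · intro a δ ha hδ
    obtain ⟨B₀, hB₀⟩ := hδ
    rw [integral_map M3inc_meas.aemeasurable
      ((measurable_pi_apply ({0, a} : Finset ℕ)).pow_const 2).aestronglyMeasurable]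
    obtain ⟨L', h1, h2⟩ := hμ ⟨fun x => (M3inc x {0, a}) ^ 2,
      ((continuous_apply _).comp M3inc_cont).pow 2⟩
    refine ge_of_tendsto h2 ?_
    have hev : ∀ᶠ B : ℕ in (V : Filter ℕ), B₀ ≤ B + 1 := by
      apply hV
      filter_upwards [eventually_ge_atTop B₀] with B hB
      omega
    filter_upwards [hev] with B hB
    refine ge_of_tendsto (h1 B) ?_
    filter_upwards [hB₀ (B + 1) hB] with N hN
    refine hN.trans (le_of_eq ?_)
    unfold mean
    congr 1
    refine Finset.sum_congr rfl fun n _ => ?_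
    change _ = (M3inc (M3Phi f hf B n) {0, a}) ^ 2
    rw [hinc]
    simp only
    rw [loc_pair f (B + 1) n a ha]

end Pool.Agent.Lib.MP_f6c41f_nt
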