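import Pool.Agent.Lib.MP_f6c41f_nt.C2

/-!
# MP_f6c41f_nt, module N1

`q a = ∫ (c {0,a})² ∈ [1/3, 1]`.  `F_a = (1 + c{0,2a})² - 4 (c{0,a})² ≥ 0` a.e. (`dbl_le`), and
`∫ F_a = 1 + 0 + q (2a) - 4 q a`.  So `q (2a) - 1/3 ≥ 4 (q a - 1/3)`, `q (2^j a) - 1/3 ≥ 4^j (q a - 1/3)`
and `q ≤ 1`: `q a = 1/3` for all `a`, `∫ F_a = 0`, `F_a = 0` a.e., and `1 + c{0,2a} ≥ 0`.
Everything is integrable: bounded (`abs_le_one`) and measurable coordinates.
-/

set_option autoImplicit false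

namespace Pool.Agent.Lib.MP_f6c41f_nt

open Finset Filter Topology

theorem N1_cor (c : Finset ℕ → ℝ) (a : ℕ) (ha : 0 < a) : cor c (a : ℤ) = c {0, a} := by
  unfold cor
  rw [if_neg (by exact_mod_cast ha.ne'), Int.natAbs_natCast]

theorem N1_cor2 (c : Finset ℕ → ℝ) (a : ℕ) (ha : 0 < a) :
    cor c (2 * (a : ℤ)) = c {0, 2 * a} := by
  have h := N1_cor c (2 * a) (by omega)
  push_cast at h
  exact h

open MeasureTheory in
theorem N1_int (μ : Measure (Finset ℕ → ℝ)) [IsProbabilityMeasure μ]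
    (hst : ∀ᵐ c ∂μ, Stat c) (F : Finset ℕ) : Integrable (fun c : Finset ℕ → ℝ => c F) μ := by
  refine Integrable.of_bound (measurable_pi_apply F).aestronglyMeasurable 1 ?_
  filter_upwards [hst] with c hc
  rw [Real.norm_eq_abs]
  exact abs_le_one hc F

open MeasureTheory in
theorem N1_int2 (μ : Measure (Finset ℕ → ℝ)) [IsProbabilityMeasure μ]
    (hst : ∀ᵐ c ∂μ, Stat c) (F : Finset ℕ) :
    Integrable (fun c : Finset ℕ → ℝ => (c F) ^ 2) μ := by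
  refine Integrable.of_bound ((measurable_pi_apply F).pow_const 2).aestronglyMeasurable 1 ?_
  filter_upwards [hst] with c hc
  rw [Real.norm_eq_abs, abs_pow]
  have h := abs_le_one hc F
  have h0 := abs_nonneg (c F)
  nlinarith

open MeasureTheory in
theorem N1_F (μ : Measure (Finset ℕ → ℝ)) [IsProbabilityMeasure μ]
    (hst : ∀ᵐ c ∂μ, Stat c) (a : ℕ) (ha : 0 < a) :
    0 ≤ᵐ[μ] fun c : Finset ℕ → ℝ => (1 + c {0, 2 * a}) ^ 2 - 4 * (c {0, a}) ^ 2 := by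
  filter_upwards [hst] with c hc
  have h := dbl_le hc (a : ℤ)
  rw [N1_cor c a ha, N1_cor2 c a ha] at h
  have h0 := abs_nonneg (c {0, a})
  have h1 : (c {0, a}) ^ 2 = |c {0, a}| ^ 2 := (sq_abs _).symm
  simp only [Pi.zero_apply]
  rw [h1]
  nlinarith

open MeasureTheory in
theorem N1_intF (μ : Measure (Finset ℕ → ℝ)) [IsProbabilityMeasure μ]
    (hst : ∀ᵐ c ∂μ, Stat c)
    (h2 : ∀ a : ℕ, 0 < a → ∫ c, c {0, a} ∂μ = 0) (a : ℕ) (ha : 0 < a) :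
    ∫ c, ((1 + c {0, 2 * a}) ^ 2 - 4 * (c {0, a}) ^ 2) ∂μ =
      1 + ∫ c, (c {0, 2 * a}) ^ 2 ∂μ - 4 * ∫ c, (c {0, a}) ^ 2 ∂μ := by
  have e : ∀ c : Finset ℕ → ℝ, (1 + c {0, 2 * a}) ^ 2 - 4 * (c {0, a}) ^ 2 =
      (1 + 2 * c {0, 2 * a}) + (c {0, 2 * a}) ^ 2 - 4 * (c {0, a}) ^ 2 := by
    intro c; ring
  simp only [e]
  have i1 := N1_int μ hst {0, 2 * a}
  have i2 := N1_int2 μ hst {0, 2 * a}
  have i3 := N1_int2 μ hst {0, a}
  have i4 : Integrable (fun c : Finset ℕ → ℝ => 1 + 2 * c {0, 2 * a}) μ :=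
    (integrable_const (1 : ℝ)).add (i1.const_mul 2)
  have i5 : Integrable (fun c : Finset ℕ → ℝ => 1 + 2 * c {0, 2 * a} + (c {0, 2 * a}) ^ 2) μ :=
    i4.add i2
  rw [integral_sub i5 (i3.const_mul 4), integral_add i4 i2,
    integral_add (integrable_const (1 : ℝ)) (i1.const_mul 2), integral_const_mul,
    integral_const_mul, h2 (2 * a) (by omega)]
  simp

open MeasureTheory in
theorem N1_q (μ : Measure (Finset ℕ → ℝ)) [IsProbabilityMeasure μ]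
    (hst : ∀ᵐ c ∂μ, Stat c)
    (h2 : ∀ a : ℕ, 0 < a → ∫ c, c {0, a} ∂μ = 0)
    (h4 : ∀ a : ℕ, 0 < a → 1 / 3 ≤ ∫ c, (c {0, a}) ^ 2 ∂μ) (a : ℕ) (ha : 0 < a) :
    ∫ c, (c {0, a}) ^ 2 ∂μ = 1 / 3 := by
  have hle : ∀ b : ℕ, ∫ c, (c {0, b}) ^ 2 ∂μ ≤ 1 := by
    intro b
    have h := integral_mono_ae (N1_int2 μ hst {0, b}) (integrable_const (1 : ℝ)) (by
      filter_upwards [hst] with c hc
      have h := abs_le_one hc {0, b}
      have h1 : (c {0, b}) ^ 2 = |c {0, b}| ^ 2 := (sq_abs _).symm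
      have h0 := abs_nonneg (c {0, b})
      have h5 : (c {0, b}) ^ 2 ≤ 1 := by
        rw [h1]
        nlinarith
      exact h5)
    simpa using h
  have hstep : ∀ b : ℕ, 0 < b → 4 * (∫ c, (c {0, b}) ^ 2 ∂μ - 1 / 3) ≤
      ∫ c, (c {0, 2 * b}) ^ 2 ∂μ - 1 / 3 := by
    intro b hb
    have h := integral_nonneg_of_ae (N1_F μ hst b hb)
    rw [N1_intF μ hst h2 b hb] at h
    linarith
  have hpow : ∀ j : ℕ, 4 ^ j * (∫ c, (c {0, a}) ^ 2 ∂μ - 1 / 3) ≤ 1 := by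
    intro j
    have hj : ∀ j : ℕ, 4 ^ j * (∫ c, (c {0, a}) ^ 2 ∂μ - 1 / 3) ≤
        ∫ c, (c {0, 2 ^ j * a}) ^ 2 ∂μ - 1 / 3 := by
      intro j
      induction j with
      | zero => simp
      | succ j ih =>
        have hs := hstep (2 ^ j * a) (by positivity)
        have e : 2 * (2 ^ j * a) = 2 ^ (j + 1) * a := by ring
        rw [e] at hs
        have e2 : (4 : ℝ) ^ (j + 1) * (∫ c, (c {0, a}) ^ 2 ∂μ - 1 / 3) =
          4 * (4 ^ j * (∫ c, (c {0, a}) ^ 2 ∂μ - 1 / 3)) := by ring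
        rw [e2]
        linarith
    have := hj j
    have := hle (2 ^ j * a)
    linarith
  have h0 : 0 ≤ ∫ c, (c {0, a}) ^ 2 ∂μ - 1 / 3 := by linarith [h4 a ha]
  by_contra hne
  have hpos : 0 < ∫ c, (c {0, a}) ^ 2 ∂μ - 1 / 3 := by
    rcases h0.lt_or_eq with h | h
    · exact h
    · exact absurd (by linarith) hne
  obtain ⟨j, hj⟩ := pow_unbounded_of_one_lt (1 / (∫ c, (c {0, a}) ^ 2 ∂μ - 1 / 3))
    (show (1 : ℝ) < 4 by norm_num)
  rw [div_lt_iff₀ hpos] at hj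
  linarith [hpow j]

open MeasureTheory in
theorem dbl_ae (μ : Measure (Finset ℕ → ℝ)) [IsProbabilityMeasure μ] (hst : ∀ᵐ c ∂μ, Stat c)
    (h2 : ∀ a : ℕ, 0 < a → ∫ c, c {0, a} ∂μ = 0)
    (h4 : ∀ a : ℕ, 0 < a → 1 / 3 ≤ ∫ c, (c {0, a}) ^ 2 ∂μ) :
    ∀ᵐ c ∂μ, ∀ a : ℕ, 0 < a → 1 + cor c (2 * a) = 2 * |cor c a| := by
  rw [ae_all_iff]
  intro a
  by_cases ha : 0 < a
  · have hint : Integrable (fun c : Finset ℕ → ℝ =>
        (1 + c {0, 2 * a}) ^ 2 - 4 * (c {0, a}) ^ 2) μ := by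
      have i1 := N1_int μ hst {0, 2 * a}
      have i2 := N1_int2 μ hst {0, 2 * a}
      have i3 := N1_int2 μ hst {0, a}
      have i4 : Integrable (fun c : Finset ℕ → ℝ => 1 + 2 * c {0, 2 * a}) μ :=
        (integrable_const (1 : ℝ)).add (i1.const_mul 2)
      refine ((i4.add i2).sub (i3.const_mul 4)).congr ?_
      filter_upwards with c
      simp only [Pi.add_apply, Pi.sub_apply]
      ring
    have hz : ∫ c, ((1 + c {0, 2 * a}) ^ 2 - 4 * (c {0, a}) ^ 2) ∂μ = 0 := by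
      rw [N1_intF μ hst h2 a ha, N1_q μ hst h2 h4 a ha, N1_q μ hst h2 h4 (2 * a) (by omega)]
      norm_num
    have hae := (integral_eq_zero_iff_of_nonneg_ae (N1_F μ hst a ha) hint).1 hz
    filter_upwards [hae, hst] with c h hc _
    rw [N1_cor c a ha, N1_cor2 c a ha]
    have hb := abs_le.1 (abs_le_one hc {0, 2 * a})
    have h1 : (1 + c {0, 2 * a}) ^ 2 = (2 * |c {0, a}|) ^ 2 := by
      have : (1 + c {0, 2 * a}) ^ 2 - 4 * (c {0, a}) ^ 2 = 0 := h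
      rw [mul_pow, sq_abs]
      linarith
    exact (pow_left_inj₀ (by linarith) (by positivity) (by norm_num)).1 h1
  · filter_upwards with c h
    exact absurd h ha

end Pool.Agent.Lib.MP_f6c41f_nt
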