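import Pool.Agent.Lib.MP_f6c41f_nt.C2

/-!
# MP_f6c41f_nt, module N2

Fix `q ≥ 1` and `K ≥ 1`.  `g = ∑_{i,j<K} cor c (q (i - j)) ≥ 0` a.e. (`psd`), `∫ g = K`.
If `ang c q = 0` then `ang c (q k) = 0` for all `k` (`ang_add`, `ang_nonneg`), so `g = K²`.  Hence the
set `{ang c q = 0}` has measure `≤ 1/K` for all `K`, i.e. `0`.
-/

set_option autoImplicit false

namespace Pool.Agent.Lib.MP_f6c41f_nt

open Finset Filter Topology

private theorem n2_cor_one {c : Finset ℕ → ℝ} (hc : Stat c) {q : ℕ} (hq : ang c q = 0) (z : ℤ) :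
    cor c ((q : ℤ) * z) = 1 := by
  have hnat : ∀ k : ℕ, ang c ((q : ℤ) * k) = 0 := by
    intro k
    induction k with
    | zero =>
      simp [ang, cor]
    | succ k ih =>
      apply le_antisymm _ (ang_nonneg hc _)
      have h := ang_add hc ((q : ℤ) * k) q
      rw [ih, hq] at h
      have e : (q : ℤ) * ((k + 1 : ℕ) : ℤ) = (q : ℤ) * k + q := by push_cast; ring
      rw [e]
      linarith
  have hz : ang c ((q : ℤ) * z) = 0 := by
    rcases Int.eq_nat_or_neg z with ⟨k, rfl | rfl⟩
    · exact hnat k
    · have h := hnat k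
      unfold ang at h ⊢
      rw [mul_neg, cor_neg]
      exact h
  unfold ang at hz
  linarith

open MeasureTheory in
private theorem n2_cor_meas (z : ℤ) : Measurable fun c : Finset ℕ → ℝ => cor c z := by
  unfold cor
  by_cases h : z = 0
  · simp [h]
  · simp only [h, if_false]
    exact measurable_pi_apply _

private theorem n2_cor_abs {c : Finset ℕ → ℝ} (hc : Stat c) (z : ℤ) : |cor c z| ≤ 1 := by
  unfold cor
  split
  · simp
  · exact abs_le_one hc _

open MeasureTheory in
private theorem n2_cor_int (μ : Measure (Finset ℕ → ℝ)) [IsProbabilityMeasure μ]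
    (hst : ∀ᵐ c ∂μ, Stat c) (z : ℤ) : Integrable (fun c => cor c z) μ := by
  refine Integrable.of_bound (n2_cor_meas z).aestronglyMeasurable 1 ?_
  filter_upwards [hst] with c hc
  rw [Real.norm_eq_abs]
  exact n2_cor_abs hc z

open MeasureTheory in
private theorem n2_cor_integral (μ : Measure (Finset ℕ → ℝ)) [IsProbabilityMeasure μ]
    (h2 : ∀ a : ℕ, 0 < a → ∫ c, c {0, a} ∂μ = 0) (z : ℤ) :
    ∫ c, cor c z ∂μ = if z = 0 then 1 else 0 := by
  unfold cor
  split
  · simp
  · rename_i h
    exact h2 _ (by omega)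

open MeasureTheory in
theorem nonrat_ae (μ : Measure (Finset ℕ → ℝ)) [IsProbabilityMeasure μ] (hst : ∀ᵐ c ∂μ, Stat c)
    (h2 : ∀ a : ℕ, 0 < a → ∫ c, c {0, a} ∂μ = 0) :
    ∀ᵐ c ∂μ, ∀ a : ℕ, 0 < a → 0 < ang c a := by
  rw [ae_all_iff]
  intro q
  by_cases hq : 0 < q
  swap
  · exact Eventually.of_forall fun c h => absurd h hq
  have hmeas : MeasurableSet {c : Finset ℕ → ℝ | ang c q = 0} := by
    apply measurableSet_eq_fun
    · unfold ang
      exact (measurable_const.sub (n2_cor_meas _)).div_const _
    · exact measurable_const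
  set s : Set (Finset ℕ → ℝ) := {c : Finset ℕ → ℝ | ang c q = 0} with hs
  have key : ∀ K : ℕ, (K : ℝ) ^ 2 * μ.real s ≤ K := by
    intro K
    have hint : Integrable (fun c : Finset ℕ → ℝ => ∑ i ∈ range K, ∑ j ∈ range K,
        cor c ((q : ℤ) * ((i : ℤ) - j))) μ :=
      integrable_finsetSum _ fun i _ => integrable_finsetSum _ fun j _ => n2_cor_int μ hst _
    have h1 : ∫ c, ∑ i ∈ range K, ∑ j ∈ range K, cor c ((q : ℤ) * ((i : ℤ) - j)) ∂μ = K := by
      rw [integral_finsetSum _ fun i _ => integrable_finsetSum _ fun j _ => n2_cor_int μ hst _]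
      have : ∀ i ∈ range K, ∫ c, ∑ j ∈ range K, cor c ((q : ℤ) * ((i : ℤ) - j)) ∂μ = 1 := by
        intro i hi
        rw [integral_finsetSum _ fun j _ => n2_cor_int μ hst _]
        rw [sum_eq_single_of_mem i hi]
        · rw [n2_cor_integral μ h2]
          simp
        · intro j _ hji
          rw [n2_cor_integral μ h2, if_neg]
          intro h0
          rcases mul_eq_zero.1 h0 with h | h
          · omega
          · omega
      rw [sum_congr rfl this]
      simp
    have h3 : (K : ℝ) ^ 2 * μ.real s = ∫ c, s.indicator (fun _ => (K : ℝ) ^ 2) c ∂μ := by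
      rw [integral_indicator hmeas, setIntegral_const, smul_eq_mul, mul_comm]
    rw [h3]
    refine le_of_le_of_eq ?_ h1
    apply integral_mono_ae
    · exact (integrable_const _).indicator hmeas
    · exact hint
    · filter_upwards [hst] with c hc
      by_cases hcs : c ∈ s
      · rw [Set.indicator_of_mem hcs]
        have : ∀ i ∈ range K, ∑ j ∈ range K, cor c ((q : ℤ) * ((i : ℤ) - j)) = K := by
          intro i _
          rw [sum_congr rfl fun j _ => n2_cor_one hc hcs _]
          simp
        rw [sum_congr rfl this]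
        simp [pow_two]
      · rw [Set.indicator_of_notMem hcs]
        have hinj : Function.Injective fun i : ℕ => (q : ℤ) * (i : ℤ) := by
          intro i j hij
          have hq' : (q : ℤ) ≠ 0 := by omega
          have := mul_left_cancel₀ hq' hij
          exact_mod_cast this
        have h := psd hc ((range K).map ⟨_, hinj⟩) fun _ => 1
        rw [sum_map] at h
        refine le_of_le_of_eq h (sum_congr rfl fun i _ => ?_)
        rw [sum_map]
        refine sum_congr rfl fun j _ => ?_
        simp only [Function.Embedding.coeFn_mk, one_mul, mul_sub]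
  have hzero : μ.real s = 0 := by
    by_contra hne
    have hpos : 0 < μ.real s := lt_of_le_of_ne measureReal_nonneg (Ne.symm hne)
    obtain ⟨K, hK⟩ := exists_nat_gt (1 / μ.real s)
    have hK0 : (0 : ℝ) < K := lt_trans (by positivity) hK
    have h1 := key K
    have h2 : 1 < K * μ.real s := by
      rw [div_lt_iff₀ hpos] at hK
      exact hK
    nlinarith [mul_lt_mul_of_pos_left h2 hK0]
  have hnull : μ s = 0 := (measureReal_eq_zero_iff).1 hzero
  have hae : ∀ᵐ c ∂μ, c ∉ s := by
    rw [ae_iff]
    simpa using hnull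
  filter_upwards [hae, hst] with c hcs hc _
  exact lt_of_le_of_ne (ang_nonneg hc _) fun h => hcs h.symm

end Pool.Agent.Lib.MP_f6c41f_nt
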