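import Pool.Agent.Lib.MP_f6c41f_nt.A4
import Pool.Agent.Lib.MP_f6c41f_nt.B4
import Pool.Agent.Lib.MP_f6c41f_nt.C5
import Pool.Agent.Lib.MP_f6c41f_nt.C6
import Pool.Agent.Lib.MP_f6c41f_nt.C2

/-!
# MP_f6c41f_nt, module N3

Assembly: `met_of_dbl`, `recurrence` (with `psd`, `cor_neg`, `cor c 0 = 1`) give small positive
`ang c a`; `circle` gives `s`; `stat_unique` with `rot_stat`, `rot_pair`.
-/

set_option autoImplicit false

namespace Pool.Agent.Lib.MP_f6c41f_nt

open Finset Filter Topology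

theorem eq_rot {c : Finset ℕ → ℝ} (hc : Stat c)
    (hd : ∀ a : ℕ, 0 < a → 1 + cor c (2 * a) = 2 * |cor c a|)
    (hn : ∀ a : ℕ, 0 < a → 0 < ang c a) : ∃ s : ℝ, c = rot s := by
  have hM : Met (ang c) := met_of_dbl hc hd
  have hcor0 : cor c 0 = 1 := by
    unfold cor
    rw [if_pos rfl]
  have hrec : ∀ ε > 0, ∃ a : ℤ, 0 < ang c a ∧ ang c a < ε := by
    intro ε hε
    obtain ⟨a, ha, h1⟩ := recurrence (cor c) hcor0 (fun a => cor_neg a) (psd hc) hd (4 * ε)
      (by linarith)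
    refine ⟨(a : ℤ), hn a ha, ?_⟩
    unfold ang
    linarith
  obtain ⟨s, hs⟩ := circle hM hrec
  have hang : ∀ a : ℕ, 0 < a → c {0, a} = 1 - 4 * nrm (a * s) := by
    intro a ha
    have h1 := hs (a : ℤ)
    have h2 : cor c (a : ℤ) = c {0, a} := by
      unfold cor
      rw [if_neg (by exact_mod_cast ha.ne'), Int.natAbs_natCast]
    unfold ang at h1
    rw [h2, Int.cast_natCast] at h1
    linarith
  refine ⟨s, stat_unique hc (rot_stat s) (s := s) (fun a ha => ?_) hang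
    (fun a ha => rot_pair s a ha)⟩
  have h1 := hs (a : ℤ)
  rw [Int.cast_natCast] at h1
  rw [← h1]
  exact (hn a ha).ne'

end Pool.Agent.Lib.MP_f6c41f_nt
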