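import Pool.Agent.Lib.MP_f6c41f_nt.N1
import Pool.Agent.Lib.MP_f6c41f_nt.N2
import Pool.Agent.Lib.MP_f6c41f_nt.N3
import Pool.Agent.Lib.MP_f6c41f_nt.M3
import Pool.Agent.Lib.MP_f6c41f_nt.E4
import Pool.Agent.Lib.MP_f6c41f_nt.C7

/-!
# MP_f6c41f_nt, module N4

For every ultrafilter `U ≤ atTop`: the bounded sequence of means has a limit `L` along `U`
(`IsCompact.ultrafilter_le_nhds`), `exists_measure`, `dbl_ae`, `nonrat_ae`, `eq_rot`: a.e. `c = rot s`.
`|F|` odd: `∫ c F = 0 = torus F` (`rot_odd`, `torus_odd`).  `|F|` even: `approx_even` for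
`G s = rot s F` (`rot_continuous`, `rot_periodic`, `rot_even`): a.e.
`|c F - torus F - ∑ γ k c {0,k}| ≤ ε` (`rot_pair`, `rot_int`), integrate: `|L - torus F| ≤ ε`.
Conclude with `tendsto_iff_ultrafilter` (or `Filter.tendsto_iff_ultrafilter`).
-/

set_option autoImplicit false

namespace Pool.Agent.Lib.MP_f6c41f_nt

open Finset Filter Topology

theorem mean_abs_le (g : ℕ → ℝ) (hg : ∀ n, |g n| ≤ 1) (N : ℕ) : |mean g N| ≤ 1 := by
  unfold mean
  rcases Nat.eq_zero_or_pos N with h0 | h0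
  · subst h0
    simp
  · have hN : (0:ℝ) < N := by exact_mod_cast h0
    rw [abs_div, abs_of_pos hN, div_le_one hN]
    calc |∑ n ∈ range N, g n| ≤ ∑ n ∈ range N, |g n| := Finset.abs_sum_le_sum_abs _ _
      _ ≤ ∑ n ∈ range N, (1:ℝ) := Finset.sum_le_sum fun n _ => hg n
      _ = N := by simp

theorem abs_prod_pm (f : ℕ → ℝ) (hf : ∀ n, f n = 1 ∨ f n = -1) (F : Finset ℕ) (n : ℕ) :
    |∏ i ∈ F, f (n + i)| = 1 := by
  rw [Finset.abs_prod]
  refine Finset.prod_eq_one fun i _ => ?_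
  rcases hf (n + i) with h | h <;> rw [h] <;> simp

open MeasureTheory in
theorem main_finset (f : ℕ → ℝ) (hf : ∀ n, f n = 1 ∨ f n = -1)
    (h2 : ∀ a : ℕ, 0 < a → Tendsto (mean fun n => f n * f (n + a)) atTop (𝓝 0))
    (h4 : ∀ a : ℕ, 0 < a → ∀ δ > 0, ∃ B₀ : ℕ, ∀ B ≥ B₀, ∀ᶠ N in atTop,
      1 / 3 - δ ≤ mean (fun n => ((∑ b ∈ range B, f (n + b) * f (n + b + a)) / B) ^ 2) N)
    (F : Finset ℕ) : Tendsto (mean fun n => ∏ i ∈ F, f (n + i)) atTop (𝓝 (torus F)) := by
  classical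
  rw [tendsto_iff_ultrafilter]
  intro U hU
  have hbd : ∀ N, mean (fun n => ∏ i ∈ F, f (n + i)) N ∈ Set.Icc (-1:ℝ) 1 := by
    intro N
    have h1 := mean_abs_le (fun n => ∏ i ∈ F, f (n + i)) (fun n => (abs_prod_pm f hf F n).le) N
    rw [abs_le] at h1
    exact ⟨h1.1, h1.2⟩
  obtain ⟨L, -, hL⟩ := (isCompact_Icc (a := (-1:ℝ)) (b := 1)).ultrafilter_le_nhds
    (U.map (mean fun n => ∏ i ∈ F, f (n + i))) (by
      rw [le_principal_iff]
      exact Ultrafilter.mem_map.mpr (Filter.univ_mem' hbd))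
  have hLt : Tendsto (mean fun n => ∏ i ∈ F, f (n + i)) U (𝓝 L) := hL
  suffices hLF : L = torus F by
    rw [← hLF]
    exact hLt
  obtain ⟨μ, hμ, hst, hF, hsq⟩ := exists_measure f hf U hU
  have h2' : ∀ a : ℕ, 0 < a → ∫ c, c {0, a} ∂μ = 0 := by
    intro a ha
    refine hF {0, a} 0 ?_
    have he : (fun n => ∏ i ∈ ({0, a} : Finset ℕ), f (n + i)) = fun n => f n * f (n + a) := by
      funext n
      rw [Finset.prod_pair ha.ne, Nat.add_zero]
    rw [he]
    exact (h2 a ha).mono_left hU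
  have h4' : ∀ a : ℕ, 0 < a → 1 / 3 ≤ ∫ c, (c {0, a}) ^ 2 ∂μ := by
    intro a ha
    refine le_of_forall_pos_le_add fun δ hδ => ?_
    have h1 := hsq a (1 / 3 - δ) ha (by
      obtain ⟨B₀, hB₀⟩ := h4 a ha δ hδ
      exact ⟨B₀, fun B hB => hU (hB₀ B hB)⟩)
    linarith
  have hdbl := dbl_ae μ hst h2' h4'
  have hnr := nonrat_ae μ hst h2'
  have hrot : ∀ᵐ c ∂μ, ∃ s : ℝ, c = rot s := by
    filter_upwards [hst, hdbl, hnr] with c h1 h3 h5
    exact eq_rot h1 h3 h5
  have hintL : ∫ c, c F ∂μ = L := hF F L hLt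
  have hInt : ∀ G : Finset ℕ, Integrable (fun c : Finset ℕ → ℝ => c G) μ := by
    intro G
    refine Integrable.of_bound (measurable_pi_apply G).aestronglyMeasurable 1 ?_
    filter_upwards [hst] with c hc
    rw [Real.norm_eq_abs]
    exact abs_le_one hc G
  rcases Nat.even_or_odd F.card with hev | hodd
  · refine eq_of_abs_sub_le_all fun ε hε => ?_
    obtain ⟨A, γ, hA⟩ := approx_even (fun s => rot s F) (rot_continuous F)
      (fun s => rot_periodic F s) (fun s => rot_even F hev s) ε hε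
    rw [rot_int F] at hA
    have hae : ∀ᵐ c ∂μ, ‖c F - torus F - ∑ k ∈ Icc 1 A, γ k * c {0, k}‖ ≤ ε := by
      filter_upwards [hrot] with c hc
      obtain ⟨s, rfl⟩ := hc
      rw [Real.norm_eq_abs]
      have h1 := hA s
      have h3 : ∑ k ∈ Icc 1 A, γ k * (1 - 4 * nrm (k * s)) =
          ∑ k ∈ Icc 1 A, γ k * rot s {0, k} := by
        refine Finset.sum_congr rfl fun k hk => ?_
        rw [rot_pair s k (Finset.mem_Icc.mp hk).1]
      rw [h3] at h1
      exact h1
    have h6 := norm_integral_le_of_norm_le_const hae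
    have h7 : ∫ c, (c F - torus F - ∑ k ∈ Icc 1 A, γ k * c {0, k}) ∂μ = L - torus F := by
      have hs : Integrable (fun c : Finset ℕ → ℝ => ∑ k ∈ Icc 1 A, γ k * c {0, k}) μ :=
        integrable_finsetSum _ fun k _ => (hInt {0, k}).const_mul (γ k)
      have hcF : Integrable (fun c : Finset ℕ → ℝ => c F - torus F) μ :=
        (hInt F).sub (integrable_const _)
      rw [integral_sub hcF hs,
        integral_sub (hInt F) (integrable_const _), integral_const, hintL,
        integral_finsetSum _ fun k _ => (hInt {0, k}).const_mul (γ k)]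
      have h8 : ∑ k ∈ Icc 1 A, ∫ c, γ k * c {0, k} ∂μ = 0 := by
        refine Finset.sum_eq_zero fun k hk => ?_
        rw [integral_const_mul, h2' k (Finset.mem_Icc.mp hk).1, mul_zero]
      rw [h8]
      simp
    rw [h7, Real.norm_eq_abs] at h6
    simpa using h6
  · rw [torus_odd F hodd, ← hintL]
    refine integral_eq_zero_of_ae ?_
    filter_upwards [hrot] with c hc
    obtain ⟨s, rfl⟩ := hc
    exact rot_odd F hodd s

end Pool.Agent.Lib.MP_f6c41f_nt
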