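import Pool.Agent.Lib.MP_f6c41f_nt.C6

/-!
# MP_f6c41f_nt, module T1

Parity reduction: group the `j` by the value `(h j - m).toNat`, each `g` squares to one.
-/

set_option autoImplicit false

namespace Pool.Agent.Lib.MP_f6c41f_nt

open Finset Filter Topology

theorem prod_red {l : ℕ} (h : Fin l → ℤ) (m : ℤ) (g : ℕ → ℝ) (hg : ∀ n, g n * g n = 1) :
    ∏ j : Fin l, g (h j - m).toNat = ∏ i ∈ red h m, g i := by
  classical
  have h1 := Finset.prod_comp (s := (univ : Finset (Fin l))) g (fun j => (h j - m).toNat)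
  rw [h1]
  unfold red
  rw [Finset.prod_filter]
  refine Finset.prod_congr rfl fun i _ => ?_
  have hsq : g i ^ 2 = 1 := by rw [sq]; exact hg i
  by_cases hodd : Odd (univ.filter fun j => (h j - m).toNat = i).card
  · rw [if_pos hodd]
    obtain ⟨k, hk⟩ := hodd
    rw [hk, pow_succ, pow_mul, hsq, one_pow, one_mul]
  · rw [if_neg hodd]
    rw [Nat.not_odd_iff_even] at hodd
    obtain ⟨k, hk⟩ := hodd
    rw [hk, ← two_mul, pow_mul, hsq, one_pow]

theorem torus_red {l : ℕ} (h : Fin l → ℤ) (m : ℤ) (hm : ∀ j, m ≤ h j) :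
    ∫ t in (0:ℝ)..1, ∫ s in (0:ℝ)..1, ∏ j : Fin l, phi (t + (h j : ℝ) * s) = torus (red h m) := by
  have hmeas : Measurable (Function.uncurry fun t s : ℝ => ∏ j : Fin l, phi (t + (h j : ℝ) * s)) := by
    have he : (Function.uncurry fun t s : ℝ => ∏ j : Fin l, phi (t + (h j : ℝ) * s)) =
        fun p : ℝ × ℝ => ∏ j : Fin l, phi (p.1 + (h j : ℝ) * p.2) := by
      funext p
      rfl
    rw [he]
    refine Finset.measurable_prod _ fun j _ => ?_
    exact measurable_phi.comp (measurable_fst.add (measurable_const.mul measurable_snd))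
  have hmeas' : Measurable (Function.uncurry fun t s : ℝ =>
      ∏ j : Fin l, phi (t - (m : ℝ) * s + (h j : ℝ) * s)) := by
    have he : (Function.uncurry fun t s : ℝ =>
        ∏ j : Fin l, phi (t - (m : ℝ) * s + (h j : ℝ) * s)) =
        fun p : ℝ × ℝ => ∏ j : Fin l, phi (p.1 - (m : ℝ) * p.2 + (h j : ℝ) * p.2) := by
      funext p
      rfl
    rw [he]
    refine Finset.measurable_prod _ fun j _ => ?_
    exact measurable_phi.comp ((measurable_fst.sub (measurable_const.mul measurable_snd)).add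
      (measurable_const.mul measurable_snd))
  have hab : ∀ x : Fin l → ℝ, ‖∏ j : Fin l, phi (x j)‖ ≤ 1 := by
    intro x
    rw [Real.norm_eq_abs, Finset.abs_prod]
    refine le_of_eq (Finset.prod_eq_one fun j _ => phi_abs _)
  have hint : ∀ F : ℝ → ℝ → ℝ, Measurable (Function.uncurry F) → (∀ t s, ‖F t s‖ ≤ 1) →
      MeasureTheory.IntegrableOn (Function.uncurry F)
        (Set.uIoc (0:ℝ) 1 ×ˢ Set.uIoc (0:ℝ) 1) (MeasureTheory.volume.prod MeasureTheory.volume) := by
    intro F hF hb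
    refine MeasureTheory.Measure.integrableOn_of_bounded (M := 1) ?_ hF.aestronglyMeasurable ?_
    · rw [MeasureTheory.Measure.prod_prod]
      simp
    · exact Filter.Eventually.of_forall fun p => hb p.1 p.2
  have hswap : ∀ F : ℝ → ℝ → ℝ, Measurable (Function.uncurry F) → (∀ t s, ‖F t s‖ ≤ 1) →
      ∫ t in (0:ℝ)..1, ∫ s in (0:ℝ)..1, F t s = ∫ s in (0:ℝ)..1, ∫ t in (0:ℝ)..1, F t s := by
    intro F hF hb
    exact MeasureTheory.intervalIntegral_intervalIntegral_swap (hint F hF hb)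
  have hcast : ∀ j : Fin l, (((h j - m).toNat : ℕ) : ℝ) = (h j : ℝ) - m := by
    intro j
    have h1 : ((h j - m).toNat : ℤ) = h j - m := Int.toNat_of_nonneg (by linarith [hm j])
    have h2 : (((h j - m).toNat : ℤ) : ℝ) = ((h j - m : ℤ) : ℝ) := by rw [h1]
    rw [Int.cast_natCast] at h2
    rw [h2]
    push_cast
    ring
  have hred : ∀ t s : ℝ, ∏ i ∈ red h m, phi (t + (i : ℝ) * s) =
      ∏ j : Fin l, phi (t - (m : ℝ) * s + (h j : ℝ) * s) := by
    intro t s
    have h1 := prod_red h m (fun n : ℕ => phi (t + (n : ℝ) * s)) (fun n => phi_sq _)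
    rw [← h1]
    refine Finset.prod_congr rfl fun j _ => ?_
    show phi (t + (((h j - m).toNat : ℕ) : ℝ) * s) = _
    rw [hcast j]
    congr 1
    ring
  unfold torus
  rw [hswap _ hmeas (fun t s => hab _)]
  have h2 : (∫ t in (0:ℝ)..1, ∫ s in (0:ℝ)..1, ∏ i ∈ red h m, phi (t + (i : ℝ) * s)) =
      ∫ t in (0:ℝ)..1, ∫ s in (0:ℝ)..1,
        ∏ j : Fin l, phi (t - (m : ℝ) * s + (h j : ℝ) * s) := by
    simp_rw [hred]
  rw [h2, hswap _ hmeas' (fun t s => hab _)]
  congr 1
  funext s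
  have hper : Function.Periodic (fun t : ℝ => ∏ j : Fin l, phi (t + (h j : ℝ) * s)) 1 := by
    intro t
    show ∏ j : Fin l, phi (t + 1 + (h j : ℝ) * s) = ∏ j : Fin l, phi (t + (h j : ℝ) * s)
    refine Finset.prod_congr rfl fun j _ => ?_
    rw [show t + 1 + (h j : ℝ) * s = t + (h j : ℝ) * s + 1 by ring, phi_periodic]
  have h3 := intervalIntegral.integral_comp_sub_right (a := (0:ℝ)) (b := 1)
    (fun t : ℝ => ∏ j : Fin l, phi (t + (h j : ℝ) * s)) ((m : ℝ) * s)
  rw [h3]
  have h4 := hper.intervalIntegral_add_eq 0 (0 - (m : ℝ) * s)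
  rw [zero_add] at h4
  rw [h4]
  congr 1
  ring

end Pool.Agent.Lib.MP_f6c41f_nt
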