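import Pool.Agent.Lib.MP_f6c41f_nt.C6
import Pool.Agent.Lib.MP_f6c41f_nt.C7

/-!
# MP_f6c41f_nt, module T3

`∫_s ∫_t ((1/B) ∑_{b<B} phi (t + b s) phi (t + (b+a) s))² dt ds ≥ ∫_s (∫_t phi t phi (t + a s) dt)² ds`
(Cauchy-Schwarz in `t`, each term `b` has the same `t`-integral by translation) `= ∫ (1 - 4 nrm (a s))² ds
= 1/3` (`int_phi_phi`; substitution `a s`, period one).
-/

set_option autoImplicit false

namespace Pool.Agent.Lib.MP_f6c41f_nt

open Finset Filter Topology MeasureTheory

theorem T3_nrm_per (x : ℝ) : nrm (x + 1) = nrm x := by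
  unfold nrm
  have h : ((x + 1 : ℝ) : UnitAddCircle) = ((x : ℝ) : UnitAddCircle) := by
    exact AddCircle.coe_add_period (1:ℝ) x
  rw [h]

theorem T3_nrm_low {x : ℝ} (h0 : 0 ≤ x) (h1 : x ≤ 1 / 2) : nrm x = x := by
  unfold nrm
  rw [UnitAddCircle.norm_eq]
  rcases lt_or_eq_of_le h1 with h | h
  · have : round x = 0 := by
      rw [round_eq_zero_iff]
      constructor <;> linarith
    rw [this]
    simp [abs_of_nonneg h0]
  · subst h
    have : round (1 / 2 : ℝ) = 1 := by
      rw [round_eq]
      norm_num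
    rw [this]
    norm_num

theorem T3_nrm_high {x : ℝ} (h0 : 1 / 2 ≤ x) (h1 : x ≤ 1) : nrm x = 1 - x := by
  unfold nrm
  rw [UnitAddCircle.norm_eq]
  have : round x = 1 := by
    rw [round_eq, Int.floor_eq_iff]
    constructor <;> push_cast <;> linarith
  rw [this]
  push_cast
  rw [abs_of_nonpos (by linarith)]
  ring

theorem T3_nrm_cont : Continuous nrm := by
  unfold nrm
  exact continuous_norm.comp (AddCircle.continuous_mk' 1)

theorem T3_sub (f : ℝ → ℝ) (hf : Continuous f) (hp : ∀ x, f (x + 1) = f x) (a : ℕ) (ha : 0 < a) :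
    ∫ s in (0:ℝ)..1, f (a * s) = ∫ s in (0:ℝ)..1, f s := by
  have hper : Function.Periodic f 1 := hp
  have ha' : (a : ℝ) ≠ 0 := by exact_mod_cast ha.ne'
  rw [intervalIntegral.integral_comp_mul_left f ha']
  have h1 : ∫ x in (a : ℝ) * 0..(a : ℝ) * 1, f x = a • ∫ x in (0:ℝ)..1, f x := by
    have := hper.intervalIntegral_add_zsmul_eq (a : ℤ) 0 (fun t₁ t₂ => hf.intervalIntegrable _ _)
    simpa using this
  rw [h1]
  simp only [nsmul_eq_mul, smul_eq_mul]
  field_simp

theorem T3_int1 : ∫ s in (0:ℝ)..1, (1 - 4 * nrm s) = 0 := by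
  have hc : Continuous fun s => 1 - 4 * nrm s := by
    have := T3_nrm_cont
    fun_prop
  rw [← intervalIntegral.integral_add_adjacent_intervals (b := 1 / 2)
    (hc.intervalIntegrable _ _) (hc.intervalIntegrable _ _)]
  have h1 : ∫ s in (0:ℝ)..(1 / 2), (1 - 4 * nrm s) = ∫ s in (0:ℝ)..(1 / 2), (1 - 4 * s) := by
    apply intervalIntegral.integral_congr
    intro s hs
    rw [Set.uIcc_of_le (by norm_num)] at hs
    simp only
    rw [T3_nrm_low hs.1 hs.2]
  have h2 : ∫ s in (1 / 2 : ℝ)..1, (1 - 4 * nrm s) = ∫ s in (1 / 2 : ℝ)..1, (1 - 4 * (1 - s)) := by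
    apply intervalIntegral.integral_congr
    intro s hs
    rw [Set.uIcc_of_le (by norm_num)] at hs
    simp only
    rw [T3_nrm_high hs.1 hs.2]
  rw [h1, h2]
  have e1 : ∫ s in (0:ℝ)..(1 / 2), (1 - 4 * s) = 0 := by
    rw [intervalIntegral.integral_sub (by simp) (Continuous.intervalIntegrable (by fun_prop) _ _),
      intervalIntegral.integral_const_mul, integral_id, intervalIntegral.integral_const]
    norm_num
  have e2 : ∫ s in (1 / 2 : ℝ)..1, (1 - 4 * (1 - s)) = 0 := by
    rw [intervalIntegral.integral_sub (by simp) (Continuous.intervalIntegrable (by fun_prop) _ _),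
      intervalIntegral.integral_const_mul, intervalIntegral.integral_sub (by simp)
        (Continuous.intervalIntegrable (by fun_prop) _ _), integral_id,
      intervalIntegral.integral_const]
    norm_num
  rw [e1, e2]
  norm_num

theorem T3_int2 : ∫ s in (0:ℝ)..1, (1 - 4 * nrm s) ^ 2 = 1 / 3 := by
  have hc : Continuous fun s => (1 - 4 * nrm s) ^ 2 := by
    have := T3_nrm_cont
    fun_prop
  rw [← intervalIntegral.integral_add_adjacent_intervals (b := 1 / 2)
    (hc.intervalIntegrable _ _) (hc.intervalIntegrable _ _)]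
  have h1 : ∫ s in (0:ℝ)..(1 / 2), (1 - 4 * nrm s) ^ 2 =
      ∫ s in (0:ℝ)..(1 / 2), (1 - 8 * s + 16 * s ^ 2) := by
    apply intervalIntegral.integral_congr
    intro s hs
    rw [Set.uIcc_of_le (by norm_num)] at hs
    simp only
    rw [T3_nrm_low hs.1 hs.2]
    ring
  have h2 : ∫ s in (1 / 2 : ℝ)..1, (1 - 4 * nrm s) ^ 2 =
      ∫ s in (1 / 2 : ℝ)..1, (9 - 24 * s + 16 * s ^ 2) := by
    apply intervalIntegral.integral_congr
    intro s hs
    rw [Set.uIcc_of_le (by norm_num)] at hs
    simp only
    rw [T3_nrm_high hs.1 hs.2]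
    ring
  rw [h1, h2]
  have e1 : ∫ s in (0:ℝ)..(1 / 2), (1 - 8 * s + 16 * s ^ 2) = 1 / 6 := by
    rw [intervalIntegral.integral_add (Continuous.intervalIntegrable (by fun_prop) _ _)
      (Continuous.intervalIntegrable (by fun_prop) _ _),
      intervalIntegral.integral_sub (Continuous.intervalIntegrable (by fun_prop) _ _)
      (Continuous.intervalIntegrable (by fun_prop) _ _),
      intervalIntegral.integral_const_mul, intervalIntegral.integral_const_mul, integral_id,
      integral_pow, intervalIntegral.integral_const]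
    norm_num
  have e2 : ∫ s in (1 / 2 : ℝ)..1, (9 - 24 * s + 16 * s ^ 2) = 1 / 6 := by
    rw [intervalIntegral.integral_add (Continuous.intervalIntegrable (by fun_prop) _ _)
      (Continuous.intervalIntegrable (by fun_prop) _ _),
      intervalIntegral.integral_sub (Continuous.intervalIntegrable (by fun_prop) _ _)
      (Continuous.intervalIntegrable (by fun_prop) _ _),
      intervalIntegral.integral_const_mul, intervalIntegral.integral_const_mul, integral_id,
      integral_pow, intervalIntegral.integral_const]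
    norm_num
  rw [e1, e2]
  norm_num

/-- The square mean inequality on the unit interval. -/
theorem T3_cs (f : ℝ → ℝ) (hf : IntervalIntegrable f volume 0 1)
    (hf2 : IntervalIntegrable (fun t => f t ^ 2) volume 0 1) :
    (∫ t in (0:ℝ)..1, f t) ^ 2 ≤ ∫ t in (0:ℝ)..1, f t ^ 2 := by
  set m := ∫ t in (0:ℝ)..1, f t with hm
  have h : 0 ≤ ∫ t in (0:ℝ)..1, (f t - m) ^ 2 := by
    apply intervalIntegral.integral_nonneg (by norm_num)
    intro t _
    positivity
  have e : ∫ t in (0:ℝ)..1, (f t - m) ^ 2 = (∫ t in (0:ℝ)..1, f t ^ 2) - m ^ 2 := by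
    have e1 : ∀ t, (f t - m) ^ 2 = f t ^ 2 - (2 * m) * f t + m ^ 2 := fun t => by ring
    simp_rw [e1]
    rw [intervalIntegral.integral_add (hf2.sub (hf.const_mul _)) (by simp),
      intervalIntegral.integral_sub hf2 (hf.const_mul _), intervalIntegral.integral_const_mul,
      ← hm]
    simp
    ring
  linarith [h, e.symm.le, e.le]

theorem T3_trans (s : ℝ) (b a : ℕ) :
    ∫ t in (0:ℝ)..1, phi (t + (b : ℝ) * s) * phi (t + ((b + a : ℕ) : ℝ) * s) =
      1 - 4 * nrm (a * s) := by
  have h := int_phi_phi (a * s)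
  rw [← h]
  have hper : Function.Periodic (fun t => phi t * phi (t + a * s)) 1 := by
    intro t
    simp only
    rw [phi_periodic, show t + 1 + (a : ℝ) * s = (t + a * s) + 1 by ring, phi_periodic]
  have h1 := hper.intervalIntegral_add_eq ((b : ℝ) * s) 0
  simp only [zero_add] at h1
  rw [← h1]
  have h2 := intervalIntegral.integral_comp_add_right (a := 0) (b := 1)
    (fun t => phi t * phi (t + a * s)) ((b : ℝ) * s)
  rw [zero_add, add_comm (1 : ℝ)] at h2
  rw [← h2]
  congr 1
  ext t
  push_cast
  congr 2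
  ring

theorem second_moment (a B : ℕ) (ha : 0 < a) (hB : 0 < B) :
    1 / 3 ≤ ∫ t in (0:ℝ)..1, ∫ s in (0:ℝ)..1,
      ((∑ b ∈ range B, phi (t + (b : ℝ) * s) * phi (t + ((b + a : ℕ) : ℝ) * s)) / B) ^ 2 := by
  have hB' : (0 : ℝ) < B := by exact_mod_cast hB
  set G : ℝ → ℝ → ℝ := fun t s =>
    (∑ b ∈ range B, phi (t + (b : ℝ) * s) * phi (t + ((b + a : ℕ) : ℝ) * s)) / B with hG
  have hGm : Measurable fun p : ℝ × ℝ => G p.1 p.2 := by
    simp only [hG]
    apply Measurable.div_const
    apply Finset.measurable_sum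
    intro b _
    exact (measurable_phi.comp (by fun_prop)).mul (measurable_phi.comp (by fun_prop))
  have hGb : ∀ t s, |G t s| ≤ 1 := by
    intro t s
    simp only [hG]
    rw [abs_div, Nat.abs_cast, div_le_one hB']
    refine (Finset.abs_sum_le_sum_abs _ _).trans ?_
    simp_rw [abs_mul, phi_abs]
    simp
  have hGb2 : ∀ t s, |G t s ^ 2| ≤ 1 := by
    intro t s
    rw [abs_pow]
    exact pow_le_one₀ (abs_nonneg _) (hGb t s)
  have swap : ∫ t in (0:ℝ)..1, ∫ s in (0:ℝ)..1, (G t s) ^ 2 =
      ∫ s in (0:ℝ)..1, ∫ t in (0:ℝ)..1, (G t s) ^ 2 := by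
    simp_rw [intervalIntegral.integral_of_le (show (0:ℝ) ≤ 1 by norm_num)]
    apply integral_integral_swap
    apply Integrable.of_bound (C := 1)
    · exact (hGm.pow_const 2).aestronglyMeasurable
    · refine ae_of_all _ fun p => ?_
      change ‖G p.1 p.2 ^ 2‖ ≤ 1
      rw [Real.norm_eq_abs]
      exact hGb2 p.1 p.2
  change 1 / 3 ≤ ∫ t in (0:ℝ)..1, ∫ s in (0:ℝ)..1, (G t s) ^ 2
  rw [swap]
  have hsec : ∀ s, IntervalIntegrable (fun t => G t s) volume 0 1 := by
    intro s
    rw [intervalIntegrable_iff_integrableOn_Ioc_of_le (by norm_num)]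
    apply Integrable.of_bound (C := 1)
    · exact (hGm.comp (measurable_id.prodMk measurable_const)).aestronglyMeasurable
    · exact ae_of_all _ fun t => by simpa using hGb t s
  have hsec2 : ∀ s, IntervalIntegrable (fun t => G t s ^ 2) volume 0 1 := by
    intro s
    rw [intervalIntegrable_iff_integrableOn_Ioc_of_le (by norm_num)]
    apply Integrable.of_bound (C := 1)
    · exact ((hGm.comp (measurable_id.prodMk measurable_const)).pow_const 2).aestronglyMeasurable
    · exact ae_of_all _ fun t => by simpa using hGb2 t s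
  have hmean : ∀ s, ∫ t in (0:ℝ)..1, G t s = 1 - 4 * nrm (a * s) := by
    intro s
    simp only [hG]
    rw [intervalIntegral.integral_div, intervalIntegral.integral_finsetSum]
    · simp_rw [T3_trans]
      simp
      field_simp
    · intro b _
      rw [intervalIntegrable_iff_integrableOn_Ioc_of_le (by norm_num)]
      apply Integrable.of_bound (C := 1)
      · exact ((measurable_phi.comp (by fun_prop)).mul
          (measurable_phi.comp (by fun_prop))).aestronglyMeasurable
      · exact ae_of_all _ fun t => by simp [abs_mul, phi_abs]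
  have hlow : ∀ s, (1 - 4 * nrm (a * s)) ^ 2 ≤ ∫ t in (0:ℝ)..1, (G t s) ^ 2 := by
    intro s
    rw [← hmean s]
    exact T3_cs _ (hsec s) (hsec2 s)
  have hc : Continuous fun s => (1 - 4 * nrm s) ^ 2 := by
    have := T3_nrm_cont
    fun_prop
  calc (1 : ℝ) / 3 = ∫ s in (0:ℝ)..1, (1 - 4 * nrm (a * s)) ^ 2 := by
        rw [T3_sub (fun s => (1 - 4 * nrm s) ^ 2) hc (fun x => by simp only [T3_nrm_per]) a ha,
          T3_int2]
    _ ≤ _ := by
        apply intervalIntegral.integral_mono_on (by norm_num)
        · have := T3_nrm_cont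
          apply Continuous.intervalIntegrable
          fun_prop
        · rw [intervalIntegrable_iff_integrableOn_Ioc_of_le (by norm_num)]
          apply Integrable.of_bound (C := 1)
          · have h1 : StronglyMeasurable fun s : ℝ => ∫ t in Set.Ioc (0:ℝ) 1, (G t s) ^ 2 := by
              have h2 : StronglyMeasurable (Function.uncurry fun s t => (G t s) ^ 2) :=
                ((hGm.comp measurable_swap).pow_const 2).stronglyMeasurable
              exact h2.integral_prod_right
            simp_rw [intervalIntegral.integral_of_le (show (0:ℝ) ≤ 1 by norm_num)]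
            exact h1.aestronglyMeasurable
          · refine ae_of_all _ fun s => ?_
            have := intervalIntegral.norm_integral_le_of_norm_le_const (a := 0) (b := 1)
              (f := fun t => G t s ^ 2) (C := 1) (fun t _ => by simpa using hGb2 t s)
            simpa using this
        · intro s _
          exact hlow s

theorem torus_pair (a : ℕ) (ha : 0 < a) : torus {0, a} = 0 := by
  rw [← rot_int]
  simp_rw [rot_pair _ a ha]
  have hc : Continuous fun s => (1 - 4 * nrm s) := by
    have := T3_nrm_cont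
    fun_prop
  rw [T3_sub (fun s => 1 - 4 * nrm s) hc (fun x => by simp only [T3_nrm_per]) a ha, T3_int1]

end Pool.Agent.Lib.MP_f6c41f_nt
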