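import Pool.Agent.Lib.MP_f6c41f_nt.T1

/-!
# MP_f6c41f_nt, module T2

`Identity h` is the convergence for the finite set `red h m`: `∏ j lam (n + h j) =
∏_{i ∈ red h m} lam (n + m + i)` (`prod_red` with `g i = lam (n + m + i)`, `lam² = 1`), shift the
summation by `m` and `Icc 1 N` against `range N`: bounded number of terms, divided by `N`.
(For `torus_red` in `T1`: swap the integrals, translate `t` by `m s`, period one, swap back.)
-/

set_option autoImplicit false

namespace Pool.Agent.Lib.MP_f6c41f_nt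

open Finset Filter Topology

theorem lam_pm (n : ℤ) : lam n = 1 ∨ lam n = -1 := by
  unfold lam
  exact neg_one_pow_eq_or ℝ _

theorem T2_lam_sq (n : ℤ) : lam n * lam n = 1 := by
  rcases lam_pm n with h | h <;> rw [h] <;> norm_num

theorem T2_abs_prod {ι : Type*} (s : Finset ι) (g : ι → ℤ) : |∏ i ∈ s, lam (g i)| ≤ 1 := by
  rw [Finset.abs_prod]
  refine (Finset.prod_le_prod (fun i _ => abs_nonneg _) (g := fun _ => (1 : ℝ))
    fun i _ => ?_).trans (by simp)
  rcases lam_pm (g i) with h | h <;> rw [h] <;> norm_num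

theorem T2_shift (u : ℕ → ℝ) (hu : ∀ n, |u n| ≤ 1) (a N : ℕ) :
    |∑ n ∈ range N, u n - ∑ n ∈ range N, u (n + a)| ≤ 2 * a := by
  have h1 : ∑ n ∈ range (N + a), u n = ∑ n ∈ range N, u n + ∑ n ∈ range a, u (N + n) :=
    Finset.sum_range_add u N a
  have h2 : ∑ n ∈ range (a + N), u n = ∑ n ∈ range a, u n + ∑ n ∈ range N, u (a + n) :=
    Finset.sum_range_add u a N
  have h3 : ∑ n ∈ range N, u (a + n) = ∑ n ∈ range N, u (n + a) :=
    Finset.sum_congr rfl fun n _ => by rw [add_comm]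
  rw [add_comm a N] at h2
  have e : ∑ n ∈ range N, u n - ∑ n ∈ range N, u (n + a) =
      ∑ n ∈ range a, u n - ∑ n ∈ range a, u (N + n) := by
    linarith
  rw [e]
  have b : ∀ v : ℕ → ℝ, (∀ n, |v n| ≤ 1) → |∑ n ∈ range a, v n| ≤ a := by
    intro v hv
    refine (Finset.abs_sum_le_sum_abs _ _).trans ((Finset.sum_le_sum fun n _ => hv n).trans ?_)
    simp
  have b1 := b u hu
  have b2 := b (fun n => u (N + n)) fun n => hu _
  have b3 := abs_sub (∑ n ∈ range a, u n) (∑ n ∈ range a, u (N + n))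
  linarith

theorem identity_iff {l : ℕ} (h : Fin l → ℤ) (m : ℤ) (hm : ∀ j, m ≤ h j) :
    Identity h ↔ Tendsto (mean fun n => ∏ i ∈ red h m, lam ((n + i : ℕ) : ℤ)) atTop
      (𝓝 (torus (red h m))) := by
  unfold Identity
  rw [torus_red h m hm]
  set G : ℕ → ℝ := fun n => ∏ i ∈ red h m, lam ((n + i : ℕ) : ℤ) with hG
  set u : ℕ → ℝ := fun n => ∏ j : Fin l, lam (((n + 1 : ℕ) : ℤ) + h j) with hu
  have hu1 : ∀ n, |u n| ≤ 1 := fun n => T2_abs_prod _ _
  have hG1 : ∀ n, |G n| ≤ 1 := fun n => T2_abs_prod _ _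
  obtain ⟨b, hb⟩ : ∃ b : ℕ, (b : ℤ) = (m.natAbs : ℤ) + 1 + m := ⟨((m.natAbs : ℤ) + 1 + m).toNat, by
    omega⟩
  have hsh : ∀ n, u (n + m.natAbs) = G (n + b) := by
    intro n
    have hp := prod_red h m (fun i => lam ((n + b + i : ℕ) : ℤ)) (fun i => T2_lam_sq _)
    simp only [hu, hG]
    rw [← hp]
    refine Finset.prod_congr rfl fun j _ => ?_
    have hj := hm j
    have e : ((n + m.natAbs + 1 : ℕ) : ℤ) + h j = ((n + b + (h j - m).toNat : ℕ) : ℤ) := by
      omega
    rw [e]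
  have hd : Tendsto (fun N : ℕ => (1 / (N : ℝ)) * ∑ n ∈ Icc 1 N, ∏ j : Fin l, lam ((n : ℤ) + h j) -
      mean G N) atTop (𝓝 0) := by
    have hbound : ∀ N : ℕ, |(1 / (N : ℝ)) * ∑ n ∈ Icc 1 N, ∏ j : Fin l, lam ((n : ℤ) + h j) -
        mean G N| ≤ (2 * m.natAbs + 2 * b) * (1 / (N : ℝ)) := by
      intro N
      have e1 : ∑ n ∈ Icc 1 N, ∏ j : Fin l, lam ((n : ℤ) + h j) = ∑ n ∈ range N, u n := by
        rw [Finset.range_eq_Ico, Finset.sum_Ico_add' (fun n : ℕ => ∏ j : Fin l,
          lam ((n : ℤ) + h j)) 0 N 1]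
        congr 1
      have e2 : ∑ n ∈ range N, u (n + m.natAbs) = ∑ n ∈ range N, G (n + b) :=
        Finset.sum_congr rfl fun n _ => hsh n
      have h1 := T2_shift u hu1 m.natAbs N
      have h2 := T2_shift G hG1 b N
      rw [e2] at h1
      have h3 : |∑ n ∈ range N, u n - ∑ n ∈ range N, G n| ≤ 2 * m.natAbs + 2 * b := by
        have := abs_sub (∑ n ∈ range N, u n - ∑ n ∈ range N, G (n + b))
          (∑ n ∈ range N, G n - ∑ n ∈ range N, G (n + b))
        have e : (∑ n ∈ range N, u n - ∑ n ∈ range N, G (n + b)) -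
          (∑ n ∈ range N, G n - ∑ n ∈ range N, G (n + b)) =
          ∑ n ∈ range N, u n - ∑ n ∈ range N, G n := by ring
        rw [e] at this
        linarith
      rw [e1]
      unfold mean
      have e : (1 / (N : ℝ)) * ∑ n ∈ range N, u n - (∑ n ∈ range N, G n) / N =
          (∑ n ∈ range N, u n - ∑ n ∈ range N, G n) * (1 / (N : ℝ)) := by ring
      rw [e, abs_mul, abs_of_nonneg (by positivity : (0 : ℝ) ≤ 1 / N)]
      exact mul_le_mul_of_nonneg_right h3 (by positivity)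
    have hz : Tendsto (fun N : ℕ => (2 * (m.natAbs : ℝ) + 2 * b) * (1 / (N : ℝ))) atTop
        (𝓝 0) := by
      have := (tendsto_one_div_atTop_nhds_zero_nat (𝕜 := ℝ)).const_mul
        (2 * (m.natAbs : ℝ) + 2 * b)
      rwa [mul_zero] at this
    exact squeeze_zero_norm (fun N => by
      rw [Real.norm_eq_abs]
      exact hbound N) hz
  constructor
  · intro hI
    have := hI.sub hd
    simpa using this
  · intro hI
    have := hI.add hd
    simpa using this

end Pool.Agent.Lib.MP_f6c41f_nt
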