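import Pool.Agent.Lib.MP_f6c41f_nt.T2
import Pool.Agent.Lib.MP_f6c41f_nt.T3

/-!
# MP_f6c41f_nt, module T4

Expand the square: `mean` of `lam(n+b) lam(n+b+a) lam(n+b') lam(n+b'+a)` tends to
`∫∫ phi (t+bs) phi (t+(b+a)s) phi (t+b's) phi (t+(b'+a)s)`: for `b < b'` this is `Identity` of the
parallelogram `![0, a, b'-b, a+(b'-b)]` (in shifted form: `identity_iff` with `m = -b`... or apply
`identity_iff` to both tuples `![0,a,d,a+d]` and `![b,b+a,b',b'+a]`, whose reductions with `m = 0` resp.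
`m = b` agree), for `b = b'` both sides are one.  Then `second_moment` (strict slack `δ`).
-/

set_option autoImplicit false

namespace Pool.Agent.Lib.MP_f6c41f_nt

open Finset Filter Topology MeasureTheory

theorem T4_mean_of_Icc (g : ℕ → ℝ) (hg : ∀ n, |g n| ≤ 1) (L : ℝ)
    (h : Tendsto (fun N : ℕ => (1 / (N : ℝ)) * ∑ n ∈ Icc 1 N, g n) atTop (𝓝 L)) :
    Tendsto (mean g) atTop (𝓝 L) := by
  have h0 : Tendsto (fun N : ℕ => (g 0 - g N) / (N : ℝ)) atTop (𝓝 0) := by
    apply squeeze_zero_norm (a := fun N : ℕ => 2 / (N : ℝ))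
    · intro N
      rw [norm_div, Real.norm_eq_abs, Real.norm_eq_abs, Nat.abs_cast]
      apply div_le_div_of_nonneg_right _ (Nat.cast_nonneg N)
      have := abs_sub (g 0) (g N)
      linarith [hg 0, hg N]
    · exact tendsto_const_div_atTop_nhds_zero_nat 2
  have h1 := h.add h0
  rw [add_zero] at h1
  refine h1.congr ?_
  intro N
  have e : ∑ n ∈ range N, g n = ∑ n ∈ Icc 1 N, g n + g 0 - g N := by
    have e1 : ∑ n ∈ range (N + 1), g n = ∑ n ∈ range N, g n + g N := Finset.sum_range_succ _ _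
    have e2 : ∑ n ∈ range (N + 1), g n = g 0 + ∑ n ∈ Icc 1 N, g n := by
      have : range (N + 1) = insert 0 (Icc 1 N) := by
        ext x
        simp only [Finset.mem_range, Finset.mem_insert, Finset.mem_Icc]
        omega
      rw [this, Finset.sum_insert (by simp)]
    linarith
  unfold mean
  rw [e]
  ring

theorem T4_lam_abs (n : ℤ) : |lam n| = 1 := by
  rcases lam_pm n with h | h <;> rw [h] <;> simp

theorem T4_lam_sq (n : ℤ) : lam n * lam n = 1 := by
  rcases lam_pm n with h | h <;> rw [h] <;> simp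

/-- The product of two consecutive factors. -/
noncomputable def T4x (a b : ℕ) (n : ℕ) : ℝ := lam ((n + b : ℕ) : ℤ) * lam ((n + b + a : ℕ) : ℤ)

/-- Its torus model. -/
noncomputable def T4y (a b : ℕ) (t s : ℝ) : ℝ :=
  phi (t + (b : ℝ) * s) * phi (t + ((b + a : ℕ) : ℝ) * s)

theorem T4_lt (h4 : ∀ a d : ℕ, 0 < a → 0 < d → Identity ![0, (a : ℤ), d, a + d]) (a : ℕ)
    (ha : 0 < a) (b b' : ℕ) (hb : b < b') :
    Tendsto (fun N : ℕ => (1 / (N : ℝ)) * ∑ n ∈ Icc 1 N, T4x a b n * T4x a b' n) atTop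
      (𝓝 (∫ t in (0:ℝ)..1, ∫ s in (0:ℝ)..1, T4y a b t s * T4y a b' t s)) := by
  obtain ⟨d, hd⟩ : ∃ d : ℕ, b' = b + d := ⟨b' - b, by omega⟩
  have hd0 : 0 < d := by omega
  subst hd
  set h : Fin 4 → ℤ := ![(b : ℤ), b + a, b + d, b + d + a] with hh
  set h' : Fin 4 → ℤ := ![0, (a : ℤ), d, a + d] with hh'
  have e1 : ∀ j, h j - (b : ℤ) = h' j - 0 := by
    intro j
    fin_cases j <;> simp [hh, hh'] <;> ring
  have e2 : red h b = red h' 0 := by
    unfold red
    simp only [e1]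
  have i1 := identity_iff h b (by
    intro j
    fin_cases j <;> simp [hh] <;> omega)
  have i2 := identity_iff h' 0 (by
    intro j
    fin_cases j <;> simp [hh'] <;> omega)
  rw [e2] at i1
  have i3 : Identity h := i1.2 (i2.1 (h4 a d ha hd0))
  unfold Identity at i3
  have e3 : ∀ n : ℕ, ∏ j : Fin 4, lam ((n : ℤ) + h j) = T4x a b n * T4x a (b + d) n := by
    intro n
    simp only [Fin.prod_univ_four, hh, T4x]
    simp only [Matrix.cons_val_zero, Matrix.cons_val_one, Matrix.cons_val]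
    push_cast
    rw [show (n : ℤ) + (b + a) = n + b + a by ring, show (n : ℤ) + (b + d) = n + b + d by ring,
      show (n : ℤ) + (b + d + a) = n + b + d + a by ring]
    ring
  have e4 : ∀ t s : ℝ, ∏ j : Fin 4, phi (t + (h j : ℝ) * s) = T4y a b t s * T4y a (b + d) t s := by
    intro t s
    simp only [Fin.prod_univ_four, hh, T4y]
    simp only [Matrix.cons_val_zero, Matrix.cons_val_one, Matrix.cons_val]
    push_cast
    ring
  simp only [e3, e4] at i3
  exact i3

theorem T4_diag (a b : ℕ) :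
    Tendsto (fun N : ℕ => (1 / (N : ℝ)) * ∑ n ∈ Icc 1 N, T4x a b n * T4x a b n) atTop
      (𝓝 (∫ t in (0:ℝ)..1, ∫ s in (0:ℝ)..1, T4y a b t s * T4y a b t s)) := by
  have e1 : ∀ n, T4x a b n * T4x a b n = 1 := by
    intro n
    unfold T4x
    rw [mul_mul_mul_comm, T4_lam_sq, T4_lam_sq, one_mul]
  have e2 : ∀ t s, T4y a b t s * T4y a b t s = 1 := by
    intro t s
    unfold T4y
    rw [mul_mul_mul_comm, phi_sq, phi_sq, one_mul]
  simp only [e1, e2]
  simp only [sum_const, Nat.card_Icc, add_tsub_cancel_right, nsmul_eq_mul, mul_one,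
    intervalIntegral.integral_const, sub_zero, smul_eq_mul]
  apply tendsto_const_nhds.congr'
  filter_upwards [eventually_gt_atTop 0] with N hN
  have : (N : ℝ) ≠ 0 := by exact_mod_cast hN.ne'
  field_simp

theorem T4_all (h4 : ∀ a d : ℕ, 0 < a → 0 < d → Identity ![0, (a : ℤ), d, a + d]) (a : ℕ)
    (ha : 0 < a) (b b' : ℕ) :
    Tendsto (fun N : ℕ => (1 / (N : ℝ)) * ∑ n ∈ Icc 1 N, T4x a b n * T4x a b' n) atTop
      (𝓝 (∫ t in (0:ℝ)..1, ∫ s in (0:ℝ)..1, T4y a b t s * T4y a b' t s)) := by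
  rcases lt_trichotomy b b' with h | h | h
  · exact T4_lt h4 a ha b b' h
  · subst h
    exact T4_diag a b
  · have := T4_lt h4 a ha b' b h
    simpa only [mul_comm] using this

theorem T4_ymeas (a b : ℕ) : Measurable fun p : ℝ × ℝ => T4y a b p.1 p.2 := by
  unfold T4y
  exact (measurable_phi.comp (by fun_prop)).mul (measurable_phi.comp (by fun_prop))

theorem T4_yabs (a b : ℕ) (t s : ℝ) : |T4y a b t s| = 1 := by
  unfold T4y
  rw [abs_mul, phi_abs, phi_abs, one_mul]

theorem T4_int1 (g : ℝ × ℝ → ℝ) (hg : Measurable g) (hb : ∀ p, |g p| ≤ 1) (t : ℝ) :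
    IntervalIntegrable (fun s => g (t, s)) volume 0 1 := by
  rw [intervalIntegrable_iff_integrableOn_Ioc_of_le (by norm_num)]
  apply Integrable.of_bound (C := 1)
  · exact (hg.comp (measurable_const.prodMk measurable_id)).aestronglyMeasurable
  · exact ae_of_all _ fun s => by simpa using hb (t, s)

theorem T4_int2 (g : ℝ × ℝ → ℝ) (hg : Measurable g) (hb : ∀ p, |g p| ≤ 1) :
    IntervalIntegrable (fun t => ∫ s in (0:ℝ)..1, g (t, s)) volume 0 1 := by
  rw [intervalIntegrable_iff_integrableOn_Ioc_of_le (by norm_num)]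
  apply Integrable.of_bound (C := 1)
  · have h1 : StronglyMeasurable fun t : ℝ => ∫ s in Set.Ioc (0:ℝ) 1, g (t, s) :=
      StronglyMeasurable.integral_prod_right (f := fun t s => g (t, s)) hg.stronglyMeasurable
    simp_rw [intervalIntegral.integral_of_le (show (0:ℝ) ≤ 1 by norm_num)]
    exact h1.aestronglyMeasurable
  · refine ae_of_all _ fun t => ?_
    have := intervalIntegral.norm_integral_le_of_norm_le_const (a := 0) (b := 1)
      (f := fun s => g (t, s)) (C := 1) (fun s _ => by simpa using hb (t, s))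
    simpa using this

theorem T4_sum {ι : Type} (S : Finset ι) (g : ι → ℝ × ℝ → ℝ) (hg : ∀ i, Measurable (g i))
    (hb : ∀ i p, |g i p| ≤ 1) :
    ∫ t in (0:ℝ)..1, ∫ s in (0:ℝ)..1, ∑ i ∈ S, g i (t, s) =
      ∑ i ∈ S, ∫ t in (0:ℝ)..1, ∫ s in (0:ℝ)..1, g i (t, s) := by
  have h1 : ∀ t : ℝ, ∫ s in (0:ℝ)..1, ∑ i ∈ S, g i (t, s) =
      ∑ i ∈ S, ∫ s in (0:ℝ)..1, g i (t, s) := by
    intro t
    exact intervalIntegral.integral_finsetSum fun i _ => T4_int1 (g i) (hg i) (hb i) t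
  simp_rw [h1]
  exact intervalIntegral.integral_finsetSum fun i _ => T4_int2 (g i) (hg i) (hb i)

theorem energy_of_parallelograms
    (h4 : ∀ a d : ℕ, 0 < a → 0 < d → Identity ![0, (a : ℤ), d, a + d]) (a : ℕ) (ha : 0 < a)
    (δ : ℝ) (hδ : 0 < δ) (B : ℕ) (hB : 0 < B) : ∀ᶠ N in atTop,
      1 / 3 - δ ≤ mean (fun n => ((∑ b ∈ range B, lam ((n + b : ℕ) : ℤ) *
        lam ((n + b + a : ℕ) : ℤ)) / B) ^ 2) N := by
  have hB' : (0 : ℝ) < B := by exact_mod_cast hB
  set J := ∫ t in (0:ℝ)..1, ∫ s in (0:ℝ)..1,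
      ((∑ b ∈ range B, phi (t + (b : ℝ) * s) * phi (t + ((b + a : ℕ) : ℝ) * s)) / B) ^ 2 with hJ
  have hJ3 : 1 / 3 ≤ J := second_moment a B ha hB
  have hJe : J = ∑ q ∈ range B ×ˢ range B, (1 / (B : ℝ) ^ 2) *
      ∫ t in (0:ℝ)..1, ∫ s in (0:ℝ)..1, T4y a q.1 t s * T4y a q.2 t s := by
    have e0 : ∀ t s : ℝ, ((∑ b ∈ range B, phi (t + (b : ℝ) * s) *
        phi (t + ((b + a : ℕ) : ℝ) * s)) / B) ^ 2 =
        (1 / (B : ℝ) ^ 2) * ∑ q ∈ range B ×ˢ range B, T4y a q.1 t s * T4y a q.2 t s := by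
      intro t s
      rw [div_pow, sq (∑ b ∈ range B, _), Finset.sum_mul_sum, Finset.sum_product]
      simp only [T4y]
      ring
    rw [hJ]
    simp_rw [e0, intervalIntegral.integral_const_mul]
    rw [← Finset.mul_sum]
    congr 1
    exact T4_sum (range B ×ˢ range B) (fun q p => T4y a q.1 p.1 p.2 * T4y a q.2 p.1 p.2)
      (fun q => (T4_ymeas a q.1).mul (T4_ymeas a q.2))
      (fun q p => by simp only [abs_mul, T4_yabs]; norm_num)
  have hlim : Tendsto (fun N : ℕ => (1 / (N : ℝ)) * ∑ n ∈ Icc 1 N,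
      ((∑ b ∈ range B, lam ((n + b : ℕ) : ℤ) * lam ((n + b + a : ℕ) : ℤ)) / B) ^ 2) atTop
      (𝓝 J) := by
    rw [hJe]
    have h1 := tendsto_finsetSum (range B ×ˢ range B) (fun q (_ : q ∈ range B ×ˢ range B) =>
      (T4_all h4 a ha q.1 q.2).const_mul (1 / (B : ℝ) ^ 2))
    refine h1.congr ?_
    intro N
    have e0 : ∀ n : ℕ, ((∑ b ∈ range B, lam ((n + b : ℕ) : ℤ) *
        lam ((n + b + a : ℕ) : ℤ)) / B) ^ 2 =
        (1 / (B : ℝ) ^ 2) * ∑ q ∈ range B ×ˢ range B, T4x a q.1 n * T4x a q.2 n := by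
      intro n
      rw [div_pow, sq (∑ b ∈ range B, _), Finset.sum_mul_sum, Finset.sum_product]
      simp only [T4x]
      ring
    simp_rw [e0]
    rw [← Finset.mul_sum, ← Finset.mul_sum, Finset.sum_comm]
    simp_rw [← Finset.mul_sum]
    ring
  have hmean := T4_mean_of_Icc (fun n => ((∑ b ∈ range B, lam ((n + b : ℕ) : ℤ) *
        lam ((n + b + a : ℕ) : ℤ)) / B) ^ 2) (by
      intro n
      rw [abs_pow]
      apply pow_le_one₀ (abs_nonneg _)
      rw [abs_div, Nat.abs_cast, div_le_one hB']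
      refine (Finset.abs_sum_le_sum_abs _ _).trans ?_
      simp_rw [abs_mul, T4_lam_abs]
      simp) J hlim
  have hev := (tendsto_order.1 hmean).1 (1 / 3 - δ) (by linarith)
  filter_upwards [hev] with N hN
  exact hN.le

theorem pair_of_identity (a : ℕ) (ha : 0 < a) :
    Identity ![0, (a : ℤ)] ↔
      Tendsto (mean fun n => lam ((n : ℕ) : ℤ) * lam ((n + a : ℕ) : ℤ)) atTop (𝓝 0) := by
  have hred : red ![0, (a : ℤ)] 0 = {0, a} := by
    unfold red
    ext x
    simp only [Finset.mem_filter, Finset.mem_image, Finset.mem_univ, true_and, sub_zero,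
      Finset.mem_insert, Finset.mem_singleton, Fin.exists_fin_two, Matrix.cons_val_zero,
      Matrix.cons_val_one, Int.toNat_zero, Int.toNat_natCast]
    constructor
    · rintro ⟨h | h, -⟩
      · exact Or.inl h.symm
      · exact Or.inr h.symm
    · rintro (h | h)
      · subst h
        refine ⟨Or.inl rfl, ?_⟩
        have : (univ.filter fun j : Fin 2 => (![0, (a : ℤ)] j).toNat = 0) = {0} := by
          ext j
          fin_cases j <;> simp [ha.ne']
        rw [this]
        simp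
      · subst h
        refine ⟨Or.inr rfl, ?_⟩
        have : (univ.filter fun j : Fin 2 => (![0, (x : ℤ)] j).toNat = x) = {1} := by
          ext j
          fin_cases j <;> simp [ha.ne]
        rw [this]
        simp
  rw [identity_iff ![0, (a : ℤ)] 0 (by
    intro j
    fin_cases j <;> simp), hred, torus_pair a ha]
  have e : ∀ n : ℕ, ∏ i ∈ ({0, a} : Finset ℕ), lam ((n + i : ℕ) : ℤ) =
      lam ((n : ℕ) : ℤ) * lam ((n + a : ℕ) : ℤ) := by
    intro n
    rw [Finset.prod_insert (by simp [ha.ne]), Finset.prod_singleton, add_zero]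
  simp_rw [e]

end Pool.Agent.Lib.MP_f6c41f_nt
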