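import Pool.Agent.Lib.MP_f6c41f_nt.B4
import Pool.Agent.Lib.MP_f6c41f_nt.C2

/-!
# MP_f6c41f_nt, module X1: the doubling relation from its mean

`dfc c a = 1 + r (2a) - 2 |r a| ≥ 0` is the defect of the doubling relation of the autocorrelation
`r = cor c` of a stationary sign process.  If the defects are small on average (along some
averages), then they all vanish.  Proof: a set `G` of naturals of upper density one contains all
differences `j - i` of an ultrafilter-large set of pairs; by positive semidefiniteness some such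
`p = j - i` has `r (2^k p) ≥ -η` for all `k ≤ K`, and the approximate doubling relation forces
`r p` close to one; then `dfc c a` is close to `dfc c (a + p)`.
-/

set_option autoImplicit false

namespace Pool.Agent.Lib.MP_f6c41f_nt

open Finset Filter Topology

/-- the defect of the doubling relation -/
noncomputable def dfc (c : Finset ℕ → ℝ) (a : ℤ) : ℝ := 1 + cor c (2 * a) - 2 * |cor c a|

theorem dfc_nonneg {c : Finset ℕ → ℝ} (hc : Stat c) (a : ℤ) : 0 ≤ dfc c a := by
  have := dbl_le hc a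
  unfold dfc
  linarith

open Classical in
/-- a set of upper density one is in the tails of all its translates -/
theorem X1_ultra (G : Set ℕ) (hG : ∀ δ > (0 : ℝ), ∃ᶠ A : ℕ in atTop,
    (((Icc 1 A).filter fun p => p ∉ G).card : ℝ) ≤ δ * A) :
    ∃ V : Ultrafilter ℕ, ∀ i : ℕ, {j : ℕ | i < j ∧ j - i ∈ G} ∈ V := by
  have key : ∀ I : Finset ℕ, ∃ j : ℕ, ∀ i ∈ I, i < j ∧ j - i ∈ G := by
    intro I
    set m : ℕ := I.sup id with hm
    have hk : (0 : ℝ) < 1 / (4 * (I.card + 1)) := by positivity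
    obtain ⟨A, hA1, hA2⟩ := (hG _ hk).and_eventually (eventually_ge_atTop (4 * (m + 1))) |>.exists
    by_contra hcon
    push Not at hcon
    -- every j in (m, A] is bad for some i
    have hsub : Ioc m A ⊆ I.biUnion fun i => ((Icc 1 A).filter fun p => p ∉ G).image fun p => p + i := by
      intro j hj
      rw [mem_Ioc] at hj
      obtain ⟨i, hi, hij⟩ := hcon j
      have him : i ≤ m := le_sup (f := id) hi
      have hlt : i < j := lt_of_le_of_lt him hj.1
      have hnG := hij hlt
      rw [mem_biUnion]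
      refine ⟨i, hi, ?_⟩
      rw [mem_image]
      refine ⟨j - i, ?_, by omega⟩
      rw [mem_filter, mem_Icc]
      exact ⟨⟨by omega, by omega⟩, hnG⟩
    have h1 := card_le_card hsub
    have h2 : (I.biUnion fun i => ((Icc 1 A).filter fun p => p ∉ G).image fun p => p + i).card ≤
        I.card * ((Icc 1 A).filter fun p => p ∉ G).card := by
      refine card_biUnion_le_card_mul _ _ _ fun i _ => card_image_le
    rw [Nat.card_Ioc] at h1
    have h3 : ((A - m : ℕ) : ℝ) ≤ I.card * ((Icc 1 A).filter fun p => p ∉ G).card := by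
      exact_mod_cast h1.trans h2
    have hmA : m ≤ A := by omega
    rw [Nat.cast_sub hmA] at h3
    have h4 : (I.card : ℝ) * ((Icc 1 A).filter fun p => p ∉ G).card ≤ A / 4 := by
      calc (I.card : ℝ) * ((Icc 1 A).filter fun p => p ∉ G).card
          ≤ I.card * (1 / (4 * (I.card + 1)) * A) :=
            mul_le_mul_of_nonneg_left hA1 (Nat.cast_nonneg _)
        _ = A / 4 * (I.card / (I.card + 1)) := by field_simp
        _ ≤ A / 4 * 1 := by
            apply mul_le_mul_of_nonneg_left _ (by positivity)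
            rw [div_le_one (by positivity)]
            linarith
        _ = A / 4 := mul_one _
    have h5 : (4 : ℝ) * (m + 1) ≤ A := by exact_mod_cast hA2
    have h6 : (0 : ℝ) ≤ m := Nat.cast_nonneg _
    linarith
  obtain ⟨V, hV⟩ := Ultrafilter.exists_ultrafilter_of_finite_inter_nonempty
    (Set.range fun i : ℕ => {j : ℕ | i < j ∧ j - i ∈ G}) (by
      intro T hT
      have hT' : ∀ t ∈ T, ∃ i : ℕ, {j : ℕ | i < j ∧ j - i ∈ G} = t := fun t ht => hT ht
      choose! φ hφ using hT'
      obtain ⟨j, hj⟩ := key (T.image φ)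
      refine ⟨j, ?_⟩
      rw [Set.mem_sInter]
      intro t ht
      rw [← hφ t ht]
      exact hj (φ t) (mem_image_of_mem _ ht))
  exact ⟨V, fun i => hV ⟨i, rfl⟩⟩

/-- correlations along an ultrafilter are not negative -/
theorem X1_nonneg (r : ℤ → ℝ) (h0 : r 0 = 1) (hs : ∀ a, r (-a) = r a)
    (hpsd : ∀ (S : Finset ℤ) (w : ℤ → ℝ), 0 ≤ ∑ i ∈ S, ∑ j ∈ S, w i * w j * r (i - j))
    (V : Ultrafilter ℕ) (hV : ∀ i : ℕ, {j : ℕ | i < j} ∈ V) (k : ℕ) (η : ℝ) (hη : 0 < η) :
    {i : ℕ | {j : ℕ | r (2 ^ k * ((j : ℤ) - i)) < -η} ∈ V} ∉ V := by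
  intro hA
  have hset : ∀ n : ℕ, ∃ S : Finset ℕ, S.card = n ∧
      (∀ i ∈ S, {j : ℕ | r (2 ^ k * ((j : ℤ) - i)) < -η} ∈ V) ∧
      ∀ i ∈ S, ∀ j ∈ S, i ≠ j → r (2 ^ k * ((j : ℤ) - i)) < -η := by
    intro n
    induction n with
    | zero => exact ⟨∅, rfl, by simp, by simp⟩
    | succ n ih =>
      obtain ⟨S, hS, h1, h2⟩ := ih
      have e2 : ∀ᶠ m : ℕ in (V : Filter ℕ), ∀ i ∈ S, r (2 ^ k * ((m : ℤ) - i)) < -η :=
        (eventually_all_finset S).2 fun i hi => h1 i hi
      have e3 : ∀ᶠ m : ℕ in (V : Filter ℕ), ∀ i ∈ S, i < m :=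
        (eventually_all_finset S).2 fun i _ => hV i
      have e1 : ∀ᶠ m : ℕ in (V : Filter ℕ), {j : ℕ | r (2 ^ k * ((j : ℤ) - m)) < -η} ∈ V := hA
      obtain ⟨m, hm1, hm2, hm3⟩ := (e1.and (e2.and e3)).exists
      have hmS : m ∉ S := fun h => lt_irrefl _ (hm3 m h)
      refine ⟨insert m S, by rw [card_insert_of_notMem hmS, hS], ?_, ?_⟩
      · intro i hi
        rcases mem_insert.1 hi with rfl | hi
        · exact hm1
        · exact h1 i hi
      · intro i hi j hj hij
        rcases mem_insert.1 hi with hi' | hi'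
        · rcases mem_insert.1 hj with hj' | hj'
          · exact absurd (hi'.trans hj'.symm) hij
          · have := hm2 j hj'
            rw [← hs] at this
            rw [hi']
            convert this using 2
            ring
        · rcases mem_insert.1 hj with hj' | hj'
          · rw [hj']; exact hm2 i hi'
          · exact h2 i hi' j hj' hij
  obtain ⟨n, hn⟩ := exists_nat_gt (1 / η + 1)
  have hn1 : 1 / η < (n : ℝ) - 1 := by linarith
  have hn2 : 1 < ((n : ℝ) - 1) * η := by
    rw [div_lt_iff₀ hη] at hn1; exact hn1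
  have hn0 : (0 : ℝ) < n := by
    have : 0 < 1 / η := by positivity
    linarith
  obtain ⟨S, hS, -, h2⟩ := hset n
  have hinj : Function.Injective (fun i : ℕ => (2 ^ k * (i : ℤ) : ℤ)) := by
    intro i j hij
    have : (2 ^ k : ℤ) ≠ 0 := by positivity
    exact_mod_cast mul_left_cancel₀ this hij
  have h := hpsd (S.map ⟨fun i : ℕ => (2 ^ k * (i : ℤ) : ℤ), hinj⟩) (fun _ => 1)
  simp only [sum_map, Function.Embedding.coeFn_mk, one_mul] at h
  have hle : ∑ i ∈ S, ∑ j ∈ S, r (2 ^ k * (i : ℤ) - 2 ^ k * j) ≤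
      ∑ i ∈ S, (1 - ((n : ℝ) - 1) * η) := by
    apply sum_le_sum
    intro i hi
    rw [← add_sum_erase S _ hi, sub_self, h0]
    have : ∑ j ∈ S.erase i, r (2 ^ k * (i : ℤ) - 2 ^ k * j) ≤ ∑ j ∈ S.erase i, (-η) := by
      apply sum_le_sum
      intro j hj
      have := h2 j (mem_of_mem_erase hj) i hi (ne_of_mem_erase hj)
      rw [mul_sub] at this
      exact this.le
    rw [sum_const, card_erase_of_mem hi, hS, nsmul_eq_mul, Nat.cast_sub (by
      have := card_pos.2 ⟨i, hi⟩; omega), Nat.cast_one] at this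
    linarith
  rw [sum_const, hS, nsmul_eq_mul] at hle
  have : (n : ℝ) * (1 - ((n : ℝ) - 1) * η) < 0 := by nlinarith
  linarith

open Classical in
/-- many differences in `G` have almost nonnegative correlations at all dyadic dilates -/
theorem X1_pair (r : ℤ → ℝ) (h0 : r 0 = 1) (hs : ∀ a, r (-a) = r a)
    (hpsd : ∀ (S : Finset ℤ) (w : ℤ → ℝ), 0 ≤ ∑ i ∈ S, ∑ j ∈ S, w i * w j * r (i - j))
    (G : Set ℕ) (hG : ∀ δ > (0 : ℝ), ∃ᶠ A : ℕ in atTop,
      (((Icc 1 A).filter fun p => p ∉ G).card : ℝ) ≤ δ * A)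
    (K : ℕ) (η : ℝ) (hη : 0 < η) :
    ∃ p : ℕ, 0 < p ∧ p ∈ G ∧ ∀ k ≤ K, -η ≤ r (2 ^ k * (p : ℤ)) := by
  obtain ⟨V, hV⟩ := X1_ultra G hG
  have hV' : ∀ i : ℕ, {j : ℕ | i < j} ∈ V := fun i =>
    V.sets_of_superset (hV i) (fun j hj => hj.1)
  have e1 : ∀ᶠ i : ℕ in (V : Filter ℕ), ∀ k ∈ range (K + 1),
      {j : ℕ | r (2 ^ k * ((j : ℤ) - i)) < -η} ∉ V := by
    refine (eventually_all_finset _).2 fun k _ => ?_
    have := X1_nonneg r h0 hs hpsd V hV' k η hη
    exact Ultrafilter.compl_mem_iff_notMem.2 this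
  obtain ⟨i, hi⟩ := e1.exists
  have e2 : ∀ᶠ j : ℕ in (V : Filter ℕ), ∀ k ∈ range (K + 1), -η ≤ r (2 ^ k * ((j : ℤ) - i)) := by
    refine (eventually_all_finset _).2 fun k hk => ?_
    have := Ultrafilter.compl_mem_iff_notMem.2 (hi k hk)
    filter_upwards [this] with j hj
    simpa using hj
  have e3 : ∀ᶠ j : ℕ in (V : Filter ℕ), i < j ∧ j - i ∈ G := hV i
  obtain ⟨j, hj1, hj2, hj3⟩ := (e2.and e3).exists
  refine ⟨j - i, by omega, hj3, fun k hk => ?_⟩
  have := hj1 k (mem_range.2 (by omega))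
  rwa [Nat.cast_sub hj2.le]

/-- approximate doubling with no negative values forces the first value close to one -/
theorem X1_chain (x : ℕ → ℝ) (K : ℕ) (ε : ℝ) (hε : 0 ≤ ε) (hε' : ε ≤ 1 / 4)
    (h1 : ∀ k ≤ K, |x k| ≤ 1) (h2 : ∀ k ≤ K, -(1 / 8) ≤ x k)
    (h3 : ∀ k < K, 1 + x (k + 1) - 2 * |x k| ≤ ε) : 1 - x 0 ≤ 2 / 2 ^ K + ε := by
  have key : ∀ j : ℕ, j ≤ K → 1 - x (K - j) ≤ 2 / 2 ^ j + ε := by
    intro j
    induction j with
    | zero =>
      intro _
      have := abs_le.1 (h1 K le_rfl)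
      simp only [Nat.sub_zero, pow_zero, div_one]
      linarith
    | succ j ih =>
      intro hj
      have h := ih (by omega)
      have e : K - j = (K - (j + 1)) + 1 := by omega
      have h3' := h3 (K - (j + 1)) (by omega)
      rw [← e] at h3'
      have h2' := h2 (K - j) (by omega)
      have h2'' := h2 (K - (j + 1)) (by omega)
      have hx : 0 < x (K - (j + 1)) := by
        by_contra hneg
        push Not at hneg
        rw [abs_of_nonpos hneg] at h3'
        linarith
      rw [abs_of_pos hx] at h3'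
      have e2 : (2 : ℝ) / 2 ^ (j + 1) = (2 / 2 ^ j) / 2 := by
        rw [pow_succ]; field_simp
      rw [e2]
      linarith
  have := key K le_rfl
  simpa using this

theorem X1_lip {c : Finset ℕ → ℝ} (hc : Stat c) (a p : ℤ) :
    |cor c (a + p) - cor c a| ≤ 1 - cor c p := by
  have h1 := ang_add hc a p
  have h2 := ang_add hc (a + p) (-p)
  have h3 : a + p + -p = a := by ring
  rw [h3] at h2
  unfold ang at h1 h2
  rw [cor_neg] at h2
  rw [abs_le]
  constructor <;> linarith

/-- the doubling relation from its mean -/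
theorem dbl_of_mean {c : Finset ℕ → ℝ} (hc : Stat c)
    (hm : ∀ (K a : ℕ) (ε : ℝ), 0 < ε → ∃ᶠ A : ℕ in atTop,
      ∑ p ∈ Icc 1 A, (∑ k ∈ range K, dfc c (2 ^ k * p) + dfc c (a + p)) ≤ ε * A) :
    ∀ a : ℕ, 0 < a → 1 + cor c (2 * a) = 2 * |cor c a| := by
  classical
  intro a _
  have hr0 : cor c 0 = 1 := by unfold cor; simp
  have hrs : ∀ a, cor c (-a) = cor c a := fun a => cor_neg a
  have hps := psd hc
  have habs : ∀ z : ℤ, |cor c z| ≤ 1 := fun z => by
    have := B4_abs_le (cor c) hr0 hrs hps z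
    exact abs_le.2 this
  have hle : ∀ ε > 0, dfc c a ≤ ε := by
    intro ε hε
    -- choose the parameters
    obtain ⟨K, hK⟩ : ∃ K : ℕ, (2 : ℝ) / 2 ^ K ≤ ε / 10 := by
      obtain ⟨K, hK⟩ := pow_unbounded_of_one_lt (20 / ε) (by norm_num : (1 : ℝ) < 2)
      refine ⟨K, ?_⟩
      rw [div_lt_iff₀ hε] at hK
      rw [div_le_iff₀ (by positivity)]
      linarith
    set e1 : ℝ := min (ε / 10) (1 / 4) with he1
    have he1p : 0 < e1 := lt_min (by positivity) (by norm_num)
    have he1a : e1 ≤ ε / 10 := min_le_left _ _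
    have he1b : e1 ≤ 1 / 4 := min_le_right _ _
    set g : ℕ → ℝ := fun p => ∑ k ∈ range K, dfc c (2 ^ k * p) + dfc c (a + p) with hg
    have hgn : ∀ p, 0 ≤ g p := fun p =>
      add_nonneg (sum_nonneg fun k _ => dfc_nonneg hc _) (dfc_nonneg hc _)
    set G : Set ℕ := {p | g p ≤ e1} with hGdef
    have hG : ∀ δ > (0 : ℝ), ∃ᶠ A : ℕ in atTop,
        (((Icc 1 A).filter fun p => p ∉ G).card : ℝ) ≤ δ * A := by
      intro δ hδ
      refine (hm K a (δ * e1) (mul_pos hδ he1p)).mono fun A hA => ?_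
      have h1 : (((Icc 1 A).filter fun p => p ∉ G).card : ℝ) * e1 ≤ ∑ p ∈ Icc 1 A, g p := by
        calc (((Icc 1 A).filter fun p => p ∉ G).card : ℝ) * e1
            = ∑ p ∈ (Icc 1 A).filter fun p => p ∉ G, e1 := by
              rw [sum_const, nsmul_eq_mul]
          _ ≤ ∑ p ∈ (Icc 1 A).filter fun p => p ∉ G, g p := by
              apply sum_le_sum
              intro p hp
              have := (mem_filter.1 hp).2
              exact (not_le.1 this).le
          _ ≤ ∑ p ∈ Icc 1 A, g p :=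
              sum_le_sum_of_subset_of_nonneg (filter_subset _ _) fun p _ _ => hgn p
      have h2 : (((Icc 1 A).filter fun p => p ∉ G).card : ℝ) * e1 ≤ (δ * A) * e1 := by
        calc _ ≤ _ := h1
          _ ≤ δ * e1 * A := hA
          _ = (δ * A) * e1 := by ring
      exact le_of_mul_le_mul_right h2 he1p
    obtain ⟨p, hp0, hpG, hp⟩ := X1_pair (cor c) hr0 hrs hps G hG K (1 / 8) (by norm_num)
    have hgp : g p ≤ e1 := hpG
    have hk1 : ∀ k < K, dfc c (2 ^ k * p) ≤ e1 := by
      intro k hk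
      have h1 : dfc c (2 ^ k * p) ≤ ∑ k ∈ range K, dfc c (2 ^ k * p) :=
        single_le_sum (f := fun k => dfc c (2 ^ k * p)) (fun k _ => dfc_nonneg hc _)
          (mem_range.2 hk)
      have h2 := dfc_nonneg hc (a + p)
      have : g p = ∑ k ∈ range K, dfc c (2 ^ k * p) + dfc c (a + p) := rfl
      linarith
    have hk2 : dfc c (a + p) ≤ e1 := by
      have h1 : 0 ≤ ∑ k ∈ range K, dfc c (2 ^ k * p) := sum_nonneg fun k _ => dfc_nonneg hc _
      have : g p = ∑ k ∈ range K, dfc c (2 ^ k * p) + dfc c (a + p) := rfl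
      linarith
    have hch := X1_chain (fun k => cor c (2 ^ k * (p : ℤ))) K e1 he1p.le he1b
      (fun k _ => habs _) (fun k hk => by have := hp k hk; linarith)
      (fun k hk => by
        have := hk1 k hk
        unfold dfc at this
        have e : (2 : ℤ) * (2 ^ k * (p : ℤ)) = 2 ^ (k + 1) * p := by ring
        rw [e] at this
        exact this)
    simp only [pow_zero, one_mul] at hch
    have hch2 : 1 - cor c p ≤ ε / 5 := by linarith
    -- compare `a` and `a + p`
    have hl1 := abs_le.1 (X1_lip hc a p)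
    have hl2 := abs_le.1 (X1_lip hc (2 * a) (2 * p))
    have hl3 : 1 - cor c (2 * p) ≤ 2 * (1 - cor c p) := by
      have := ang_add hc p p
      unfold ang at this
      have e : (p : ℤ) + p = 2 * p := by ring
      rw [e] at this
      linarith
    have e3 : (2 : ℤ) * a + 2 * p = 2 * (a + p) := by ring
    rw [e3] at hl2
    have hab : |cor c (a + p)| ≤ |cor c a| + (1 - cor c p) := by
      have h1 := X1_lip hc a p
      have h2 := abs_sub_abs_le_abs_sub (cor c (a + p)) (cor c a)
      linarith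
    unfold dfc at hk2 ⊢
    linarith [hl2.1, hl2.2]
  have h0 : dfc c a = 0 := le_antisymm (le_of_forall_pos_le_add fun ε hε => by
    have := hle ε hε; linarith) (dfc_nonneg hc a)
  unfold dfc at h0
  linarith

end Pool.Agent.Lib.MP_f6c41f_nt
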