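import Pool.Agent.Lib.MP_f6c41f_nt.X1
import Pool.Agent.Lib.MP_f6c41f_nt.N1

/-!
# MP_f6c41f_nt, module X2: the mean second moment of the correlations

If the law `μ` on stationary sign processes has `∫ c{0,a} = 0` for all `a ≥ 1`, then
`∫ (c{0,a})² ≤ 1/3` for all `a ≥ 1`; and if these second moments are at least `1/3` on average over
`a ≤ A` (for arbitrarily large `A`), then almost every `c` satisfies the doubling relation.
-/

set_option autoImplicit false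

namespace Pool.Agent.Lib.MP_f6c41f_nt

open Finset Filter Topology MeasureTheory

theorem X2_cor_meas (z : ℤ) : Measurable fun c : Finset ℕ → ℝ => cor c z := by
  unfold cor
  by_cases h : z = 0
  · simp [h]
  · simp only [h, if_false]
    exact measurable_pi_apply _

theorem X2_dfc_meas (z : ℤ) : Measurable fun c : Finset ℕ → ℝ => dfc c z := by
  unfold dfc
  have h1 := X2_cor_meas (2 * z)
  have h2 := X2_cor_meas z
  exact (measurable_const.add h1).sub ((h2.abs).const_mul 2)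

theorem X2_cor_abs {c : Finset ℕ → ℝ} (hc : Stat c) (z : ℤ) : |cor c z| ≤ 1 := by
  unfold cor
  split
  · simp
  · exact abs_le_one hc _

theorem X2_dfc_le {c : Finset ℕ → ℝ} (hc : Stat c) (z : ℤ) : dfc c z ≤ 2 := by
  unfold dfc
  have h1 := abs_le.1 (X2_cor_abs hc (2 * z))
  have h2 := abs_nonneg (cor c z)
  linarith

theorem X2_dfc_int (μ : Measure (Finset ℕ → ℝ)) [IsProbabilityMeasure μ]
    (hst : ∀ᵐ c ∂μ, Stat c) (z : ℤ) : Integrable (fun c => dfc c z) μ := by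
  refine Integrable.of_bound (X2_dfc_meas z).aestronglyMeasurable 2 ?_
  filter_upwards [hst] with c hc
  rw [Real.norm_eq_abs, abs_of_nonneg (dfc_nonneg hc z)]
  exact X2_dfc_le hc z

/-- the second moments of the correlations are at most one third -/
theorem X2_q_le (μ : Measure (Finset ℕ → ℝ)) [IsProbabilityMeasure μ]
    (hst : ∀ᵐ c ∂μ, Stat c)
    (h2 : ∀ a : ℕ, 0 < a → ∫ c, c {0, a} ∂μ = 0) (a : ℕ) (ha : 0 < a) :
    ∫ c, (c {0, a}) ^ 2 ∂μ ≤ 1 / 3 := by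
  have hle : ∀ b : ℕ, ∫ c, (c {0, b}) ^ 2 ∂μ ≤ 1 := by
    intro b
    have h := integral_mono_ae (N1_int2 μ hst {0, b}) (integrable_const (1 : ℝ)) (by
      filter_upwards [hst] with c hc
      have h := abs_le_one hc {0, b}
      have h1 : (c {0, b}) ^ 2 = |c {0, b}| ^ 2 := (sq_abs _).symm
      have h0 := abs_nonneg (c {0, b})
      have h5 : (c {0, b}) ^ 2 ≤ 1 := by
        rw [h1]
        nlinarith
      exact h5)
    simpa using h
  have hstep : ∀ b : ℕ, 0 < b → 4 * (∫ c, (c {0, b}) ^ 2 ∂μ - 1 / 3) ≤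
      ∫ c, (c {0, 2 * b}) ^ 2 ∂μ - 1 / 3 := by
    intro b hb
    have h := integral_nonneg_of_ae (N1_F μ hst b hb)
    rw [N1_intF μ hst h2 b hb] at h
    linarith
  have hpow : ∀ j : ℕ, 4 ^ j * (∫ c, (c {0, a}) ^ 2 ∂μ - 1 / 3) ≤ 1 := by
    intro j
    have hj : ∀ j : ℕ, 4 ^ j * (∫ c, (c {0, a}) ^ 2 ∂μ - 1 / 3) ≤
        ∫ c, (c {0, 2 ^ j * a}) ^ 2 ∂μ - 1 / 3 := by
      intro j
      induction j with
      | zero => simp
      | succ j ih =>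
        have hs := hstep (2 ^ j * a) (by positivity)
        have e : 2 * (2 ^ j * a) = 2 ^ (j + 1) * a := by ring
        rw [e] at hs
        have e2 : (4 : ℝ) ^ (j + 1) * (∫ c, (c {0, a}) ^ 2 ∂μ - 1 / 3) =
          4 * (4 ^ j * (∫ c, (c {0, a}) ^ 2 ∂μ - 1 / 3)) := by ring
        rw [e2]
        linarith
    have := hj j
    have := hle (2 ^ j * a)
    linarith
  by_contra hne
  push Not at hne
  have hpos : 0 < ∫ c, (c {0, a}) ^ 2 ∂μ - 1 / 3 := by linarith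
  obtain ⟨j, hj⟩ := pow_unbounded_of_one_lt (1 / (∫ c, (c {0, a}) ^ 2 ∂μ - 1 / 3))
    (show (1 : ℝ) < 4 by norm_num)
  rw [div_lt_iff₀ hpos] at hj
  linarith [hpow j]

/-- the mean defect in terms of the second moment -/
theorem X2_mean_dfc (μ : Measure (Finset ℕ → ℝ)) [IsProbabilityMeasure μ]
    (hst : ∀ᵐ c ∂μ, Stat c)
    (h2 : ∀ a : ℕ, 0 < a → ∫ c, c {0, a} ∂μ = 0) (a : ℕ) (ha : 0 < a) (κ : ℝ) (hκ : 0 < κ) :
    ∫ c, dfc c a ∂μ ≤ κ / 2 + 2 / κ * (1 / 3 - ∫ c, (c {0, a}) ^ 2 ∂μ) := by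
  have i1 := N1_int μ hst {0, 2 * a}
  have i2 := N1_int2 μ hst {0, 2 * a}
  have i3 := N1_int2 μ hst {0, a}
  have i4 : Integrable (fun c : Finset ℕ → ℝ => 1 + 2 * c {0, 2 * a}) μ :=
    (integrable_const (1 : ℝ)).add (i1.const_mul 2)
  have hint : Integrable (fun c : Finset ℕ → ℝ =>
      (1 + c {0, 2 * a}) ^ 2 - 4 * (c {0, a}) ^ 2) μ := by
    refine ((i4.add i2).sub (i3.const_mul 4)).congr ?_
    filter_upwards with c
    simp only [Pi.add_apply, Pi.sub_apply]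
    ring
  have hpt : ∀ᵐ c ∂μ, dfc c a ≤ κ / 2 + 1 / (2 * κ) * ((1 + c {0, 2 * a}) ^ 2 - 4 * (c {0, a}) ^ 2) := by
    filter_upwards [hst] with c hc
    have hD := dfc_nonneg hc (a : ℤ)
    have h1 : dfc c a = (1 + c {0, 2 * a}) - 2 * |c {0, a}| := by
      unfold dfc
      rw [N1_cor c a ha, N1_cor2 c a ha]
    have h0 := abs_nonneg (c {0, a})
    have h3 : (dfc c a) ^ 2 ≤ (1 + c {0, 2 * a}) ^ 2 - 4 * (c {0, a}) ^ 2 := by
      have h4 : 4 * (c {0, a}) ^ 2 = (2 * |c {0, a}|) ^ 2 := by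
        rw [mul_pow, sq_abs]; ring
      rw [h4, h1]
      rw [h1] at hD
      nlinarith
    have h5 : dfc c a ≤ κ / 2 + 1 / (2 * κ) * (dfc c a) ^ 2 := by
      have h6 : 0 ≤ (dfc c a - κ) ^ 2 := sq_nonneg _
      have h7 : κ / 2 + 1 / (2 * κ) * (dfc c a) ^ 2 - dfc c a = (dfc c a - κ) ^ 2 / (2 * κ) := by
        field_simp
        ring
      have h8 : 0 ≤ (dfc c a - κ) ^ 2 / (2 * κ) := by positivity
      linarith
    have h9 : 1 / (2 * κ) * (dfc c a) ^ 2 ≤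
        1 / (2 * κ) * ((1 + c {0, 2 * a}) ^ 2 - 4 * (c {0, a}) ^ 2) :=
      mul_le_mul_of_nonneg_left h3 (by positivity)
    linarith
  have h1 := integral_mono_ae (X2_dfc_int μ hst a)
    ((integrable_const (κ / 2)).add (hint.const_mul (1 / (2 * κ)))) (by
      filter_upwards [hpt] with c hc
      simpa using hc)
  have h3 : ∫ c, (κ / 2 + 1 / (2 * κ) * ((1 + c {0, 2 * a}) ^ 2 - 4 * (c {0, a}) ^ 2)) ∂μ =
      κ / 2 + 1 / (2 * κ) * (1 + ∫ c, (c {0, 2 * a}) ^ 2 ∂μ - 4 * ∫ c, (c {0, a}) ^ 2 ∂μ) := by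
    rw [integral_add (integrable_const _) (hint.const_mul _), integral_const_mul,
      N1_intF μ hst h2 a ha]
    simp
  have h4 : ∫ c, dfc c a ∂μ ≤
      κ / 2 + 1 / (2 * κ) * (1 + ∫ c, (c {0, 2 * a}) ^ 2 ∂μ - 4 * ∫ c, (c {0, a}) ^ 2 ∂μ) := by
    rw [← h3]
    simpa using h1
  have h5 := X2_q_le μ hst h2 (2 * a) (by omega)
  have h6 : 1 / (2 * κ) * (1 + ∫ c, (c {0, 2 * a}) ^ 2 ∂μ - 4 * ∫ c, (c {0, a}) ^ 2 ∂μ) ≤
      1 / (2 * κ) * (4 * (1 / 3 - ∫ c, (c {0, a}) ^ 2 ∂μ)) :=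
    mul_le_mul_of_nonneg_left (by linarith) (by positivity)
  have h7 : 1 / (2 * κ) * (4 * (1 / 3 - ∫ c, (c {0, a}) ^ 2 ∂μ)) =
      2 / κ * (1 / 3 - ∫ c, (c {0, a}) ^ 2 ∂μ) := by
    field_simp
    ring
  linarith

/-- small sums of the mean defects -/
theorem X2_small (μ : Measure (Finset ℕ → ℝ)) [IsProbabilityMeasure μ]
    (hst : ∀ᵐ c ∂μ, Stat c)
    (h2 : ∀ a : ℕ, 0 < a → ∫ c, c {0, a} ∂μ = 0)
    (h4 : ∀ δ : ℝ, 0 < δ → ∃ᶠ A : ℕ in atTop,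
      (1 / 3 - δ) * A ≤ ∑ a ∈ Icc 1 A, ∫ c, (c {0, a}) ^ 2 ∂μ) (τ : ℝ) (hτ : 0 < τ) :
    ∃ᶠ A : ℕ in atTop, ∑ a ∈ Icc 1 A, ∫ c, dfc c a ∂μ ≤ τ * A := by
  have hδ : 0 < τ ^ 2 / 4 := by positivity
  refine (h4 _ hδ).mono fun A hA => ?_
  have h1 : ∑ a ∈ Icc 1 A, ∫ c, dfc c a ∂μ ≤
      ∑ a ∈ Icc 1 A, (τ / 2 + 2 / τ * (1 / 3 - ∫ c, (c {0, a}) ^ 2 ∂μ)) := by
    refine sum_le_sum fun a ha => X2_mean_dfc μ hst h2 a (mem_Icc.1 ha).1 τ hτ
  rw [sum_add_distrib, ← mul_sum, sum_sub_distrib, sum_const, sum_const, Nat.card_Icc,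
    nsmul_eq_mul, nsmul_eq_mul] at h1
  have e : ((A + 1 - 1 : ℕ) : ℝ) = A := by simp
  rw [e] at h1
  have h5 : 2 / τ * ((A : ℝ) * (1 / 3) - ∑ a ∈ Icc 1 A, ∫ c, (c {0, a}) ^ 2 ∂μ) ≤
      2 / τ * (τ ^ 2 / 4 * A) :=
    mul_le_mul_of_nonneg_left (by linarith) (by positivity)
  have h6 : 2 / τ * (τ ^ 2 / 4 * A) = τ / 2 * A := by
    field_simp
    ring
  linarith

/-- small sums of the mean defects with dilates and translates -/
theorem X2_small2 (μ : Measure (Finset ℕ → ℝ)) [IsProbabilityMeasure μ]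
    (hst : ∀ᵐ c ∂μ, Stat c)
    (h2 : ∀ a : ℕ, 0 < a → ∫ c, c {0, a} ∂μ = 0)
    (h4 : ∀ δ : ℝ, 0 < δ → ∃ᶠ A : ℕ in atTop,
      (1 / 3 - δ) * A ≤ ∑ a ∈ Icc 1 A, ∫ c, (c {0, a}) ^ 2 ∂μ)
    (K a : ℕ) (τ : ℝ) (hτ : 0 < τ) :
    ∃ᶠ A : ℕ in atTop,
      ∑ p ∈ Icc 1 A, (∑ k ∈ range K, ∫ c, dfc c (2 ^ k * p) ∂μ + ∫ c, dfc c (a + p) ∂μ) ≤
        τ * A := by
  have hτ' : 0 < τ / ((K + 1) * 2 ^ (K + 2)) := by positivity
  have hfr := X2_small μ hst h2 h4 _ hτ'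
  rw [frequently_atTop] at hfr ⊢
  intro A₀
  obtain ⟨A, hA, hs⟩ := hfr ((A₀ + a + 1) * 2 ^ (K + 1))
  set A' : ℕ := A / 2 ^ (K + 1) with hA'
  have hp : 0 < 2 ^ (K + 1) := by positivity
  have hA'1 : A₀ + a + 1 ≤ A' := (Nat.le_div_iff_mul_le hp).2 hA
  have hA'2 : A' * 2 ^ (K + 1) ≤ A := Nat.div_mul_le_self _ _
  have hA'3 : A < (A' + 1) * 2 ^ (K + 1) := by
    have := Nat.lt_succ_self (A / 2 ^ (K + 1))
    exact (Nat.div_lt_iff_lt_mul hp).1 this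
  refine ⟨A', by omega, ?_⟩
  set E : ℕ → ℝ := fun p => ∫ c, dfc c (p : ℤ) ∂μ with hE
  have hE0 : ∀ p, 0 ≤ E p := fun p => integral_nonneg_of_ae (by
    filter_upwards [hst] with c hc
    exact dfc_nonneg hc _)
  have hsum : ∀ φ : ℕ → ℕ, Function.Injective φ → (∀ p ∈ Icc 1 A', φ p ∈ Icc 1 A) →
      ∑ p ∈ Icc 1 A', E (φ p) ≤ ∑ p ∈ Icc 1 A, E p := by
    intro φ hφ hm
    rw [← sum_image (f := E) (s := Icc 1 A') (g := φ) (fun x _ y _ h => hφ h)]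
    refine sum_le_sum_of_subset_of_nonneg ?_ fun i _ _ => hE0 i
    intro x hx
    obtain ⟨p, hp, rfl⟩ := mem_image.1 hx
    exact hm p hp
  have h1 : ∀ k ∈ range K, ∑ p ∈ Icc 1 A', ∫ c, dfc c (2 ^ k * (p : ℤ)) ∂μ ≤
      ∑ p ∈ Icc 1 A, E p := by
    intro k hk
    have := hsum (fun p => 2 ^ k * p) (fun x y h => Nat.eq_of_mul_eq_mul_left (by positivity) h) (by
      intro p hp
      rw [mem_Icc] at hp ⊢
      refine ⟨Nat.one_le_iff_ne_zero.2 (by have := hp.1; positivity), ?_⟩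
      calc 2 ^ k * p ≤ 2 ^ (K + 1) * A' :=
            Nat.mul_le_mul (Nat.pow_le_pow_right (by norm_num) (by
              have := mem_range.1 hk; omega)) hp.2
        _ ≤ A := by rw [mul_comm]; exact hA'2)
    refine le_trans (le_of_eq ?_) this
    refine sum_congr rfl fun p _ => ?_
    simp only [hE]
    push_cast
    rfl
  have h3 : ∑ p ∈ Icc 1 A', ∫ c, dfc c ((a : ℤ) + p) ∂μ ≤ ∑ p ∈ Icc 1 A, E p := by
    have := hsum (fun p => a + p) (fun x y h => Nat.add_left_cancel h) (by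
      intro p hp
      rw [mem_Icc] at hp ⊢
      refine ⟨by omega, ?_⟩
      have h5 : 2 * A' ≤ A' * 2 ^ (K + 1) := by
        rw [mul_comm]
        refine Nat.mul_le_mul_left _ ?_
        calc 2 = 2 ^ 1 := by norm_num
          _ ≤ 2 ^ (K + 1) := Nat.pow_le_pow_right (by norm_num) (by omega)
      omega)
    refine le_trans (le_of_eq ?_) this
    refine sum_congr rfl fun p _ => ?_
    simp only [hE]
    push_cast
    rfl
  have h5 : ∑ p ∈ Icc 1 A', (∑ k ∈ range K, ∫ c, dfc c (2 ^ k * p) ∂μ + ∫ c, dfc c (a + p) ∂μ) ≤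
      (K + 1) * ∑ p ∈ Icc 1 A, E p := by
    rw [sum_add_distrib, sum_comm]
    have h6 : ∑ k ∈ range K, ∑ p ∈ Icc 1 A', ∫ c, dfc c (2 ^ k * (p : ℤ)) ∂μ ≤
        ∑ k ∈ range K, ∑ p ∈ Icc 1 A, E p := sum_le_sum h1
    rw [sum_const, card_range, nsmul_eq_mul] at h6
    linarith
  have h7 : (A : ℝ) ≤ 2 ^ (K + 2) * A' := by
    have : A ≤ 2 ^ (K + 2) * A' := by
      have h8 : (A' + 1) * 2 ^ (K + 1) ≤ 2 ^ (K + 2) * A' := by
        have : A' + 1 ≤ 2 * A' := by omega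
        calc (A' + 1) * 2 ^ (K + 1) ≤ (2 * A') * 2 ^ (K + 1) := Nat.mul_le_mul_right _ this
          _ = 2 ^ (K + 2) * A' := by ring
      omega
    exact_mod_cast this
  calc _ ≤ (K + 1) * ∑ p ∈ Icc 1 A, E p := h5
    _ ≤ (K + 1) * (τ / ((K + 1) * 2 ^ (K + 2)) * A) :=
        mul_le_mul_of_nonneg_left hs (by positivity)
    _ = τ / 2 ^ (K + 2) * A := by field_simp
    _ ≤ τ / 2 ^ (K + 2) * (2 ^ (K + 2) * A') := mul_le_mul_of_nonneg_left h7 (by positivity)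
    _ = τ * A' := by field_simp

/-- almost every `c` has small mean defects -/
theorem X2_ae (μ : Measure (Finset ℕ → ℝ)) [IsProbabilityMeasure μ]
    (hst : ∀ᵐ c ∂μ, Stat c)
    (h2 : ∀ a : ℕ, 0 < a → ∫ c, c {0, a} ∂μ = 0)
    (h4 : ∀ δ : ℝ, 0 < δ → ∃ᶠ A : ℕ in atTop,
      (1 / 3 - δ) * A ≤ ∑ a ∈ Icc 1 A, ∫ c, (c {0, a}) ^ 2 ∂μ) (K a : ℕ) (ε : ℝ) (hε : 0 < ε)
    (A₀ : ℕ) :
    ∀ᵐ c ∂μ, ∃ A : ℕ, A₀ ≤ A ∧
      ∑ p ∈ Icc 1 A, (∑ k ∈ range K, dfc c (2 ^ k * p) + dfc c (a + p)) ≤ ε * A := by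
  set S : ℕ → (Finset ℕ → ℝ) → ℝ := fun A c =>
    ∑ p ∈ Icc 1 A, (∑ k ∈ range K, dfc c (2 ^ k * p) + dfc c (a + p)) with hS
  have hSmeas : ∀ A, Measurable (S A) := fun A =>
    Finset.measurable_sum _ fun p _ =>
      (Finset.measurable_sum _ fun k _ => X2_dfc_meas _).add (X2_dfc_meas _)
  have hSint : ∀ A, Integrable (S A) μ := fun A =>
    integrable_finsetSum _ fun p _ =>
      (integrable_finsetSum _ fun k _ => X2_dfc_int μ hst _).add (X2_dfc_int μ hst _)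
  have hSnn : ∀ A, 0 ≤ᵐ[μ] S A := fun A => by
    filter_upwards [hst] with c hc
    exact sum_nonneg fun p _ => add_nonneg (sum_nonneg fun k _ => dfc_nonneg hc _) (dfc_nonneg hc _)
  have hSi : ∀ A, ∫ c, S A c ∂μ =
      ∑ p ∈ Icc 1 A, (∑ k ∈ range K, ∫ c, dfc c (2 ^ k * p) ∂μ + ∫ c, dfc c (a + p) ∂μ) := by
    intro A
    have hterm : ∀ p : ℕ, Integrable (fun c : Finset ℕ → ℝ =>
        ∑ k ∈ range K, dfc c (2 ^ k * (p : ℤ)) + dfc c ((a : ℤ) + p)) μ := fun p =>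
      (integrable_finsetSum _ fun k _ => X2_dfc_int μ hst _).add (X2_dfc_int μ hst _)
    simp only [hS]
    rw [integral_finsetSum _ fun p _ => hterm p]
    refine sum_congr rfl fun p _ => ?_
    rw [integral_add (integrable_finsetSum _ fun k _ => X2_dfc_int μ hst _) (X2_dfc_int μ hst _),
      integral_finsetSum _ fun k _ => X2_dfc_int μ hst _]
  rw [ae_iff]
  set s : Set (Finset ℕ → ℝ) := {c | ¬ ∃ A : ℕ, A₀ ≤ A ∧ S A c ≤ ε * A} with hs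
  have key : ∀ τ > 0, μ.real s ≤ τ := by
    intro τ hτ
    have hfr := X2_small2 μ hst h2 h4 K a (τ * ε) (by positivity)
    rw [frequently_atTop] at hfr
    obtain ⟨A, hA, hb⟩ := hfr (A₀ + 1)
    have hA0 : (0 : ℝ) < A := by exact_mod_cast (show 0 < A by omega)
    have hmk := mul_meas_ge_le_integral_of_nonneg (hSnn A) (hSint A) (ε * A)
    rw [hSi A] at hmk
    have hsub : s ⊆ {c | ε * A ≤ S A c} := by
      intro c hc
      by_contra hcon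
      simp only [Set.mem_ofPred_eq, not_le] at hcon
      exact hc ⟨A, by omega, hcon.le⟩
    have hmono : μ.real s ≤ μ.real {c | ε * A ≤ S A c} := measureReal_mono hsub
    have h3 : ε * A * μ.real s ≤ ε * A * μ.real {c | ε * A ≤ S A c} :=
      mul_le_mul_of_nonneg_left hmono (by positivity)
    have h5 : ε * A * μ.real s ≤ (τ * ε) * A := h3.trans (hmk.trans hb)
    have h6 : ε * A * μ.real s ≤ ε * A * τ := by linarith
    exact le_of_mul_le_mul_left h6 (by positivity)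
  have h0 : μ.real s = 0 := le_antisymm (le_of_forall_pos_le_add fun τ hτ => by
    have := key τ hτ; linarith) measureReal_nonneg
  rwa [measureReal_eq_zero_iff] at h0

/-- the doubling relation almost everywhere, from averages -/
theorem dbl_ae_avg (μ : Measure (Finset ℕ → ℝ)) [IsProbabilityMeasure μ] (hst : ∀ᵐ c ∂μ, Stat c)
    (h2 : ∀ a : ℕ, 0 < a → ∫ c, c {0, a} ∂μ = 0)
    (h4 : ∀ δ : ℝ, 0 < δ → ∃ᶠ A : ℕ in atTop,
      (1 / 3 - δ) * A ≤ ∑ a ∈ Icc 1 A, ∫ c, (c {0, a}) ^ 2 ∂μ) :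
    ∀ᵐ c ∂μ, ∀ a : ℕ, 0 < a → 1 + cor c (2 * a) = 2 * |cor c a| := by
  have hall : ∀ᵐ c ∂μ, ∀ K a m A₀ : ℕ, ∃ A : ℕ, A₀ ≤ A ∧
      ∑ p ∈ Icc 1 A, (∑ k ∈ range K, dfc c (2 ^ k * p) + dfc c (a + p)) ≤
        (1 / ((m : ℝ) + 1)) * A := by
    rw [ae_all_iff]; intro K
    rw [ae_all_iff]; intro a
    rw [ae_all_iff]; intro m
    rw [ae_all_iff]; intro A₀
    exact X2_ae μ hst h2 h4 K a _ (by positivity) A₀
  filter_upwards [hst, hall] with c hc h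
  refine dbl_of_mean hc fun K a ε hε => ?_
  rw [frequently_atTop]
  intro A₀
  obtain ⟨m, hm⟩ := exists_nat_one_div_lt hε
  obtain ⟨A, hA, hb⟩ := h K a m A₀
  refine ⟨A, hA, hb.trans ?_⟩
  exact mul_le_mul_of_nonneg_right hm.le (Nat.cast_nonneg _)

end Pool.Agent.Lib.MP_f6c41f_nt
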