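import Pool.Agent.Lib.MP_f6c41f_nt.M3
import Pool.Agent.Lib.MP_f6c41f_nt.X2

/-!
# MP_f6c41f_nt, module X3

Variant of `exists_measure` (module M3): the second moment of the correlation `c {0,a}` is the
iterated limit of the mean squares of the local correlations.
-/

set_option autoImplicit false

namespace Pool.Agent.Lib.MP_f6c41f_nt

open Finset Filter Topology

open MeasureTheory in
theorem exists_measure_lim (f : ℕ → ℝ) (hf : ∀ n, f n = 1 ∨ f n = -1) (U : Ultrafilter ℕ)
    (hU : (U : Filter ℕ) ≤ atTop) :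
    ∃ (μ : Measure (Finset ℕ → ℝ)) (V : Ultrafilter ℕ), (V : Filter ℕ) ≤ atTop ∧
      IsProbabilityMeasure μ ∧ (∀ᵐ c ∂μ, Stat c) ∧
      (∀ (F : Finset ℕ) (L : ℝ), Tendsto (mean fun n => ∏ i ∈ F, f (n + i)) U (𝓝 L) →
        ∫ c, c F ∂μ = L) ∧
      ∀ a : ℕ, 0 < a → ∃ L : ℕ → ℝ,
        (∀ B, Tendsto (mean (fun n =>
          ((∑ b ∈ range (B + 1), f (n + b) * f (n + b + a)) / ((B + 1 : ℕ) : ℝ)) ^ 2)) U
            (𝓝 (L B))) ∧
        Tendsto L V (𝓝 (∫ c, (c {0, a}) ^ 2 ∂μ)) := by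
  set V : Ultrafilter ℕ := Filter.hyperfilter ℕ with hVdef
  have hV : (V : Filter ℕ) ≤ atTop := by
    rw [← Nat.cofinite_eq_atTop]
    exact Filter.hyperfilter_le_cofinite
  obtain ⟨μ, hμ1, hμ⟩ := riesz_mean U V hU (M3Phi f hf)
  have hε : Tendsto (fun B : ℕ => 2 / (((B + 1 : ℕ) : ℝ))) atTop (𝓝 0) := by
    have h := (tendsto_const_div_atTop_nhds_zero_nat (2 : ℝ))
    exact h.comp (tendsto_add_atTop_nat 1)
  have hinc : ∀ B n, M3inc (M3Phi f hf B n) = fun F => loc f (B + 1) n F := fun B n => rfl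
  refine ⟨μ.map M3inc, V, hV, Measure.isProbabilityMeasure_map M3inc_meas.aemeasurable, ?_, ?_, ?_⟩
  · -- the closed conditions
    have c1 : ∀ᵐ c ∂(μ.map M3inc), c ∅ = 1 := by
      rw [ae_map_iff M3inc_meas.aemeasurable
        (measurableSet_eq_fun (measurable_pi_apply _) measurable_const)]
      have h := M3_zero U V hV (M3Phi f hf) μ hμ
        ⟨fun x => 1 - M3inc x ∅, continuous_const.sub ((continuous_apply ∅).comp M3inc_cont)⟩
        (fun x => by
          have h1 : (x ∅ : ℝ) ≤ 1 := (x ∅).2.2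
          change 0 ≤ 1 - (x ∅ : ℝ)
          linarith) (fun _ => 0) tendsto_const_nhds (fun B n => by
          change 1 - M3inc (M3Phi f hf B n) ∅ ≤ 0
          rw [hinc]
          simp only
          rw [loc_empty f (B + 1) n (by omega)]
          norm_num)
      filter_upwards [h] with x hx
      have hx' : 1 - M3inc x ∅ = 0 := hx
      linarith
    have c2 : ∀ᵐ c ∂(μ.map M3inc), ∀ F : Finset ℕ, c (F.map (addRightEmbedding 1)) = c F := by
      rw [ae_all_iff]
      intro F
      rw [ae_map_iff M3inc_meas.aemeasurable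
        (measurableSet_eq_fun (measurable_pi_apply _) (measurable_pi_apply _))]
      have h := M3_zero U V hV (M3Phi f hf) μ hμ
        ⟨fun x => |M3inc x (F.map (addRightEmbedding 1)) - M3inc x F|,
          (((continuous_apply _).comp M3inc_cont).sub
            ((continuous_apply _).comp M3inc_cont)).abs⟩
        (fun x => abs_nonneg _) _ hε (fun B n => by
          change |M3inc (M3Phi f hf B n) (F.map (addRightEmbedding 1)) -
            M3inc (M3Phi f hf B n) F| ≤ _
          rw [hinc]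
          exact loc_shift f hf (B + 1) n F)
      filter_upwards [h] with x hx
      have hx' : |M3inc x (F.map (addRightEmbedding 1)) - M3inc x F| = 0 := hx
      exact sub_eq_zero.1 (abs_eq_zero.1 hx')
    have c3 : ∀ᵐ c ∂(μ.map M3inc), ∀ W S : Finset ℕ,
        0 ≤ ∑ F ∈ W.powerset, (-1 : ℝ) ^ (F ∩ S).card * c F := by
      rw [ae_all_iff]
      intro W
      rw [ae_all_iff]
      intro S
      have hm : Measurable fun c : Finset ℕ → ℝ =>
          ∑ F ∈ W.powerset, (-1 : ℝ) ^ (F ∩ S).card * c F :=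
        Finset.measurable_sum _ fun F _ => (measurable_pi_apply F).const_mul _
      have hc : Continuous fun c : Finset ℕ → ℝ =>
          ∑ F ∈ W.powerset, (-1 : ℝ) ^ (F ∩ S).card * c F :=
        continuous_finsetSum _ fun F _ => continuous_const.mul (continuous_apply F)
      rw [ae_map_iff M3inc_meas.aemeasurable (measurableSet_le measurable_const hm)]
      have h := M3_zero U V hV (M3Phi f hf) μ hμ
        ⟨fun x => max 0 (-∑ F ∈ W.powerset, (-1 : ℝ) ^ (F ∩ S).card * M3inc x F),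
          continuous_const.max (hc.comp M3inc_cont).neg⟩
        (fun x => le_max_left _ _) (fun _ => 0) tendsto_const_nhds (fun B n => by
          change max 0 (-∑ F ∈ W.powerset, (-1 : ℝ) ^ (F ∩ S).card *
            M3inc (M3Phi f hf B n) F) ≤ 0
          rw [hinc]
          have := loc_pos f hf (B + 1) n W S
          exact max_le le_rfl (by linarith))
      filter_upwards [h] with x hx
      have hx' : max 0 (-∑ F ∈ W.powerset, (-1 : ℝ) ^ (F ∩ S).card * M3inc x F) = 0 := hx
      have := le_max_right 0 (-∑ F ∈ W.powerset, (-1 : ℝ) ^ (F ∩ S).card * M3inc x F)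
      rw [hx'] at this
      linarith
    filter_upwards [c1, c2, c3] with c h1 h2 h3
    exact ⟨h1, h2, h3⟩
  · intro F L hL
    rw [integral_map M3inc_meas.aemeasurable (measurable_pi_apply F).aestronglyMeasurable]
    obtain ⟨L', h1, h2⟩ := hμ ⟨fun x => M3inc x F, (continuous_apply F).comp M3inc_cont⟩
    have hLB : ∀ B, L' B = L := by
      intro B
      have hd : Tendsto (fun N : ℕ => mean (fun n => loc f (B + 1) n F) N -
          mean (fun n => ∏ i ∈ F, f (n + i)) N) U (𝓝 0) := by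
        have hb : Tendsto (fun N : ℕ => (2 * ((B + 1 : ℕ) : ℝ)) / (N : ℝ)) U (𝓝 0) :=
          (tendsto_const_div_atTop_nhds_zero_nat _).mono_left hU
        have hN : ∀ᶠ N : ℕ in (U : Filter ℕ), 0 < N := hU (eventually_gt_atTop 0)
        refine squeeze_zero_norm' ?_ hb
        filter_upwards [hN] with N hN
        rw [Real.norm_eq_abs]
        exact loc_mean f hf (B + 1) (by omega) F N hN
      have h3 := hd.add hL
      rw [zero_add] at h3
      have h4 : Tendsto (fun N : ℕ => mean (fun n => loc f (B + 1) n F) N) U (𝓝 L) := by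
        refine h3.congr (fun N => ?_)
        ring
      exact tendsto_nhds_unique (h1 B) h4
    have h5 : Tendsto L' V (𝓝 L) := by
      have : L' = fun _ => L := funext hLB
      rw [this]
      exact tendsto_const_nhds
    exact tendsto_nhds_unique h2 h5
  · intro a ha
    obtain ⟨L', h1, h2⟩ := hμ ⟨fun x => (M3inc x {0, a}) ^ 2,
      ((continuous_apply _).comp M3inc_cont).pow 2⟩
    refine ⟨L', fun B => ?_, ?_⟩
    · refine (h1 B).congr fun N => ?_
      unfold mean
      congr 1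
      refine Finset.sum_congr rfl fun n _ => ?_
      change (M3inc (M3Phi f hf B n) {0, a}) ^ 2 = _
      rw [hinc]
      simp only
      rw [loc_pair f (B + 1) n a ha]
    · rw [integral_map M3inc_meas.aemeasurable
        ((measurable_pi_apply ({0, a} : Finset ℕ)).pow_const 2).aestronglyMeasurable]
      exact h2

open MeasureTheory in
/-- the averaged second moments are at least the averaged energies -/
theorem exists_measure_avg (f : ℕ → ℝ) (hf : ∀ n, f n = 1 ∨ f n = -1) (U : Ultrafilter ℕ)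
    (hU : (U : Filter ℕ) ≤ atTop) :
    ∃ μ : Measure (Finset ℕ → ℝ), IsProbabilityMeasure μ ∧ (∀ᵐ c ∂μ, Stat c) ∧
      (∀ (F : Finset ℕ) (L : ℝ), Tendsto (mean fun n => ∏ i ∈ F, f (n + i)) U (𝓝 L) →
        ∫ c, c F ∂μ = L) ∧
      ∀ (A : ℕ) (δ : ℝ), (∃ B₀ : ℕ, ∀ B ≥ B₀, ∀ᶠ N in (U : Filter ℕ),
        δ ≤ ∑ a ∈ Icc 1 A,
          mean (fun n => ((∑ b ∈ range B, f (n + b) * f (n + b + a)) / B) ^ 2) N) →
        δ ≤ ∑ a ∈ Icc 1 A, ∫ c, (c {0, a}) ^ 2 ∂μ := by
  obtain ⟨μ, V, hV, h1, h2, h3, h4⟩ := exists_measure_lim f hf U hU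
  refine ⟨μ, h1, h2, h3, ?_⟩
  intro A δ hδ
  obtain ⟨B₀, hB₀⟩ := hδ
  choose! L hL1 hL2 using h4
  have ht : Tendsto (fun B => ∑ a ∈ Icc 1 A, L a B) V
      (𝓝 (∑ a ∈ Icc 1 A, ∫ c, (c {0, a}) ^ 2 ∂μ)) :=
    tendsto_finsetSum _ fun a ha => hL2 a (mem_Icc.1 ha).1
  refine ge_of_tendsto ht ?_
  have hev : ∀ᶠ B : ℕ in (V : Filter ℕ), B₀ ≤ B + 1 := by
    apply hV
    filter_upwards [eventually_ge_atTop B₀] with B hB
    omega
  filter_upwards [hev] with B hB
  have ht2 : Tendsto (fun N => ∑ a ∈ Icc 1 A, mean (fun n =>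
      ((∑ b ∈ range (B + 1), f (n + b) * f (n + b + a)) / ((B + 1 : ℕ) : ℝ)) ^ 2) N) U
      (𝓝 (∑ a ∈ Icc 1 A, L a B)) :=
    tendsto_finsetSum _ fun a ha => hL1 a (mem_Icc.1 ha).1 B
  exact ge_of_tendsto ht2 (hB₀ (B + 1) hB)

end Pool.Agent.Lib.MP_f6c41f_nt
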