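import Pool.Agent.Lib.MP_f6c41f_nt.M2

/-!
# MP_f6c41f_nt, module X5: the sharp upper bound

If `f = ±1` has vanishing two-point correlations, then the mean square of the local two-point
correlations is at most `1/3` in the limit.  Proof: `2 |r(a)| ≤ 1 + r(2a) + 2a/B` for the local
correlation `r` of a window of length `B`; square, average, and iterate `a → 2a`.
-/

set_option autoImplicit false

namespace Pool.Agent.Lib.MP_f6c41f_nt

open Finset Filter Topology

/-- the local correlation at lag `a` in the window `[n, n+B)` -/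
noncomputable def lcor (f : ℕ → ℝ) (a B n : ℕ) : ℝ :=
  (∑ b ∈ range B, f (n + b) * f (n + b + a)) / B

/-- the mean square of the local correlations at lag `a` -/
noncomputable def energy (f : ℕ → ℝ) (a B N : ℕ) : ℝ :=
  mean (fun n => (lcor f a B n) ^ 2) N

theorem X5_abs (f : ℕ → ℝ) (hf : ∀ n, f n = 1 ∨ f n = -1) (m k : ℕ) : |f m * f k| ≤ 1 := by
  rcases hf m with h | h <;> rcases hf k with h' | h' <;> rw [h, h'] <;> norm_num

theorem X5_three (f : ℕ → ℝ) (hf : ∀ n, f n = 1 ∨ f n = -1) (x y z : ℕ) :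
    |f x * f y + f y * f z| ≤ 1 + f x * f z := by
  rcases hf x with h | h <;> rcases hf y with h' | h' <;> rcases hf z with h'' | h'' <;>
    rw [h, h', h''] <;> norm_num

theorem X5_window (u : ℕ → ℝ) (hu : ∀ n, |u n| ≤ 1) (n a B : ℕ) :
    |∑ b ∈ range B, u (n + b) - ∑ b ∈ range B, u (n + b + a)| ≤ 2 * a := by
  have h1 : ∑ b ∈ range (B + a), u (n + b) =
      ∑ b ∈ range B, u (n + b) + ∑ b ∈ range a, u (n + (B + b)) :=
    Finset.sum_range_add (fun b => u (n + b)) B a
  have h2 : ∑ b ∈ range (a + B), u (n + b) =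
      ∑ b ∈ range a, u (n + b) + ∑ b ∈ range B, u (n + (a + b)) :=
    Finset.sum_range_add (fun b => u (n + b)) a B
  have h3 : ∑ b ∈ range B, u (n + (a + b)) = ∑ b ∈ range B, u (n + b + a) :=
    Finset.sum_congr rfl fun b _ => by congr 1; ring
  rw [add_comm a B] at h2
  have e : ∑ b ∈ range B, u (n + b) - ∑ b ∈ range B, u (n + b + a) =
      ∑ b ∈ range a, u (n + b) - ∑ b ∈ range a, u (n + (B + b)) := by
    linarith
  rw [e]
  have b : ∀ v : ℕ → ℝ, (∀ n, |v n| ≤ 1) → |∑ n ∈ range a, v n| ≤ a := by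
    intro v hv
    refine (Finset.abs_sum_le_sum_abs _ _).trans ((Finset.sum_le_sum fun n _ => hv n).trans ?_)
    simp
  have b1 := b (fun b => u (n + b)) fun _ => hu _
  have b2 := b (fun b => u (n + (B + b))) fun _ => hu _
  have b3 := abs_sub (∑ b ∈ range a, u (n + b)) (∑ b ∈ range a, u (n + (B + b)))
  linarith

theorem lcor_abs (f : ℕ → ℝ) (hf : ∀ n, f n = 1 ∨ f n = -1) (a B n : ℕ) : |lcor f a B n| ≤ 1 := by
  unfold lcor
  rcases Nat.eq_zero_or_pos B with rfl | hB
  · simp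
  · have hB' : (0 : ℝ) < B := by exact_mod_cast hB
    rw [abs_div, abs_of_pos hB', div_le_one hB']
    refine (Finset.abs_sum_le_sum_abs _ _).trans
      ((Finset.sum_le_sum fun b _ => X5_abs f hf (n + b) (n + b + a)).trans ?_)
    simp

theorem X5_double (f : ℕ → ℝ) (hf : ∀ n, f n = 1 ∨ f n = -1) (a B n : ℕ) (hB : 0 < B) :
    2 * |lcor f a B n| ≤ 1 + lcor f (2 * a) B n + 2 * a / B := by
  have hB' : (0 : ℝ) < B := by exact_mod_cast hB
  set S : ℝ := ∑ b ∈ range B, f (n + b) * f (n + b + a) with hS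
  set S' : ℝ := ∑ b ∈ range B, f (n + b + a) * f (n + b + a + a) with hS'
  set S2 : ℝ := ∑ b ∈ range B, f (n + b) * f (n + b + 2 * a) with hS2
  have h1 : |S - S'| ≤ 2 * a := X5_window (fun m => f m * f (m + a)) (fun m => X5_abs f hf _ _) n a B
  have h2 : |S + S'| ≤ B + S2 := by
    rw [hS, hS', hS2, ← Finset.sum_add_distrib]
    refine (Finset.abs_sum_le_sum_abs _ _).trans ?_
    have e : (B : ℝ) + ∑ b ∈ range B, f (n + b) * f (n + b + 2 * a) =
        ∑ b ∈ range B, (1 + f (n + b) * f (n + b + 2 * a)) := by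
      rw [Finset.sum_add_distrib]
      simp
    rw [e]
    refine Finset.sum_le_sum fun b _ => ?_
    have e2 : n + b + 2 * a = n + b + a + a := by ring
    rw [e2]
    exact X5_three f hf (n + b) (n + b + a) (n + b + a + a)
  have h3 : 2 * |S| ≤ B + S2 + 2 * a := by
    have h4 : 2 * |S| = |(S + S') + (S - S')| := by
      have : (S + S') + (S - S') = 2 * S := by ring
      rw [this, abs_mul]
      norm_num
    rw [h4]
    have := abs_add_le (S + S') (S - S')
    linarith
  have e1 : lcor f a B n = S / B := rfl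
  have e2 : lcor f (2 * a) B n = S2 / B := rfl
  rw [e1, e2, abs_div, abs_of_pos hB']
  have : (2 * |S|) / B ≤ (B + S2 + 2 * a) / B := div_le_div_of_nonneg_right h3 hB'.le
  have e3 : (B + S2 + 2 * a) / B = 1 + S2 / B + 2 * a / B := by field_simp
  rw [e3] at this
  calc 2 * (|S| / B) = (2 * |S|) / B := by ring
    _ ≤ _ := this

theorem X5_step (f : ℕ → ℝ) (hf : ∀ n, f n = 1 ∨ f n = -1) (a B N : ℕ) (hB : 0 < B)
    (hBa : 2 * a ≤ B) (hN : 0 < N) :
    4 * energy f a B N ≤ 1 + 2 * mean (lcor f (2 * a) B) N + energy f (2 * a) B N + 10 * a / B := by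
  have hB' : (0 : ℝ) < B := by exact_mod_cast hB
  have hN' : (0 : ℝ) < N := by exact_mod_cast hN
  have hd : (2 * a / B : ℝ) ≤ 1 := by
    rw [div_le_one hB']
    exact_mod_cast hBa
  have hd0 : (0 : ℝ) ≤ 2 * a / B := by positivity
  have hpt : ∀ n, 4 * (lcor f a B n) ^ 2 ≤
      1 + 2 * lcor f (2 * a) B n + (lcor f (2 * a) B n) ^ 2 + 10 * a / B := by
    intro n
    have h1 := X5_double f hf a B n hB
    have h2 := abs_le.1 (lcor_abs f hf (2 * a) B n)
    have h3 := abs_nonneg (lcor f a B n)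
    have h4 : 4 * (lcor f a B n) ^ 2 = (2 * |lcor f a B n|) ^ 2 := by
      rw [mul_pow, sq_abs]; ring
    rw [h4]
    have h5 : (2 * |lcor f a B n|) ^ 2 ≤ (1 + lcor f (2 * a) B n + 2 * a / B) ^ 2 :=
      pow_le_pow_left₀ (by positivity) h1 2
    set x := lcor f (2 * a) B n
    set d : ℝ := 2 * a / B with hdd
    have e : (10 * a / B : ℝ) = 5 * d := by rw [hdd]; ring
    rw [e]
    nlinarith
  unfold energy mean
  have h6 : ∑ n ∈ range N, 4 * (lcor f a B n) ^ 2 ≤
      ∑ n ∈ range N, (1 + 2 * lcor f (2 * a) B n + (lcor f (2 * a) B n) ^ 2 + 10 * a / B) :=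
    Finset.sum_le_sum fun n _ => hpt n
  rw [← Finset.mul_sum, Finset.sum_add_distrib, Finset.sum_add_distrib, Finset.sum_add_distrib,
    ← Finset.mul_sum] at h6
  simp only [Finset.sum_const, Finset.card_range, nsmul_eq_mul, mul_one] at h6
  have h7 := div_le_div_of_nonneg_right h6 hN'.le
  have e1 : (4 * ∑ n ∈ range N, lcor f a B n ^ 2) / (N : ℝ) =
      4 * ((∑ n ∈ range N, lcor f a B n ^ 2) / N) := by ring
  have e2 : ((N : ℝ) + 2 * ∑ n ∈ range N, lcor f (2 * a) B n +
      ∑ n ∈ range N, lcor f (2 * a) B n ^ 2 + N * (10 * a / B)) / N =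
      1 + 2 * ((∑ n ∈ range N, lcor f (2 * a) B n) / N) +
        (∑ n ∈ range N, lcor f (2 * a) B n ^ 2) / N + 10 * a / B := by
    field_simp
  rw [e1, e2] at h7
  exact h7

theorem X5_mean (f : ℕ → ℝ) (hf : ∀ n, f n = 1 ∨ f n = -1)
    (h2 : ∀ a : ℕ, 0 < a → Tendsto (mean fun n => f n * f (n + a)) atTop (𝓝 0))
    (a B : ℕ) (ha : 0 < a) (hB : 0 < B) : Tendsto (mean (lcor f a B)) atTop (𝓝 0) := by
  have h := h2 a ha
  have hb : Tendsto (fun N : ℕ => (2 * (B : ℝ)) / (N : ℝ)) atTop (𝓝 0) :=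
    tendsto_const_div_atTop_nhds_zero_nat _
  have hd : Tendsto (fun N : ℕ => mean (lcor f a B) N - mean (fun n => f n * f (n + a)) N) atTop
      (𝓝 0) := by
    refine squeeze_zero_norm' ?_ hb
    filter_upwards [eventually_gt_atTop 0] with N hN
    rw [Real.norm_eq_abs]
    have h1 := loc_mean f hf B hB {0, a} N hN
    have e1 : (fun n => loc f B n {0, a}) = lcor f a B := by
      funext n
      rw [loc_pair f B n a ha]
      rfl
    have e2 : (fun n => ∏ i ∈ ({0, a} : Finset ℕ), f (n + i)) = fun n => f n * f (n + a) := by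
      funext n
      rw [Finset.prod_pair ha.ne, Nat.add_zero]
    rw [e1, e2] at h1
    exact h1
  have := hd.add h
  simpa using this

theorem energy_le_one (f : ℕ → ℝ) (hf : ∀ n, f n = 1 ∨ f n = -1) (a B N : ℕ) :
    energy f a B N ≤ 1 := by
  unfold energy mean
  rcases Nat.eq_zero_or_pos N with rfl | hN
  · simp
  · have hN' : (0 : ℝ) < N := by exact_mod_cast hN
    rw [div_le_one hN']
    have : ∑ n ∈ range N, (lcor f a B n) ^ 2 ≤ ∑ n ∈ range N, (1 : ℝ) := by
      refine Finset.sum_le_sum fun n _ => ?_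
      have h := lcor_abs f hf a B n
      rw [← sq_abs]
      have h0 := abs_nonneg (lcor f a B n)
      nlinarith
    simpa using this

/-- The sharp bound: the mean square of the local correlations is asymptotically at most `1/3`. -/
theorem energy_le (f : ℕ → ℝ) (hf : ∀ n, f n = 1 ∨ f n = -1)
    (h2 : ∀ a : ℕ, 0 < a → Tendsto (mean fun n => f n * f (n + a)) atTop (𝓝 0)) (a : ℕ)
    (ha : 0 < a) (δ : ℝ) (hδ : 0 < δ) :
    ∃ B₀ : ℕ, ∀ B ≥ B₀, ∀ᶠ N in atTop, energy f a B N ≤ 1 / 3 + δ := by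
  have key : ∀ j : ℕ, ∀ a : ℕ, 0 < a → ∀ δ : ℝ, 0 < δ → ∃ B₀ : ℕ, ∀ B ≥ B₀, ∀ᶠ N in atTop,
      energy f a B N ≤ 1 / 3 + 1 / 4 ^ j + δ := by
    intro j
    induction j with
    | zero =>
      intro a _ δ hδ
      refine ⟨0, fun B _ => Eventually.of_forall fun N => ?_⟩
      have := energy_le_one f hf a B N
      simp only [pow_zero, div_one]
      linarith
    | succ j ih =>
      intro a ha δ hδ
      obtain ⟨B₀, hB₀⟩ := ih (2 * a) (by omega) δ hδ
      obtain ⟨B₁, hB₁⟩ := exists_nat_gt (10 * a / δ : ℝ)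
      refine ⟨max (max B₀ B₁) (2 * a + 1), fun B hB => ?_⟩
      have hb0 : B₀ ≤ B := le_trans (le_trans (le_max_left _ _) (le_max_left _ _)) hB
      have hb1 : B₁ ≤ B := le_trans (le_trans (le_max_right _ _) (le_max_left _ _)) hB
      have hb2 : 2 * a + 1 ≤ B := le_trans (le_max_right _ _) hB
      have hBpos : 0 < B := by omega
      have hB' : (0 : ℝ) < B := by exact_mod_cast hBpos
      have hsm : (10 * a / B : ℝ) ≤ δ := by
        rw [div_le_iff₀ hB']
        rw [div_lt_iff₀ hδ] at hB₁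
        have : (B₁ : ℝ) ≤ B := by exact_mod_cast hb1
        nlinarith
      have hm := X5_mean f hf h2 (2 * a) B (by omega) hBpos
      have hme : ∀ᶠ N in atTop, mean (lcor f (2 * a) B) N < δ / 2 :=
        hm.eventually_lt_const (by positivity)
      filter_upwards [hB₀ B hb0, hme, eventually_gt_atTop 0] with N hN1 hN2 hN3
      have h := X5_step f hf a B N hBpos (by omega) hN3
      have e : (1 : ℝ) / 4 ^ (j + 1) = (1 / 4 ^ j) / 4 := by
        rw [pow_succ]; field_simp
      rw [e]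
      linarith
  obtain ⟨j, hj⟩ : ∃ j : ℕ, (1 : ℝ) / 4 ^ j ≤ δ / 2 := by
    obtain ⟨j, hj⟩ := pow_unbounded_of_one_lt (2 / δ) (by norm_num : (1 : ℝ) < 4)
    refine ⟨j, ?_⟩
    rw [div_lt_iff₀ hδ] at hj
    rw [div_le_iff₀ (by positivity)]
    linarith
  obtain ⟨B₀, hB₀⟩ := key j a ha (δ / 2) (by positivity)
  refine ⟨B₀, fun B hB => ?_⟩
  filter_upwards [hB₀ B hB] with N hN
  linarith

end Pool.Agent.Lib.MP_f6c41f_nt
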