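import Pool.Agent.Lib.MP_f6c41f_nt.N4
import Pool.Agent.Lib.MP_f6c41f_nt.X3
import Pool.Agent.Lib.MP_f6c41f_nt.X5

/-!
# MP_f6c41f_nt, module X4

The main theorem with the averaged hypothesis (compare module N4): a sequence of signs with
vanishing two-point correlations and extremal averaged energy has the correlations of the torus model.
-/

set_option autoImplicit false

namespace Pool.Agent.Lib.MP_f6c41f_nt

open Finset Filter Topology

open MeasureTheory in
theorem main_finset_avg (f : ℕ → ℝ) (hf : ∀ n, f n = 1 ∨ f n = -1)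
    (h2 : ∀ a : ℕ, 0 < a → Tendsto (mean fun n => f n * f (n + a)) atTop (𝓝 0))
    (h4 : ∀ δ : ℝ, 0 < δ → ∃ᶠ A : ℕ in atTop, ∃ B₀ : ℕ, ∀ B ≥ B₀, ∀ᶠ N in atTop,
      (1 / 3 - δ) * A ≤ ∑ a ∈ Icc 1 A, energy f a B N)
    (F : Finset ℕ) : Tendsto (mean fun n => ∏ i ∈ F, f (n + i)) atTop (𝓝 (torus F)) := by
  classical
  rw [tendsto_iff_ultrafilter]
  intro U hU
  have hbd : ∀ N, mean (fun n => ∏ i ∈ F, f (n + i)) N ∈ Set.Icc (-1:ℝ) 1 := by
    intro N
    have h1 := mean_abs_le (fun n => ∏ i ∈ F, f (n + i)) (fun n => (abs_prod_pm f hf F n).le) N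
    rw [abs_le] at h1
    exact ⟨h1.1, h1.2⟩
  obtain ⟨L, -, hL⟩ := (isCompact_Icc (a := (-1:ℝ)) (b := 1)).ultrafilter_le_nhds
    (U.map (mean fun n => ∏ i ∈ F, f (n + i))) (by
      rw [le_principal_iff]
      exact Ultrafilter.mem_map.mpr (Filter.univ_mem' hbd))
  have hLt : Tendsto (mean fun n => ∏ i ∈ F, f (n + i)) U (𝓝 L) := hL
  suffices hLF : L = torus F by
    rw [← hLF]
    exact hLt
  obtain ⟨μ, hμ, hst, hF, hsq⟩ := exists_measure_avg f hf U hU
  have h2' : ∀ a : ℕ, 0 < a → ∫ c, c {0, a} ∂μ = 0 := by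
    intro a ha
    refine hF {0, a} 0 ?_
    have he : (fun n => ∏ i ∈ ({0, a} : Finset ℕ), f (n + i)) = fun n => f n * f (n + a) := by
      funext n
      rw [Finset.prod_pair ha.ne, Nat.add_zero]
    rw [he]
    exact (h2 a ha).mono_left hU
  have h4' : ∀ δ : ℝ, 0 < δ → ∃ᶠ A : ℕ in atTop,
      (1 / 3 - δ) * A ≤ ∑ a ∈ Icc 1 A, ∫ c, (c {0, a}) ^ 2 ∂μ := by
    intro δ hδ
    refine (h4 δ hδ).mono fun A hA => ?_
    refine hsq A _ ?_
    obtain ⟨B₀, hB₀⟩ := hA
    exact ⟨B₀, fun B hB => hU (hB₀ B hB)⟩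
  have hdbl := dbl_ae_avg μ hst h2' h4'
  have hnr := nonrat_ae μ hst h2'
  have hrot : ∀ᵐ c ∂μ, ∃ s : ℝ, c = rot s := by
    filter_upwards [hst, hdbl, hnr] with c h1 h3 h5
    exact eq_rot h1 h3 h5
  have hintL : ∫ c, c F ∂μ = L := hF F L hLt
  have hInt : ∀ G : Finset ℕ, Integrable (fun c : Finset ℕ → ℝ => c G) μ := by
    intro G
    refine Integrable.of_bound (measurable_pi_apply G).aestronglyMeasurable 1 ?_
    filter_upwards [hst] with c hc
    rw [Real.norm_eq_abs]
    exact abs_le_one hc G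
  rcases Nat.even_or_odd F.card with hev | hodd
  · refine eq_of_abs_sub_le_all fun ε hε => ?_
    obtain ⟨A, γ, hA⟩ := approx_even (fun s => rot s F) (rot_continuous F)
      (fun s => rot_periodic F s) (fun s => rot_even F hev s) ε hε
    rw [rot_int F] at hA
    have hae : ∀ᵐ c ∂μ, ‖c F - torus F - ∑ k ∈ Icc 1 A, γ k * c {0, k}‖ ≤ ε := by
      filter_upwards [hrot] with c hc
      obtain ⟨s, rfl⟩ := hc
      rw [Real.norm_eq_abs]
      have h1 := hA s
      have h3 : ∑ k ∈ Icc 1 A, γ k * (1 - 4 * nrm (k * s)) =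
          ∑ k ∈ Icc 1 A, γ k * rot s {0, k} := by
        refine Finset.sum_congr rfl fun k hk => ?_
        rw [rot_pair s k (Finset.mem_Icc.mp hk).1]
      rw [h3] at h1
      exact h1
    have h6 := norm_integral_le_of_norm_le_const hae
    have h7 : ∫ c, (c F - torus F - ∑ k ∈ Icc 1 A, γ k * c {0, k}) ∂μ = L - torus F := by
      have hs : Integrable (fun c : Finset ℕ → ℝ => ∑ k ∈ Icc 1 A, γ k * c {0, k}) μ :=
        integrable_finsetSum _ fun k _ => (hInt {0, k}).const_mul (γ k)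
      have hcF : Integrable (fun c : Finset ℕ → ℝ => c F - torus F) μ :=
        (hInt F).sub (integrable_const _)
      rw [integral_sub hcF hs,
        integral_sub (hInt F) (integrable_const _), integral_const, hintL,
        integral_finsetSum _ fun k _ => (hInt {0, k}).const_mul (γ k)]
      have h8 : ∑ k ∈ Icc 1 A, ∫ c, γ k * c {0, k} ∂μ = 0 := by
        refine Finset.sum_eq_zero fun k hk => ?_
        rw [integral_const_mul, h2' k (Finset.mem_Icc.mp hk).1, mul_zero]
      rw [h8]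
      simp
    rw [h7, Real.norm_eq_abs] at h6
    simpa using h6
  · rw [torus_odd F hodd, ← hintL]
    refine integral_eq_zero_of_ae ?_
    filter_upwards [hrot] with c hc
    obtain ⟨s, rfl⟩ := hc
    exact rot_odd F hodd s

end Pool.Agent.Lib.MP_f6c41f_nt
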