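import Pool.Agent.Lib.MP_f6c41f_nt.T4
import Pool.Agent.Lib.MP_f6c41f_nt.X5

/-!
# MP_f6c41f_nt, module X6: general sequences of signs

The identities `I(h)` for an arbitrary sequence `f` of signs in place of the Liouville function
(compare modules T2 and T4).
-/

set_option autoImplicit false

namespace Pool.Agent.Lib.MP_f6c41f_nt

open Finset Filter Topology MeasureTheory

/-- The identity `I(h)` with a sequence `f` in place of the Liouville function: the averages of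
`∏ f (n + h j)` over `1 ≤ n ≤ N` tend to `B(h)`. -/
def IdentityOf (f : ℤ → ℝ) {l : ℕ} (h : Fin l → ℤ) : Prop :=
  Filter.Tendsto (fun N : ℕ => (1 / (N : ℝ)) * ∑ n ∈ Icc 1 N, ∏ j : Fin l, f ((n : ℤ) + h j))
    Filter.atTop
    (nhds (∫ t in (0:ℝ)..1, ∫ s in (0:ℝ)..1, ∏ j : Fin l, phi (t + (h j : ℝ) * s)))

theorem X6_sq {f : ℤ → ℝ} (hf : ∀ n, f n = 1 ∨ f n = -1) (n : ℤ) : f n * f n = 1 := by
  rcases hf n with h | h <;> rw [h] <;> norm_num

theorem X6_fabs {f : ℤ → ℝ} (hf : ∀ n, f n = 1 ∨ f n = -1) (n : ℤ) : |f n| = 1 := by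
  rcases hf n with h | h <;> rw [h] <;> simp

theorem X6_abs_prod {f : ℤ → ℝ} (hf : ∀ n, f n = 1 ∨ f n = -1) {ι : Type*} (s : Finset ι) (g : ι → ℤ) : |∏ i ∈ s, f (g i)| ≤ 1 := by
  rw [Finset.abs_prod]
  refine (Finset.prod_le_prod (fun i _ => abs_nonneg _) (g := fun _ => (1 : ℝ))
    fun i _ => ?_).trans (by simp)
  rcases hf (g i) with h | h <;> rw [h] <;> norm_num

theorem identityOf_iff {f : ℤ → ℝ} (hf : ∀ n, f n = 1 ∨ f n = -1) {l : ℕ} (h : Fin l → ℤ) (m : ℤ) (hm : ∀ j, m ≤ h j) :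
    IdentityOf f h ↔ Tendsto (mean fun n => ∏ i ∈ red h m, f ((n + i : ℕ) : ℤ)) atTop
      (𝓝 (torus (red h m))) := by
  unfold IdentityOf
  rw [torus_red h m hm]
  set G : ℕ → ℝ := fun n => ∏ i ∈ red h m, f ((n + i : ℕ) : ℤ) with hG
  set u : ℕ → ℝ := fun n => ∏ j : Fin l, f (((n + 1 : ℕ) : ℤ) + h j) with hu
  have hu1 : ∀ n, |u n| ≤ 1 := fun n => X6_abs_prod hf _ _
  have hG1 : ∀ n, |G n| ≤ 1 := fun n => X6_abs_prod hf _ _
  obtain ⟨b, hb⟩ : ∃ b : ℕ, (b : ℤ) = (m.natAbs : ℤ) + 1 + m := ⟨((m.natAbs : ℤ) + 1 + m).toNat, by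
    omega⟩
  have hsh : ∀ n, u (n + m.natAbs) = G (n + b) := by
    intro n
    have hp := prod_red h m (fun i => f ((n + b + i : ℕ) : ℤ)) (fun i => X6_sq hf _)
    simp only [hu, hG]
    rw [← hp]
    refine Finset.prod_congr rfl fun j _ => ?_
    have hj := hm j
    have e : ((n + m.natAbs + 1 : ℕ) : ℤ) + h j = ((n + b + (h j - m).toNat : ℕ) : ℤ) := by
      omega
    rw [e]
  have hd : Tendsto (fun N : ℕ => (1 / (N : ℝ)) * ∑ n ∈ Icc 1 N, ∏ j : Fin l, f ((n : ℤ) + h j) -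
      mean G N) atTop (𝓝 0) := by
    have hbound : ∀ N : ℕ, |(1 / (N : ℝ)) * ∑ n ∈ Icc 1 N, ∏ j : Fin l, f ((n : ℤ) + h j) -
        mean G N| ≤ (2 * m.natAbs + 2 * b) * (1 / (N : ℝ)) := by
      intro N
      have e1 : ∑ n ∈ Icc 1 N, ∏ j : Fin l, f ((n : ℤ) + h j) = ∑ n ∈ range N, u n := by
        rw [Finset.range_eq_Ico, Finset.sum_Ico_add' (fun n : ℕ => ∏ j : Fin l,
          f ((n : ℤ) + h j)) 0 N 1]
        congr 1
      have e2 : ∑ n ∈ range N, u (n + m.natAbs) = ∑ n ∈ range N, G (n + b) :=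
        Finset.sum_congr rfl fun n _ => hsh n
      have h1 := T2_shift u hu1 m.natAbs N
      have h2 := T2_shift G hG1 b N
      rw [e2] at h1
      have h3 : |∑ n ∈ range N, u n - ∑ n ∈ range N, G n| ≤ 2 * m.natAbs + 2 * b := by
        have := abs_sub (∑ n ∈ range N, u n - ∑ n ∈ range N, G (n + b))
          (∑ n ∈ range N, G n - ∑ n ∈ range N, G (n + b))
        have e : (∑ n ∈ range N, u n - ∑ n ∈ range N, G (n + b)) -
          (∑ n ∈ range N, G n - ∑ n ∈ range N, G (n + b)) =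
          ∑ n ∈ range N, u n - ∑ n ∈ range N, G n := by ring
        rw [e] at this
        linarith
      rw [e1]
      unfold mean
      have e : (1 / (N : ℝ)) * ∑ n ∈ range N, u n - (∑ n ∈ range N, G n) / N =
          (∑ n ∈ range N, u n - ∑ n ∈ range N, G n) * (1 / (N : ℝ)) := by ring
      rw [e, abs_mul, abs_of_nonneg (by positivity : (0 : ℝ) ≤ 1 / N)]
      exact mul_le_mul_of_nonneg_right h3 (by positivity)
    have hz : Tendsto (fun N : ℕ => (2 * (m.natAbs : ℝ) + 2 * b) * (1 / (N : ℝ))) atTop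
        (𝓝 0) := by
      have := (tendsto_one_div_atTop_nhds_zero_nat (𝕜 := ℝ)).const_mul
        (2 * (m.natAbs : ℝ) + 2 * b)
      rwa [mul_zero] at this
    exact squeeze_zero_norm (fun N => by
      rw [Real.norm_eq_abs]
      exact hbound N) hz
  constructor
  · intro hI
    have := hI.sub hd
    simpa using this
  · intro hI
    have := hI.add hd
    simpa using this

/-- The product of two consecutive factors. -/
noncomputable def X6x (f : ℤ → ℝ) (a b : ℕ) (n : ℕ) : ℝ := f ((n + b : ℕ) : ℤ) * f ((n + b + a : ℕ) : ℤ)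

theorem X6_lt {f : ℤ → ℝ} (hf : ∀ n, f n = 1 ∨ f n = -1)
    (h4 : ∀ a d : ℕ, 0 < a → 0 < d → IdentityOf f ![0, (a : ℤ), d, a + d]) (a : ℕ)
    (ha : 0 < a) (b b' : ℕ) (hb : b < b') :
    Tendsto (fun N : ℕ => (1 / (N : ℝ)) * ∑ n ∈ Icc 1 N, X6x f a b n * X6x f a b' n) atTop
      (𝓝 (∫ t in (0:ℝ)..1, ∫ s in (0:ℝ)..1, T4y a b t s * T4y a b' t s)) := by
  obtain ⟨d, hd⟩ : ∃ d : ℕ, b' = b + d := ⟨b' - b, by omega⟩
  have hd0 : 0 < d := by omega
  subst hd
  set h : Fin 4 → ℤ := ![(b : ℤ), b + a, b + d, b + d + a] with hh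
  set h' : Fin 4 → ℤ := ![0, (a : ℤ), d, a + d] with hh'
  have e1 : ∀ j, h j - (b : ℤ) = h' j - 0 := by
    intro j
    fin_cases j <;> simp [hh, hh'] <;> ring
  have e2 : red h b = red h' 0 := by
    unfold red
    simp only [e1]
  have i1 := identityOf_iff hf h b (by
    intro j
    fin_cases j <;> simp [hh] <;> omega)
  have i2 := identityOf_iff hf h' 0 (by
    intro j
    fin_cases j <;> simp [hh'] <;> omega)
  rw [e2] at i1
  have i3 : IdentityOf f h := i1.2 (i2.1 (h4 a d ha hd0))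
  unfold IdentityOf at i3
  have e3 : ∀ n : ℕ, ∏ j : Fin 4, f ((n : ℤ) + h j) = X6x f a b n * X6x f a (b + d) n := by
    intro n
    simp only [Fin.prod_univ_four, hh, X6x]
    simp only [Matrix.cons_val_zero, Matrix.cons_val_one, Matrix.cons_val]
    push_cast
    rw [show (n : ℤ) + (b + a) = n + b + a by ring, show (n : ℤ) + (b + d) = n + b + d by ring,
      show (n : ℤ) + (b + d + a) = n + b + d + a by ring]
    ring
  have e4 : ∀ t s : ℝ, ∏ j : Fin 4, phi (t + (h j : ℝ) * s) = T4y a b t s * T4y a (b + d) t s := by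
    intro t s
    simp only [Fin.prod_univ_four, hh, T4y]
    simp only [Matrix.cons_val_zero, Matrix.cons_val_one, Matrix.cons_val]
    push_cast
    ring
  simp only [e3, e4] at i3
  exact i3

theorem X6_diag {f : ℤ → ℝ} (hf : ∀ n, f n = 1 ∨ f n = -1)
    (a b : ℕ) :
    Tendsto (fun N : ℕ => (1 / (N : ℝ)) * ∑ n ∈ Icc 1 N, X6x f a b n * X6x f a b n) atTop
      (𝓝 (∫ t in (0:ℝ)..1, ∫ s in (0:ℝ)..1, T4y a b t s * T4y a b t s)) := by
  have e1 : ∀ n, X6x f a b n * X6x f a b n = 1 := by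
    intro n
    unfold X6x
    rw [mul_mul_mul_comm, X6_sq hf, X6_sq hf, one_mul]
  have e2 : ∀ t s, T4y a b t s * T4y a b t s = 1 := by
    intro t s
    unfold T4y
    rw [mul_mul_mul_comm, phi_sq, phi_sq, one_mul]
  simp only [e1, e2]
  simp only [sum_const, Nat.card_Icc, add_tsub_cancel_right, nsmul_eq_mul, mul_one,
    intervalIntegral.integral_const, sub_zero, smul_eq_mul]
  apply tendsto_const_nhds.congr'
  filter_upwards [eventually_gt_atTop 0] with N hN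
  have : (N : ℝ) ≠ 0 := by exact_mod_cast hN.ne'
  field_simp

theorem X6_all {f : ℤ → ℝ} (hf : ∀ n, f n = 1 ∨ f n = -1)
    (h4 : ∀ a d : ℕ, 0 < a → 0 < d → IdentityOf f ![0, (a : ℤ), d, a + d]) (a : ℕ)
    (ha : 0 < a) (b b' : ℕ) :
    Tendsto (fun N : ℕ => (1 / (N : ℝ)) * ∑ n ∈ Icc 1 N, X6x f a b n * X6x f a b' n) atTop
      (𝓝 (∫ t in (0:ℝ)..1, ∫ s in (0:ℝ)..1, T4y a b t s * T4y a b' t s)) := by
  rcases lt_trichotomy b b' with h | h | h
  · exact X6_lt hf h4 a ha b b' h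
  · subst h
    exact X6_diag hf a b
  · have := X6_lt hf h4 a ha b' b h
    simpa only [mul_comm] using this

theorem energy_of_parallelogramsOf {f : ℤ → ℝ} (hf : ∀ n, f n = 1 ∨ f n = -1)
    (h4 : ∀ a d : ℕ, 0 < a → 0 < d → IdentityOf f ![0, (a : ℤ), d, a + d]) (a : ℕ) (ha : 0 < a)
    (δ : ℝ) (hδ : 0 < δ) (B : ℕ) (hB : 0 < B) : ∀ᶠ N in atTop,
      1 / 3 - δ ≤ mean (fun n => ((∑ b ∈ range B, f ((n + b : ℕ) : ℤ) *
        f ((n + b + a : ℕ) : ℤ)) / B) ^ 2) N := by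
  have hB' : (0 : ℝ) < B := by exact_mod_cast hB
  set J := ∫ t in (0:ℝ)..1, ∫ s in (0:ℝ)..1,
      ((∑ b ∈ range B, phi (t + (b : ℝ) * s) * phi (t + ((b + a : ℕ) : ℝ) * s)) / B) ^ 2 with hJ
  have hJ3 : 1 / 3 ≤ J := second_moment a B ha hB
  have hJe : J = ∑ q ∈ range B ×ˢ range B, (1 / (B : ℝ) ^ 2) *
      ∫ t in (0:ℝ)..1, ∫ s in (0:ℝ)..1, T4y a q.1 t s * T4y a q.2 t s := by
    have e0 : ∀ t s : ℝ, ((∑ b ∈ range B, phi (t + (b : ℝ) * s) *
        phi (t + ((b + a : ℕ) : ℝ) * s)) / B) ^ 2 =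
        (1 / (B : ℝ) ^ 2) * ∑ q ∈ range B ×ˢ range B, T4y a q.1 t s * T4y a q.2 t s := by
      intro t s
      rw [div_pow, sq (∑ b ∈ range B, _), Finset.sum_mul_sum, Finset.sum_product]
      simp only [T4y]
      ring
    rw [hJ]
    simp_rw [e0, intervalIntegral.integral_const_mul]
    rw [← Finset.mul_sum]
    congr 1
    exact T4_sum (range B ×ˢ range B) (fun q p => T4y a q.1 p.1 p.2 * T4y a q.2 p.1 p.2)
      (fun q => (T4_ymeas a q.1).mul (T4_ymeas a q.2))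
      (fun q p => by simp only [abs_mul, T4_yabs]; norm_num)
  have hlim : Tendsto (fun N : ℕ => (1 / (N : ℝ)) * ∑ n ∈ Icc 1 N,
      ((∑ b ∈ range B, f ((n + b : ℕ) : ℤ) * f ((n + b + a : ℕ) : ℤ)) / B) ^ 2) atTop
      (𝓝 J) := by
    rw [hJe]
    have h1 := tendsto_finsetSum (range B ×ˢ range B) (fun q (_ : q ∈ range B ×ˢ range B) =>
      (X6_all hf h4 a ha q.1 q.2).const_mul (1 / (B : ℝ) ^ 2))
    refine h1.congr ?_
    intro N
    have e0 : ∀ n : ℕ, ((∑ b ∈ range B, f ((n + b : ℕ) : ℤ) *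
        f ((n + b + a : ℕ) : ℤ)) / B) ^ 2 =
        (1 / (B : ℝ) ^ 2) * ∑ q ∈ range B ×ˢ range B, X6x f a q.1 n * X6x f a q.2 n := by
      intro n
      rw [div_pow, sq (∑ b ∈ range B, _), Finset.sum_mul_sum, Finset.sum_product]
      simp only [X6x]
      ring
    simp_rw [e0]
    rw [← Finset.mul_sum, ← Finset.mul_sum, Finset.sum_comm]
    simp_rw [← Finset.mul_sum]
    ring
  have hmean := T4_mean_of_Icc (fun n => ((∑ b ∈ range B, f ((n + b : ℕ) : ℤ) *
        f ((n + b + a : ℕ) : ℤ)) / B) ^ 2) (by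
      intro n
      rw [abs_pow]
      apply pow_le_one₀ (abs_nonneg _)
      rw [abs_div, Nat.abs_cast, div_le_one hB']
      refine (Finset.abs_sum_le_sum_abs _ _).trans ?_
      simp_rw [abs_mul, X6_fabs hf]
      simp) J hlim
  have hev := (tendsto_order.1 hmean).1 (1 / 3 - δ) (by linarith)
  filter_upwards [hev] with N hN
  exact hN.le

theorem pair_of_identityOf {f : ℤ → ℝ} (hf : ∀ n, f n = 1 ∨ f n = -1) (a : ℕ) (ha : 0 < a) :
    IdentityOf f ![0, (a : ℤ)] ↔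
      Tendsto (mean fun n => f ((n : ℕ) : ℤ) * f ((n + a : ℕ) : ℤ)) atTop (𝓝 0) := by
  have hred : red ![0, (a : ℤ)] 0 = {0, a} := by
    unfold red
    ext x
    simp only [Finset.mem_filter, Finset.mem_image, Finset.mem_univ, true_and, sub_zero,
      Finset.mem_insert, Finset.mem_singleton, Fin.exists_fin_two, Matrix.cons_val_zero,
      Matrix.cons_val_one, Int.toNat_zero, Int.toNat_natCast]
    constructor
    · rintro ⟨h | h, -⟩
      · exact Or.inl h.symm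
      · exact Or.inr h.symm
    · rintro (h | h)
      · subst h
        refine ⟨Or.inl rfl, ?_⟩
        have : (univ.filter fun j : Fin 2 => (![0, (a : ℤ)] j).toNat = 0) = {0} := by
          ext j
          fin_cases j <;> simp [ha.ne']
        rw [this]
        simp
      · subst h
        refine ⟨Or.inr rfl, ?_⟩
        have : (univ.filter fun j : Fin 2 => (![0, (x : ℤ)] j).toNat = x) = {1} := by
          ext j
          fin_cases j <;> simp [ha.ne]
        rw [this]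
        simp
  rw [identityOf_iff hf ![0, (a : ℤ)] 0 (by
    intro j
    fin_cases j <;> simp), hred, torus_pair a ha]
  have e : ∀ n : ℕ, ∏ i ∈ ({0, a} : Finset ℕ), f ((n + i : ℕ) : ℤ) =
      f ((n : ℕ) : ℤ) * f ((n + a : ℕ) : ℤ) := by
    intro n
    rw [Finset.prod_insert (by simp [ha.ne]), Finset.prod_singleton, add_zero]
  simp_rw [e]

end Pool.Agent.Lib.MP_f6c41f_nt
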