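import Pool.Agent.Lib.MP_f6c41f_nt.Y2

/-!
# MP_f6c41f_nt, module Y3: parallelogram identities imply pair identities

If a sequence `f` of signs satisfies all parallelogram identities, then the averages of
`(-1)^n f(n) f(n + 2a)` tend to zero (van der Corput).  If moreover `f(2n) = κ f(n)`, then the pair
identities hold.
-/

set_option autoImplicit false

namespace Pool.Agent.Lib.MP_f6c41f_nt

open Finset Filter Topology MeasureTheory

theorem Y3_weighted {f : ℤ → ℝ} (hf : ∀ n, f n = 1 ∨ f n = -1)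
    (h4 : ∀ a d : ℕ, 0 < a → 0 < d → IdentityOf f ![0, (a : ℤ), d, a + d]) (a : ℕ) (ha : 0 < a)
    (w : ℕ → ℝ) (hw : ∀ b, |w b| ≤ 1) (B : ℕ) :
    Tendsto (fun N : ℕ => (1 / (N : ℝ)) * ∑ n ∈ Icc 1 N,
      ((∑ b ∈ range B, w b * X6x f a b n) / B) ^ 2) atTop
      (𝓝 (∫ t in (0:ℝ)..1, ∫ s in (0:ℝ)..1, ((∑ b ∈ range B, w b * T4y a b t s) / B) ^ 2)) := by
  set J := ∫ t in (0:ℝ)..1, ∫ s in (0:ℝ)..1, ((∑ b ∈ range B, w b * T4y a b t s) / B) ^ 2 with hJ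
  have hJe : J = ∑ q ∈ range B ×ˢ range B, (w q.1 * w q.2 / (B : ℝ) ^ 2) *
      ∫ t in (0:ℝ)..1, ∫ s in (0:ℝ)..1, T4y a q.1 t s * T4y a q.2 t s := by
    have e0 : ∀ t s : ℝ, ((∑ b ∈ range B, w b * T4y a b t s) / B) ^ 2 =
        (1 / (B : ℝ) ^ 2) * ∑ q ∈ range B ×ˢ range B,
          (w q.1 * T4y a q.1 t s) * (w q.2 * T4y a q.2 t s) := by
      intro t s
      rw [div_pow, sq (∑ b ∈ range B, _), Finset.sum_mul_sum, Finset.sum_product]
      ring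
    rw [hJ]
    simp_rw [e0, intervalIntegral.integral_const_mul]
    have h1 := T4_sum (range B ×ˢ range B)
      (fun q p => (w q.1 * T4y a q.1 p.1 p.2) * (w q.2 * T4y a q.2 p.1 p.2))
      (fun q => ((T4_ymeas a q.1).const_mul _).mul ((T4_ymeas a q.2).const_mul _))
      (fun q p => by
        simp only [abs_mul, T4_yabs, mul_one]
        have h1 := hw q.1
        have h2 := hw q.2
        have h3 := abs_nonneg (w q.1)
        have h4 := abs_nonneg (w q.2)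
        nlinarith)
    simp only at h1
    rw [h1, Finset.mul_sum]
    refine Finset.sum_congr rfl fun q _ => ?_
    have e1 : ∀ t s : ℝ, w q.1 * T4y a q.1 t s * (w q.2 * T4y a q.2 t s) =
        (w q.1 * w q.2) * (T4y a q.1 t s * T4y a q.2 t s) := fun t s => by ring
    simp_rw [e1, intervalIntegral.integral_const_mul]
    ring
  rw [hJe]
  have h1 := tendsto_finsetSum (range B ×ˢ range B) (fun q (_ : q ∈ range B ×ˢ range B) =>
    (X6_all hf h4 a ha q.1 q.2).const_mul (w q.1 * w q.2 / (B : ℝ) ^ 2))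
  refine h1.congr ?_
  intro N
  have e0 : ∀ n : ℕ, ((∑ b ∈ range B, w b * X6x f a b n) / B) ^ 2 =
      ∑ q ∈ range B ×ˢ range B, (w q.1 * w q.2 / (B : ℝ) ^ 2) *
        (X6x f a q.1 n * X6x f a q.2 n) := by
    intro n
    rw [div_pow, sq (∑ b ∈ range B, _), Finset.sum_mul_sum, Finset.sum_product, Finset.sum_div]
    refine Finset.sum_congr rfl fun i _ => ?_
    rw [Finset.sum_div]
    refine Finset.sum_congr rfl fun j _ => ?_
    ring
  simp_rw [e0]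
  rw [Finset.sum_comm, Finset.mul_sum]
  refine Finset.sum_congr rfl fun q _ => ?_
  rw [← Finset.mul_sum]
  ring

theorem Y3_icc (u : ℕ → ℝ) (N : ℕ) : ∑ n ∈ Icc 1 N, u n = ∑ n ∈ range N, u (n + 1) := by
  rw [Finset.range_eq_Ico, Finset.sum_Ico_add' (fun n : ℕ => u n) 0 N 1]
  congr 1

theorem Y3_shift (u : ℕ → ℝ) (hu : ∀ n, |u n| ≤ 1) (a N : ℕ) :
    |∑ n ∈ Icc 1 N, u n - ∑ n ∈ Icc 1 N, u (n + a)| ≤ 2 * a := by
  rw [Y3_icc, Y3_icc]
  have := T2_shift (fun n => u (n + 1)) (fun n => hu _) a N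
  have e : ∑ n ∈ range N, u (n + 1 + a) = ∑ n ∈ range N, u (n + a + 1) :=
    Finset.sum_congr rfl fun n _ => by congr 1; ring
  rw [e]
  exact this

/-- the averages of `(-1)^n f(n) f(n+2a)` tend to zero -/
theorem twisted_zero {f : ℤ → ℝ} (hf : ∀ n, f n = 1 ∨ f n = -1)
    (h4 : ∀ a d : ℕ, 0 < a → 0 < d → IdentityOf f ![0, (a : ℤ), d, a + d]) (a : ℕ) (ha : 0 < a) :
    Tendsto (fun N : ℕ => (1 / (N : ℝ)) * ∑ n ∈ Icc 1 N,
      (-1 : ℝ) ^ n * (f ((n : ℕ) : ℤ) * f ((n + 2 * a : ℕ) : ℤ))) atTop (𝓝 0) := by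
  set u : ℕ → ℝ := fun n => (-1 : ℝ) ^ n * (f ((n : ℕ) : ℤ) * f ((n + 2 * a : ℕ) : ℤ)) with hu
  have hu1 : ∀ n, |u n| ≤ 1 := by
    intro n
    simp only [hu]
    rw [abs_mul, abs_mul, X6_fabs hf, X6_fabs hf, abs_pow]
    simp
  rw [Metric.tendsto_atTop]
  intro ε hε
  obtain ⟨M, hM, hsm⟩ := Y2_small a ha (ε ^ 2 / 32) (by positivity)
  set B : ℕ := 2 * M with hB
  have hB0 : 0 < B := by omega
  have hB' : (0 : ℝ) < B := by exact_mod_cast hB0
  have hlim := Y3_weighted hf h4 (2 * a) (by omega) (fun b => (-1 : ℝ) ^ b) (fun b => by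
    rw [abs_pow]; simp) B
  have hJ : (∫ t in (0:ℝ)..1, ∫ s in (0:ℝ)..1,
      ((∑ b ∈ range B, (-1 : ℝ) ^ b * T4y (2 * a) b t s) / B) ^ 2) ≤ ε ^ 2 / 32 := hsm
  have hev := hlim.eventually_lt_const (show _ < ε ^ 2 / 16 by
    have : 0 < ε ^ 2 := by positivity
    linarith)
  obtain ⟨N₁, hN₁⟩ := eventually_atTop.1 hev
  obtain ⟨N₂, hN₂⟩ := exists_nat_gt (4 * B / ε : ℝ)
  refine ⟨max N₁ (N₂ + 1), fun N hN => ?_⟩
  have h1 := hN₁ N (le_trans (le_max_left _ _) hN)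
  have hNpos : 0 < N := by
    have := le_trans (le_max_right _ _) hN
    omega
  have hN' : (0 : ℝ) < N := by exact_mod_cast hNpos
  have h2 : 2 * (B : ℝ) / N ≤ ε / 2 := by
    rw [div_le_iff₀ hN']
    rw [div_lt_iff₀ hε] at hN₂
    have : (N₂ : ℝ) ≤ N := by
      have := le_trans (le_max_right _ _) hN
      exact_mod_cast (by omega : N₂ ≤ N)
    nlinarith
  -- local twisted averages
  set D : ℕ → ℝ := fun n => (∑ b ∈ range B, (-1 : ℝ) ^ b * X6x f (2 * a) b n) / B with hD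
  have hDu : ∀ n, (-1 : ℝ) ^ n * D n = (∑ b ∈ range B, u (n + b)) / B := by
    intro n
    simp only [hD, hu, X6x]
    rw [← mul_div_assoc, Finset.mul_sum]
    congr 1
    refine Finset.sum_congr rfl fun b _ => ?_
    rw [pow_add]
    ring
  have h3 : |∑ n ∈ Icc 1 N, u n - ∑ n ∈ Icc 1 N, (-1 : ℝ) ^ n * D n| ≤ 2 * B := by
    simp_rw [hDu]
    rw [← Finset.sum_div, Finset.sum_comm]
    have e : ∑ n ∈ Icc 1 N, u n - (∑ b ∈ range B, ∑ n ∈ Icc 1 N, u (n + b)) / B =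
        (∑ b ∈ range B, (∑ n ∈ Icc 1 N, u n - ∑ n ∈ Icc 1 N, u (n + b))) / B := by
      rw [Finset.sum_sub_distrib]
      simp only [Finset.sum_const, Finset.card_range, nsmul_eq_mul]
      field_simp
    rw [e, abs_div, abs_of_pos hB', div_le_iff₀ hB']
    refine (Finset.abs_sum_le_sum_abs _ _).trans ?_
    have : ∀ b ∈ range B, |∑ n ∈ Icc 1 N, u n - ∑ n ∈ Icc 1 N, u (n + b)| ≤ 2 * B := by
      intro b hb
      refine (Y3_shift u hu1 b N).trans ?_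
      have : (b : ℝ) ≤ B := by
        have := mem_range.1 hb
        exact_mod_cast this.le
      linarith
    refine (Finset.sum_le_sum this).trans ?_
    simp only [Finset.sum_const, Finset.card_range, nsmul_eq_mul]
    linarith
  have h5 : (∑ n ∈ Icc 1 N, (-1 : ℝ) ^ n * D n) ^ 2 ≤ N * ∑ n ∈ Icc 1 N, (D n) ^ 2 := by
    have h := sq_sum_le_card_mul_sum_sq (s := Icc 1 N) (f := fun n => (-1 : ℝ) ^ n * D n)
    rw [Nat.card_Icc] at h
    have e : ((N + 1 - 1 : ℕ) : ℝ) = N := by simp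
    rw [e] at h
    refine h.trans (le_of_eq ?_)
    congr 1
    refine Finset.sum_congr rfl fun n _ => ?_
    rw [mul_pow, ← pow_mul, mul_comm n 2, pow_mul]
    norm_num
  have h6 : ∑ n ∈ Icc 1 N, (D n) ^ 2 < ε ^ 2 / 16 * N := by
    have h7 : (1 / (N : ℝ)) * ∑ n ∈ Icc 1 N, (D n) ^ 2 < ε ^ 2 / 16 := h1
    rw [one_div, inv_mul_lt_iff₀ hN'] at h7
    linarith
  have h8 : |∑ n ∈ Icc 1 N, (-1 : ℝ) ^ n * D n| < ε / 4 * N := by
    apply abs_lt_of_sq_lt_sq _ (by positivity)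
    calc (∑ n ∈ Icc 1 N, (-1 : ℝ) ^ n * D n) ^ 2 ≤ N * ∑ n ∈ Icc 1 N, (D n) ^ 2 := h5
      _ < N * (ε ^ 2 / 16 * N) := mul_lt_mul_of_pos_left h6 hN'
      _ = (ε / 4 * N) ^ 2 := by ring
  rw [dist_zero_right, Real.norm_eq_abs, abs_mul, abs_of_pos (by positivity : (0 : ℝ) < 1 / N)]
  have h9 : |∑ n ∈ Icc 1 N, u n| < 2 * B + ε / 4 * N := by
    have h10 : |∑ n ∈ Icc 1 N, u n| ≤ |∑ n ∈ Icc 1 N, u n - ∑ n ∈ Icc 1 N, (-1 : ℝ) ^ n * D n| +
        |∑ n ∈ Icc 1 N, (-1 : ℝ) ^ n * D n| := by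
      have := abs_add_le (∑ n ∈ Icc 1 N, u n - ∑ n ∈ Icc 1 N, (-1 : ℝ) ^ n * D n)
        (∑ n ∈ Icc 1 N, (-1 : ℝ) ^ n * D n)
      simpa using this
    linarith
  rw [div_le_iff₀ hN'] at h2
  rw [one_div, inv_mul_lt_iff₀ hN']
  nlinarith

/-- the pair identity at even lags is a degenerate parallelogram identity -/
theorem Y3_even {f : ℤ → ℝ} (hf : ∀ n, f n = 1 ∨ f n = -1)
    (h4 : ∀ a d : ℕ, 0 < a → 0 < d → IdentityOf f ![0, (a : ℤ), d, a + d]) (a : ℕ) (ha : 0 < a) :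
    Tendsto (fun N : ℕ => (1 / (N : ℝ)) * ∑ n ∈ Icc 1 N,
      (f ((n : ℕ) : ℤ) * f ((n + 2 * a : ℕ) : ℤ))) atTop (𝓝 0) := by
  have h := h4 a a ha ha
  unfold IdentityOf at h
  have e1 : ∀ n : ℕ, ∏ j : Fin 4, f ((n : ℤ) + ![0, (a : ℤ), a, a + a] j) =
      f ((n : ℕ) : ℤ) * f ((n + 2 * a : ℕ) : ℤ) := by
    intro n
    simp only [Fin.prod_univ_four, Matrix.cons_val_zero, Matrix.cons_val_one, Matrix.cons_val]
    have h1 := X6_sq hf ((n : ℤ) + a)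
    rw [show (n : ℤ) + 0 = ((n : ℕ) : ℤ) by ring,
      show (n : ℤ) + (a + a) = ((n + 2 * a : ℕ) : ℤ) by push_cast; ring]
    calc f (n : ℤ) * f ((n : ℤ) + a) * f ((n : ℤ) + a) * f ((n + 2 * a : ℕ) : ℤ)
        = f (n : ℤ) * (f ((n : ℤ) + a) * f ((n : ℤ) + a)) * f ((n + 2 * a : ℕ) : ℤ) := by ring
      _ = _ := by rw [h1]; ring
  have e2 : ∀ t s : ℝ, ∏ j : Fin 4, phi (t + ((![0, (a : ℤ), a, a + a] j : ℤ) : ℝ) * s) =
      ∏ i ∈ ({0, 2 * a} : Finset ℕ), phi (t + (i : ℝ) * s) := by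
    intro t s
    rw [Finset.prod_pair (by omega : (0 : ℕ) ≠ 2 * a)]
    simp only [Fin.prod_univ_four, Matrix.cons_val_zero, Matrix.cons_val_one, Matrix.cons_val]
    push_cast
    have h1 := phi_sq (t + (a : ℝ) * s)
    rw [show t + ((a : ℝ) + a) * s = t + 2 * a * s by ring]
    calc phi (t + 0 * s) * phi (t + a * s) * phi (t + a * s) * phi (t + 2 * a * s)
        = phi (t + 0 * s) * (phi (t + a * s) * phi (t + a * s)) * phi (t + 2 * a * s) := by ring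
      _ = _ := by rw [h1]; ring
  simp only [e1, e2] at h
  have e3 : (∫ t in (0:ℝ)..1, ∫ s in (0:ℝ)..1, ∏ i ∈ ({0, 2 * a} : Finset ℕ),
      phi (t + (i : ℝ) * s)) = 0 := torus_pair (2 * a) (by omega)
  rw [e3] at h
  exact h

theorem Y3_split (g : ℕ → ℝ) (N : ℕ) : ∑ n ∈ Icc 1 N, 2 * g (2 * n) =
    ∑ m ∈ Icc 1 (2 * N), g m + ∑ m ∈ Icc 1 (2 * N), (-1 : ℝ) ^ m * g m := by
  induction N with
  | zero => simp
  | succ N ih =>
    rw [Finset.sum_Icc_succ_top (by omega), ih, show 2 * (N + 1) = 2 * N + 1 + 1 by ring,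
      Finset.sum_Icc_succ_top (by omega), Finset.sum_Icc_succ_top (by omega),
      Finset.sum_Icc_succ_top (by omega), Finset.sum_Icc_succ_top (by omega)]
    have e : (-1 : ℝ) ^ (2 * N + 1) = -1 := by
      rw [pow_succ, pow_mul]; norm_num
    have e' : (-1 : ℝ) ^ (2 * N + 1 + 1) = 1 := by
      rw [pow_succ, e]; norm_num
    rw [e, e']
    ring

/-- parallelogram identities and `f(2n) = κ f(n)` imply the pair identities -/
theorem pair_of_parallelograms {f : ℤ → ℝ} (hf : ∀ n, f n = 1 ∨ f n = -1) (κ : ℝ) (hκ : κ * κ = 1)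
    (hd : ∀ n : ℕ, 0 < n → f ((2 * n : ℕ) : ℤ) = κ * f (n : ℤ))
    (h4 : ∀ a d : ℕ, 0 < a → 0 < d → IdentityOf f ![0, (a : ℤ), d, a + d]) (a : ℕ) (ha : 0 < a) :
    IdentityOf f ![0, (a : ℤ)] := by
  have h1 := Y3_even hf h4 a ha
  have h2 := twisted_zero hf h4 a ha
  set g : ℕ → ℝ := fun m => f ((m : ℕ) : ℤ) * f ((m + 2 * a : ℕ) : ℤ) with hg
  have h3 := (h1.add h2).comp (tendsto_id.nsmul_atTop (by norm_num : 0 < 2))
  rw [add_zero] at h3
  unfold IdentityOf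
  have e3 : (∫ t in (0:ℝ)..1, ∫ s in (0:ℝ)..1, ∏ j : Fin 2,
      phi (t + ((![0, (a : ℤ)] j : ℤ) : ℝ) * s)) = 0 := by
    have e2 : ∀ t s : ℝ, ∏ j : Fin 2, phi (t + ((![0, (a : ℤ)] j : ℤ) : ℝ) * s) =
        ∏ i ∈ ({0, a} : Finset ℕ), phi (t + (i : ℝ) * s) := by
      intro t s
      rw [Finset.prod_pair (by omega : (0 : ℕ) ≠ a)]
      simp [Fin.prod_univ_two]
    simp only [e2]
    exact torus_pair a ha
  rw [e3]
  refine h3.congr ?_
  intro N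
  have e4 : ∀ n ∈ Icc 1 N, ∏ j : Fin 2, f ((n : ℤ) + ![0, (a : ℤ)] j) = g (2 * n) := by
    intro n hn
    have hn1 := (mem_Icc.1 hn).1
    simp only [Fin.prod_univ_two, Matrix.cons_val_zero, Matrix.cons_val_one, hg]
    have h5 := hd n hn1
    have h6 := hd (n + a) (by omega)
    rw [show 2 * n + 2 * a = 2 * (n + a) by ring, h5, h6, add_zero]
    push_cast
    calc f (n : ℤ) * f ((n : ℤ) + a) = (κ * κ) * (f (n : ℤ) * f ((n : ℤ) + a)) := by
          rw [hκ, one_mul]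
      _ = _ := by ring
  rw [Finset.sum_congr rfl e4]
  have h7 := Y3_split g N
  rw [← Finset.mul_sum] at h7
  simp only [Function.comp, id, smul_eq_mul, Nat.cast_mul, Nat.cast_ofNat]
  rcases Nat.eq_zero_or_pos N with rfl | hN
  · simp
  · have hN' : (0 : ℝ) < N := by exact_mod_cast hN
    have e5 : ∑ n ∈ Icc 1 N, g (2 * n) = (∑ m ∈ Icc 1 (2 * N), g m +
        ∑ m ∈ Icc 1 (2 * N), (-1 : ℝ) ^ m * g m) / 2 := by linarith
    rw [e5]
    field_simp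
    congr 1
    refine Finset.sum_congr rfl fun x _ => ?_
    simp only [hg]
    ring

end Pool.Agent.Lib.MP_f6c41f_nt
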