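import Pool.Agent.Lib.MP_f6c41f_nt.X4
import Pool.Agent.Lib.MP_f6c41f_nt.Y3

/-!
# MP_f6c41f_nt, module X7: assembly for general sequences of signs
-/

set_option autoImplicit false

namespace Pool.Agent.Lib.MP_f6c41f_nt

open Finset Filter Topology

/-- The local second order energy of `f`: the average over `1 ≤ a ≤ A` and `0 ≤ n < N` of the squares
`((1/B) ∑_{b < B} f (n + b) f (n + b + a))²`. -/
noncomputable def localU2 (f : ℕ → ℝ) (A B N : ℕ) : ℝ := (∑ a ∈ Icc 1 A, energy f a B N) / A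

/-- The local energy is asymptotically at least `1/3`: its lower limit in `N`, then lower limit in
`B`, then upper limit in `A` is at least `1/3`. -/
def EnergyThird (f : ℕ → ℝ) : Prop :=
  ∀ δ > (0 : ℝ), ∃ᶠ A : ℕ in atTop, ∃ B₀ : ℕ, ∀ B ≥ B₀, ∀ᶠ N in atTop,
    1 / 3 - δ ≤ localU2 f A B N

theorem X7_pairs {f : ℤ → ℝ} (hf : ∀ n, f n = 1 ∨ f n = -1)
    (h2 : ∀ a : ℕ, 0 < a → IdentityOf f ![0, (a : ℤ)]) (a : ℕ) (ha : 0 < a) :
    Tendsto (mean fun n => f ((n : ℕ) : ℤ) * f ((n + a : ℕ) : ℤ)) atTop (𝓝 0) :=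
  (pair_of_identityOf hf a ha).1 (h2 a ha)

/-- pairs and extremal energy determine everything -/
theorem X7_key {f : ℤ → ℝ} (hf : ∀ n, f n = 1 ∨ f n = -1)
    (h2 : ∀ a : ℕ, 0 < a → IdentityOf f ![0, (a : ℤ)])
    (h4 : EnergyThird fun n : ℕ => f (n : ℤ)) (l : ℕ) (h : Fin l → ℤ) : IdentityOf f h := by
  obtain ⟨m, hm⟩ : ∃ m : ℤ, ∀ j, m ≤ h j := by
    obtain ⟨m, hm⟩ := (Set.finite_range h).bddBelow
    exact ⟨m, fun j => hm ⟨j, rfl⟩⟩
  rw [identityOf_iff hf h m hm]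
  refine main_finset_avg (fun n : ℕ => f (n : ℤ)) (fun n => hf n) (X7_pairs hf h2) ?_ _
  intro δ hδ
  refine ((h4 δ hδ).and_eventually (eventually_gt_atTop 0)).mono fun A hA => ?_
  obtain ⟨⟨B₀, hB₀⟩, hA0⟩ := hA
  refine ⟨B₀, fun B hB => ?_⟩
  filter_upwards [hB₀ B hB] with N hN
  unfold localU2 at hN
  have hA' : (0 : ℝ) < A := by exact_mod_cast hA0
  rwa [le_div_iff₀ hA'] at hN

/-- parallelograms give extremal energy -/
theorem X7_energy {f : ℤ → ℝ} (hf : ∀ n, f n = 1 ∨ f n = -1)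
    (h4 : ∀ a d : ℕ, 0 < a → 0 < d → IdentityOf f ![0, (a : ℤ), d, a + d]) :
    EnergyThird fun n : ℕ => f (n : ℤ) := by
  intro δ hδ
  have hev : ∀ᶠ A : ℕ in atTop, ∃ B₀ : ℕ, ∀ B ≥ B₀, ∀ᶠ N in atTop,
      1 / 3 - δ ≤ localU2 (fun n : ℕ => f (n : ℤ)) A B N := by
    filter_upwards [eventually_gt_atTop 0] with A hA
    refine ⟨1, fun B hB => ?_⟩
    have h : ∀ᶠ N in atTop, ∀ a ∈ Icc 1 A,
        1 / 3 - δ ≤ energy (fun n : ℕ => f (n : ℤ)) a B N := by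
      refine (eventually_all_finset _).2 fun a ha => ?_
      exact energy_of_parallelogramsOf hf h4 a (mem_Icc.1 ha).1 δ hδ B hB
    filter_upwards [h] with N hN
    unfold localU2
    have hA' : (0 : ℝ) < A := by exact_mod_cast hA
    rw [le_div_iff₀ hA']
    have h3 := Finset.sum_le_sum hN
    rw [Finset.sum_const, Nat.card_Icc, nsmul_eq_mul] at h3
    have e : ((A + 1 - 1 : ℕ) : ℝ) = A := by simp
    rw [e] at h3
    linarith
  exact hev.frequently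

/-- even lags are degenerate parallelograms -/
theorem X7_even {f : ℤ → ℝ} (hf : ∀ n, f n = 1 ∨ f n = -1)
    (hodd : ∀ a : ℕ, Odd a → IdentityOf f ![0, (a : ℤ)])
    (h4 : ∀ a d : ℕ, 0 < a → 0 < d → IdentityOf f ![0, (a : ℤ), d, a + d]) (a : ℕ) (ha : 0 < a) :
    IdentityOf f ![0, (a : ℤ)] := by
  rcases Nat.even_or_odd a with he | ho
  · obtain ⟨k, hk⟩ := he
    have hk2 : a = 2 * k := by omega
    rw [pair_of_identityOf hf a ha]
    have h := Y3_even hf h4 k (by omega)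
    rw [← hk2] at h
    exact T4_mean_of_Icc (fun n : ℕ => f ((n : ℕ) : ℤ) * f ((n + a : ℕ) : ℤ)) (by
      intro n
      rw [abs_mul, X6_fabs hf, X6_fabs hf, one_mul]) 0 h
  · exact hodd a ho

/-- the general theorem, two- and four-point form -/
theorem X7_four {f : ℤ → ℝ} (hf : ∀ n, f n = 1 ∨ f n = -1) :
    (∀ (l : ℕ) (h : Fin l → ℤ), IdentityOf f h) ↔
      (∀ a : ℕ, Odd a → IdentityOf f ![0, (a : ℤ)]) ∧
        ∀ a b : ℕ, 0 < a → 0 < b → IdentityOf f ![0, (a : ℤ), b, a + b] := by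
  constructor
  · intro h
    exact ⟨fun a _ => h 2 _, fun a b _ _ => h 4 _⟩
  · rintro ⟨h2, h4⟩ l h
    exact X7_key hf (X7_even hf h2 h4) (X7_energy hf h4) l h

/-- the general theorem, energy form -/
theorem X7_rigid {f : ℤ → ℝ} (hf : ∀ n, f n = 1 ∨ f n = -1)
    (h2 : ∀ a : ℕ, 0 < a → IdentityOf f ![0, (a : ℤ)]) :
    (∀ (l : ℕ) (h : Fin l → ℤ), IdentityOf f h) ↔ EnergyThird fun n : ℕ => f (n : ℤ) := by
  constructor
  · intro h
    exact X7_energy hf fun a d _ _ => h 4 _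
  · intro h4 l h
    exact X7_key hf h2 h4 l h

/-- the sharp bound -/
theorem X7_bound {f : ℤ → ℝ} (hf : ∀ n, f n = 1 ∨ f n = -1)
    (h2 : ∀ a : ℕ, 0 < a → IdentityOf f ![0, (a : ℤ)]) (a : ℕ) (ha : 0 < a) (δ : ℝ) (hδ : 0 < δ) :
    ∃ B₀ : ℕ, ∀ B ≥ B₀, ∀ᶠ N in atTop, energy (fun n : ℕ => f (n : ℤ)) a B N ≤ 1 / 3 + δ :=
  energy_le (fun n : ℕ => f (n : ℤ)) (fun n => hf n) (X7_pairs hf h2) a ha δ hδ

theorem lam_two (n : ℕ) (hn : 0 < n) : lam ((2 * n : ℕ) : ℤ) = (-1) * lam (n : ℤ) := by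
  unfold lam
  rw [Int.natAbs_natCast, Int.natAbs_natCast,
    ArithmeticFunction.cardFactors_mul (by norm_num) (by omega),
    ArithmeticFunction.cardFactors_apply_prime Nat.prime_two, pow_add, pow_one]

/-- for the Liouville function the parallelogram identities suffice -/
theorem X7_lam : (∀ (l : ℕ) (h : Fin l → ℤ), Identity h) ↔
    ∀ a b : ℕ, 0 < a → 0 < b → Identity ![0, (a : ℤ), b, a + b] := by
  constructor
  · intro h a b _ _
    exact h 4 _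
  · intro h4 l h
    have h4' : ∀ a d : ℕ, 0 < a → 0 < d → IdentityOf lam ![0, (a : ℤ), d, a + d] := h4
    have h2 : ∀ a : ℕ, 0 < a → IdentityOf lam ![0, (a : ℤ)] := fun a ha =>
      pair_of_parallelograms lam_pm (-1) (by norm_num) lam_two h4' a ha
    exact X7_key lam_pm h2 (X7_energy lam_pm h4') l h

end Pool.Agent.Lib.MP_f6c41f_nt
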