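import Pool.Agent.Lib.MP_f6c41f_nt.T3
import Pool.Agent.Lib.MP_f6c41f_nt.X5

/-!
# MP_f6c41f_nt, module Y1: the energy of the torus model tends to one third
-/

set_option autoImplicit false

namespace Pool.Agent.Lib.MP_f6c41f_nt

open Finset Filter Topology MeasureTheory

/-- the local correlation of the model sequence `n ↦ phi (t + n s)` in the window `[0, B)` -/
noncomputable def mG (a B : ℕ) (t s : ℝ) : ℝ := lcor (fun n => phi (t + (n : ℝ) * s)) a B 0

theorem mG_eq (a B : ℕ) (t s : ℝ) : mG a B t s =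
    (∑ b ∈ range B, phi (t + (b : ℝ) * s) * phi (t + ((b + a : ℕ) : ℝ) * s)) / B := by
  unfold mG lcor
  simp only [zero_add]

theorem mG_abs (a B : ℕ) (t s : ℝ) : |mG a B t s| ≤ 1 :=
  lcor_abs _ (fun _ => C7_phi_cases _) a B 0

theorem mG_meas (a B : ℕ) : Measurable fun p : ℝ × ℝ => mG a B p.1 p.2 := by
  simp only [mG_eq]
  apply Measurable.div_const
  apply Finset.measurable_sum
  intro b _
  exact (measurable_phi.comp (by fun_prop)).mul (measurable_phi.comp (by fun_prop))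

theorem mG_sq_abs (a B : ℕ) (t s : ℝ) : |mG a B t s ^ 2| ≤ 1 := by
  rw [abs_pow]
  exact pow_le_one₀ (abs_nonneg _) (mG_abs a B t s)

theorem mG_per (a B : ℕ) (t s : ℝ) : mG a B (t + 1) s = mG a B t s := by
  simp only [mG_eq]
  congr 1
  refine Finset.sum_congr rfl fun b _ => ?_
  rw [show t + 1 + (b : ℝ) * s = t + (b : ℝ) * s + 1 by ring, phi_periodic,
    show t + 1 + ((b + a : ℕ) : ℝ) * s = t + ((b + a : ℕ) : ℝ) * s + 1 by ring, phi_periodic]

/-- the mean square in `t` -/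
noncomputable def mJ (a B : ℕ) (s : ℝ) : ℝ := ∫ t in (0:ℝ)..1, (mG a B t s) ^ 2

/-- the mean square in `t` and `s` -/
noncomputable def mE (a B : ℕ) : ℝ := ∫ s in (0:ℝ)..1, mJ a B s

theorem mG_sec (a B : ℕ) (s : ℝ) : Measurable fun t => mG a B t s :=
  (mG_meas a B).comp (measurable_id.prodMk measurable_const)

theorem mG_int (a B : ℕ) (s x y : ℝ) : IntervalIntegrable (fun t => mG a B t s) volume x y :=
  C7_int _ (mG_sec a B s) 1 (fun t => mG_abs a B t s) x y

theorem mG_int2 (a B : ℕ) (s x y : ℝ) :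
    IntervalIntegrable (fun t => (mG a B t s) ^ 2) volume x y :=
  C7_int _ ((mG_sec a B s).pow_const 2) 1 (fun t => mG_sq_abs a B t s) x y

theorem mJ_meas (a B : ℕ) : Measurable (mJ a B) := by
  have h2 : StronglyMeasurable (Function.uncurry fun s t => (mG a B t s) ^ 2) :=
    (((mG_meas a B).comp measurable_swap).pow_const 2).stronglyMeasurable
  have h1 : StronglyMeasurable fun s : ℝ => ∫ t in Set.Ioc (0:ℝ) 1, (mG a B t s) ^ 2 :=
    h2.integral_prod_right
  have e : mJ a B = fun s => ∫ t in Set.Ioc (0:ℝ) 1, (mG a B t s) ^ 2 := by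
    funext s
    unfold mJ
    rw [intervalIntegral.integral_of_le (show (0:ℝ) ≤ 1 by norm_num)]
  rw [e]
  exact h1.measurable

theorem mJ_abs (a B : ℕ) (s : ℝ) : |mJ a B s| ≤ 1 := by
  have := intervalIntegral.norm_integral_le_of_norm_le_const (a := 0) (b := 1)
    (f := fun t => mG a B t s ^ 2) (C := 1) (fun t _ => by
      rw [Real.norm_eq_abs]; exact mG_sq_abs a B t s)
  unfold mJ
  simpa using this

theorem mJ_int (a B : ℕ) (x y : ℝ) : IntervalIntegrable (mJ a B) volume x y :=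
  C7_int _ (mJ_meas a B) 1 (mJ_abs a B) x y

theorem mJ_per (a B : ℕ) (s : ℝ) : mJ a B (s + 1) = mJ a B s := by
  unfold mJ
  congr 1
  funext t
  congr 1
  simp only [mG_eq]
  congr 1
  refine Finset.sum_congr rfl fun b _ => ?_
  rw [show t + (b : ℝ) * (s + 1) = t + (b : ℝ) * s + b by ring, C7_phi_nat,
    show t + ((b + a : ℕ) : ℝ) * (s + 1) = t + ((b + a : ℕ) : ℝ) * s + ((b + a : ℕ) : ℝ) by ring,
    C7_phi_nat]

theorem mG_mean (a B : ℕ) (hB : 0 < B) (s : ℝ) :
    ∫ t in (0:ℝ)..1, mG a B t s = 1 - 4 * nrm (a * s) := by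
  have hB' : (0 : ℝ) < B := by exact_mod_cast hB
  simp only [mG_eq]
  rw [intervalIntegral.integral_div, intervalIntegral.integral_finsetSum]
  · simp_rw [T3_trans]
    simp
    field_simp
  · intro b _
    refine C7_int _ ((measurable_phi.comp (by fun_prop)).mul
          (measurable_phi.comp (by fun_prop))) 1 (fun t => ?_) 0 1
    change |phi _ * phi _| ≤ 1
    rw [abs_mul, phi_abs, phi_abs, one_mul]

theorem mJ_step (a B : ℕ) (hB : 0 < B) (hBa : 2 * a ≤ B) (s : ℝ) :
    4 * mJ a B s ≤ 1 + 2 * (1 - 4 * nrm ((2 * a : ℕ) * s)) + mJ (2 * a) B s + 10 * a / B := by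
  have hB' : (0 : ℝ) < B := by exact_mod_cast hB
  have hd : (2 * a / B : ℝ) ≤ 1 := by
    rw [div_le_one hB']
    exact_mod_cast hBa
  have hd0 : (0 : ℝ) ≤ 2 * a / B := by positivity
  have hpt : ∀ t, 4 * (mG a B t s) ^ 2 ≤
      1 + 2 * mG (2 * a) B t s + (mG (2 * a) B t s) ^ 2 + 10 * a / B := by
    intro t
    have h1 : 2 * |mG a B t s| ≤ 1 + mG (2 * a) B t s + 2 * a / B :=
      X5_double (fun n => phi (t + (n : ℝ) * s)) (fun n => C7_phi_cases _) a B 0 hB
    have h2 := abs_le.1 (mG_abs (2 * a) B t s)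
    have h3 := abs_nonneg (mG a B t s)
    have h4 : 4 * (mG a B t s) ^ 2 = (2 * |mG a B t s|) ^ 2 := by
      rw [mul_pow, sq_abs]; ring
    rw [h4]
    have h5 : (2 * |mG a B t s|) ^ 2 ≤ (1 + mG (2 * a) B t s + 2 * a / B) ^ 2 :=
      pow_le_pow_left₀ (by positivity) h1 2
    set x := mG (2 * a) B t s
    set d : ℝ := 2 * a / B with hdd
    have e : (10 * a / B : ℝ) = 5 * d := by rw [hdd]; ring
    rw [e]
    nlinarith
  have i1 := mG_int (2 * a) B s 0 1
  have i2 := mG_int2 (2 * a) B s 0 1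
  have i3 := mG_int2 a B s 0 1
  have i4 : IntervalIntegrable (fun t => 1 + 2 * mG (2 * a) B t s) volume 0 1 :=
    (intervalIntegrable_const).add (i1.const_mul 2)
  have i5 : IntervalIntegrable (fun t => 1 + 2 * mG (2 * a) B t s + (mG (2 * a) B t s) ^ 2)
      volume 0 1 := i4.add i2
  have h := intervalIntegral.integral_mono_on (a := 0) (b := 1) (by norm_num) (i3.const_mul 4)
    (i5.add (intervalIntegrable_const (c := (10 * a / B : ℝ)))) (fun t _ => hpt t)
  rw [intervalIntegral.integral_const_mul] at h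
  have e1 : ∫ t in (0:ℝ)..1, (1 + 2 * mG (2 * a) B t s + (mG (2 * a) B t s) ^ 2 + 10 * a / B) =
      1 + 2 * (1 - 4 * nrm ((2 * a : ℕ) * s)) + mJ (2 * a) B s + 10 * a / B := by
    rw [intervalIntegral.integral_add i5 (intervalIntegrable_const),
      intervalIntegral.integral_add i4 i2,
      intervalIntegral.integral_add intervalIntegrable_const (i1.const_mul 2),
      intervalIntegral.integral_const_mul, mG_mean (2 * a) B hB s]
    simp [mJ]
  have e2 : ∫ t in (0:ℝ)..1, (mG a B t s) ^ 2 = mJ a B s := rfl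
  rw [e2] at h
  rw [← e1]
  exact h

theorem mE_step (a B : ℕ) (ha : 0 < a) (hB : 0 < B) (hBa : 2 * a ≤ B) :
    4 * mE a B ≤ 1 + mE (2 * a) B + 10 * a / B := by
  have hcont : Continuous fun s : ℝ => nrm ((2 * a : ℕ) * s) :=
    T3_nrm_cont.comp (continuous_const.mul continuous_id)
  have hn : IntervalIntegrable (fun s : ℝ => 2 * (1 - 4 * nrm ((2 * a : ℕ) * s))) volume 0 1 :=
    (continuous_const.mul (continuous_const.sub (continuous_const.mul hcont))).intervalIntegrable _ _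
  have i2 := mJ_int (2 * a) B 0 1
  have i4 : IntervalIntegrable (fun s : ℝ => 1 + 2 * (1 - 4 * nrm ((2 * a : ℕ) * s))) volume 0 1 :=
    intervalIntegrable_const.add hn
  have i5 : IntervalIntegrable (fun s : ℝ => 1 + 2 * (1 - 4 * nrm ((2 * a : ℕ) * s)) +
      mJ (2 * a) B s) volume 0 1 := i4.add i2
  have h := intervalIntegral.integral_mono_on (a := 0) (b := 1) (by norm_num)
    ((mJ_int a B 0 1).const_mul 4)
    (i5.add (intervalIntegrable_const (c := (10 * a / B : ℝ)))) (fun s _ => mJ_step a B hB hBa s)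
  rw [intervalIntegral.integral_const_mul] at h
  have e0 : ∫ s in (0:ℝ)..1, (1 - 4 * nrm ((2 * a : ℕ) * s)) = 0 := by
    have hc : Continuous fun s => (1 - 4 * nrm s) := by
      have := T3_nrm_cont
      fun_prop
    rw [T3_sub (fun s => 1 - 4 * nrm s) hc (fun x => by simp only [T3_nrm_per]) (2 * a) (by omega),
      T3_int1]
  have e1 : ∫ s in (0:ℝ)..1, (1 + 2 * (1 - 4 * nrm ((2 * a : ℕ) * s)) + mJ (2 * a) B s +
      10 * a / B) = 1 + mE (2 * a) B + 10 * a / B := by
    rw [intervalIntegral.integral_add i5 intervalIntegrable_const,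
      intervalIntegral.integral_add i4 i2,
      intervalIntegral.integral_add intervalIntegrable_const hn,
      intervalIntegral.integral_const_mul, e0]
    simp [mE]
  have e2 : ∫ s in (0:ℝ)..1, mJ a B s = mE a B := rfl
  rw [e2] at h
  rw [← e1]
  exact h

theorem mE_le_one (a B : ℕ) : mE a B ≤ 1 := by
  have := intervalIntegral.norm_integral_le_of_norm_le_const (a := 0) (b := 1)
    (f := mJ a B) (C := 1) (fun t _ => by rw [Real.norm_eq_abs]; exact mJ_abs a B t)
  have h2 : |mE a B| ≤ 1 := by simpa [mE] using this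
  exact (abs_le.1 h2).2

theorem mE_swap (a B : ℕ) : ∫ t in (0:ℝ)..1, ∫ s in (0:ℝ)..1, (mG a B t s) ^ 2 = mE a B := by
  unfold mE mJ
  simp_rw [intervalIntegral.integral_of_le (show (0:ℝ) ≤ 1 by norm_num)]
  apply integral_integral_swap
  apply Integrable.of_bound (C := 1)
  · exact ((mG_meas a B).pow_const 2).aestronglyMeasurable
  · refine ae_of_all _ fun p => ?_
    change ‖mG a B p.1 p.2 ^ 2‖ ≤ 1
    rw [Real.norm_eq_abs]
    exact mG_sq_abs a B p.1 p.2

theorem mE_ge (a B : ℕ) (ha : 0 < a) (hB : 0 < B) : 1 / 3 ≤ mE a B := by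
  have h := second_moment a B ha hB
  rw [← mE_swap]
  simp only [mG_eq]
  exact h

theorem mE_le (a : ℕ) (ha : 0 < a) (δ : ℝ) (hδ : 0 < δ) :
    ∃ B₀ : ℕ, ∀ B ≥ B₀, mE a B ≤ 1 / 3 + δ := by
  have key : ∀ j : ℕ, ∀ a : ℕ, 0 < a → ∀ δ : ℝ, 0 < δ → ∃ B₀ : ℕ, ∀ B ≥ B₀,
      mE a B ≤ 1 / 3 + 1 / 4 ^ j + δ := by
    intro j
    induction j with
    | zero =>
      intro a _ δ hδ
      refine ⟨0, fun B _ => ?_⟩
      have := mE_le_one a B
      simp only [pow_zero, div_one]
      linarith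
    | succ j ih =>
      intro a ha δ hδ
      obtain ⟨B₀, hB₀⟩ := ih (2 * a) (by omega) δ hδ
      obtain ⟨B₁, hB₁⟩ := exists_nat_gt (10 * a / δ : ℝ)
      refine ⟨max (max B₀ B₁) (2 * a + 1), fun B hB => ?_⟩
      have hb0 : B₀ ≤ B := le_trans (le_trans (le_max_left _ _) (le_max_left _ _)) hB
      have hb1 : B₁ ≤ B := le_trans (le_trans (le_max_right _ _) (le_max_left _ _)) hB
      have hb2 : 2 * a + 1 ≤ B := le_trans (le_max_right _ _) hB
      have hBpos : 0 < B := by omega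
      have hB' : (0 : ℝ) < B := by exact_mod_cast hBpos
      have hsm : (10 * a / B : ℝ) ≤ δ := by
        rw [div_le_iff₀ hB']
        rw [div_lt_iff₀ hδ] at hB₁
        have : (B₁ : ℝ) ≤ B := by exact_mod_cast hb1
        nlinarith
      have h := mE_step a B ha hBpos (by omega)
      have h3 := hB₀ B hb0
      have e : (1 : ℝ) / 4 ^ (j + 1) = (1 / 4 ^ j) / 4 := by
        rw [pow_succ]; field_simp
      rw [e]
      linarith
  obtain ⟨j, hj⟩ : ∃ j : ℕ, (1 : ℝ) / 4 ^ j ≤ δ / 2 := by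
    obtain ⟨j, hj⟩ := pow_unbounded_of_one_lt (2 / δ) (by norm_num : (1 : ℝ) < 4)
    refine ⟨j, ?_⟩
    rw [div_lt_iff₀ hδ] at hj
    rw [div_le_iff₀ (by positivity)]
    linarith
  obtain ⟨B₀, hB₀⟩ := key j a ha (δ / 2) (by positivity)
  refine ⟨B₀, fun B hB => ?_⟩
  have := hB₀ B hB
  linarith

end Pool.Agent.Lib.MP_f6c41f_nt
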