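import Pool.Agent.Lib.MP_f6c41f_nt.Y1
import Pool.Agent.Lib.MP_f6c41f_nt.X6

/-!
# MP_f6c41f_nt, module Y2: the twisted energy of the torus model tends to zero

For even lags the mean square of the local correlations twisted by `(-1)^b` is the difference of two
energies, both of which tend to `1/3`.
-/

set_option autoImplicit false

namespace Pool.Agent.Lib.MP_f6c41f_nt

open Finset Filter Topology MeasureTheory

theorem Y2_sum (F : ℕ → ℝ) (M : ℕ) :
    ∑ b ∈ range (2 * M), F b = ∑ m ∈ range M, (F (2 * m) + F (2 * m + 1)) := by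
  induction M with
  | zero => simp
  | succ M ih =>
    rw [show 2 * (M + 1) = 2 * M + 1 + 1 by ring, Finset.sum_range_succ, Finset.sum_range_succ, ih,
      Finset.sum_range_succ]
    ring

/-- the twisted local correlation of the model -/
noncomputable def mD (a M : ℕ) (t s : ℝ) : ℝ :=
  (∑ b ∈ range (2 * M), (-1 : ℝ) ^ b * T4y (2 * a) b t s) / ((2 * M : ℕ) : ℝ)

theorem Y2_even (a m : ℕ) (t s : ℝ) : T4y (2 * a) (2 * m) t s =
    phi (t + (m : ℝ) * (2 * s)) * phi (t + ((m + a : ℕ) : ℝ) * (2 * s)) := by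
  unfold T4y
  push_cast
  congr 2 <;> ring

theorem Y2_odd (a m : ℕ) (t s : ℝ) : T4y (2 * a) (2 * m + 1) t s =
    phi (t + s + (m : ℝ) * (2 * s)) * phi (t + s + ((m + a : ℕ) : ℝ) * (2 * s)) := by
  unfold T4y
  push_cast
  congr 2 <;> ring

theorem Y2_point (a M : ℕ) (hM : 0 < M) (t s : ℝ) :
    (mD a M t s) ^ 2 = ((mG a M t (2 * s)) ^ 2 + (mG a M (t + s) (2 * s)) ^ 2) / 2 -
      (mG (2 * a) (2 * M) t s) ^ 2 := by
  have hM' : (0 : ℝ) < M := by exact_mod_cast hM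
  set E := ∑ m ∈ range M, phi (t + (m : ℝ) * (2 * s)) * phi (t + ((m + a : ℕ) : ℝ) * (2 * s))
    with hE
  set O := ∑ m ∈ range M, phi (t + s + (m : ℝ) * (2 * s)) *
    phi (t + s + ((m + a : ℕ) : ℝ) * (2 * s)) with hO
  have hc : ((2 * M : ℕ) : ℝ) = 2 * (M : ℝ) := by push_cast; ring
  have h1 : mD a M t s = (E - O) / (2 * M) := by
    unfold mD
    rw [Y2_sum]
    have : ∀ m ∈ range M, ((-1 : ℝ) ^ (2 * m) * T4y (2 * a) (2 * m) t s +
        (-1 : ℝ) ^ (2 * m + 1) * T4y (2 * a) (2 * m + 1) t s) =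
        phi (t + (m : ℝ) * (2 * s)) * phi (t + ((m + a : ℕ) : ℝ) * (2 * s)) -
        phi (t + s + (m : ℝ) * (2 * s)) * phi (t + s + ((m + a : ℕ) : ℝ) * (2 * s)) := by
      intro m _
      rw [Y2_even, Y2_odd, pow_succ, pow_mul]
      norm_num
      ring
    rw [Finset.sum_congr rfl this, Finset.sum_sub_distrib, ← hE, ← hO, hc]
  have h2 : mG (2 * a) (2 * M) t s = (E + O) / (2 * M) := by
    rw [mG_eq]
    have h3 : ∑ b ∈ range (2 * M), phi (t + (b : ℝ) * s) * phi (t + ((b + 2 * a : ℕ) : ℝ) * s) =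
        ∑ b ∈ range (2 * M), T4y (2 * a) b t s := rfl
    rw [h3, Y2_sum]
    have : ∀ m ∈ range M, (T4y (2 * a) (2 * m) t s + T4y (2 * a) (2 * m + 1) t s) =
        phi (t + (m : ℝ) * (2 * s)) * phi (t + ((m + a : ℕ) : ℝ) * (2 * s)) +
        phi (t + s + (m : ℝ) * (2 * s)) * phi (t + s + ((m + a : ℕ) : ℝ) * (2 * s)) := by
      intro m _
      rw [Y2_even, Y2_odd]
    rw [Finset.sum_congr rfl this, Finset.sum_add_distrib, ← hE, ← hO, hc]
  have h3 : mG a M t (2 * s) = E / M := by rw [mG_eq]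
  have h4 : mG a M (t + s) (2 * s) = O / M := by rw [mG_eq]
  rw [h1, h2, h3, h4]
  field_simp
  ring

theorem Y2_sub (f : ℝ → ℝ) (hf : Measurable f) (hb : ∀ x, |f x| ≤ 1) (hp : ∀ x, f (x + 1) = f x) :
    ∫ s in (0:ℝ)..1, f (2 * s) = ∫ s in (0:ℝ)..1, f s := by
  have hper : Function.Periodic f 1 := hp
  rw [intervalIntegral.integral_comp_mul_left f (by norm_num : (2 : ℝ) ≠ 0)]
  have hi : ∀ x y, IntervalIntegrable f volume x y := fun x y => C7_int f hf 1 hb x y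
  have h1 : ∫ x in (2 : ℝ) * 0..2 * 1, f x = 2 * ∫ x in (0:ℝ)..1, f x := by
    have := hper.intervalIntegral_add_zsmul_eq 2 0 (fun t₁ t₂ => hi _ _)
    simpa using this
  rw [h1]
  simp

theorem mD_meas (a M : ℕ) : Measurable fun p : ℝ × ℝ => mD a M p.1 p.2 := by
  unfold mD
  apply Measurable.div_const
  apply Finset.measurable_sum
  intro b _
  exact (T4_ymeas (2 * a) b).const_mul _

theorem mD_abs (a M : ℕ) (t s : ℝ) : |mD a M t s| ≤ 1 := by
  unfold mD
  rcases Nat.eq_zero_or_pos M with rfl | hM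
  · simp
  · have hM' : (0 : ℝ) < ((2 * M : ℕ) : ℝ) := by
      exact_mod_cast (by omega : 0 < 2 * M)
    rw [abs_div, abs_of_pos hM', div_le_one hM']
    refine (Finset.abs_sum_le_sum_abs _ _).trans ?_
    have : ∀ b ∈ range (2 * M), |(-1 : ℝ) ^ b * T4y (2 * a) b t s| = 1 := by
      intro b _
      rw [abs_mul, T4_yabs, abs_pow]
      simp
    rw [Finset.sum_congr rfl this]
    simp

theorem Y2_twist (a M : ℕ) (hM : 0 < M) :
    ∫ t in (0:ℝ)..1, ∫ s in (0:ℝ)..1, (mD a M t s) ^ 2 = mE a M - mE (2 * a) (2 * M) := by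
  have hb2 : ∀ t s, |mD a M t s ^ 2| ≤ 1 := by
    intro t s
    rw [abs_pow]
    exact pow_le_one₀ (abs_nonneg _) (mD_abs a M t s)
  have swap : ∫ t in (0:ℝ)..1, ∫ s in (0:ℝ)..1, (mD a M t s) ^ 2 =
      ∫ s in (0:ℝ)..1, ∫ t in (0:ℝ)..1, (mD a M t s) ^ 2 := by
    simp_rw [intervalIntegral.integral_of_le (show (0:ℝ) ≤ 1 by norm_num)]
    apply integral_integral_swap
    apply Integrable.of_bound (C := 1)
    · exact ((mD_meas a M).pow_const 2).aestronglyMeasurable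
    · refine ae_of_all _ fun p => ?_
      change ‖mD a M p.1 p.2 ^ 2‖ ≤ 1
      rw [Real.norm_eq_abs]
      exact hb2 p.1 p.2
  rw [swap]
  have hinner : ∀ s, ∫ t in (0:ℝ)..1, (mD a M t s) ^ 2 = mJ a M (2 * s) - mJ (2 * a) (2 * M) s := by
    intro s
    simp_rw [Y2_point a M hM _ s]
    have i1 := mG_int2 a M (2 * s) 0 1
    have i2 : IntervalIntegrable (fun t => (mG a M (t + s) (2 * s)) ^ 2) volume 0 1 := by
      refine C7_int _ (((mG_sec a M (2 * s)).comp (measurable_id.add_const s)).pow_const 2) 1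
        (fun t => mG_sq_abs a M (t + s) (2 * s)) 0 1
    have i3 := mG_int2 (2 * a) (2 * M) s 0 1
    rw [intervalIntegral.integral_sub ((i1.add i2).div_const 2) i3, intervalIntegral.integral_div,
      intervalIntegral.integral_add i1 i2]
    have e : ∫ t in (0:ℝ)..1, (mG a M (t + s) (2 * s)) ^ 2 = mJ a M (2 * s) :=
      C7_per_shift (fun t => (mG a M t (2 * s)) ^ 2) (fun t => by
        rw [mG_per]) s
    rw [e]
    unfold mJ
    ring
  simp_rw [hinner]
  have hj2 : IntervalIntegrable (fun s => mJ a M (2 * s)) volume 0 1 :=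
    C7_int _ ((mJ_meas a M).comp (measurable_const.mul measurable_id)) 1
      (fun s => mJ_abs a M (2 * s)) 0 1
  rw [intervalIntegral.integral_sub hj2 (mJ_int (2 * a) (2 * M) 0 1),
    Y2_sub (mJ a M) (mJ_meas a M) (mJ_abs a M) (mJ_per a M)]
  rfl

/-- the twisted energy is as small as we like -/
theorem Y2_small (a : ℕ) (ha : 0 < a) (δ : ℝ) (hδ : 0 < δ) : ∃ M : ℕ, 0 < M ∧
    ∫ t in (0:ℝ)..1, ∫ s in (0:ℝ)..1, (mD a M t s) ^ 2 ≤ δ := by
  obtain ⟨B₀, hB₀⟩ := mE_le a ha δ hδ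
  refine ⟨B₀ + 1, by omega, ?_⟩
  rw [Y2_twist a (B₀ + 1) (by omega)]
  have h1 := hB₀ (B₀ + 1) (by omega)
  have h2 := mE_ge (2 * a) (2 * (B₀ + 1)) (by omega) (by omega)
  linarith

end Pool.Agent.Lib.MP_f6c41f_nt
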